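import Mathlib
import Pool.Agent.H713R3.ZA.Defs

/-!
Statements of project RB (MP_8f2e1c_an, Fatou's conjecture): a rational map whose non-attracted set
has zero area is a limit of hyperbolic rational maps. The written proofs are in the table
h713r_tasks.
-/

set_option autoImplicit false

open Topology Filter Metric Set Polynomial MeasureTheory

namespace Pool.Agent.H713R4.RB

/-! ### Rational maps in homogeneous coordinates -/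

/-- coefficients of the numerator and of the denominator -/
abbrev WW (d : ℕ) : Type := Fin (d + 1) ⊕ Fin (d + 1) → ℂ

noncomputable def PP (d : ℕ) (x : WW d) : ℂ[X] := ∑ i : Fin (d + 1), C (x (Sum.inl i)) * X ^ (i : ℕ)

noncomputable def QQ (d : ℕ) (x : WW d) : ℂ[X] := ∑ i : Fin (d + 1), C (x (Sum.inr i)) * X ^ (i : ℕ)

/-- the homogeneous lift of the rational map `PP / QQ` -/
noncomputable def FH (d : ℕ) (x : WW d) (p : ℂ × ℂ) : ℂ × ℂ :=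
  (∑ i : Fin (d + 1), x (Sum.inl i) * (p.1 ^ (i : ℕ) * p.2 ^ (d - (i : ℕ))),
    ∑ i : Fin (d + 1), x (Sum.inr i) * (p.1 ^ (i : ℕ) * p.2 ^ (d - (i : ℕ))))

/-- the point `[p.1 : p.2]` of the projective line is the finite point `w` -/
def Over (p : ℂ × ℂ) (w : ℂ) : Prop := p.2 ≠ 0 ∧ p.1 = w * p.2

/-- numerator and denominator are coprime and one of them has degree `d` -/
def Ndg (d : ℕ) (x : WW d) : Prop := ∀ p : ℂ × ℂ, FH d x p = 0 → p = 0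

/-- the numerator of the derivative -/
noncomputable def wr (d : ℕ) (x : WW d) : ℂ[X] :=
  derivative (PP d x) * QQ d x - PP d x * derivative (QQ d x)

/-- `∞` is a critical point if and only if this vanishes -/
noncomputable def bet (d : ℕ) (x : WW d) : ℂ := (wr d x).coeff (2 * d - 2)

/-- critical points in homogeneous coordinates -/
def Crit (d : ℕ) (x : WW d) (p : ℂ × ℂ) : Prop :=
  (p.2 ≠ 0 ∧ (wr d x).eval (p.1 / p.2) = 0) ∨ (p.2 = 0 ∧ bet d x = 0)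

/-- the derivative of the map at a finite point which is not a pole -/
noncomputable def mu (d : ℕ) (x : WW d) (z : ℂ) : ℂ := (wr d x).eval z / (QQ d x).eval z ^ 2

/-- squared distance -/
noncomputable def Dl (d : ℕ) (x y : WW d) : ℝ := ∑ k, ‖y k - x k‖ ^ 2

/-- the translates `f + s` of the map -/
def tr (d : ℕ) (x : WW d) (s : ℂ) : WW d :=
  Sum.elim (fun i => x (Sum.inl i) + s * x (Sum.inr i)) (fun i => x (Sum.inr i))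

/-! ### Following roots -/

/-- Properness of the equation `f^N(z) = w`, as long as `f^N(∞) ≠ w`. -/
def StPRO : Prop :=
  ∀ (d N : ℕ) (K : Set (WW d × ℂ)), 1 ≤ d → IsCompact K →
    (∀ y ∈ K, ((FH d y.1)^[N] (1, 0)).1 ≠ y.2 * ((FH d y.1)^[N] (1, 0)).2) →
    ∀ M : ℝ, ∃ B : ℝ, ∀ y ∈ K, ∀ z : ℂ,
      ‖((FH d y.1)^[N] (z, 1)).1 - y.2 * ((FH d y.1)^[N] (z, 1)).2‖ ≤ M → ‖z‖ ≤ B

/-- Chain rule: the critical points of `f^N` are the precritical points. -/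
def StWN : Prop :=
  ∀ (d N : ℕ) (x : WW d) (z : ℂ), 1 ≤ d → Ndg d x →
    (deriv (fun ζ : ℂ => ((FH d x)^[N] (ζ, 1)).1) z * ((FH d x)^[N] (z, 1)).2 -
      ((FH d x)^[N] (z, 1)).1 * deriv (fun ζ : ℂ => ((FH d x)^[N] (ζ, 1)).2) z = 0 ↔
    ∃ j < N, Crit d x ((FH d x)^[j] (z, 1)))

/-- the points which are mapped into `U` by the `N`-th iterate -/
def WN (d : ℕ) (x : WW d) (U : Set ℂ) (N : ℕ) : Set ℂ :=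
  {z | ∃ w ∈ U, Over ((FH d x)^[N] (z, 1)) w}

/-- Preimages of finite sets are finite. -/
def StBAD : Prop :=
  ∀ (d N : ℕ) (x : WW d) (B : Set ℂ), 1 ≤ d → Ndg d x → B.Finite → (WN d x B N).Finite

/-- Rigid holomorphic families: a conjugacy `H t` between `f_0` on `U` and `f_t` on `H t '' U`,
such that critical points and `∞` enter `H t '' U` only at points of `H t '' Bd N`. -/
structure RDA (d : ℕ) (γ : ℂ → WW d) (ρ : ℝ) (U : Set ℂ) (H : ℂ → ℂ → ℂ) (Bd : ℕ → Set ℂ) :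
    Prop where
  hρ : 0 < ρ
  γd : DifferentiableOn ℂ γ (ball 0 ρ)
  ndg : ∀ t ∈ ball (0 : ℂ) ρ, Ndg d (γ t)
  Uo : IsOpen U
  Hd : DifferentiableOn ℂ (fun p : ℂ × ℂ => H p.1 p.2) (ball (0 : ℂ) ρ ×ˢ U)
  H0 : ∀ z ∈ U, H 0 z = z
  Hi : ∀ t ∈ ball (0 : ℂ) ρ, InjOn (H t) U
  inv : ∀ z ∈ U, ∃ w ∈ U, Over (FH d (γ 0) (z, 1)) w
  conj : ∀ t ∈ ball (0 : ℂ) ρ, ∀ z ∈ U, ∀ w : ℂ, Over (FH d (γ 0) (z, 1)) w →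
    Over (FH d (γ t) (H t z, 1)) (H t w)
  Bf : ∀ N, (Bd N).Finite
  crit : ∀ t ∈ ball (0 : ℂ) ρ, ∀ p : ℂ × ℂ, p ≠ 0 → Crit d (γ t) p → ∀ N n : ℕ, 1 ≤ n → n ≤ N →
    ∀ w ∈ U, Over ((FH d (γ t))^[n] p) (H t w) → w ∈ Bd N
  inf : ∀ t ∈ ball (0 : ℂ) ρ, ∀ N : ℕ, ∀ w ∈ U, Over ((FH d (γ t))^[N] (1, 0)) (H t w) → w ∈ Bd N

/-- the properties of the motion at level `N` -/
structure MOT (d : ℕ) (γ : ℂ → WW d) (ρ : ℝ) (U : Set ℂ) (H : ℂ → ℂ → ℂ) (Bd : ℕ → Set ℂ) (N : ℕ)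
    (Φ : ℂ → ℂ → ℂ) : Prop where
  diff : DifferentiableOn ℂ (fun p : ℂ × ℂ => Φ p.1 p.2)
    (ball (0 : ℂ) ρ ×ˢ WN d (γ 0) (U \ Bd N) N)
  zero : ∀ z ∈ WN d (γ 0) (U \ Bd N) N, Φ 0 z = z
  eqn : ∀ t ∈ ball (0 : ℂ) ρ, ∀ z ∈ WN d (γ 0) (U \ Bd N) N, ∀ w : ℂ,
    Over ((FH d (γ 0))^[N] (z, 1)) w → Over ((FH d (γ t))^[N] (Φ t z, 1)) (H t w)
  uniq : ∀ z ∈ WN d (γ 0) (U \ Bd N) N, ∀ Z' : ℂ → ℂ, ContinuousOn Z' (ball (0 : ℂ) ρ) →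
    (∃ t₁ ∈ ball (0 : ℂ) ρ, Z' t₁ = Φ t₁ z) →
    (∀ t ∈ ball (0 : ℂ) ρ, ∀ w : ℂ, Over ((FH d (γ 0))^[N] (z, 1)) w →
      Over ((FH d (γ t))^[N] (Z' t, 1)) (H t w)) →
    ∀ t ∈ ball (0 : ℂ) ρ, Z' t = Φ t z

/-- Existence of the motion. -/
def StMOT : Prop :=
  Pool.Agent.H713R3.ZA.StROOT → StPRO → StWN → StBAD →
  ∀ (d : ℕ) (γ : ℂ → WW d) (ρ : ℝ) (U : Set ℂ) (H : ℂ → ℂ → ℂ) (Bd : ℕ → Set ℂ), 2 ≤ d →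
    RDA d γ ρ U H Bd → ∀ N : ℕ, ∃ Φ : ℂ → ℂ → ℂ, MOT d γ ρ U H Bd N Φ

/-- the motion near infinity -/
structure FARN (d : ℕ) (γ : ℂ → WW d) (ρ : ℝ) (U : Set ℂ) (H : ℂ → ℂ → ℂ) (N : ℕ) (R₆ : ℝ)
    (far : ℂ → ℂ → ℂ) : Prop where
  mem : ∀ z : ℂ, R₆ < ‖z‖ → z ∈ WN d (γ 0) U N
  cont : ∀ z : ℂ, R₆ < ‖z‖ → ContinuousOn (fun t => far t z) (ball (0 : ℂ) ρ)
  zero : ∀ z : ℂ, R₆ < ‖z‖ → far 0 z = z
  hol : ∀ t ∈ ball (0 : ℂ) ρ, DifferentiableOn ℂ (far t) {z | R₆ < ‖z‖}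
  eqn : ∀ t ∈ ball (0 : ℂ) ρ, ∀ z : ℂ, R₆ < ‖z‖ → ∀ w : ℂ,
    Over ((FH d (γ 0))^[N] (z, 1)) w → Over ((FH d (γ t))^[N] (far t z, 1)) (H t w)
  asy : ∀ t ∈ ball (0 : ℂ) ρ, Tendsto (fun z : ℂ => far t z - z) (Bornology.cobounded ℂ) (𝓝 0)

/-- Extension of the motion over the exceptional points, and commutation with the dynamics. -/
def StFULL : Prop :=
  StBAD → ∀ (d : ℕ) (γ : ℂ → WW d) (ρ : ℝ) (U : Set ℂ) (H : ℂ → ℂ → ℂ) (Bd : ℕ → Set ℂ) (N : ℕ)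
    (Φ : ℂ → ℂ → ℂ) (R₆ : ℝ) (far : ℂ → ℂ → ℂ), 2 ≤ d → RDA d γ ρ U H Bd →
    MOT d γ ρ U H Bd N Φ → FARN d γ ρ U H N R₆ far → ∀ t ∈ ball (0 : ℂ) ρ,
    ∃ Ψ : ℂ → ℂ, DifferentiableOn ℂ Ψ (WN d (γ 0) U N) ∧ InjOn Ψ (WN d (γ 0) U N) ∧
      (∀ z ∈ WN d (γ 0) (U \ Bd N) N, Ψ z = Φ t z) ∧
      Tendsto (fun z : ℂ => Ψ z - z) (Bornology.cobounded ℂ) (𝓝 0) ∧
      ∀ z ∈ WN d (γ 0) U N, ∀ z' ∈ WN d (γ 0) U N, Over (FH d (γ 0) (z, 1)) z' →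
        Over (FH d (γ t) (Ψ z, 1)) (Ψ z')

/-! ### Area -/

/-- Gronwall's area theorem. -/
def StAREA : Prop :=
  ∀ (R₄ R₅ : ℝ) (Ψ : ℂ → ℂ), 0 < R₄ → R₄ < R₅ → DifferentiableOn ℂ Ψ {z | R₄ < ‖z‖} →
    InjOn Ψ {z | R₄ < ‖z‖} → Tendsto (fun z : ℂ => Ψ z - z) (Bornology.cobounded ℂ) (𝓝 0) →
    volume (Ψ '' {z | R₅ < ‖z‖})ᶜ ≤ ENNReal.ofReal (Real.pi * R₅ ^ 2)

/-- Mean value inequality for the squared derivative with the remainder term. -/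
def StAVG2 : Prop :=
  ∀ (ρ r : ℝ) (W K : Set ℂ) (D : ℂ → ℂ → ℂ), 0 < r → r < ρ → IsOpen W → K ⊆ W →
    MeasurableSet K → ContinuousOn (fun p : ℂ × ℂ => D p.1 p.2) (ball (0 : ℂ) ρ ×ˢ W) →
    (∀ z ∈ W, DifferentiableOn ℂ (fun t => D t z) (ball (0 : ℂ) ρ)) → (∀ z ∈ W, D 0 z = 1) →
    ENNReal.ofReal (2 * Real.pi) * volume K +
      (∫⁻ θ in Ioc (0 : ℝ) (2 * Real.pi), ∫⁻ z in K,
        ENNReal.ofReal (‖D (circleMap 0 r θ) z - 1‖ ^ 2)) ≤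
      ∫⁻ θ in Ioc (0 : ℝ) (2 * Real.pi), ∫⁻ z in K,
        ENNReal.ofReal (‖D (circleMap 0 r θ) z‖ ^ 2)

/-- the region where the deformation is measured -/
def K1 (R₄ R₅ : ℝ) (v₁ v₂ : ℂ) (r₁ : ℝ) : Set ℂ :=
  {z | R₄ < ‖z‖ ∧ ‖z‖ < R₅} ∪ ball v₁ r₁ ∪ ball v₂ r₁

/-- the inequality of the gain lemma -/
def Gain (d : ℕ) (R₄ R₅ : ℝ) (v₁ v₂ : ℂ) (r₁ c₀ : ℝ) (x y : WW d) : Prop :=
  ∀ (Ω : Set ℂ) (Ψ : ℂ → ℂ), IsOpen Ω → {z | R₄ < ‖z‖} ⊆ Ω → ball v₁ r₁ ⊆ Ω → ball v₂ r₁ ⊆ Ω →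
    DifferentiableOn ℂ Ψ Ω → Tendsto (fun z : ℂ => Ψ z - z) (Bornology.cobounded ℂ) (𝓝 0) →
    (∀ z ∈ Ω, ∀ z' ∈ Ω, Over (FH d x (z, 1)) z' → Over (FH d y (Ψ z, 1)) (Ψ z')) →
    ENNReal.ofReal (c₀ * Dl d x y) ≤
      ∫⁻ z in K1 R₄ R₅ v₁ v₂ r₁, ENNReal.ofReal (‖deriv Ψ z - 1‖ ^ 2)

/-- The deformation controls the distance of the two maps. -/
def StGAIN3 : Prop :=
  ∀ (d : ℕ) (xT : WW d) (v₁ v₂ : ℂ) (R₄ R₅ r₁ : ℝ), 2 ≤ d → Ndg d xT →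
    Over (FH d xT (1, 0)) v₁ → Over (FH d xT (v₁, 1)) v₂ → 0 < R₄ → R₄ < R₅ → 0 < r₁ →
    ∃ ρ₁ c₀ : ℝ, 0 < ρ₁ ∧ 0 < c₀ ∧ ∀ x ∈ ball xT ρ₁, ∀ y ∈ ball xT ρ₁,
      y (Sum.inr (Fin.last d)) = x (Sum.inr (Fin.last d)) → Gain d R₄ R₅ v₁ v₂ r₁ c₀ x y

/-- The mean value step. -/
def StSTEP : Prop :=
  StAREA → StAVG2 → StBAD → StMOT → StFULL → Pool.Agent.H713R3.ZA.StROOT → StPRO → StWN →
  ∀ (d : ℕ) (γ : ℂ → WW d) (ρ : ℝ) (U : Set ℂ) (H : ℂ → ℂ → ℂ) (Bd : ℕ → Set ℂ) (AA : WW d → Set ℂ)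
    (N₁ : ℕ) (R₄ R₅ R₆ : ℝ) (far : ℂ → ℂ → ℂ) (v₁ v₂ : ℂ) (r₁ c₀ : ℝ), 2 ≤ d →
    RDA d γ ρ U H Bd → 0 < R₄ → R₄ < R₅ →
    (∀ t ∈ ball (0 : ℂ) ρ, IsOpen (AA (γ t))) →
    (∀ t ∈ ball (0 : ℂ) ρ, ∀ z : ℂ, R₄ < ‖z‖ → z ∈ AA (γ t)) →
    (∀ z ∈ AA (γ 0), ∃ N₀, ∀ N ≥ N₀, z ∈ WN d (γ 0) U N) →
    (∀ t ∈ ball (0 : ℂ) ρ, ∀ N : ℕ, ∀ z : ℂ, ∀ w ∈ U,
      Over ((FH d (γ t))^[N] (z, 1)) (H t w) → z ∈ AA (γ t)) →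
    (∀ N ≥ N₁, {z | R₄ < ‖z‖} ∪ ball v₁ r₁ ∪ ball v₂ r₁ ⊆ WN d (γ 0) U N) →
    ball v₁ r₁ ∪ ball v₂ r₁ ⊆ ball 0 R₅ →
    (∀ N ≥ N₁, FARN d γ ρ U H N R₆ far) → 0 < c₀ →
    (∀ t ∈ ball (0 : ℂ) ρ, Gain d R₄ R₅ v₁ v₂ r₁ c₀ (γ 0) (γ t)) →
    ∀ r : ℝ, 0 < r → r < ρ → ∀ η : ℝ, 0 < η → ∀ q : ℝ → ℝ, Continuous q →
      ∃ θ : ℝ, (volume (AA (γ (circleMap 0 r θ)))ᶜ).toReal + q θ <
        (volume (AA (γ 0))ᶜ).toReal + η + (2 * Real.pi)⁻¹ * ∫ θ in (0 : ℝ)..(2 * Real.pi),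
          (q θ - c₀ * Dl d (γ 0) (γ (circleMap 0 r θ)))

end Pool.Agent.H713R4.RB
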