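import Mathlib
import Pool.Agent.H713R4.RB.Defs

/-! Statements of project RB, second part: sinks, Koenigs coordinates, rigid discs. -/

set_option autoImplicit false

open Topology Filter Metric Set Polynomial MeasureTheory

namespace Pool.Agent.H713R4.RB

/-! ### Sinks in a family -/

/-- `q` attracting periodic points `s l x`, permuted by the maps, for `x` near `xT`. -/
structure SK (d q : ℕ) (xT : WW d) (ρ₀ : ℝ) (s : Fin q → WW d → ℂ) (rr : Fin q → ℝ)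
    (σ : Equiv.Perm (Fin q)) (th : ℝ) : Prop where
  hd : 2 ≤ d
  hρ : 0 < ρ₀
  th0 : 0 < th
  th1 : th < 1
  rp : ∀ l, 0 < rr l
  sd : ∀ l, DifferentiableOn ℂ (s l) (ball xT ρ₀)
  sb : ∃ C : ℝ, ∀ l, ∀ x ∈ ball xT ρ₀, ‖s l x‖ ≤ C
  con : ∀ x ∈ ball xT ρ₀, ∀ l, ∀ z ∈ ball (s l x) (rr l), ∃ w : ℂ,
    Over (FH d x (z, 1)) w ∧ ‖w - s (σ l) x‖ * rr l ≤ th * ‖z - s l x‖ * rr (σ l)
  dis : ∀ x ∈ ball xT ρ₀, ∀ l l', l ≠ l' → Disjoint (ball (s l x) (rr l)) (ball (s l' x) (rr l'))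
  ndg : ∀ x ∈ ball xT ρ₀, Ndg d x

section
variable (d q : ℕ) (xT : WW d) (ρ₀ : ℝ) (s : Fin q → WW d → ℂ) (rr : Fin q → ℝ)

/-- the point `p` of the projective line is attracted by the sinks -/
def Att (x : WW d) (p : ℂ × ℂ) : Prop :=
  ∃ (n : ℕ) (l : Fin q) (w : ℂ), Over ((FH d x)^[n] p) w ∧ w ∈ ball (s l x) (rr l)

/-- parameters with nonzero multipliers -/
def BM : Set (WW d) := {x | x ∈ ball xT ρ₀ ∧ ∀ l, mu d x (s l x) ≠ 0}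

/-- parameters with multipliers bounded from below -/
def BL (lam : ℝ) : Set (WW d) := {x | x ∈ ball xT ρ₀ ∧ ∀ l, lam < ‖mu d x (s l x)‖}

/-- Koenigs' linearizing coordinate `K` on the basins of the sinks, normalised by `K' = 1` at the
sinks, and the label `lab` of the sink which shadows the orbit -/
structure KD (σ : Equiv.Perm (Fin q)) (K : WW d × (ℂ × ℂ) → ℂ) (lab : WW d × (ℂ × ℂ) → Fin q) :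
    Prop where
  hol : DifferentiableOn ℂ K {y | y.1 ∈ BM d q xT ρ₀ s ∧ Att d q s rr y.1 y.2}
  labc : ∀ y : WW d × (ℂ × ℂ), y.1 ∈ ball xT ρ₀ → Att d q s rr y.1 y.2 →
    ∀ᶠ y' in 𝓝 y, lab y' = lab y
  scal : ∀ x ∈ BM d q xT ρ₀ s, ∀ p, Att d q s rr x p → ∀ c : ℂ, c ≠ 0 → K (x, c • p) = K (x, p)
  scal' : ∀ x ∈ ball xT ρ₀, ∀ p, Att d q s rr x p → ∀ c : ℂ, c ≠ 0 → lab (x, c • p) = lab (x, p)
  step : ∀ x ∈ BM d q xT ρ₀ s, ∀ p, Att d q s rr x p →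
    K (x, FH d x p) = mu d x (s (lab (x, p)) x) * K (x, p)
  step' : ∀ x ∈ ball xT ρ₀, ∀ p, Att d q s rr x p → lab (x, FH d x p) = σ (lab (x, p))
  loc : ∀ x ∈ ball xT ρ₀, ∀ l, ∀ z ∈ ball (s l x) (rr l), lab (x, (z, 1)) = l
  zero : ∀ x ∈ BM d q xT ρ₀ s, ∀ l, K (x, (s l x, 1)) = 0
  der : ∀ x ∈ BM d q xT ρ₀ s, ∀ l, deriv (fun ζ : ℂ => K (x, (ζ, 1))) (s l x) = 1
  crit : ∀ x ∈ BM d q xT ρ₀ s, ∀ z : ℂ, Att d q s rr x (z, 1) → (wr d x).eval z = 0 →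
    deriv (fun ζ : ℂ => K (x, (ζ, 1))) z = 0
  inv : ∀ lam : ℝ, 0 < lam → ∃ (r₁ r₂ : ℝ) (ω : Fin q → WW d × ℂ → ℂ), 0 < r₁ ∧ 0 < r₂ ∧
    (∀ l, r₁ ≤ rr l) ∧
    (∀ l, DifferentiableOn ℂ (ω l) (BL d q xT ρ₀ s lam ×ˢ ball (0 : ℂ) r₂)) ∧
    ∀ x ∈ BL d q xT ρ₀ s lam, ∀ l,
      (∀ w ∈ ball (0 : ℂ) r₂, ω l (x, w) ∈ ball (s l x) (rr l) ∧ K (x, (ω l (x, w), 1)) = w ∧
        ‖ω l (x, w) - s l x‖ ≤ 2 * ‖w‖) ∧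
      ∀ z ∈ ball (s l x) r₁, ‖K (x, (z, 1))‖ < r₂ ∧ ω l (x, K (x, (z, 1))) = z ∧
        ‖z - s l x‖ ≤ 2 * ‖K (x, (z, 1))‖
end

/-- Linearization of sequences of local maps (nonautonomous Koenigs theorem). -/
def StKOEN : Prop :=
  ∀ (V : Type) [NormedAddCommGroup V] [NormedSpace ℂ V] [FiniteDimensional ℂ V] (q : ℕ)
    (σ : Equiv.Perm (Fin q)) (B : Set V) (G : Fin q → V × ℂ → ℂ) (m : Fin q → V → ℂ)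
    (w : Fin q → ℝ) (th C lam : ℝ), IsOpen B → 0 < th → th < 1 → 0 < lam → 0 ≤ C →
    (∀ l, 0 < w l) →
    (∀ l, DifferentiableOn ℂ (G l) (B ×ˢ ball (0 : ℂ) (w l))) →
    (∀ l, ∀ x ∈ B, ∀ z ∈ ball (0 : ℂ) (w l), ‖G l (x, z)‖ * w l ≤ th * ‖z‖ * w (σ l)) →
    (∀ l, ∀ x ∈ B, ∀ z ∈ ball (0 : ℂ) (w l), ‖G l (x, z) - m l x * z‖ ≤ C * ‖z‖ ^ 2) →
    (∀ l, ∀ x ∈ B, lam ≤ ‖m l x‖) →
    ∃ (δ : ℝ) (κ : Fin q → V × ℂ → ℂ), 0 < δ ∧ δ ≤ 1 ∧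
      (∀ l, DifferentiableOn ℂ (κ l) (B ×ˢ ball (0 : ℂ) (δ * w l))) ∧
      (∀ l, ∀ x ∈ B, ∀ z ∈ ball (0 : ℂ) (δ * w l), ‖κ l (x, z) - z‖ ≤ ‖z‖ / 8 ∧
        κ (σ l) (x, G l (x, z)) = m l x * κ l (x, z)) ∧
      (∀ l, ∀ x ∈ B, deriv (fun z : ℂ => κ l (x, z)) 0 = 1) ∧
      -- uniqueness: `κ` is the limit of the iterates
      ∀ l, ∀ x ∈ B, ∀ z : ℕ → ℂ, z 0 ∈ ball (0 : ℂ) (δ * w l) →
        (∀ n, z (n + 1) = G ((σ ^ n) l) (x, z n)) →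
        Tendsto (fun n : ℕ => z n / ∏ j ∈ Finset.range n, m ((σ ^ j) l) x) atTop (𝓝 (κ l (x, z 0)))

/-- Koenigs coordinates on the basins. -/
def StKD : Prop :=
  StKOEN → StWN → ∀ (d q : ℕ) (xT : WW d) (ρ₀ : ℝ) (s : Fin q → WW d → ℂ) (rr : Fin q → ℝ)
    (σ : Equiv.Perm (Fin q)) (th : ℝ), 0 < q → SK d q xT ρ₀ s rr σ th →
    ∃ (K : WW d × (ℂ × ℂ) → ℂ) (lab : WW d × (ℂ × ℂ) → Fin q), KD d q xT ρ₀ s rr σ K lab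

/-- the value of the `n`-th iterate in the plane -/
noncomputable def vl (d : ℕ) (x : WW d) (n : ℕ) (z : ℂ) : ℂ :=
  ((FH d x)^[n] (z, 1)).1 / ((FH d x)^[n] (z, 1)).2

/-- finite attracting periodic points whose orbit is finite -/
def SinkPt (d : ℕ) (x : WW d) (z : ℂ) : Prop :=
  (∀ i : ℕ, ((FH d x)^[i] (z, 1)).2 ≠ 0) ∧ ∃ n : ℕ, 0 < n ∧ Over ((FH d x)^[n] (z, 1)) z ∧
    ‖deriv (vl d x n) z‖ < 1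

/-- Continuation of a finite invariant set of sinks. -/
def StSINK : Prop :=
  ∀ (d : ℕ) (xT : WW d) (Z : Finset ℂ), 2 ≤ d → Ndg d xT → (∀ z ∈ Z, SinkPt d xT z) →
    (∀ z ∈ Z, ∀ w : ℂ, Over (FH d xT (z, 1)) w → w ∈ Z) → ∀ ε : ℝ, 0 < ε →
    ∃ (q : ℕ) (ρ₀ : ℝ) (s : Fin q → WW d → ℂ) (rr : Fin q → ℝ) (σ : Equiv.Perm (Fin q)) (th : ℝ),
      SK d q xT ρ₀ s rr σ th ∧ ρ₀ ≤ ε ∧ (∀ l, rr l ≤ ε) ∧ (range fun l => s l xT) = (Z : Set ℂ)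

/-- Fatou's lemma, quantitative form: if all the critical points and `∞` are far (in the Koenigs
coordinate) from the sink then the distance of the sink to the non-attracted points is large. -/
def StKB : Prop :=
  Pool.Agent.H713R3.ZA.StROOT → StPRO → StWN →
  ∀ (d q : ℕ) (xT : WW d) (ρ₀ : ℝ) (s : Fin q → WW d → ℂ) (rr : Fin q → ℝ)
    (σ : Equiv.Perm (Fin q)) (th : ℝ) (K : WW d × (ℂ × ℂ) → ℂ) (lab : WW d × (ℂ × ℂ) → Fin q),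
    SK d q xT ρ₀ s rr σ th → KD d q xT ρ₀ s rr σ K lab →
    ∀ x ∈ BM d q xT ρ₀ s, bet d x ≠ 0 → ∀ (l : Fin q) (A : ℝ), 0 < A →
    (∀ c : ℂ, (wr d x).eval c = 0 → Att d q s rr x (c, 1) → ∀ j : ℕ, (σ ^ j) l = lab (x, (c, 1)) →
      (∏ i ∈ Finset.range j, ‖mu d x (s ((σ ^ i) l) x)‖) * A ≤ ‖K (x, (c, 1))‖) →
    (Att d q s rr x (1, 0) → ∀ j : ℕ, (σ ^ j) l = lab (x, (1, 0)) →
      (∏ i ∈ Finset.range j, ‖mu d x (s ((σ ^ i) l) x)‖) * A ≤ ‖K (x, (1, 0))‖) →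
    ∀ a : ℂ, ¬ Att d q s rr x (a, 1) → A ≤ 100 * ‖a - s l x‖

/-- Finiteness of the number of sinks. -/
def StFIN : Prop :=
  StSINK → StKOEN → StKD → StKB → Pool.Agent.H713R3.ZA.StROOT → StPRO → StWN →
  ∀ (d : ℕ) (xT : WW d), 2 ≤ d → Ndg d xT → bet d xT ≠ 0 → {z : ℂ | SinkPt d xT z}.Finite

/-- Semicontinuity of the area at a map with almost all points attracted. -/
def StUSC2 : Prop :=
  ∀ (d q : ℕ) (xT : WW d) (ρ₀ : ℝ) (s : Fin q → WW d → ℂ) (rr : Fin q → ℝ)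
    (σ : Equiv.Perm (Fin q)) (th : ℝ), SK d q xT ρ₀ s rr σ th → Att d q s rr xT (1, 0) →
    volume {z : ℂ | ¬ Att d q s rr xT (z, 1)} = 0 → ∀ η : ℝ, 0 < η → ∃ δ : ℝ, 0 < δ ∧
      ∀ x ∈ ball xT δ, volume {z : ℂ | ¬ Att d q s rr x (z, 1)} ≤ ENNReal.ofReal η

/-- The attracted points form an open set, and `∞` is uniformly attracted near `xT`. -/
def StOPEN : Prop :=
  ∀ (d q : ℕ) (xT : WW d) (ρ₀ : ℝ) (s : Fin q → WW d → ℂ) (rr : Fin q → ℝ)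
    (σ : Equiv.Perm (Fin q)) (th : ℝ), SK d q xT ρ₀ s rr σ th →
    IsOpen {y : WW d × (ℂ × ℂ) | y.1 ∈ ball xT ρ₀ ∧ Att d q s rr y.1 y.2} ∧
    (Att d q s rr xT (1, 0) → ∃ R δ : ℝ, 0 < R ∧ 0 < δ ∧ δ ≤ ρ₀ ∧ ∀ x ∈ ball xT δ,
      Att d q s rr x (1, 0) ∧ ∀ z : ℂ, R < ‖z‖ → Att d q s rr x (z, 1)) ∧
    -- roots of unity of scale do not matter
    (∀ x ∈ ball xT ρ₀, ∀ p, Att d q s rr x p → ∀ c : ℂ, c ≠ 0 → Att d q s rr x (c • p)) ∧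
    (∀ x ∈ ball xT ρ₀, ∀ p, Att d q s rr x (FH d x p) ↔ Att d q s rr x p)

/-! ### Linear algebra -/

/-- A polynomial kernel vector, valid for all matrices whose rank is not larger. -/
def StCROSS : Prop :=
  ∀ (ι κ : Type) [Fintype ι] [DecidableEq ι] [Fintype κ] [DecidableEq κ]
    (S : Set (ι → κ → ℂ)) (A₂ : ι → κ → ℂ), A₂ ∈ S →
    (∀ A ∈ S, (Matrix.of A).rank ≤ (Matrix.of A₂).rank) → (Matrix.of A₂).rank < Fintype.card κ →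
    ∃ (X : (ι → κ → ℂ) → κ → ℂ) (k : κ), Differentiable ℂ X ∧ X A₂ k ≠ 0 ∧
      ∀ A ∈ S, ∀ i, ∑ j, A i j * X A j = 0

/-! ### Genericity -/

/-- In the family `f + s`, relations `f^n(p) = f^(n+m)(p)` hold only for finitely many `s`. -/
def StDEN : Prop :=
  ∀ (d : ℕ) (x : WW d), 2 ≤ d → Ndg d x → x (Sum.inr (Fin.last d)) ≠ 0 → bet d x ≠ 0 →
    (∀ s : ℂ, Ndg d (tr d x s) ∧ wr d (tr d x s) = wr d x ∧ QQ d (tr d x s) = QQ d x) ∧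
    (∀ p : ℂ × ℂ, p ≠ 0 → ∀ n m : ℕ, 1 ≤ m →
      {s : ℂ | ∃ c : ℂ, c ≠ 0 ∧ (FH d (tr d x s))^[n + m] p = c • (FH d (tr d x s))^[n] p}.Finite) ∧
    ∀ k : ℕ, {s : ℂ | Crit d (tr d x s) ((FH d (tr d x s))^[k] (1, 0))}.Finite

/-- Where the number of distinct attracted critical points is locally maximal, the attracted
critical points are simple. -/
def StSIMP : Prop :=
  ∀ (d : ℕ) (x : WW d) (O : Set (WW d × ℂ)) (m : ℕ) (δ : ℝ) (C : Finset ℂ), 2 ≤ d → Ndg d x →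
    wr d x ≠ 0 → IsOpen O → 0 < δ → C.card = m →
    (∀ c ∈ C, (wr d x).eval c = 0 ∧ (x, c) ∈ O) →
    (∀ x' ∈ ball x δ, ∀ C' : Finset ℂ, (∀ c ∈ C', (wr d x').eval c = 0 ∧ (x', c) ∈ O) →
      C'.card ≤ m) →
    ∀ c ∈ C, (derivative (wr d x)).eval c ≠ 0

/-- Near every parameter there are generic ones, with the same critical points. -/
def StGEN : Prop :=
  StDEN → StOPEN → ∀ (d q : ℕ) (xT : WW d) (ρ₀ : ℝ) (s : Fin q → WW d → ℂ) (rr : Fin q → ℝ)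
    (σ : Equiv.Perm (Fin q)) (th : ℝ) (K : WW d × (ℂ × ℂ) → ℂ) (lab : WW d × (ℂ × ℂ) → Fin q),
    SK d q xT ρ₀ s rr σ th → KD d q xT ρ₀ s rr σ K lab →
    ∀ x ∈ ball xT ρ₀, x (Sum.inr (Fin.last d)) ≠ 0 → bet d x ≠ 0 → Att d q s rr x (1, 0) →
    ∀ C : Finset ℂ, (∀ c ∈ C, (wr d x).eval c = 0 ∧ Att d q s rr x (c, 1)) → ∀ ε : ℝ, 0 < ε →
    ∃ x' ∈ ball x ε, x' ∈ BM d q xT ρ₀ s ∧ wr d x' = wr d x ∧ QQ d x' = QQ d x ∧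
      Att d q s rr x' (1, 0) ∧ K (x', (1, 0)) ≠ 0 ∧ deriv (fun ζ : ℂ => K (x', (1, ζ))) 0 ≠ 0 ∧
      ∀ c ∈ C, Att d q s rr x' (c, 1) ∧ K (x', (c, 1)) ≠ 0

/-! ### Rigid discs -/

/-- A holomorphic disc of maps, conjugate to each other near the sinks, with `m` marked critical
points `c i`. -/
structure LD (d q : ℕ) (xT : WW d) (ρ₀ : ℝ) (s : Fin q → WW d → ℂ) (rr : Fin q → ℝ)
    (σ : Equiv.Perm (Fin q)) (K : WW d × (ℂ × ℂ) → ℂ) (lab : WW d × (ℂ × ℂ) → Fin q)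
    (lam : ℝ) (γ : ℂ → WW d) (ρ : ℝ) (u : Fin q → ℂ → ℂ) (m : ℕ) (c : Fin m → ℂ → ℂ)
    (li : Fin q) (lb : Fin m → Fin q) : Prop where
  hρ : 0 < ρ
  γd : DifferentiableOn ℂ γ (ball 0 ρ)
  γB : ∀ t ∈ ball (0 : ℂ) ρ, γ t ∈ BL d q xT ρ₀ s lam ∧ bet d (γ t) ≠ 0
  ud : ∀ l, DifferentiableOn ℂ (u l) (ball 0 ρ)
  u0 : ∀ l, u l 0 = 1
  ub : ∃ Cu : ℝ, ∀ l, ∀ t ∈ ball (0 : ℂ) ρ, ‖u l t‖ ≤ Cu ∧ u l t ≠ 0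
  us : ∀ l, ∀ t ∈ ball (0 : ℂ) ρ,
    u (σ l) t * mu d (γ 0) (s l (γ 0)) = mu d (γ t) (s l (γ t)) * u l t
  ca : ∀ i, ∀ t ∈ ball (0 : ℂ) ρ, Att d q s rr (γ t) (c i t, 1) ∧ lab (γ t, (c i t, 1)) = lb i ∧
    K (γ t, (c i t, 1)) = u (lb i) t * K (γ 0, (c i 0, 1))
  call : ∀ t ∈ ball (0 : ℂ) ρ, ∀ z : ℂ, (wr d (γ t)).eval z = 0 → Att d q s rr (γ t) (z, 1) →
    ∃ i, z = c i t
  ia : ∀ t ∈ ball (0 : ℂ) ρ, Att d q s rr (γ t) (1, 0) ∧ lab (γ t, (1, 0)) = li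
  i0 : ∀ t ∈ ball (0 : ℂ) ρ, K (γ t, (1, 0)) = u li t * K (γ 0, (1, 0))
  i1 : ∀ t ∈ ball (0 : ℂ) ρ, deriv (fun ζ : ℂ => K (γ t, (1, ζ))) 0 =
    u li t * deriv (fun ζ : ℂ => K (γ 0, (1, ζ))) 0
  i2 : ∀ t ∈ ball (0 : ℂ) ρ, iteratedDeriv 2 (fun ζ : ℂ => K (γ t, (1, ζ))) 0 =
    u li t * iteratedDeriv 2 (fun ζ : ℂ => K (γ 0, (1, ζ))) 0
  in1 : deriv (fun ζ : ℂ => K (γ 0, (1, ζ))) 0 ≠ 0

/-- the conjugacy `H` in terms of the Koenigs coordinate -/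
structure HP (d q : ℕ) (s : Fin q → WW d → ℂ) (rr : Fin q → ℝ)
    (K : WW d × (ℂ × ℂ) → ℂ) (lab : WW d × (ℂ × ℂ) → Fin q) (γ : ℂ → WW d) (ρ : ℝ)
    (u : Fin q → ℂ → ℂ) (U : Set ℂ) (H : ℂ → ℂ → ℂ) (δ₁ : ℝ) : Prop where
  pos : 0 < δ₁
  mem : ∀ z ∈ U, z ∈ ball (s (lab (γ 0, (z, 1))) (γ 0)) (rr (lab (γ 0, (z, 1))))
  val : ∀ t ∈ ball (0 : ℂ) ρ, ∀ z ∈ U,
    H t z ∈ ball (s (lab (γ 0, (z, 1))) (γ t)) (rr (lab (γ 0, (z, 1)))) ∧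
      K (γ t, (H t z, 1)) = u (lab (γ 0, (z, 1))) t * K (γ 0, (z, 1))
  unq : ∀ t ∈ ball (0 : ℂ) ρ, ∀ z ∈ U, ∀ w ∈ ball (s (lab (γ 0, (z, 1))) (γ t)) δ₁,
    K (γ t, (w, 1)) = u (lab (γ 0, (z, 1))) t * K (γ 0, (z, 1)) → w = H t z

/-- Rigid discs satisfy the hypotheses of the area argument. -/
def StRIGA : Prop :=
  StOPEN → ∀ (d q : ℕ) (xT : WW d) (ρ₀ : ℝ) (s : Fin q → WW d → ℂ) (rr : Fin q → ℝ)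
    (σ : Equiv.Perm (Fin q)) (th : ℝ) (K : WW d × (ℂ × ℂ) → ℂ) (lab : WW d × (ℂ × ℂ) → Fin q)
    (lam : ℝ) (γ : ℂ → WW d) (ρ : ℝ) (u : Fin q → ℂ → ℂ) (m : ℕ) (c : Fin m → ℂ → ℂ)
    (li : Fin q) (lb : Fin m → Fin q), 0 < lam → SK d q xT ρ₀ s rr σ th →
    KD d q xT ρ₀ s rr σ K lab → LD d q xT ρ₀ s rr σ K lab lam γ ρ u m c li lb →
    ∃ (U : Set ℂ) (H : ℂ → ℂ → ℂ) (Bd : ℕ → Set ℂ) (δ₁ : ℝ),
      RDA d γ ρ U H Bd ∧ HP d q s rr K lab γ ρ u U H δ₁ ∧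
      (∀ t ∈ ball (0 : ℂ) ρ, ∀ N : ℕ, ∀ z : ℂ, ∀ w ∈ U,
        Over ((FH d (γ t))^[N] (z, 1)) (H t w) → Att d q s rr (γ t) (z, 1)) ∧
      ∀ Kc : Set (ℂ × ℂ), IsCompact Kc → (∀ p ∈ Kc, Att d q s rr (γ 0) p) →
        ∃ N₀, ∀ N ≥ N₀, ∀ p ∈ Kc, ∃ w ∈ U, Over ((FH d (γ 0))^[N] p) w

/-- The motion near infinity. -/
def StRIGF : Prop :=
  StOPEN → StWN → ∀ (d q : ℕ) (xT : WW d) (ρ₀ : ℝ) (s : Fin q → WW d → ℂ) (rr : Fin q → ℝ)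
    (σ : Equiv.Perm (Fin q)) (th : ℝ) (K : WW d × (ℂ × ℂ) → ℂ) (lab : WW d × (ℂ × ℂ) → Fin q)
    (lam : ℝ) (γ : ℂ → WW d) (ρ : ℝ) (u : Fin q → ℂ → ℂ) (m : ℕ) (c : Fin m → ℂ → ℂ)
    (li : Fin q) (lb : Fin m → Fin q), 0 < lam → SK d q xT ρ₀ s rr σ th →
    KD d q xT ρ₀ s rr σ K lab → LD d q xT ρ₀ s rr σ K lab lam γ ρ u m c li lb →
    ∀ (U : Set ℂ) (H : ℂ → ℂ → ℂ) (Bd : ℕ → Set ℂ) (δ₁ : ℝ),
      RDA d γ ρ U H Bd → HP d q s rr K lab γ ρ u U H δ₁ →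
      (∀ Kc : Set (ℂ × ℂ), IsCompact Kc → (∀ p ∈ Kc, Att d q s rr (γ 0) p) →
        ∃ N₀, ∀ N ≥ N₀, ∀ p ∈ Kc, ∃ w ∈ U, Over ((FH d (γ 0))^[N] p) w) →
    ∀ ρ' : ℝ, 0 < ρ' → ρ' < ρ →
      ∃ (N₀ : ℕ) (R₆ : ℝ) (far : ℂ → ℂ → ℂ), 0 < R₆ ∧ ∀ N ≥ N₀, FARN d γ ρ' U H N R₆ far

end Pool.Agent.H713R4.RB
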