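import Mathlib
import Pool.Agent.H713R4.RB.Defs2

/-! Statements of project RB, third part: the sphere, the minimization. -/

set_option autoImplicit false

open Topology Filter Metric Set Polynomial MeasureTheory
open scoped OnePoint

namespace Pool.Agent.H713R4.RB

/-- every critical point of `P / Q` tends to a sink (formula of the frozen statement) -/
def Hyp (P Q : ℂ[X]) : Prop :=
  ∃ f : OnePoint ℂ → OnePoint ℂ, Continuous f ∧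
    (∀ z : ℂ, Q.eval z ≠ 0 → f (OnePoint.some z) = OnePoint.some (P.eval z / Q.eval z)) ∧
    ∀ c : OnePoint ℂ, (¬ ∃ U ∈ nhds c, Set.InjOn f U) →
      ∃ z : OnePoint ℂ, ∃ n : ℕ, 0 < n ∧ f^[n] z = z ∧
        (∃ U ∈ nhds z, ∀ w ∈ U, Filter.Tendsto (fun k : ℕ => f^[n * k] w) Filter.atTop (nhds z)) ∧
        Filter.Tendsto (fun k : ℕ => f^[n * k] c) Filter.atTop (nhds z)

/-- Maps all of whose critical points are attracted are hyperbolic. -/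
def StHYP : Prop :=
  StOPEN → ∀ (d q : ℕ) (xT : WW d) (ρ₀ : ℝ) (s : Fin q → WW d → ℂ) (rr : Fin q → ℝ)
    (σ : Equiv.Perm (Fin q)) (th : ℝ), SK d q xT ρ₀ s rr σ th → ∀ x ∈ ball xT ρ₀,
    x (Sum.inr (Fin.last d)) ≠ 0 → Att d q s rr x (1, 0) →
    (∀ c : ℂ, (wr d x).eval c = 0 → Att d q s rr x (c, 1)) →
    IsCoprime (PP d x) (QQ d x) ∧ max (PP d x).natDegree (QQ d x).natDegree = d ∧
      Hyp (PP d x) (QQ d x)

/-- the coefficient vector -/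
def cv (d : ℕ) (P Q : ℂ[X]) : WW d :=
  Sum.elim (fun i => P.coeff (i : ℕ)) (fun i => Q.coeff (i : ℕ))

/-- the rational function `P / Q` in the plane -/
noncomputable def plane (P Q : ℂ[X]) (z : ℂ) : ℂ := P.eval z / Q.eval z

/-- `x` is attracted by an attracting cycle of finite points -/
def Attracted (f : OnePoint ℂ → OnePoint ℂ) (g : ℂ → ℂ) (x : OnePoint ℂ) : Prop :=
  ∃ n : ℕ, 0 < n ∧ ∃ z : ℂ, (∀ i : ℕ, f^[i] (z : OnePoint ℂ) ≠ ∞) ∧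
    f^[n] (z : OnePoint ℂ) = (z : OnePoint ℂ) ∧ ‖deriv (g^[n]) z‖ < 1 ∧
    Tendsto (fun k : ℕ => f^[n * k] x) atTop (𝓝 (z : OnePoint ℂ))

/-- the orbit of `p` comes arbitrarily close to `z₀` -/
def Near (d : ℕ) (x : WW d) (p : ℂ × ℂ) (z₀ : ℂ) : Prop :=
  ∀ δ : ℝ, 0 < δ → ∃ (n : ℕ) (w : ℂ), Over ((FH d x)^[n] p) w ∧ ‖w - z₀‖ < δ

/-- Translation from the sphere to homogeneous coordinates. -/
def StLINK : Prop :=
  ∀ (d : ℕ) (P Q : ℂ[X]) (f : OnePoint ℂ → OnePoint ℂ), 2 ≤ d → IsCoprime P Q →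
    P.natDegree ≤ d → Q.natDegree = d → Continuous f →
    (∀ z : ℂ, Q.eval z ≠ 0 → f (OnePoint.some z) = OnePoint.some (P.eval z / Q.eval z)) →
    PP d (cv d P Q) = P ∧ QQ d (cv d P Q) = Q ∧ Ndg d (cv d P Q) ∧
    (∀ z : ℂ, Attracted f (plane P Q) (z : OnePoint ℂ) →
      ∃ z₀ : ℂ, SinkPt d (cv d P Q) z₀ ∧ Near d (cv d P Q) (z, 1) z₀) ∧
    (Attracted f (plane P Q) ∞ →
      ∃ z₀ : ℂ, SinkPt d (cv d P Q) z₀ ∧ Near d (cv d P Q) (1, 0) z₀)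

/-- The near-minimizer argument (compare `min_arg` in `Pool/Agent/H713R3/ZA/Min.lean`). -/
def StMIN : Prop :=
  Pool.Agent.H713R3.ZA.StFLOW →
  ∀ (V J : Type) [NormedAddCommGroup V] [NormedSpace ℂ V] [FiniteDimensional ℂ V] [Fintype J]
    (cf : J → V → ℂ) (τ : J → ℂ) (AN : V → ℝ) (L Ω : Set V) (f : V → ℂ) (X : V → V) (j : J) (p₂ : V)
    (n₀ c₀ : ℝ), (∀ j, Differentiable ℂ (cf j)) → (∀ p, 0 ≤ AN p) → 0 < n₀ → 0 < c₀ →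
    IsCompact L → ContinuousOn f L → IsOpen Ω → DifferentiableOn ℂ X Ω → DifferentiableOn ℂ f Ω →
    (∀ p ∈ Ω, f p ≠ 0) → (∀ p ∈ Ω, ‖f p‖ ≤ ‖fderiv ℂ (cf j) p (X p)‖) →
    (∀ p ∈ L, f p ≠ 0 → ∑ j, ‖cf j p - τ j‖ ^ 2 < n₀ → p ∈ Ω) →
    p₂ ∈ L → f p₂ ≠ 0 → AN p₂ ≤ c₀ * n₀ / 16 →
    c₀ / 2 * ∑ j, ‖cf j p₂ - τ j‖ ^ 2 ≤ c₀ * n₀ / 16 →
    (∀ r₀ : ℝ, 0 < r₀ → ∀ γ : ℂ → V, γ 0 ∈ L →
      (∀ t ∈ ball (0 : ℂ) r₀, γ t ∈ Ω ∧ HasDerivAt γ (X (γ t)) t) →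
      (∀ t ∈ ball (0 : ℂ) r₀, γ t ∈ L) ∧ ∀ r : ℝ, 0 < r → r < r₀ → ∀ η : ℝ, 0 < η →
        ∀ q : ℝ → ℝ, Continuous q → ∃ θ : ℝ, AN (γ (circleMap 0 r θ)) + q θ <
          AN (γ 0) + η + (2 * Real.pi)⁻¹ * ∫ θ in (0 : ℝ)..(2 * Real.pi),
            (q θ - c₀ * ∑ j, ‖cf j (γ (circleMap 0 r θ)) - cf j (γ 0)‖ ^ 2)) → False

end Pool.Agent.H713R4.RB
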