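import Mathlib
import Pool.Agent.H713R4.RB.Defs
import Pool.Agent.H713R3.ZA.TGAIN

/-! Task AREA: Gronwall area theorem. -/

set_option autoImplicit false

open Topology Filter Metric Set Polynomial MeasureTheory

namespace Pool.Agent.H713R4.RB

theorem area_holds : StAREA := by
  intro R₄ R₅ Ψ h0 h45 hd hi ht
  -- an intermediate radius
  obtain ⟨R, hR⟩ : ∃ R, R = (R₄ + R₅) / 2 := ⟨_, rfl⟩
  have hR4 : R₄ < R := by rw [hR]; linarith
  have hR5 : R < R₅ := by rw [hR]; linarith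
  have hR0 : 0 < R := h0.trans hR4
  have hR50 : 0 < R₅ := hR0.trans hR5
  -- boundedness of the displacement
  obtain ⟨C, hC⟩ : ∃ C : ℝ, ∀ z : ℂ, R ≤ ‖z‖ → ‖Ψ z - z‖ ≤ C := by
    have h1 : ∀ᶠ z in Bornology.cobounded ℂ, ‖Ψ z - z‖ < 1 := by
      have := ht.norm
      rw [norm_zero] at this
      exact this.eventually (gt_mem_nhds one_pos)
    obtain ⟨B, hB⟩ : ∃ B : ℝ, ∀ z : ℂ, B < ‖z‖ → ‖Ψ z - z‖ < 1 := by
      have h2 := (Filter.hasBasis_cobounded_norm (E := ℂ)).eventually_iff.1 h1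
      obtain ⟨B, _, hB⟩ := h2
      exact ⟨B, fun z hz => hB (le_of_lt hz)⟩
    have hcomp : IsCompact {z : ℂ | R ≤ ‖z‖ ∧ ‖z‖ ≤ B} := by
      have e : {z : ℂ | R ≤ ‖z‖ ∧ ‖z‖ ≤ B} = closedBall 0 B ∩ {z : ℂ | R ≤ ‖z‖} := by
        ext z
        simp only [mem_inter_iff, mem_closedBall_zero_iff]
        exact and_comm
      rw [e]
      exact (isCompact_closedBall 0 B).inter_right (isClosed_le continuous_const continuous_norm)
    have hcont : ContinuousOn (fun z : ℂ => ‖Ψ z - z‖) {z : ℂ | R ≤ ‖z‖ ∧ ‖z‖ ≤ B} := by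
      have : ContinuousOn Ψ {z : ℂ | R ≤ ‖z‖ ∧ ‖z‖ ≤ B} :=
        hd.continuousOn.mono fun z hz => hR4.trans_le hz.1
      exact (this.sub continuousOn_id).norm
    obtain ⟨C, hC⟩ := hcomp.bddAbove_image hcont
    refine ⟨max C 1, fun z hz => ?_⟩
    rcases le_or_gt ‖z‖ B with h | h
    · exact le_max_of_le_left (hC ⟨z, ⟨hz, h⟩, rfl⟩)
    · exact le_max_of_le_right (hB z h).le
  -- scaling
  obtain ⟨lam, hlam⟩ : ∃ lam : ℝ, lam = max 1 R⁻¹ := ⟨_, rfl⟩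
  have hl0 : 0 < lam := by rw [hlam]; exact lt_max_of_lt_left one_pos
  have hlR : 1 ≤ lam * R := by
    have h1 : R⁻¹ ≤ lam := by rw [hlam]; exact le_max_right _ _
    calc (1 : ℝ) = R⁻¹ * R := (inv_mul_cancel₀ hR0.ne').symm
      _ ≤ lam * R := mul_le_mul_of_nonneg_right h1 hR0.le
  have hlc : (lam : ℂ) ≠ 0 := by exact_mod_cast hl0.ne'
  have hnorm : ∀ (z : ℂ), ‖(lam : ℂ)⁻¹ * z‖ = lam⁻¹ * ‖z‖ := by
    intro z
    rw [norm_mul, norm_inv, Complex.norm_real, Real.norm_eq_abs, abs_of_pos hl0]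
  have hlt : ∀ (S : ℝ) (z : ℂ), lam * S < ‖z‖ → S < ‖(lam : ℂ)⁻¹ * z‖ := by
    intro S z hz
    rw [hnorm, inv_mul_eq_div, lt_div_iff₀ hl0, mul_comm]
    exact hz
  set Φ : ℂ → ℂ := fun z => (lam : ℂ) * Ψ ((lam : ℂ)⁻¹ * z) with hΦ
  have hΦd : DifferentiableOn ℂ Φ {z : ℂ | lam * R < ‖z‖} := by
    have h1 : DifferentiableOn ℂ (fun z : ℂ => Ψ ((lam : ℂ)⁻¹ * z)) {z : ℂ | lam * R < ‖z‖} := by
      refine hd.comp (by fun_prop) ?_
      intro z hz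
      exact hR4.trans (hlt R z hz)
    exact h1.const_mul _
  have hΦi : InjOn Φ {z : ℂ | lam * R < ‖z‖} := by
    intro z hz w hw hzw
    have h1 := mul_left_cancel₀ hlc hzw
    have h2 := hi (hR4.trans (hlt R z hz)) (hR4.trans (hlt R w hw)) h1
    exact mul_left_cancel₀ (inv_ne_zero hlc) h2
  have hΦC : ∀ z : ℂ, lam * R < ‖z‖ → ‖Φ z - z‖ ≤ lam * C := by
    intro z hz
    have h1 := hC ((lam : ℂ)⁻¹ * z) (hlt R z hz).le
    have h2 : Φ z - z = (lam : ℂ) * (Ψ ((lam : ℂ)⁻¹ * z) - (lam : ℂ)⁻¹ * z) := by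
      rw [mul_sub, ← mul_assoc (lam : ℂ) (lam : ℂ)⁻¹ z, mul_inv_cancel₀ hlc, one_mul]
    rw [h2, norm_mul, Complex.norm_real, Real.norm_eq_abs, abs_of_pos hl0]
    exact mul_le_mul_of_nonneg_left h1 hl0.le
  obtain ⟨τ, c, hτ0, hτ1, hvol, _⟩ := Pool.Agent.H713R3.ZA.GAIN.area hlR
    (mul_lt_mul_of_pos_left hR5 hl0) hΦd hΦi hΦC
  -- the images
  have himg : (Ψ '' {z | R₅ < ‖z‖})ᶜ = (fun z : ℂ => lam • z) ⁻¹' (Φ '' {z : ℂ | lam * R₅ < ‖z‖})ᶜ := by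
    ext w
    simp only [mem_compl_iff, mem_preimage, not_iff_not]
    constructor
    · rintro ⟨z, hz, rfl⟩
      refine ⟨(lam : ℂ) * z, ?_, ?_⟩
      · change lam * R₅ < ‖(lam : ℂ) * z‖
        rw [norm_mul, Complex.norm_real, Real.norm_eq_abs, abs_of_pos hl0]
        exact mul_lt_mul_of_pos_left hz hl0
      · simp only [hΦ]
        rw [← mul_assoc, inv_mul_cancel₀ hlc, one_mul, Complex.real_smul]
    · rintro ⟨z, hz, hzw⟩
      refine ⟨(lam : ℂ)⁻¹ * z, hlt R₅ z hz, ?_⟩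
      simp only [hΦ, Complex.real_smul] at hzw
      exact mul_left_cancel₀ hlc hzw
  rw [himg, Measure.addHaar_preimage_smul volume hl0.ne', hvol, ← ENNReal.ofReal_mul (abs_nonneg _)]
  apply ENNReal.ofReal_le_ofReal
  have hf : Module.finrank ℝ ℂ = 2 := Complex.finrank_real_complex
  rw [hf, abs_of_pos (by positivity)]
  have h1 : (lam ^ 2)⁻¹ * (Real.pi * (lam * R₅) ^ 2 * (1 - τ)) = Real.pi * R₅ ^ 2 * (1 - τ) := by
    field_simp
  rw [h1]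
  have h2 : 0 ≤ Real.pi * R₅ ^ 2 := by positivity
  nlinarith

end Pool.Agent.H713R4.RB
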