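import Mathlib
import Pool.Agent.H713R4.RB.Defs

/-! Task AVG2: mean value inequality with remainder (adapt TAVG). -/

set_option autoImplicit false

open Topology Filter Metric Set Polynomial MeasureTheory

namespace Pool.Agent.H713R4.RB

namespace AVG2

theorem one_circle (ρ r : ℝ) (h : ℂ → ℂ) (hr : 0 < r) (hρ : r < ρ)
    (hd : DifferentiableOn ℂ h (ball (0 : ℂ) ρ)) (h0 : h 0 = 1) :
    ENNReal.ofReal (2 * Real.pi) +
      ∫⁻ θ in Ioc (0 : ℝ) (2 * Real.pi), ENNReal.ofReal (‖h (circleMap 0 r θ) - 1‖ ^ 2) ≤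
      ∫⁻ θ in Ioc (0 : ℝ) (2 * Real.pi), ENNReal.ofReal (‖h (circleMap 0 r θ)‖ ^ 2) := by
  have hpi := Real.pi_pos
  have hc : Continuous fun θ : ℝ => h (circleMap 0 r θ) := by
    apply hd.continuousOn.comp_continuous (continuous_circleMap 0 r)
    intro θ
    simp [circleMap, abs_of_pos hr, hρ]
  have hcl : closedBall (0 : ℂ) r ⊆ ball (0 : ℂ) ρ := closedBall_subset_ball hρ
  have hmv : Real.circleAverage h 0 r = 1 := by
    have h1 : DiffContOnCl ℂ h (ball (0 : ℂ) |r|) := by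
      rw [abs_of_pos hr]
      apply DifferentiableOn.diffContOnCl
      rw [closure_ball _ hr.ne']
      exact hd.mono hcl
    rw [h1.circleAverage, h0]
  have hint : (∫ θ in (0 : ℝ)..(2 * Real.pi), h (circleMap 0 r θ)) = ((2 * Real.pi : ℝ) : ℂ) := by
    unfold Real.circleAverage at hmv
    have h2 : ((2 * Real.pi : ℝ)) • ((2 * Real.pi)⁻¹ • ∫ θ in (0 : ℝ)..(2 * Real.pi), h (circleMap 0 r θ))
        = (2 * Real.pi : ℝ) • (1 : ℂ) := by rw [hmv]
    rw [smul_smul, mul_inv_cancel₀ (by positivity), one_smul] at h2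
    rw [h2]
    simp
  have hre : (∫ θ in (0 : ℝ)..(2 * Real.pi), (h (circleMap 0 r θ)).re) = 2 * Real.pi := by
    have h3 := Complex.reCLM.intervalIntegral_comp_comm (μ := volume) (a := 0) (b := 2 * Real.pi)
      (hc.intervalIntegrable _ _)
    rw [hint] at h3
    simpa using h3
  have hcn : Continuous fun θ : ℝ => ‖h (circleMap 0 r θ)‖ ^ 2 := hc.norm.pow 2
  have hcm : Continuous fun θ : ℝ => ‖h (circleMap 0 r θ) - 1‖ ^ 2 :=
    (hc.sub continuous_const).norm.pow 2
  have hcr : Continuous fun θ : ℝ => (h (circleMap 0 r θ)).re := Complex.continuous_re.comp hc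
  have hkey : ∀ w : ℂ, ‖w - 1‖ ^ 2 = ‖w‖ ^ 2 - (2 * w.re - 1) := by
    intro w
    rw [← Complex.normSq_eq_norm_sq, ← Complex.normSq_eq_norm_sq, Complex.normSq_apply,
      Complex.normSq_apply]
    simp
    ring
  have heq : (∫ θ in (0 : ℝ)..(2 * Real.pi), ‖h (circleMap 0 r θ) - 1‖ ^ 2) =
      (∫ θ in (0 : ℝ)..(2 * Real.pi), ‖h (circleMap 0 r θ)‖ ^ 2) - 2 * Real.pi := by
    have h4 : (∫ θ in (0 : ℝ)..(2 * Real.pi), (2 * (h (circleMap 0 r θ)).re - 1)) = 2 * Real.pi := by
      rw [intervalIntegral.integral_sub, intervalIntegral.integral_const_mul, hre]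
      · simp; ring
      · exact ((hcr.const_mul 2).intervalIntegrable _ _)
      · exact intervalIntegrable_const
    have hcr2 : Continuous fun θ : ℝ => 2 * (h (circleMap 0 r θ)).re - 1 :=
      (hcr.const_mul 2).sub continuous_const
    simp only [hkey]
    rw [intervalIntegral.integral_sub (hcn.intervalIntegrable _ _) (hcr2.intervalIntegrable _ _), h4]
  have hconv : ∀ g : ℝ → ℝ, Continuous g → (∀ θ, 0 ≤ g θ) →
      ∫⁻ θ in Ioc (0 : ℝ) (2 * Real.pi), ENNReal.ofReal (g θ) =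
        ENNReal.ofReal (∫ θ in (0 : ℝ)..(2 * Real.pi), g θ) := by
    intro g hg hg0
    rw [← ofReal_integral_eq_lintegral_ofReal]
    · rw [intervalIntegral.integral_of_le (by positivity)]
    · have := hg.intervalIntegrable (μ := volume) 0 (2 * Real.pi)
      rwa [intervalIntegrable_iff_integrableOn_Ioc_of_le (by positivity)] at this
    · exact Filter.Eventually.of_forall hg0
  rw [hconv _ hcn (fun θ => by positivity), hconv _ hcm (fun θ => by positivity), heq,
    ← ENNReal.ofReal_add (by positivity)]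
  · apply ENNReal.ofReal_le_ofReal
    linarith
  · rw [← heq]
    exact intervalIntegral.integral_nonneg (by positivity) (fun θ _ => by positivity)

end AVG2

theorem avg2_holds : StAVG2 := by
  intro ρ r W K D hr hρ hW hKW hK hD hdz hone
  have hcomp : ContinuousOn (fun p : ℝ × ℂ => D (circleMap 0 r p.1) p.2)
      (Ioc (0 : ℝ) (2 * Real.pi) ×ˢ K) := by
    have h1 : (fun p : ℝ × ℂ => D (circleMap 0 r p.1) p.2) =
        (fun p : ℂ × ℂ => D p.1 p.2) ∘ (fun p : ℝ × ℂ => (circleMap 0 r p.1, p.2)) := rfl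
    rw [h1]
    apply hD.comp
    · exact (((continuous_circleMap 0 r).comp continuous_fst).prodMk continuous_snd).continuousOn
    · intro p hp
      refine ⟨?_, hKW hp.2⟩
      simp [circleMap, abs_of_pos hr, hρ]
  have hmeas : AEMeasurable (fun p : ℝ × ℂ => ENNReal.ofReal (‖D (circleMap 0 r p.1) p.2‖ ^ 2))
      ((volume.restrict (Ioc (0 : ℝ) (2 * Real.pi))).prod (volume.restrict K)) := by
    rw [Measure.prod_restrict]
    apply ContinuousOn.aemeasurable _ (measurableSet_Ioc.prod hK)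
    exact ENNReal.continuous_ofReal.comp_continuousOn (hcomp.norm.pow 2)
  have hmeas1 : AEMeasurable
      (fun p : ℝ × ℂ => ENNReal.ofReal (‖D (circleMap 0 r p.1) p.2 - 1‖ ^ 2))
      ((volume.restrict (Ioc (0 : ℝ) (2 * Real.pi))).prod (volume.restrict K)) := by
    rw [Measure.prod_restrict]
    apply ContinuousOn.aemeasurable _ (measurableSet_Ioc.prod hK)
    exact ENNReal.continuous_ofReal.comp_continuousOn ((hcomp.sub continuousOn_const).norm.pow 2)
  have e1 : (∫⁻ θ in Ioc (0 : ℝ) (2 * Real.pi), ∫⁻ z in K,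
      ENNReal.ofReal (‖D (circleMap 0 r θ) z‖ ^ 2)) = ∫⁻ z in K, ∫⁻ θ in Ioc (0 : ℝ) (2 * Real.pi),
      ENNReal.ofReal (‖D (circleMap 0 r θ) z‖ ^ 2) := lintegral_lintegral_swap hmeas
  have e2 : (∫⁻ θ in Ioc (0 : ℝ) (2 * Real.pi), ∫⁻ z in K,
      ENNReal.ofReal (‖D (circleMap 0 r θ) z - 1‖ ^ 2)) =
      ∫⁻ z in K, ∫⁻ θ in Ioc (0 : ℝ) (2 * Real.pi),
      ENNReal.ofReal (‖D (circleMap 0 r θ) z - 1‖ ^ 2) := lintegral_lintegral_swap hmeas1
  rw [e1, e2, ← setLIntegral_const, ← lintegral_add_left measurable_const]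
  apply setLIntegral_mono' hK
  intro z hz
  exact AVG2.one_circle ρ r (fun t => D t z) hr hρ (hdz z (hKW hz)) (hone z (hKW hz))

end Pool.Agent.H713R4.RB
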