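import Mathlib
import Pool.Agent.H713R4.RB.Defs

/-! Task BAD: finite preimages. -/

set_option autoImplicit false

open Topology Filter Metric Set Polynomial MeasureTheory

namespace Pool.Agent.H713R4.RB

namespace Bad

/-- a binary form of positive degree has a nontrivial zero -/
lemma exists_zero (d : ℕ) (hd : 1 ≤ d) (c : Fin (d + 1) → ℂ) :
    ∃ p : ℂ × ℂ, p ≠ 0 ∧ ∑ i : Fin (d + 1), c i * (p.1 ^ (i : ℕ) * p.2 ^ (d - (i : ℕ))) = 0 := by
  by_cases h : c (Fin.last d) = 0
  · refine ⟨(1, 0), by simp, ?_⟩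
    apply Finset.sum_eq_zero
    intro i _
    by_cases hi : i = Fin.last d
    · rw [hi, h, zero_mul]
    · have : (i : ℕ) < d := by
        have h1 := i.isLt
        have h2 : (i : ℕ) ≠ d := fun e => hi (Fin.ext (by simpa using e))
        omega
      have h3 : d - (i : ℕ) ≠ 0 := by omega
      simp [zero_pow h3]
  · set P : ℂ[X] := ∑ i : Fin (d + 1), C (c i) * X ^ (i : ℕ) with hP
    have hcoeff : P.coeff d = c (Fin.last d) := by
      rw [hP, finsetSum_coeff]
      rw [Finset.sum_eq_single (Fin.last d)]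
      · simp
      · intro i _ hi
        have h2 : (i : ℕ) ≠ d := fun e => hi (Fin.ext (by simpa using e))
        rw [coeff_C_mul, coeff_X_pow, if_neg (fun e => h2 e.symm), mul_zero]
      · intro h'
        exact absurd (Finset.mem_univ _) h'
    have hdeg : P.degree ≠ 0 := by
      intro h0
      have h1 : P.coeff d = 0 := coeff_eq_zero_of_degree_lt (by
        rw [h0]
        exact_mod_cast (by omega : 0 < d))
      exact h (hcoeff ▸ h1)
    obtain ⟨z, hz⟩ := IsAlgClosed.exists_root P hdeg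
    refine ⟨(z, 1), by simp, ?_⟩
    have hz' : P.eval z = 0 := hz
    rw [hP, eval_finsetSum] at hz'
    rw [← hz']
    refine Finset.sum_congr rfl fun i _ => ?_
    simp

/-- the two components are not proportional -/
lemma not_prop (d : ℕ) (hd : 1 ≤ d) (x : WW d) (hx : Ndg d x) (q : ℂ × ℂ) (hq : q ≠ 0) :
    ∃ i, x (Sum.inl i) * q.2 ≠ x (Sum.inr i) * q.1 := by
  by_contra hcon
  push Not at hcon
  have hall : ∀ p : ℂ × ℂ, (FH d x p).1 * q.2 = (FH d x p).2 * q.1 := by
    intro p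
    simp only [FH, Finset.sum_mul]
    refine Finset.sum_congr rfl fun i _ => ?_
    linear_combination (p.1 ^ (i : ℕ) * p.2 ^ (d - (i : ℕ))) * hcon i
  by_cases h2 : q.2 = 0
  · have h1 : q.1 ≠ 0 := fun h1 => hq (Prod.ext h1 h2)
    obtain ⟨p, hp, hp0⟩ := exists_zero d hd (fun i => x (Sum.inl i))
    apply hp
    apply hx
    apply Prod.ext
    · exact hp0
    · have := hall p
      rw [h2, mul_zero] at this
      exact (mul_eq_zero.mp this.symm).resolve_right h1
  · obtain ⟨p, hp, hp0⟩ := exists_zero d hd (fun i => x (Sum.inr i))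
    apply hp
    apply hx
    apply Prod.ext
    · have := hall p
      have e : (FH d x p).2 = 0 := hp0
      rw [e, zero_mul] at this
      exact (mul_eq_zero.mp this).resolve_right h2
    · exact hp0

lemma FH_hom (d : ℕ) (x : WW d) (z v : ℂ) :
    FH d x (z * v, v) = ((v ^ d) * (FH d x (z, 1)).1, (v ^ d) * (FH d x (z, 1)).2) := by
  have key : ∀ i : Fin (d + 1), (z * v) ^ (i : ℕ) * v ^ (d - (i : ℕ)) =
      v ^ d * (z ^ (i : ℕ) * 1 ^ (d - (i : ℕ))) := by
    intro i
    have h1 : (i : ℕ) + (d - (i : ℕ)) = d := by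
      have := i.isLt
      omega
    calc (z * v) ^ (i : ℕ) * v ^ (d - (i : ℕ)) = z ^ (i : ℕ) * v ^ ((i : ℕ) + (d - (i : ℕ))) := by
          rw [mul_pow, pow_add]
          ring
      _ = _ := by rw [h1, one_pow]; ring
  apply Prod.ext
  · simp only [FH]
    rw [Finset.mul_sum]
    refine Finset.sum_congr rfl fun i _ => ?_
    rw [key i]
    ring
  · simp only [FH]
    rw [Finset.mul_sum]
    refine Finset.sum_congr rfl fun i _ => ?_
    rw [key i]
    ring

lemma iter_ne (d : ℕ) (x : WW d) (hx : Ndg d x) (N : ℕ) (p : ℂ × ℂ) (hp : p ≠ 0) :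
    (FH d x)^[N] p ≠ 0 := by
  induction N with
  | zero => exact hp
  | succ N ih =>
    rw [Function.iterate_succ_apply']
    exact fun h => ih (hx _ h)

/-- the points of the projective line mapped to `q` -/
lemma lines (d : ℕ) (hd : 1 ≤ d) (x : WW d) (hx : Ndg d x) (q : ℂ × ℂ) (hq : q ≠ 0) :
    ∃ S : Finset (ℂ × ℂ), (∀ s ∈ S, s ≠ 0) ∧ ∀ p : ℂ × ℂ, p ≠ 0 →
      (FH d x p).1 * q.2 = (FH d x p).2 * q.1 → ∃ s ∈ S, p.1 * s.2 = p.2 * s.1 := by
  classical
  set P : ℂ[X] := ∑ i : Fin (d + 1), C (x (Sum.inl i) * q.2 - x (Sum.inr i) * q.1) * X ^ (i : ℕ)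
    with hP
  have hP0 : P ≠ 0 := by
    obtain ⟨i, hi⟩ := not_prop d hd x hx q hq
    intro h0
    have h1 : P.coeff i = x (Sum.inl i) * q.2 - x (Sum.inr i) * q.1 := by
      rw [hP, finsetSum_coeff]
      rw [Finset.sum_eq_single i]
      · rw [coeff_C_mul, coeff_X_pow, if_pos rfl, mul_one]
      · intro j _ hj
        have h2 : (j : ℕ) ≠ i := fun e => hj (Fin.ext e)
        rw [coeff_C_mul, coeff_X_pow, if_neg (fun e => h2 e.symm), mul_zero]
      · intro h'
        exact absurd (Finset.mem_univ _) h'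
    rw [h0, coeff_zero] at h1
    exact hi (sub_eq_zero.mp h1.symm)
  refine ⟨insert (1, 0) (P.roots.toFinset.image fun z => (z, 1)), ?_, ?_⟩
  · intro s hs
    rcases Finset.mem_insert.mp hs with e | e
    · rw [e]
      simp
    · obtain ⟨z, _, rfl⟩ := Finset.mem_image.mp e
      simp
  · intro p hp hpq
    by_cases h2 : p.2 = 0
    · refine ⟨(1, 0), Finset.mem_insert_self _ _, ?_⟩
      simp [h2]
    · refine ⟨(p.1 / p.2, 1), Finset.mem_insert_of_mem (Finset.mem_image.mpr ⟨p.1 / p.2, ?_, rfl⟩), ?_⟩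
      · rw [Multiset.mem_toFinset, mem_roots hP0]
        have h3 : FH d x p = ((p.2 ^ d) * (FH d x (p.1 / p.2, 1)).1, (p.2 ^ d) * (FH d x (p.1 / p.2, 1)).2) := by
          rw [← FH_hom, div_mul_cancel₀ _ h2]
        rw [h3] at hpq
        have h4 : (FH d x (p.1 / p.2, 1)).1 * q.2 = (FH d x (p.1 / p.2, 1)).2 * q.1 := by
          have h5 : p.2 ^ d ≠ 0 := pow_ne_zero _ h2
          apply mul_left_cancel₀ h5
          linear_combination hpq
        show P.eval (p.1 / p.2) = 0
        rw [hP, eval_finsetSum]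
        have h6 := sub_eq_zero.mpr h4
        simp only [FH, Finset.sum_mul] at h6
        rw [← Finset.sum_sub_distrib] at h6
        rw [← h6]
        refine Finset.sum_congr rfl fun i _ => ?_
        simp
        ring
      · field_simp

lemma fin_pre (d : ℕ) (hd : 1 ≤ d) (x : WW d) (hx : Ndg d x) (N : ℕ) :
    ∀ q : ℂ × ℂ, q ≠ 0 →
      {z : ℂ | ((FH d x)^[N] (z, 1)).1 * q.2 = ((FH d x)^[N] (z, 1)).2 * q.1}.Finite := by
  induction N with
  | zero =>
    intro q hq
    by_cases h2 : q.2 = 0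
    · have h1 : q.1 ≠ 0 := fun h1 => hq (Prod.ext h1 h2)
      have : {z : ℂ | ((FH d x)^[0] (z, 1)).1 * q.2 = ((FH d x)^[0] (z, 1)).2 * q.1} = ∅ := by
        ext z
        simp [h2, h1, eq_comm]
      rw [this]
      exact Set.finite_empty
    · refine (Set.finite_singleton (q.1 / q.2)).subset ?_
      intro z hz
      have hz' : z * q.2 = 1 * q.1 := hz
      rw [Set.mem_singleton_iff, eq_div_iff h2]
      linear_combination hz'
  | succ N ih =>
    intro q hq
    obtain ⟨S, hS, hS'⟩ := lines d hd x hx q hq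
    have hfin : (⋃ s ∈ S, {z : ℂ | ((FH d x)^[N] (z, 1)).1 * s.2 = ((FH d x)^[N] (z, 1)).2 * s.1}).Finite := by
      refine Set.Finite.biUnion S.finite_toSet ?_
      intro s hs
      exact ih s (hS s hs)
    refine hfin.subset ?_
    intro z hz
    have hz' : ((FH d x)^[N + 1] (z, 1)).1 * q.2 = ((FH d x)^[N + 1] (z, 1)).2 * q.1 := hz
    rw [Function.iterate_succ_apply'] at hz'
    obtain ⟨s, hs, hs'⟩ := hS' _ (iter_ne d x hx N (z, 1) (by simp)) hz'
    exact Set.mem_biUnion hs hs'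

end Bad

theorem bad_holds : StBAD := by
  intro d N x B hd hx hB
  have hfin : (⋃ w ∈ B, {z : ℂ | ((FH d x)^[N] (z, 1)).1 * (w, (1:ℂ)).2 =
      ((FH d x)^[N] (z, 1)).2 * (w, (1:ℂ)).1}).Finite := by
    refine Set.Finite.biUnion hB ?_
    intro w _
    exact Bad.fin_pre d hd x hx N (w, 1) (by simp)
  refine hfin.subset ?_
  rintro z ⟨w, hw, hz⟩
  refine Set.mem_biUnion hw ?_
  have := hz.2
  show ((FH d x)^[N] (z, 1)).1 * 1 = ((FH d x)^[N] (z, 1)).2 * w
  rw [this]
  ring

end Pool.Agent.H713R4.RB
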