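import Mathlib
import Pool.Agent.H713R4.RB.Defs2

/-! Task CROSS: polynomial kernel vector. -/

set_option autoImplicit false

open Topology Filter Metric Set Polynomial MeasureTheory

namespace Pool.Agent.H713R4.RB

namespace CROSSaux

open Matrix

theorem sel_rows {ι κ : Type} [Fintype ι] [Fintype κ] (A : Matrix ι κ ℂ) :
    ∃ (r : ℕ) (e : Fin r → ι), r = A.rank ∧ LinearIndependent ℂ (fun a => A.row (e a)) := by
  obtain ⟨f, hf, _, hLI⟩ := Submodule.exists_fun_fin_finrank_span_eq ℂ (Set.range A.row)
  choose e he using hf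
  refine ⟨_, e, ?_, ?_⟩
  · rw [Matrix.rank_eq_finrank_span_row]
  · have : (fun a => A.row (e a)) = f := by
      funext a; exact he a
    rw [this]
    exact hLI

theorem minor {ι κ : Type} [Fintype ι] [Fintype κ] (A : Matrix ι κ ℂ) :
    ∃ (r : ℕ) (e : Fin r → ι) (g : Fin r → κ), r = A.rank ∧ (A.submatrix e g).det ≠ 0 := by
  classical
  obtain ⟨r, e, hr, hLI⟩ := sel_rows A
  have hB : (A.submatrix e id).rank = r := by
    have h1 : LinearIndependent ℂ (A.submatrix e id).row := hLI
    rw [h1.rank_matrix, Fintype.card_fin]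
  obtain ⟨r', g, hr', hLI'⟩ := sel_rows (A.submatrix e id)ᵀ
  rw [Matrix.rank_transpose, hB] at hr'
  subst hr'
  refine ⟨r', e, g, hr, ?_⟩
  have h2 : LinearIndependent ℂ (A.submatrix e g).col := hLI'
  rw [Matrix.linearIndependent_cols_iff_isUnit, Matrix.isUnit_iff_isUnit_det] at h2
  exact h2.ne_zero

theorem det_zero {ι κ : Type} [Fintype ι] [DecidableEq ι] [Fintype κ] [DecidableEq κ]
    (A : Matrix ι κ ℂ) (m : ℕ) (e : Fin m → ι) (g : Fin m → κ) (h : A.rank < m) :
    (A.submatrix e g).det = 0 := by
  by_contra hne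
  have h1 := Matrix.rank_of_det_ne_zero hne
  rw [Fintype.card_fin] at h1
  have h2 : A.submatrix e g = (Matrix.of fun (a : Fin m) (i : ι) => if e a = i then (1 : ℂ) else 0) *
      (A * (Matrix.of fun (j : κ) (b : Fin m) => if j = g b then (1 : ℂ) else 0)) := by
    ext a b
    rw [Matrix.mul_apply]
    simp [Matrix.mul_apply]
  rw [h2] at h1
  have h3 := Matrix.rank_mul_le_right
    (Matrix.of fun (a : Fin m) (i : ι) => if e a = i then (1 : ℂ) else 0)
    (A * (Matrix.of fun (j : κ) (b : Fin m) => if j = g b then (1 : ℂ) else 0))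
  have h4 := Matrix.rank_mul_le_left A
    (Matrix.of fun (j : κ) (b : Fin m) => if j = g b then (1 : ℂ) else 0)
  omega

theorem diff_prod {E ι : Type} [NormedAddCommGroup E] [NormedSpace ℂ E] (s : Finset ι)
    (f : ι → E → ℂ) (h : ∀ i ∈ s, Differentiable ℂ (f i)) :
    Differentiable ℂ (fun x => ∏ i ∈ s, f i x) := by
  classical
  induction s using Finset.induction_on with
  | empty => simp only [Finset.prod_empty]; exact differentiable_const _
  | insert a s ha ih =>
    simp only [Finset.prod_insert ha]
    exact (h a (Finset.mem_insert_self a s)).mul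
      (ih fun i hi => h i (Finset.mem_insert_of_mem hi))

end CROSSaux

open CROSSaux in
theorem cross_holds : StCROSS := by
  classical
  intro ι κ _ _ _ _ S A₂ _ hrank hlt
  obtain ⟨r, e, g, hr, hdet⟩ := minor (Matrix.of A₂)
  rw [← hr] at hlt hrank
  obtain ⟨k, hk⟩ : ∃ k : κ, ∀ b, g b ≠ k := by
    by_contra hne
    push Not at hne
    have : Function.Surjective g := fun k => hne k
    have := Fintype.card_le_of_surjective g this
    rw [Fintype.card_fin] at this
    omega
  set g' : Fin (r + 1) → κ := Fin.cons k g with hg'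
  refine ⟨fun A l => ∑ c : Fin (r + 1), if g' c = l then (-1) ^ (c : ℕ) *
    ((Matrix.of fun (a b : Fin r) => A (e a) (g' (c.succAbove b))) : Matrix _ _ ℂ).det else 0,
    k, ?_, ?_, ?_⟩
  · rw [differentiable_pi]
    intro l
    refine Differentiable.fun_sum fun c _ => ?_
    split_ifs
    · refine (differentiable_const _).mul ?_
      simp only [Matrix.det_apply']
      refine Differentiable.fun_sum fun σ _ => ?_
      refine (differentiable_const _).mul ?_
      apply diff_prod
      intro i _
      simp only [Matrix.of_apply]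
      fun_prop
    · exact differentiable_const _
  · simp only
    rw [Finset.sum_eq_single 0]
    · rw [if_pos (by rw [hg']; rfl)]
      simp only [Fin.val_zero, pow_zero, one_mul]
      have : (Matrix.of fun (a b : Fin r) => A₂ (e a) (g' ((0 : Fin (r + 1)).succAbove b)) :
          Matrix _ _ ℂ) = (Matrix.of A₂).submatrix e g := by
        ext a b
        simp [hg']
      rw [this]
      exact hdet
    · intro c _ hc
      obtain ⟨b, rfl⟩ := Fin.exists_succ_eq.2 hc
      rw [if_neg]
      rw [hg', Fin.cons_succ]
      exact hk b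
    · intro h; exact absurd (Finset.mem_univ _) h
  · intro A hA i
    have h1 : ((Matrix.of A).submatrix (Fin.cons i e : Fin (r + 1) → ι) g').det = 0 :=
      det_zero _ _ _ _ (Nat.lt_succ_of_le (hrank A hA))
    rw [Matrix.det_succ_row_zero] at h1
    refine Eq.trans ?_ h1
    simp only
    have h2 : ∀ j, A i j * (∑ c : Fin (r + 1), if g' c = j then (-1) ^ (c : ℕ) *
        ((Matrix.of fun (a b : Fin r) => A (e a) (g' (c.succAbove b))) : Matrix _ _ ℂ).det else 0) =
        ∑ c : Fin (r + 1), if g' c = j then A i j * ((-1) ^ (c : ℕ) *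
        ((Matrix.of fun (a b : Fin r) => A (e a) (g' (c.succAbove b))) : Matrix _ _ ℂ).det) else 0 := by
      intro j
      rw [Finset.mul_sum]
      refine Finset.sum_congr rfl fun c _ => ?_
      split_ifs
      · rfl
      · rw [mul_zero]
    rw [Finset.sum_congr rfl fun j _ => h2 j, Finset.sum_comm]
    refine Finset.sum_congr rfl fun c _ => ?_
    rw [Finset.sum_ite_eq]
    simp only [Finset.mem_univ, if_true]
    have h3 : (Matrix.of fun (a b : Fin r) => A (e a) (g' (c.succAbove b)) : Matrix _ _ ℂ) =
        ((Matrix.of A).submatrix (Fin.cons i e : Fin (r + 1) → ι) g').submatrix Fin.succ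
          c.succAbove := by
      ext a b
      simp
    rw [h3]
    simp only [Matrix.submatrix_apply, Matrix.of_apply, Fin.cons_zero]
    ring

end Pool.Agent.H713R4.RB
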