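import Mathlib
import Pool.Agent.H713R4.RB.Defs2

/-! Task DEN: relations in the family f+s. -/

set_option autoImplicit false

open Topology Filter Metric Set Polynomial MeasureTheory

namespace Pool.Agent.H713R4.RB

namespace DENaux

/-! ### algebra -/

theorem FH_tr (d : ℕ) (x : WW d) (s : ℂ) (p : ℂ × ℂ) :
    FH d (tr d x s) p = ((FH d x p).1 + s * (FH d x p).2, (FH d x p).2) := by
  unfold FH tr
  simp only [Sum.elim_inl, Sum.elim_inr, Prod.mk.injEq, and_true]
  rw [Finset.mul_sum, ← Finset.sum_add_distrib]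
  refine Finset.sum_congr rfl fun i _ => ?_
  ring

theorem pow_split (d : ℕ) (c u v : ℂ) (i : Fin (d + 1)) :
    (c * u) ^ (i : ℕ) * (c * v) ^ (d - (i : ℕ)) = c ^ d * (u ^ (i : ℕ) * v ^ (d - (i : ℕ))) := by
  have h : c ^ d = c ^ (i : ℕ) * c ^ (d - (i : ℕ)) := by
    rw [← pow_add]
    congr 1
    omega
  rw [h, mul_pow, mul_pow]
  ring

theorem FH_smul (d : ℕ) (x : WW d) (c : ℂ) (p : ℂ × ℂ) :
    FH d x (c • p) = (c ^ d) • FH d x p := by
  unfold FH
  simp only [Prod.smul_fst, Prod.smul_snd, smul_eq_mul, Prod.smul_mk, pow_split]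
  rw [Finset.mul_sum, Finset.mul_sum]
  have h : ∀ f : Fin (d + 1) → ℂ, ∑ i : Fin (d + 1), f i * (c ^ d * (p.1 ^ (i : ℕ) *
      p.2 ^ (d - (i : ℕ)))) = ∑ i : Fin (d + 1), c ^ d * (f i * (p.1 ^ (i : ℕ) *
      p.2 ^ (d - (i : ℕ)))) := fun f => Finset.sum_congr rfl fun i _ => by ring
  rw [h, h]

theorem coeff_sum (d : ℕ) (f : Fin (d + 1) → ℂ) (j : Fin (d + 1)) :
    (∑ i : Fin (d + 1), C (f i) * X ^ (i : ℕ)).coeff (j : ℕ) = f j := by
  rw [Polynomial.finsetSum_coeff, Finset.sum_eq_single j]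
  · simp
  · intro i _ hij
    rw [Polynomial.coeff_C_mul_X_pow, if_neg]
    intro h
    exact hij (Fin.ext h.symm)
  · simp

theorem coeff_sum_gt (d : ℕ) (f : Fin (d + 1) → ℂ) (j : ℕ) (hj : d < j) :
    (∑ i : Fin (d + 1), C (f i) * X ^ (i : ℕ)).coeff j = 0 := by
  rw [Polynomial.finsetSum_coeff]
  refine Finset.sum_eq_zero fun i _ => ?_
  rw [Polynomial.coeff_C_mul_X_pow, if_neg]
  omega

/-- the coefficient of a product with a derivative -/
theorem coeff_der_mul (e : ℕ) (P Q : ℂ[X]) (hP : ∀ j, e + 2 < j → P.coeff j = 0)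
    (hQ : ∀ j, e + 2 < j → Q.coeff j = 0) :
    (derivative P * Q).coeff (2 * e + 2) =
      (e + 2) * P.coeff (e + 2) * Q.coeff (e + 1) + (e + 1) * P.coeff (e + 1) * Q.coeff (e + 2) := by
  rw [Polynomial.coeff_mul]
  have hsub : ({(e + 1, e + 1), (e, e + 2)} : Finset (ℕ × ℕ)) ⊆
      Finset.HasAntidiagonal.antidiagonal (2 * e + 2) := by
    intro q hq
    simp only [Finset.mem_insert, Finset.mem_singleton] at hq
    rw [Finset.HasAntidiagonal.mem_antidiagonal]
    rcases hq with rfl | rfl <;> simp <;> omega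
  rw [← Finset.sum_subset hsub]
  · rw [Finset.sum_pair (by simp)]
    simp only [Polynomial.coeff_derivative]
    push_cast
    ring
  · rintro ⟨i, j⟩ hq hn
    rw [Finset.HasAntidiagonal.mem_antidiagonal] at hq
    simp only [Finset.mem_insert, Finset.mem_singleton, Prod.mk.injEq, not_or, not_and] at hn hq
    rw [Polynomial.coeff_derivative]
    rcases Nat.lt_or_ge (e + 2) (i + 1) with h1 | h1
    · rw [hP (i + 1) h1]; ring
    · rcases Nat.lt_or_ge (e + 2) j with h2 | h2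
      · rw [hQ j h2]; ring
      · exfalso
        have h3 := hn.1
        have h4 := hn.2
        have : i = e + 1 ∨ i = e := by omega
        rcases this with h5 | h5
        · exact h3 h5 (by omega)
        · exact h4 h5 (by omega)

theorem bet_eq (e : ℕ) (x : WW (e + 2)) :
    bet (e + 2) x = x (Sum.inl (Fin.last (e + 2))) * x (Sum.inr ⟨e + 1, by omega⟩) -
      x (Sum.inl ⟨e + 1, by omega⟩) * x (Sum.inr (Fin.last (e + 2))) := by
  unfold bet wr
  have h2 : 2 * (e + 2) - 2 = 2 * e + 2 := by omega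
  rw [h2, Polynomial.coeff_sub]
  have hP : ∀ j, e + 2 < j → (PP (e + 2) x).coeff j = 0 := fun j hj =>
    coeff_sum_gt (e + 2) (fun i => x (Sum.inl i)) j hj
  have hQ : ∀ j, e + 2 < j → (QQ (e + 2) x).coeff j = 0 := fun j hj =>
    coeff_sum_gt (e + 2) (fun i => x (Sum.inr i)) j hj
  rw [coeff_der_mul e _ _ hP hQ, mul_comm (PP (e + 2) x), coeff_der_mul e _ _ hQ hP]
  have p2 : (PP (e + 2) x).coeff (e + 2) = x (Sum.inl (Fin.last (e + 2))) :=
    coeff_sum (e + 2) (fun i => x (Sum.inl i)) (Fin.last (e + 2))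
  have p1 : (PP (e + 2) x).coeff (e + 1) = x (Sum.inl ⟨e + 1, by omega⟩) :=
    coeff_sum (e + 2) (fun i => x (Sum.inl i)) ⟨e + 1, by omega⟩
  have q2 : (QQ (e + 2) x).coeff (e + 2) = x (Sum.inr (Fin.last (e + 2))) :=
    coeff_sum (e + 2) (fun i => x (Sum.inr i)) (Fin.last (e + 2))
  have q1 : (QQ (e + 2) x).coeff (e + 1) = x (Sum.inr ⟨e + 1, by omega⟩) :=
    coeff_sum (e + 2) (fun i => x (Sum.inr i)) ⟨e + 1, by omega⟩
  rw [p2, p1, q2, q1]
  ring

/-- the map in the coordinate at infinity -/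
noncomputable def Fi (d : ℕ) (x : WW d) (t : ℂ) : ℂ := (FH d x (1, t)).1 / (FH d x (1, t)).2

theorem poly_deriv (e : ℕ) (f : Fin (e + 2 + 1) → ℂ) :
    HasStrictDerivAt (fun t : ℂ => ∑ i : Fin (e + 2 + 1), f i * ((1 : ℂ) ^ (i : ℕ) *
      t ^ (e + 2 - (i : ℕ)))) (f ⟨e + 1, by omega⟩) 0 := by
  have h : HasStrictDerivAt (fun t : ℂ => ∑ i : Fin (e + 2 + 1), f i * ((1 : ℂ) ^ (i : ℕ) *
      t ^ (e + 2 - (i : ℕ)))) (∑ i : Fin (e + 2 + 1), f i * ((1 : ℂ) ^ (i : ℕ) *
      (((e + 2 - (i : ℕ) : ℕ) : ℂ) * (0 : ℂ) ^ (e + 2 - (i : ℕ) - 1)))) 0 := by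
    apply HasStrictDerivAt.fun_sum
    intro i _
    exact ((hasStrictDerivAt_pow _ _).const_mul _).const_mul _
  have hs : (∑ i : Fin (e + 2 + 1), f i * ((1 : ℂ) ^ (i : ℕ) *
      (((e + 2 - (i : ℕ) : ℕ) : ℂ) * (0 : ℂ) ^ (e + 2 - (i : ℕ) - 1)))) = f ⟨e + 1, by omega⟩ := by
    rw [Finset.sum_eq_single (⟨e + 1, by omega⟩ : Fin (e + 2 + 1))]
    · have h1 : e + 2 - (e + 1) = 1 := by omega
      simp [h1]
    · intro i _ hi
      have hne : (i : ℕ) ≠ e + 1 := fun h => hi (Fin.ext h)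
      have hlt := i.2
      rcases Nat.lt_or_ge (i : ℕ) (e + 1) with h1 | h1
      · have : e + 2 - (i : ℕ) - 1 ≠ 0 := by omega
        rw [zero_pow this]; ring
      · have : e + 2 - (i : ℕ) = 0 := by omega
        rw [this]; simp
    · simp
  rw [hs] at h
  exact h

theorem poly_zero (d : ℕ) (f : Fin (d + 1) → ℂ) :
    ∑ i : Fin (d + 1), f i * ((1 : ℂ) ^ (i : ℕ) * (0 : ℂ) ^ (d - (i : ℕ))) = f (Fin.last d) := by
  rw [Finset.sum_eq_single (Fin.last d)]
  · simp
  · intro i _ hi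
    have h1 : (i : ℕ) ≠ d := fun h => hi (Fin.ext h)
    have : d - (i : ℕ) ≠ 0 := by omega
    rw [zero_pow this]; ring
  · simp

theorem exists_r (d : ℕ) (x : WW d) (hd : 2 ≤ d) (hq : x (Sum.inr (Fin.last d)) ≠ 0)
    (hb : bet d x ≠ 0) : ContinuousAt (Fi d x) 0 ∧ ∃ r : ℝ, 0 < r ∧
      (∀ t : ℂ, ‖t‖ < r → (FH d x (1, t)).2 ≠ 0) ∧
      (∀ t : ℂ, ‖t‖ < r → ‖Fi d x t - Fi d x 0‖ < 1) ∧
      (∀ t t' : ℂ, ‖t‖ < r → ‖t'‖ < r → Fi d x t = Fi d x t' → t = t') := by
  obtain ⟨e, rfl⟩ : ∃ e, d = e + 2 := ⟨d - 2, by omega⟩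
  have hP := poly_deriv e (fun i => x (Sum.inl i))
  have hQ := poly_deriv e (fun i => x (Sum.inr i))
  have hQ0 : (FH (e + 2) x (1, 0)).2 = x (Sum.inr (Fin.last (e + 2))) :=
    poly_zero (e + 2) (fun i => x (Sum.inr i))
  have hP0 : (FH (e + 2) x (1, 0)).1 = x (Sum.inl (Fin.last (e + 2))) :=
    poly_zero (e + 2) (fun i => x (Sum.inl i))
  have hne : (FH (e + 2) x (1, 0)).2 ≠ 0 := by rw [hQ0]; exact hq
  have hder : HasStrictDerivAt (Fi (e + 2) x) _ 0 := hP.div hQ hne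
  set D : ℂ := (x (Sum.inl ⟨e + 1, by omega⟩) * (FH (e + 2) x (1, 0)).2 -
    (FH (e + 2) x (1, 0)).1 * x (Sum.inr ⟨e + 1, by omega⟩)) / (FH (e + 2) x (1, 0)).2 ^ 2 with hD
  have hder' : HasStrictDerivAt (Fi (e + 2) x) D 0 := hder
  have hDne : D ≠ 0 := by
    rw [hD, hQ0, hP0]
    apply div_ne_zero _ (pow_ne_zero _ hq)
    intro h
    apply hb
    rw [bet_eq]
    linear_combination -h
  have hcont : ContinuousAt (Fi (e + 2) x) 0 := hder'.hasDerivAt.continuousAt
  refine ⟨hcont, ?_⟩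
  have hQc : ContinuousAt (fun t : ℂ => (FH (e + 2) x (1, t)).2) 0 := hQ.hasDerivAt.continuousAt
  have ev1 : ∀ᶠ t in 𝓝 (0 : ℂ), (FH (e + 2) x (1, t)).2 ≠ 0 := hQc.eventually_ne hne
  have ev2 : ∀ᶠ t in 𝓝 (0 : ℂ), ‖Fi (e + 2) x t - Fi (e + 2) x 0‖ < 1 := by
    have := hcont.eventually (Metric.ball_mem_nhds (Fi (e + 2) x 0) one_pos)
    filter_upwards [this] with t ht
    rwa [← dist_eq_norm]
  have ev3 : ∀ᶠ q in 𝓝 ((0 : ℂ), (0 : ℂ)),
      ‖Fi (e + 2) x q.1 - Fi (e + 2) x q.2 - (q.1 - q.2) • D‖ ≤ ‖D‖ / 2 * ‖q.1 - q.2‖ := by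
    have h1 := hder'.isLittleO
    exact h1.def (by positivity)
  rw [Metric.eventually_nhds_iff_ball] at ev1 ev2 ev3
  obtain ⟨r1, hr1, H1⟩ := ev1
  obtain ⟨r2, hr2, H2⟩ := ev2
  obtain ⟨r3, hr3, H3⟩ := ev3
  refine ⟨min r1 (min r2 r3), by positivity, ?_, ?_, ?_⟩
  · intro t ht
    exact H1 t (by rw [mem_ball_zero_iff]; exact lt_of_lt_of_le ht (min_le_left _ _))
  · intro t ht
    exact H2 t (by
      rw [mem_ball_zero_iff]
      exact lt_of_lt_of_le ht ((min_le_right _ _).trans (min_le_left _ _)))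
  · intro t t' ht ht' heq
    have hm : (t, t') ∈ ball ((0 : ℂ), (0 : ℂ)) r3 := by
      rw [← ball_prod_same]
      refine ⟨?_, ?_⟩ <;> rw [mem_ball_zero_iff]
      · exact lt_of_lt_of_le ht ((min_le_right _ _).trans (min_le_right _ _))
      · exact lt_of_lt_of_le ht' ((min_le_right _ _).trans (min_le_right _ _))
    have h1 := H3 (t, t') hm
    simp only [heq, sub_self, zero_sub, norm_neg, smul_eq_mul, norm_mul] at h1
    have hDp : 0 < ‖D‖ := norm_pos_iff.mpr hDne
    have h2 : ‖t - t'‖ ≤ 0 := by nlinarith [norm_nonneg (t - t')]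
    exact sub_eq_zero.mp (norm_le_zero_iff.mp h2)

/-! ### the region near infinity -/

/-- homogeneous coordinates of a point near infinity -/
def Ob (r : ℝ) (p : ℂ × ℂ) : Prop := ‖p.2‖ < r * ‖p.1‖

theorem Ob_ne {r : ℝ} {p : ℂ × ℂ} (h : Ob r p) : p.1 ≠ 0 := by
  intro h0
  unfold Ob at h
  rw [h0, norm_zero, mul_zero] at h
  exact absurd h (not_lt.mpr (norm_nonneg _))

theorem Ob_mono {r r' : ℝ} (hr : r' ≤ r) {p : ℂ × ℂ} (h : Ob r' p) : Ob r p := by
  unfold Ob at *
  exact lt_of_lt_of_le h (mul_le_mul_of_nonneg_right hr (norm_nonneg _))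

theorem Ob_tau {r : ℝ} {p : ℂ × ℂ} (h : Ob r p) : ‖p.2 / p.1‖ < r := by
  have h1 := norm_pos_iff.mpr (Ob_ne h)
  rw [norm_div, div_lt_iff₀ h1]
  exact h

theorem FH_Ob (d : ℕ) (x : WW d) {r : ℝ} {p : ℂ × ℂ} (h : Ob r p) :
    FH d x p = (p.1 ^ d) • FH d x (1, p.2 / p.1) := by
  rw [← FH_smul]
  congr 1
  have := Ob_ne h
  ext
  · simp
  · simp only [Prod.smul_snd, smul_eq_mul]
    field_simp

theorem Fi_Ob (d : ℕ) (x : WW d) {r : ℝ} {p : ℂ × ℂ} (h : Ob r p) :
    (FH d x p).1 / (FH d x p).2 = Fi d x (p.2 / p.1) := by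
  rw [FH_Ob d x h]
  unfold Fi
  simp only [Prod.smul_fst, Prod.smul_snd, smul_eq_mul]
  exact mul_div_mul_left _ _ (pow_ne_zero _ (Ob_ne h))

/-- one step near infinity -/
theorem step_Ob (d : ℕ) (x : WW d) {r r' : ℝ} (hr' : 0 < r')
    (h1 : ∀ t : ℂ, ‖t‖ < r → (FH d x (1, t)).2 ≠ 0)
    (h2 : ∀ t : ℂ, ‖t‖ < r → ‖Fi d x t - Fi d x 0‖ < 1)
    (s : ℂ) (hs : ‖Fi d x 0‖ + 1 + 1 / r' < ‖s‖) (p : ℂ × ℂ) (hp : Ob r p) :
    Ob r' (FH d (tr d x s) p) ∧ (FH d (tr d x s) p).2 ≠ 0 ∧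
      ‖(FH d (tr d x s) p).1 / (FH d (tr d x s) p).2 - s‖ ≤ ‖Fi d x 0‖ + 1 := by
  have hQ : (FH d x p).2 ≠ 0 := by
    rw [FH_Ob d x hp]
    simp only [Prod.smul_snd, smul_eq_mul]
    exact mul_ne_zero (pow_ne_zero _ (Ob_ne hp)) (h1 _ (Ob_tau hp))
  have hquot : (FH d (tr d x s) p).1 / (FH d (tr d x s) p).2 = Fi d x (p.2 / p.1) + s := by
    rw [FH_tr]
    simp only
    rw [add_div, mul_div_assoc, div_self hQ, mul_one, Fi_Ob d x hp]
  have hFi : ‖Fi d x (p.2 / p.1)‖ ≤ ‖Fi d x 0‖ + 1 := by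
    have h3 := h2 _ (Ob_tau hp)
    have h4 := norm_add_le (Fi d x (p.2 / p.1) - Fi d x 0) (Fi d x 0)
    rw [sub_add_cancel] at h4
    linarith
  have hQ' : (FH d (tr d x s) p).2 ≠ 0 := by rw [FH_tr]; exact hQ
  refine ⟨?_, hQ', ?_⟩
  · have h5 : 1 / r' < ‖(FH d (tr d x s) p).1 / (FH d (tr d x s) p).2‖ := by
      rw [hquot]
      have h6 := norm_sub_norm_le s (-(Fi d x (p.2 / p.1)))
      rw [norm_neg, sub_neg_eq_add, add_comm s] at h6
      linarith
    have hQn := norm_pos_iff.mpr hQ'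
    rw [norm_div, div_lt_div_iff₀ hr' hQn] at h5
    unfold Ob
    linarith
  · rw [hquot, add_sub_cancel_right]
    exact hFi

theorem first_Ob (d : ℕ) (x : WW d) (hN : Ndg d x) {r' : ℝ} (hr' : 0 < r') (p : ℂ × ℂ)
    (hp : p ≠ 0) : ∃ S : ℝ, ∀ s : ℂ, S < ‖s‖ → Ob r' (FH d (tr d x s) p) := by
  by_cases hQ : (FH d x p).2 = 0
  · refine ⟨0, fun s _ => ?_⟩
    have hP : (FH d x p).1 ≠ 0 := by
      intro hP
      exact hp (hN p (Prod.ext hP hQ))
    unfold Ob
    rw [FH_tr]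
    simp only [hQ, norm_zero, mul_zero, add_zero]
    exact mul_pos hr' (norm_pos_iff.mpr hP)
  · have hQn := norm_pos_iff.mpr hQ
    refine ⟨1 / r' + ‖(FH d x p).1‖ / ‖(FH d x p).2‖, fun s hs => ?_⟩
    unfold Ob
    rw [FH_tr]
    simp only
    have h1 := norm_sub_norm_le (s * (FH d x p).2) (-(FH d x p).1)
    rw [norm_neg, sub_neg_eq_add, add_comm (s * _), norm_mul] at h1
    have h2 : (1 / r' + ‖(FH d x p).1‖ / ‖(FH d x p).2‖) * ‖(FH d x p).2‖ <
        ‖s‖ * ‖(FH d x p).2‖ := mul_lt_mul_of_pos_right hs hQn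
    rw [add_mul, div_mul_cancel₀ _ hQn.ne'] at h2
    have h3 : 1 / r' * ‖(FH d x p).2‖ < ‖(FH d x p).1 + s * (FH d x p).2‖ := by linarith
    rw [one_div, inv_mul_lt_iff₀ hr'] at h3
    exact h3

/-- injectivity near infinity -/
theorem inj_Ob (d : ℕ) (x : WW d) {r : ℝ}
    (h1 : ∀ t : ℂ, ‖t‖ < r → (FH d x (1, t)).2 ≠ 0)
    (h3 : ∀ t t' : ℂ, ‖t‖ < r → ‖t'‖ < r → Fi d x t = Fi d x t' → t = t')
    (s : ℂ) (p p' : ℂ × ℂ) (hp : Ob r p) (hp' : Ob r p') (c : ℂ) (hc : c ≠ 0)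
    (h : FH d (tr d x s) p = c • FH d (tr d x s) p') : ∃ c' : ℂ, c' ≠ 0 ∧ p = c' • p' := by
  have hQ : ∀ p : ℂ × ℂ, Ob r p → (FH d x p).2 ≠ 0 := by
    intro p hp
    rw [FH_Ob d x hp]
    simp only [Prod.smul_snd, smul_eq_mul]
    exact mul_ne_zero (pow_ne_zero _ (Ob_ne hp)) (h1 _ (Ob_tau hp))
  have hquot : ∀ p : ℂ × ℂ, Ob r p → (FH d (tr d x s) p).1 / (FH d (tr d x s) p).2 =
      Fi d x (p.2 / p.1) + s := by
    intro p hp
    rw [FH_tr]
    simp only
    rw [add_div, mul_div_assoc, div_self (hQ p hp), mul_one, Fi_Ob d x hp]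
  have e1 : (FH d (tr d x s) p).1 / (FH d (tr d x s) p).2 =
      (FH d (tr d x s) p').1 / (FH d (tr d x s) p').2 := by
    rw [h]
    simp only [Prod.smul_fst, Prod.smul_snd, smul_eq_mul]
    exact mul_div_mul_left _ _ hc
  rw [hquot p hp, hquot p' hp'] at e1
  have e2 := h3 _ _ (Ob_tau hp) (Ob_tau hp') (add_right_cancel e1)
  have n1 := Ob_ne hp
  have n2 := Ob_ne hp'
  refine ⟨p.1 / p'.1, div_ne_zero n1 n2, ?_⟩
  ext
  · simp only [Prod.smul_fst, smul_eq_mul]
    field_simp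
  · simp only [Prod.smul_snd, smul_eq_mul]
    rw [div_mul_eq_mul_div, mul_div_assoc, ← e2]
    field_simp

theorem iter_Ob (d : ℕ) (x : WW d) {r r' : ℝ} (hr' : 0 < r') (hrr : r' ≤ r)
    (h1 : ∀ t : ℂ, ‖t‖ < r → (FH d x (1, t)).2 ≠ 0)
    (h2 : ∀ t : ℂ, ‖t‖ < r → ‖Fi d x t - Fi d x 0‖ < 1)
    (s : ℂ) (hs : ‖Fi d x 0‖ + 1 + 1 / r' < ‖s‖) (p : ℂ × ℂ) (hp : Ob r' (FH d (tr d x s) p))
    (j : ℕ) : Ob r' ((FH d (tr d x s))^[j + 1] p) := by
  induction j with
  | zero => simpa using hp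
  | succ j ih =>
    rw [Function.iterate_succ_apply']
    exact (step_Ob d x hr' h1 h2 s hs _ (Ob_mono hrr ih)).1

/-- no relations for large `s` -/
theorem no_rel (d : ℕ) (x : WW d) (hd : 2 ≤ d) (hN : Ndg d x)
    (hq : x (Sum.inr (Fin.last d)) ≠ 0) (hb : bet d x ≠ 0) (p : ℂ × ℂ) (hp : p ≠ 0) :
    ∃ S : ℝ, ∀ s : ℂ, S < ‖s‖ → ∀ n m : ℕ, 1 ≤ m → ∀ c : ℂ, c ≠ 0 →
      (FH d (tr d x s))^[n + m] p ≠ c • (FH d (tr d x s))^[n] p := by
  obtain ⟨hcont, r, hr, h1, h2, h3⟩ := exists_r d x hd hq hb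
  -- the value at `p` is not taken near infinity
  obtain ⟨r', hr', hrr, hw⟩ : ∃ r' : ℝ, 0 < r' ∧ r' ≤ r ∧ ∀ t : ℂ, ‖t‖ < r' → t ≠ 0 →
      Fi d x t ≠ (FH d x p).1 / (FH d x p).2 := by
    by_cases hw : (FH d x p).1 / (FH d x p).2 = Fi d x 0
    · refine ⟨r, hr, le_rfl, fun t ht ht0 => ?_⟩
      rw [hw]
      intro h
      exact ht0 (h3 t 0 ht (by rw [norm_zero]; exact hr) h)
    · have := hcont.eventually_ne (fun h => hw h.symm)
      rw [Metric.eventually_nhds_iff_ball] at this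
      obtain ⟨r1, hr1, H1⟩ := this
      refine ⟨min r r1, lt_min hr hr1, min_le_left _ _, fun t ht _ => ?_⟩
      exact H1 t (by rw [mem_ball_zero_iff]; exact lt_of_lt_of_le ht (min_le_right _ _))
  obtain ⟨S, hS⟩ := first_Ob d x hN hr' p hp
  refine ⟨max S (‖Fi d x 0‖ + 1 + 1 / r'), fun s hs => ?_⟩
  have hs1 := hS s (lt_of_le_of_lt (le_max_left _ _) hs)
  have hs2 := lt_of_le_of_lt (le_max_right _ _) hs
  have hit := iter_Ob d x hr' hrr h1 h2 s hs2 p hs1
  -- relation at `1`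
  have key1 : ∀ m : ℕ, 1 ≤ m → ∀ c : ℂ, c ≠ 0 →
      (FH d (tr d x s))^[1 + m] p ≠ c • (FH d (tr d x s))^[1] p := by
    intro m hm c hc h
    obtain ⟨m', rfl⟩ : ∃ m', m = m' + 1 := ⟨m - 1, by omega⟩
    have hO := hit m'
    set p' := (FH d (tr d x s))^[m' + 1] p with hp'
    rw [show 1 + (m' + 1) = (m' + 1) + 1 by ring, Function.iterate_succ_apply', ← hp',
      Function.iterate_one] at h
    obtain ⟨-, hfin, -⟩ := step_Ob d x hr' h1 h2 s hs2 p' (Ob_mono hrr hO)
    have hQ : (FH d x p).2 ≠ 0 := by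
      intro h0
      rw [h, FH_tr d x s p] at hfin
      simp only [Prod.smul_mk, smul_eq_mul, h0, mul_zero, ne_eq, not_true_eq_false] at hfin
    -- finiteness of `p'`
    have hp'2 : p'.2 ≠ 0 := by
      rcases Nat.eq_zero_or_pos m' with h0 | h0
      · subst h0
        rw [hp', zero_add, Function.iterate_one, FH_tr]
        exact hQ
      · obtain ⟨m'', rfl⟩ : ∃ m'', m' = m'' + 1 := ⟨m' - 1, by omega⟩
        rw [hp', Function.iterate_succ_apply']
        exact (step_Ob d x hr' h1 h2 s hs2 _ (Ob_mono hrr (hit m''))).2.1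
    have e1 : (FH d (tr d x s) p').1 / (FH d (tr d x s) p').2 =
        (FH d (tr d x s) p).1 / (FH d (tr d x s) p).2 := by
      rw [h]
      simp only [Prod.smul_fst, Prod.smul_snd, smul_eq_mul]
      exact mul_div_mul_left _ _ hc
    have hQ' : (FH d x p').2 ≠ 0 := by
      have := hfin
      rw [FH_tr] at this
      exact this
    rw [FH_tr, FH_tr] at e1
    simp only at e1
    rw [add_div, mul_div_assoc, div_self hQ', mul_one, add_div, mul_div_assoc, div_self hQ,
      mul_one, Fi_Ob d x hO] at e1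
    exact hw _ (Ob_tau hO) (div_ne_zero hp'2 (Ob_ne hO)) (add_right_cancel e1)
  -- relation at `n + 1`
  have key2 : ∀ n m : ℕ, 1 ≤ m → ∀ c : ℂ, c ≠ 0 →
      (FH d (tr d x s))^[(n + 1) + m] p ≠ c • (FH d (tr d x s))^[n + 1] p := by
    intro n
    induction n with
    | zero => intro m hm c hc; rw [zero_add]; exact key1 m hm c hc
    | succ n ih =>
      intro m hm c hc h
      rw [show n + 1 + 1 + m = (n + 1 + m) + 1 by ring, Function.iterate_succ_apply',
        Function.iterate_succ_apply' _ (n + 1)] at h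
      have hO1 : Ob r ((FH d (tr d x s))^[n + 1 + m] p) := by
        rw [show n + 1 + m = (n + m) + 1 by ring]
        exact Ob_mono hrr (hit (n + m))
      obtain ⟨c', hc', h'⟩ := inj_Ob d x h1 h3 s _ _ hO1 (Ob_mono hrr (hit n)) c hc h
      exact ih m hm c' hc' h'
  intro n m hm c hc h
  rcases Nat.eq_zero_or_pos n with h0 | h0
  · subst h0
    rw [zero_add, Function.iterate_zero, id_eq] at h
    refine key1 m hm (c ^ d) (pow_ne_zero _ hc) ?_
    rw [add_comm 1 m, Function.iterate_succ_apply', h, FH_smul, Function.iterate_one]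
  · obtain ⟨n', rfl⟩ : ∃ n', n = n' + 1 := ⟨n - 1, by omega⟩
    exact key2 n' m hm c hc h

/-! ### polynomials in `s` -/

/-- iterates as polynomials in `s` -/
noncomputable def itp (d : ℕ) (x : WW d) (p : ℂ × ℂ) : ℕ → ℂ[X] × ℂ[X]
  | 0 => (C p.1, C p.2)
  | n + 1 => (∑ i : Fin (d + 1), (C (x (Sum.inl i)) + X * C (x (Sum.inr i))) *
      ((itp d x p n).1 ^ (i : ℕ) * (itp d x p n).2 ^ (d - (i : ℕ))),
    ∑ i : Fin (d + 1), C (x (Sum.inr i)) *
      ((itp d x p n).1 ^ (i : ℕ) * (itp d x p n).2 ^ (d - (i : ℕ))))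

theorem itp_eval (d : ℕ) (x : WW d) (p : ℂ × ℂ) (s : ℂ) (n : ℕ) :
    (FH d (tr d x s))^[n] p = ((itp d x p n).1.eval s, (itp d x p n).2.eval s) := by
  induction n with
  | zero => simp [itp]
  | succ n ih =>
    rw [Function.iterate_succ_apply', ih]
    unfold FH tr
    simp only [itp, Polynomial.eval_finsetSum, Polynomial.eval_mul, Polynomial.eval_add,
      Polynomial.eval_C, Polynomial.eval_X, Polynomial.eval_pow, Sum.elim_inl, Sum.elim_inr]

theorem finite_of_large (A : ℂ[X]) (S : ℝ) (h : ∀ s : ℂ, S < ‖s‖ → A.eval s ≠ 0) :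
    {s : ℂ | A.eval s = 0}.Finite := by
  have hA : A ≠ 0 := by
    rintro rfl
    refine h (((|S| + 1 : ℝ)) : ℂ) ?_ (by simp)
    rw [Complex.norm_real, Real.norm_of_nonneg (by positivity)]
    linarith [le_abs_self S]
  exact Polynomial.finite_setOfPred_isRoot hA

end DENaux

open DENaux in
theorem den_holds : StDEN := by
  intro d x hd hN hq hb
  have hQQ : ∀ s : ℂ, QQ d (tr d x s) = QQ d x := by
    intro s
    unfold QQ tr
    simp only [Sum.elim_inr]
  have hPP : ∀ s : ℂ, PP d (tr d x s) = PP d x + C s * QQ d x := by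
    intro s
    unfold PP QQ tr
    simp only [Sum.elim_inl]
    rw [Finset.mul_sum, ← Finset.sum_add_distrib]
    refine Finset.sum_congr rfl fun i _ => ?_
    rw [C_add, C_mul]
    ring
  have hwr : ∀ s : ℂ, wr d (tr d x s) = wr d x := by
    intro s
    unfold wr
    rw [hPP, hQQ]
    simp only [derivative_add, derivative_mul, derivative_C, zero_mul, zero_add]
    ring
  refine ⟨fun s => ⟨?_, hwr s, hQQ s⟩, ?_, ?_⟩
  · intro p hp
    rw [FH_tr] at hp
    have h2 : (FH d x p).2 = 0 := congrArg Prod.snd hp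
    have h1 : (FH d x p).1 + s * (FH d x p).2 = 0 := congrArg Prod.fst hp
    rw [h2, mul_zero, add_zero] at h1
    exact hN p (Prod.ext h1 h2)
  · intro p hp n m hm
    obtain ⟨S, hS⟩ := no_rel d x hd hN hq hb p hp
    refine (finite_of_large ((itp d x p (n + m)).1 * (itp d x p n).2 -
      (itp d x p (n + m)).2 * (itp d x p n).1) S ?_).subset ?_
    · intro s hs h0
      have hNs : Ndg d (tr d x s) := by
        intro p hp
        rw [FH_tr] at hp
        have h2 : (FH d x p).2 = 0 := congrArg Prod.snd hp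
        have h1 : (FH d x p).1 + s * (FH d x p).2 = 0 := congrArg Prod.fst hp
        rw [h2, mul_zero, add_zero] at h1
        exact hN p (Prod.ext h1 h2)
      have hne : ∀ k : ℕ, (FH d (tr d x s))^[k] p ≠ 0 := by
        intro k
        induction k with
        | zero => simpa using hp
        | succ k ih =>
          rw [Function.iterate_succ_apply']
          intro h
          exact ih (hNs _ h)
      have e1 := itp_eval d x p s (n + m)
      have e2 := itp_eval d x p s n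
      have n1 := hne (n + m)
      have n2 := hne n
      set u := (FH d (tr d x s))^[n + m] p with hu
      set w := (FH d (tr d x s))^[n] p with hw
      simp only [eval_sub, eval_mul] at h0
      have u1 : (itp d x p (n + m)).1.eval s = u.1 := by rw [e1]
      have u2 : (itp d x p (n + m)).2.eval s = u.2 := by rw [e1]
      have w1 : (itp d x p n).1.eval s = w.1 := by rw [e2]
      have w2 : (itp d x p n).2.eval s = w.2 := by rw [e2]
      rw [u1, u2, w1, w2] at h0
      -- proportional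
      by_cases hw1 : w.1 = 0
      · have hw2 : w.2 ≠ 0 := fun h => n2 (Prod.ext hw1 h)
        have hu1 : u.1 = 0 := by
          rw [hw1, mul_zero, sub_zero] at h0
          exact (mul_eq_zero.mp h0).resolve_right hw2
        have hu2 : u.2 ≠ 0 := fun h => n1 (Prod.ext hu1 h)
        refine hS s hs n m hm (u.2 / w.2) (div_ne_zero hu2 hw2) ?_
        rw [← hu, ← hw]
        ext
        · simp only [Prod.smul_fst, smul_eq_mul]
          rw [hw1, hu1, mul_zero]
        · simp only [Prod.smul_snd, smul_eq_mul]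
          field_simp
      · have hu1 : u.1 ≠ 0 := by
          intro h
          rw [h, zero_mul, zero_sub, neg_eq_zero] at h0
          rcases mul_eq_zero.mp h0 with h' | h'
          · exact n1 (Prod.ext h h')
          · exact hw1 h'
        refine hS s hs n m hm (u.1 / w.1) (div_ne_zero hu1 hw1) ?_
        rw [← hu, ← hw]
        ext
        · simp only [Prod.smul_fst, smul_eq_mul]
          field_simp
        · simp only [Prod.smul_snd, smul_eq_mul]
          rw [div_mul_eq_mul_div, eq_div_iff hw1]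
          linear_combination -h0
    · rintro s ⟨c, hc, h⟩
      have e1 := itp_eval d x p s (n + m)
      have e2 := itp_eval d x p s n
      rw [e1, e2] at h
      have h1 := congrArg Prod.fst h
      have h2 := congrArg Prod.snd h
      simp only [Prod.smul_mk, smul_eq_mul] at h1 h2
      show eval s _ = 0
      simp only [eval_sub, eval_mul, h1, h2]
      ring
  · intro k
    have hbet : ∀ s : ℂ, bet d (tr d x s) ≠ 0 := by
      intro s
      unfold bet
      rw [hwr]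
      exact hb
    have hwne : wr d x ≠ 0 := by
      intro h
      apply hb
      unfold bet
      rw [h, coeff_zero]
    rcases Nat.eq_zero_or_pos k with h0 | h0
    · subst h0
      convert Set.finite_empty using 1
      ext s
      simp only [Function.iterate_zero, id_eq, Set.mem_ofPred_eq, Set.mem_empty_iff_false, iff_false]
      unfold Crit
      simp only [ne_eq, not_true_eq_false, false_and, true_and, false_or]
      exact hbet s
    · obtain ⟨k', rfl⟩ : ∃ k', k = k' + 1 := ⟨k - 1, by omega⟩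
      obtain ⟨hcont, r, hr, h1, h2, h3⟩ := exists_r d x hd hq hb
      have hO0 : Ob r ((1, 0) : ℂ × ℂ) := by
        unfold Ob
        simpa using hr
      -- roots of `wr` are bounded
      obtain ⟨M, hM⟩ : ∃ M : ℝ, ∀ z : ℂ, (wr d x).eval z = 0 → ‖z‖ ≤ M := by
        have hfin : {z : ℂ | (wr d x).IsRoot z}.Finite := Polynomial.finite_setOfPred_isRoot hwne
        obtain ⟨M, hM⟩ := hfin.isBounded.exists_norm_le
        exact ⟨M, fun z hz => hM z hz⟩
      set A : ℂ[X] := ∑ i ∈ Finset.range ((wr d x).natDegree + 1), C ((wr d x).coeff i) *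
        ((itp d x (1, 0) (k' + 1)).1 ^ i *
          (itp d x (1, 0) (k' + 1)).2 ^ ((wr d x).natDegree - i)) with hA
      have hAev : ∀ s : ℂ, ((FH d (tr d x s))^[k' + 1] (1, 0)).2 ≠ 0 →
          A.eval s = ((FH d (tr d x s))^[k' + 1] (1, 0)).2 ^ (wr d x).natDegree *
            (wr d x).eval (((FH d (tr d x s))^[k' + 1] (1, 0)).1 /
              ((FH d (tr d x s))^[k' + 1] (1, 0)).2) := by
        intro s hs
        have e1 := itp_eval d x (1, 0) s (k' + 1)
        set u := (FH d (tr d x s))^[k' + 1] (1, 0) with hu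
        have u1 : (itp d x (1, 0) (k' + 1)).1.eval s = u.1 := by rw [e1]
        have u2 : (itp d x (1, 0) (k' + 1)).2.eval s = u.2 := by rw [e1]
        rw [hA]
        simp only [eval_finsetSum, eval_mul, eval_C, eval_pow, u1, u2]
        rw [Polynomial.eval_eq_sum_range, Finset.mul_sum]
        refine Finset.sum_congr rfl fun i hi => ?_
        have hi' : i ≤ (wr d x).natDegree := by
          have := Finset.mem_range.mp hi
          omega
        have h5 : u.2 ^ (wr d x).natDegree = u.2 ^ i * u.2 ^ ((wr d x).natDegree - i) := by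
          rw [← pow_add]
          congr 1
          omega
        rw [h5, div_pow]
        field_simp
      refine (finite_of_large A (max (‖Fi d x 0‖ + 1 + 1 / r) (‖Fi d x 0‖ + 1 + M)) ?_).subset ?_
      · intro s hs h
        have hs1 := lt_of_le_of_lt (le_max_left _ _) hs
        have hs2 := lt_of_le_of_lt (le_max_right _ _) hs
        have hit := iter_Ob d x hr le_rfl h1 h2 s hs1 (1, 0)
          (step_Ob d x hr h1 h2 s hs1 _ hO0).1
        have hst : ((FH d (tr d x s))^[k' + 1] (1, 0)).2 ≠ 0 ∧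
            ‖((FH d (tr d x s))^[k' + 1] (1, 0)).1 / ((FH d (tr d x s))^[k' + 1] (1, 0)).2 - s‖ ≤
              ‖Fi d x 0‖ + 1 := by
          rw [Function.iterate_succ_apply']
          refine (step_Ob d x hr h1 h2 s hs1 _ ?_).2
          rcases Nat.eq_zero_or_pos k' with h6 | h6
          · subst h6
            simpa using hO0
          · obtain ⟨k'', rfl⟩ : ∃ k'', k' = k'' + 1 := ⟨k' - 1, by omega⟩
            exact hit k''
        rw [hAev s hst.1] at h
        rcases mul_eq_zero.mp h with h7 | h7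
        · exact absurd h7 (pow_ne_zero _ hst.1)
        · have h8 := hM _ h7
          have h9 := norm_sub_norm_le s (((FH d (tr d x s))^[k' + 1] (1, 0)).1 /
            ((FH d (tr d x s))^[k' + 1] (1, 0)).2)
          rw [norm_sub_rev] at h9
          linarith [hst.2]
      · intro s hs
        show A.eval s = 0
        have hs' : Crit d (tr d x s) ((FH d (tr d x s))^[k' + 1] (1, 0)) := hs
        unfold Crit at hs'
        rcases hs' with ⟨h5, h6⟩ | ⟨_, h6⟩
        · rw [hAev s h5]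
          rw [hwr] at h6
          rw [h6, mul_zero]
        · exact absurd h6 (hbet s)

end Pool.Agent.H713R4.RB
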