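import Mathlib
import Pool.Agent.H713R4.RB.Defs2

/-! Task FIN: finitely many sinks. -/

set_option autoImplicit false

open Topology Filter Metric Set Polynomial MeasureTheory

namespace Pool.Agent.H713R4.RB

namespace FINaux

variable {d : ℕ} {x : WW d}

theorem FH_smul (c : ℂ) (p : ℂ × ℂ) : FH d x (c • p) = c ^ d • FH d x p := by
  have h : ∀ i : Fin (d + 1), (c * p.1) ^ (i : ℕ) * (c * p.2) ^ (d - (i : ℕ)) =
      c ^ d * (p.1 ^ (i : ℕ) * p.2 ^ (d - (i : ℕ))) := by
    intro i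
    have hi : (i : ℕ) + (d - (i : ℕ)) = d := by omega
    have h1 : c ^ d = c ^ (i : ℕ) * c ^ (d - (i : ℕ)) := by
      rw [← pow_add, hi]
    rw [mul_pow, mul_pow, h1]
    ring
  ext
  · simp only [FH, Prod.smul_fst, Prod.smul_snd, smul_eq_mul, Finset.mul_sum]
    refine Finset.sum_congr rfl fun i _ => ?_
    rw [h i]
    ring
  · simp only [FH, Prod.smul_fst, Prod.smul_snd, smul_eq_mul, Finset.mul_sum]
    refine Finset.sum_congr rfl fun i _ => ?_
    rw [h i]
    ring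

theorem FH_iter_smul (n : ℕ) (c : ℂ) (p : ℂ × ℂ) :
    (FH d x)^[n] (c • p) = c ^ (d ^ n) • (FH d x)^[n] p := by
  induction n with
  | zero => simp
  | succ n ih =>
    rw [Function.iterate_succ_apply', ih, FH_smul, ← pow_mul, Function.iterate_succ_apply',
      pow_succ]

theorem eq_smul {p : ℂ × ℂ} (h : p.2 ≠ 0) : p = p.2 • (p.1 / p.2, (1 : ℂ)) := by
  ext
  · simp only [Prod.smul_fst, smul_eq_mul]
    field_simp
  · simp

/-- composition of the iterates -/
theorem iter_split {z : ℂ} {b : ℕ} (hb : ((FH d x)^[b] (z, 1)).2 ≠ 0) (a : ℕ) :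
    (FH d x)^[a + b] (z, 1) =
      (((FH d x)^[b] (z, 1)).2) ^ (d ^ a) • (FH d x)^[a] (vl d x b z, 1) := by
  rw [Function.iterate_add_apply]
  conv_lhs => rw [eq_smul hb]
  rw [FH_iter_smul]
  rfl

theorem vl_split {z : ℂ} {b : ℕ} (hb : ((FH d x)^[b] (z, 1)).2 ≠ 0) (a : ℕ) :
    vl d x (a + b) z = vl d x a (vl d x b z) := by
  conv_lhs => rw [vl, iter_split hb a]
  rw [vl]
  have : (((FH d x)^[b] (z, 1)).2) ^ (d ^ a) ≠ 0 := pow_ne_zero _ hb
  simp only [Prod.smul_fst, Prod.smul_snd, smul_eq_mul]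
  rw [mul_div_mul_left _ _ this]
  rfl

theorem snd_split {z : ℂ} {a b : ℕ} (hb : ((FH d x)^[b] (z, 1)).2 ≠ 0)
    (hab : ((FH d x)^[a + b] (z, 1)).2 ≠ 0) : ((FH d x)^[a] (vl d x b z, 1)).2 ≠ 0 := by
  rw [iter_split hb a] at hab
  simp only [Prod.smul_snd, smul_eq_mul] at hab
  exact right_ne_zero_of_mul hab

theorem over_vl {z : ℂ} {n : ℕ} (h : ((FH d x)^[n] (z, 1)).2 ≠ 0) :
    Over ((FH d x)^[n] (z, 1)) (vl d x n z) :=
  ⟨h, by rw [vl]; field_simp⟩

theorem over_unique {p : ℂ × ℂ} {w w' : ℂ} (h : Over p w) (h' : Over p w') : w = w' := by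
  have := h.2.symm.trans h'.2
  exact mul_right_cancel₀ h.1 this

theorem over_eq_vl {z w : ℂ} {n : ℕ} (h : Over ((FH d x)^[n] (z, 1)) w) : vl d x n z = w :=
  over_unique (over_vl h.1) h

theorem vl_zero (z : ℂ) : vl d x 0 z = z := by
  simp [vl]

theorem FH_diff : Differentiable ℂ (FH d x) := by
  unfold FH
  apply Differentiable.prodMk
  · apply Differentiable.fun_sum
    intro i _
    exact ((differentiable_fst.pow _).mul (differentiable_snd.pow _)).const_mul _
  · apply Differentiable.fun_sum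
    intro i _
    exact ((differentiable_fst.pow _).mul (differentiable_snd.pow _)).const_mul _

theorem iter_diff (n : ℕ) : Differentiable ℂ (fun z : ℂ => (FH d x)^[n] (z, 1)) := by
  have h : Differentiable ℂ ((FH d x)^[n]) := FH_diff.iterate n
  exact h.comp (differentiable_id.prodMk (differentiable_const _))

theorem vl_diff {n : ℕ} {z : ℂ} (h : ((FH d x)^[n] (z, 1)).2 ≠ 0) :
    DifferentiableAt ℂ (vl d x n) z := by
  unfold vl
  exact ((iter_diff n).fst z).div ((iter_diff n).snd z) h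

theorem ev_ne {n : ℕ} {z : ℂ} (h : ((FH d x)^[n] (z, 1)).2 ≠ 0) :
    ∀ᶠ ζ in 𝓝 z, ((FH d x)^[n] (ζ, 1)).2 ≠ 0 :=
  ((iter_diff n).snd.continuous.continuousAt).eventually_ne h

/-- the image of a sink point is a sink point -/
theorem sink_succ {z : ℂ} (h : SinkPt d x z) : SinkPt d x (vl d x 1 z) := by
  obtain ⟨h1, n, hn, h2, h3⟩ := h
  obtain ⟨z', hz'⟩ : ∃ z', z' = vl d x 1 z := ⟨_, rfl⟩
  have hz1 : ∀ i : ℕ, ((FH d x)^[i] (z', 1)).2 ≠ 0 := by
    intro i
    rw [hz']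
    exact snd_split (h1 1) (h1 (i + 1))
  have hper : vl d x n z = z := over_eq_vl h2
  rw [← hz']
  refine ⟨hz1, n, hn, ?_, ?_⟩
  · have : vl d x n z' = z' := by
      rw [hz', ← vl_split (h1 1), add_comm, vl_split (h1 n), hper]
    have h4 := over_vl (hz1 n)
    rwa [this] at h4
  · obtain ⟨m, rfl⟩ : ∃ m, n = m + 1 := ⟨n - 1, by omega⟩
    have hm : vl d x m z' = z := by rw [hz', ← vl_split (h1 1), hper]
    have e1 : vl d x (m + 1) =ᶠ[𝓝 z] vl d x m ∘ vl d x 1 := by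
      filter_upwards [ev_ne (h1 1)] with ζ hζ
      exact vl_split hζ m
    have e2 : vl d x (m + 1) =ᶠ[𝓝 z'] vl d x 1 ∘ vl d x m := by
      filter_upwards [ev_ne (hz1 m)] with ζ hζ
      rw [add_comm]
      exact vl_split hζ 1
    have d1 : DifferentiableAt ℂ (vl d x m) (vl d x 1 z) := by
      rw [← hz']
      exact vl_diff (hz1 m)
    have d2 : DifferentiableAt ℂ (vl d x 1) (vl d x m z') := by
      rw [hm]
      exact vl_diff (h1 1)
    rw [e1.deriv_eq, deriv_comp z d1 (vl_diff (h1 1)), ← hz'] at h3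
    rw [e2.deriv_eq, deriv_comp z' d2 (vl_diff (hz1 m)), hm, mul_comm]
    exact h3

theorem sink_iter {z : ℂ} (h : SinkPt d x z) (i : ℕ) : SinkPt d x (vl d x i z) := by
  induction i with
  | zero => rwa [vl_zero]
  | succ i ih =>
    rw [add_comm, vl_split (h.1 i)]
    exact sink_succ ih

/-- the orbit -/
def orb (d : ℕ) (x : WW d) (z : ℂ) : Set ℂ := range fun i : ℕ => vl d x i z

theorem vl_mul {z : ℂ} (h : SinkPt d x z) {n : ℕ} (hn : vl d x n z = z) (k : ℕ) :
    vl d x (k * n) z = z := by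
  induction k with
  | zero => rw [zero_mul, vl_zero]
  | succ k ih => rw [add_mul, one_mul, vl_split (h.1 n), hn, ih]

theorem orb_finite {z : ℂ} (h : SinkPt d x z) : (orb d x z).Finite := by
  obtain ⟨n, hn, h2, _⟩ := h.2
  have hper : vl d x n z = z := over_eq_vl h2
  apply ((Finset.range n).finite_toSet.image (fun i : ℕ => vl d x i z)).subset
  rintro _ ⟨i, rfl⟩
  refine ⟨i % n, ?_, ?_⟩
  · simp only [Finset.coe_range, mem_Iio]
    exact Nat.mod_lt _ hn
  · have e : i = i % n + (i / n) * n := by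
      rw [mul_comm]
      exact (Nat.mod_add_div i n).symm
    simp only
    conv_rhs => rw [e, vl_split (h.1 _), vl_mul h hper]

theorem self_mem (z : ℂ) : z ∈ orb d x z := ⟨0, vl_zero z⟩

/-- if the orbits meet then the point is in the other orbit -/
theorem mem_of_meet {z z' : ℂ} (h : SinkPt d x z) (h' : SinkPt d x z') {y : ℂ}
    (hy : y ∈ orb d x z) (hy' : y ∈ orb d x z') : z' ∈ orb d x z := by
  obtain ⟨i, hi⟩ := hy
  obtain ⟨j, hj⟩ := hy'
  obtain ⟨n, hn, h2, _⟩ := h'.2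
  have hper : vl d x n z' = z' := over_eq_vl h2
  simp only at hi hj
  obtain ⟨k, hk⟩ : ∃ k, k + j = j * n := ⟨j * n - j, by
    have : j ≤ j * n := Nat.le_mul_of_pos_right j hn
    omega⟩
  refine ⟨k + i, ?_⟩
  simp only
  rw [vl_split (h.1 i), hi, ← hj, ← vl_split (h'.1 j), hk, vl_mul h' hper]

/-- the point `p` of the projective line is attracted by the orbit of `z` -/
def Attr (d : ℕ) (x : WW d) (z : ℂ) (p : ℂ × ℂ) : Prop :=
  ∀ ε : ℝ, 0 < ε → ∃ N : ℕ, ∀ n ≥ N, ∃ w : ℂ, ∃ y ∈ orb d x z,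
    Over ((FH d x)^[n] p) w ∧ ‖w - y‖ < ε

theorem attr_unique {z z' : ℂ} (h : SinkPt d x z) (h' : SinkPt d x z') {p : ℂ × ℂ}
    (hp : Attr d x z p) (hp' : Attr d x z' p) : z' ∈ orb d x z := by
  by_contra hne
  have hdis : ∀ y ∈ orb d x z, ∀ y' ∈ orb d x z', y ≠ y' := by
    rintro y hy y' hy' rfl
    exact hne (mem_of_meet h h' hy hy')
  -- a positive lower bound for the distances
  obtain ⟨δ, hδ, hδ'⟩ : ∃ δ : ℝ, 0 < δ ∧ ∀ y ∈ orb d x z, ∀ y' ∈ orb d x z', δ ≤ ‖y - y'‖ := by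
    have hf : ((orb d x z) ×ˢ (orb d x z')).Finite := (orb_finite h).prod (orb_finite h')
    have hne' : ((orb d x z) ×ˢ (orb d x z')).Nonempty := ⟨(z, z'), self_mem z, self_mem z'⟩
    obtain ⟨a, ha, hmin⟩ := hf.exists_minimalFor (fun a : ℂ × ℂ => ‖a.1 - a.2‖) _ hne'
    refine ⟨‖a.1 - a.2‖, norm_pos_iff.mpr (sub_ne_zero.mpr (hdis _ ha.1 _ ha.2)), ?_⟩
    intro y hy y' hy'
    rcases le_total ‖a.1 - a.2‖ ‖y - y'‖ with h1 | h1
    · exact h1
    · exact hmin (show (y, y') ∈ _ from ⟨hy, hy'⟩) h1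
  obtain ⟨N, hN⟩ := hp (δ / 2) (by linarith)
  obtain ⟨N', hN'⟩ := hp' (δ / 2) (by linarith)
  obtain ⟨w, y, hy, ho, hw⟩ := hN (max N N') (le_max_left _ _)
  obtain ⟨w', y', hy', ho', hw'⟩ := hN' (max N N') (le_max_right _ _)
  have e := over_unique ho ho'
  subst e
  have h1 := hδ' y hy y' hy'
  have h2 : ‖y - y'‖ ≤ ‖w - y‖ + ‖w - y'‖ := by
    have : y - y' = (w - y') - (w - y) := by ring
    rw [this, add_comm]
    exact norm_sub_le _ _
  linarith

theorem attr_self {z : ℂ} (h : SinkPt d x z) : Attr d x z (z, 1) := by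
  intro ε hε
  refine ⟨0, fun n _ => ⟨vl d x n z, vl d x n z, ⟨n, rfl⟩, over_vl (h.1 n), ?_⟩⟩
  rw [sub_self, norm_zero]
  exact hε

/-- `Att` implies `Attr` -/
theorem attr_of_att {q : ℕ} {ρ₀ : ℝ} {s : Fin q → WW d → ℂ} {rr : Fin q → ℝ}
    {σ : Equiv.Perm (Fin q)} {th : ℝ} (hS : SK d q x ρ₀ s rr σ th) (hr : ∀ l, rr l ≤ 1) {z : ℂ}
    (hrange : (range fun l => s l x) = orb d x z) {p : ℂ × ℂ} (hp : Att d q s rr x p) :
    Attr d x z p := by
  obtain ⟨n, l, w, ho, hw⟩ := hp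
  have hx : x ∈ ball x ρ₀ := mem_ball_self hS.hρ
  have key : ∀ j : ℕ, ∃ w : ℂ, ∃ l : Fin q, Over ((FH d x)^[n + j] p) w ∧
      ‖w - s l x‖ ≤ th ^ j * rr l ∧ ‖w - s l x‖ < rr l := by
    intro j
    induction j with
    | zero =>
      refine ⟨w, l, ho, ?_, ?_⟩
      · rw [pow_zero, one_mul]
        rw [mem_ball, dist_eq_norm] at hw
        exact hw.le
      · rw [mem_ball, dist_eq_norm] at hw
        exact hw
    | succ j ih =>
      obtain ⟨w, l, ho, hw, hw'⟩ := ih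
      obtain ⟨w₁, ho₁, hw₁⟩ := hS.con x hx l w (by rw [mem_ball, dist_eq_norm]; exact hw')
      have hl := hS.rp l
      have hσ := hS.rp (σ l)
      have hc1 : ‖w₁ - s (σ l) x‖ ≤ th ^ (j + 1) * rr (σ l) := by
        have h1 : ‖w₁ - s (σ l) x‖ * rr l ≤ (th ^ (j + 1) * rr (σ l)) * rr l := by
          refine hw₁.trans ?_
          calc th * ‖w - s l x‖ * rr (σ l) ≤ th * (th ^ j * rr l) * rr (σ l) := by
                have := hS.th0
                gcongr
            _ = (th ^ (j + 1) * rr (σ l)) * rr l := by ring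
        exact le_of_mul_le_mul_right h1 hl
      have hc2 : ‖w₁ - s (σ l) x‖ < rr (σ l) := by
        have h2 : th ^ (j + 1) < 1 := pow_lt_one₀ hS.th0.le hS.th1 (by omega)
        calc ‖w₁ - s (σ l) x‖ ≤ th ^ (j + 1) * rr (σ l) := hc1
          _ < 1 * rr (σ l) := mul_lt_mul_of_pos_right h2 hσ
          _ = rr (σ l) := one_mul _
      refine ⟨w₁, σ l, ?_, hc1, hc2⟩
      rw [show n + (j + 1) = (n + j) + 1 by ring, Function.iterate_succ_apply']
      have e : (FH d x)^[n + j] p = ((FH d x)^[n + j] p).2 • (w, (1 : ℂ)) := by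
        ext
        · simp only [Prod.smul_fst, smul_eq_mul]
          rw [ho.2, mul_comm]
        · simp
      rw [e, FH_smul]
      have hc : (((FH d x)^[n + j] p).2) ^ d ≠ 0 := pow_ne_zero _ ho.1
      constructor
      · simp only [Prod.smul_snd, smul_eq_mul]
        exact mul_ne_zero hc ho₁.1
      · simp only [Prod.smul_fst, Prod.smul_snd, smul_eq_mul]
        rw [ho₁.2]
        ring
  intro ε hε
  obtain ⟨J, hJ⟩ := exists_pow_lt_of_lt_one hε hS.th1
  refine ⟨n + J, fun k hk => ?_⟩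
  obtain ⟨w, l, ho, hw, -⟩ := key (k - n)
  rw [show n + (k - n) = k by omega] at ho
  refine ⟨w, s l x, ?_, ho, ?_⟩
  · rw [← hrange]
    exact ⟨l, rfl⟩
  · have h1 : th ^ (k - n) ≤ th ^ J := pow_le_pow_of_le_one hS.th0.le hS.th1.le (by omega)
    calc ‖w - s l x‖ ≤ th ^ (k - n) * rr l := hw
      _ ≤ th ^ J * 1 := by
          apply mul_le_mul h1 (hr l) (hS.rp l).le
          exact pow_nonneg hS.th0.le _
      _ < ε := by rw [mul_one]; exact hJ

theorem snd_eq (z : ℂ) : (FH d x (z, 1)).2 = (QQ d x).eval z := by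
  simp only [FH, QQ, one_pow, mul_one]
  rw [Polynomial.eval_finsetSum]
  refine Finset.sum_congr rfl fun i _ => ?_
  simp

end FINaux

open FINaux in
theorem fin_holds : StFIN := by
  intro hSINK hKOEN hKD hKB hROOT hPRO hWN d xT hd hN hbet
  have hwr : wr d xT ≠ 0 := by
    intro h
    apply hbet
    unfold bet
    rw [h]
    simp
  -- the markers
  obtain ⟨Mk, hMk⟩ : ∃ Mk : Set (ℂ × ℂ), Mk =
    insert ((1 : ℂ), (0 : ℂ)) ((fun c : ℂ => (c, (1 : ℂ))) '' {c : ℂ | (wr d xT).eval c = 0}) :=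
    ⟨_, rfl⟩
  have hMkf : Mk.Finite := by
    rw [hMk]
    exact (((Polynomial.finite_setOfPred_isRoot hwr)).image _).insert _
  by_cases hone : ∃ z, SinkPt d xT z ∧ ∀ a, SinkPt d xT a → a ∈ orb d xT z
  · obtain ⟨z, hz, hall⟩ := hone
    exact (orb_finite hz).subset hall
  push Not at hone
  -- every sink attracts a marker
  have hmark : ∀ z, SinkPt d xT z → ∃ p ∈ Mk, Attr d xT z p := by
    intro z hz
    obtain ⟨a, ha, haz⟩ := hone z hz
    obtain ⟨Z, hZ⟩ : ∃ Z : Finset ℂ, Z = (orb_finite hz).toFinset := ⟨_, rfl⟩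
    have hmem : ∀ y, y ∈ Z ↔ y ∈ orb d xT z := by
      intro y
      rw [hZ, Set.Finite.mem_toFinset]
    obtain ⟨q, ρ₀, s, rr, σ, th, hSK, -, hrr, hrange⟩ := hSINK d xT Z hd hN
      (by
        intro y hy
        obtain ⟨i, rfl⟩ := (hmem y).mp hy
        exact sink_iter hz i)
      (by
        intro y hy w hw
        obtain ⟨i, rfl⟩ := (hmem y).mp hy
        rw [hmem]
        refine ⟨1 + i, ?_⟩
        have h1 : vl d xT 1 (vl d xT i z) = w := over_eq_vl hw
        simp only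
        rw [vl_split (hz.1 i), h1]) 1 one_pos
    have hrange' : (range fun l => s l xT) = orb d xT z := by
      rw [hrange, hZ, Set.Finite.coe_toFinset]
    have hx : xT ∈ ball xT ρ₀ := mem_ball_self hSK.hρ
    obtain ⟨l, hl⟩ : ∃ l : Fin q, s l xT = z := by
      have : z ∈ range fun l => s l xT := by rw [hrange']; exact self_mem z
      exact this
    have hq : 0 < q := lt_of_le_of_lt (Nat.zero_le _) l.isLt
    have hsatt : ∀ l', Att d q s rr xT (s l' xT, 1) := by
      intro l'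
      refine ⟨0, l', s l' xT, ⟨?_, ?_⟩, mem_ball_self (hSK.rp l')⟩
      · simp
      · simp
    by_contra hcon
    push Not at hcon
    have hno : ∀ p ∈ Mk, ¬ Att d q s rr xT p := fun p hp h =>
      hcon p hp (attr_of_att hSK hrr hrange' h)
    have hnoc : ∀ c : ℂ, (wr d xT).eval c = 0 → ¬ Att d q s rr xT (c, 1) := by
      intro c hc
      apply hno
      rw [hMk]
      exact Or.inr ⟨c, hc, rfl⟩
    have hnoi : ¬ Att d q s rr xT (1, 0) := by
      apply hno
      rw [hMk]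
      exact Or.inl rfl
    have hmu : ∀ l', mu d xT (s l' xT) ≠ 0 := by
      intro l' h
      obtain ⟨w, hw, -⟩ := hSK.con xT hx l' (s l' xT) (mem_ball_self (hSK.rp l'))
      have hQ : (QQ d xT).eval (s l' xT) ≠ 0 := by
        rw [← snd_eq]
        exact hw.1
      unfold mu at h
      rw [div_eq_zero_iff] at h
      rcases h with h | h
      · exact hnoc _ h (hsatt l')
      · exact hQ (pow_eq_zero_iff (two_ne_zero) |>.mp h)
    obtain ⟨K, lab, hKDs⟩ := hKD hKOEN hWN d q xT ρ₀ s rr σ th hq hSK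
    have hna : ¬ Att d q s rr xT (a, 1) := by
      intro h
      exact haz (attr_unique hz ha (attr_of_att hSK hrr hrange' h) (attr_self ha))
    have hfin := hKB hROOT hPRO hWN d q xT ρ₀ s rr σ th K lab hSK hKDs xT ⟨hx, hmu⟩ hbet l
      (100 * ‖a - s l xT‖ + 1) (by positivity)
      (fun c hc h => absurd h (hnoc c hc)) (fun h => absurd h hnoi) a hna
    linarith
  -- finitely many cycles
  have hcov : {z : ℂ | SinkPt d xT z} ⊆ ⋃ p ∈ Mk, {z : ℂ | SinkPt d xT z ∧ Attr d xT z p} := by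
    intro z hz
    obtain ⟨p, hp, hzp⟩ := hmark z hz
    simp only [mem_iUnion]
    exact ⟨p, hp, hz, hzp⟩
  refine (hMkf.biUnion fun p _ => ?_).subset hcov
  by_cases he : ({z : ℂ | SinkPt d xT z ∧ Attr d xT z p}).Nonempty
  · obtain ⟨z, hz, hzp⟩ := he
    apply (orb_finite hz).subset
    rintro z' ⟨hz', hzp'⟩
    exact attr_unique hz hz' hzp hzp'
  · rw [Set.not_nonempty_iff_eq_empty.mp he]
    exact Set.finite_empty

end Pool.Agent.H713R4.RB
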