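import Mathlib
import Pool.Agent.H713R4.RB.Defs

/-! Task FULL (helper862): extension over exceptional points + commutation. -/

set_option autoImplicit false

open Topology Filter Metric Set Polynomial MeasureTheory

namespace Pool.Agent.H713R4.RB

/-! ### algebra of the homogeneous lift -/

theorem full_smul (d : ℕ) (x : WW d) (c : ℂ) (p : ℂ × ℂ) : FH d x (c • p) = c ^ d • FH d x p := by
  have key : ∀ (i : Fin (d + 1)) (y : ℂ), y * ((c * p.1) ^ (i : ℕ) * (c * p.2) ^ (d - (i : ℕ))) =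
      c ^ d * (y * (p.1 ^ (i : ℕ) * p.2 ^ (d - (i : ℕ)))) := by
    intro i y
    have h : c ^ d = c ^ (i : ℕ) * c ^ (d - (i : ℕ)) := by
      rw [← pow_add]
      congr 1
      have := i.2
      omega
    rw [h, mul_pow, mul_pow]
    ring
  unfold FH
  apply Prod.ext
  · simp only [Prod.smul_fst, Prod.smul_snd, smul_eq_mul, Finset.mul_sum, key]
  · simp only [Prod.smul_fst, Prod.smul_snd, smul_eq_mul, Finset.mul_sum, key]

theorem full_smulN (d : ℕ) (x : WW d) (N : ℕ) : ∀ (c : ℂ) (p : ℂ × ℂ),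
    (FH d x)^[N] (c • p) = c ^ (d ^ N) • (FH d x)^[N] p := by
  induction N with
  | zero => intro c p; simp
  | succ n ih =>
    intro c p
    rw [Function.iterate_succ_apply, full_smul, ih, Function.iterate_succ_apply, ← pow_mul,
      pow_succ, mul_comm d]

theorem full_over_smul {c : ℂ} (hc : c ≠ 0) (p : ℂ × ℂ) (w : ℂ) : Over (c • p) w ↔ Over p w := by
  unfold Over
  simp only [Prod.smul_fst, Prod.smul_snd, smul_eq_mul]
  constructor
  · rintro ⟨h1, h2⟩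
    refine ⟨right_ne_zero_of_mul h1, ?_⟩
    apply mul_left_cancel₀ hc
    rw [h2]; ring
  · rintro ⟨h1, h2⟩
    refine ⟨mul_ne_zero hc h1, ?_⟩
    rw [h2]; ring

theorem full_over_eq {p : ℂ × ℂ} {w : ℂ} (h : Over p w) : p = p.2 • ((w, 1) : ℂ × ℂ) := by
  apply Prod.ext
  · simp only [Prod.smul_fst, smul_eq_mul]
    rw [h.2]; ring
  · simp only [Prod.smul_snd, smul_eq_mul, mul_one]

theorem full_over_unique {p : ℂ × ℂ} {w w' : ℂ} (h : Over p w) (h' : Over p w') : w = w' := by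
  have h1 := h.2
  rw [h'.2] at h1
  exact (mul_right_cancel₀ h.1 h1).symm

theorem full_over_N (d : ℕ) (x : WW d) {p : ℂ × ℂ} {w : ℂ} (h : Over p w) (N : ℕ) (v : ℂ) :
    Over ((FH d x)^[N] p) v ↔ Over ((FH d x)^[N] (w, 1)) v := by
  have h1 := full_over_eq h
  have h2 : (FH d x)^[N] p = p.2 ^ (d ^ N) • (FH d x)^[N] (w, 1) := by
    conv_lhs => rw [h1]
    rw [full_smulN]
  rw [h2, full_over_smul (pow_ne_zero _ h.1)]

theorem full_over_div {p : ℂ × ℂ} (h : p.2 ≠ 0) : Over p (p.1 / p.2) :=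
  ⟨h, (div_mul_cancel₀ _ h).symm⟩

theorem full_cont2 (d : ℕ) : Continuous (fun q : WW d × (ℂ × ℂ) => FH d q.1 q.2) := by
  unfold FH
  fun_prop

theorem full_cont (d : ℕ) (x : WW d) : Continuous (FH d x) :=
  (full_cont2 d).comp (by fun_prop : Continuous (fun p : ℂ × ℂ => (x, p)))

theorem full_contN (d : ℕ) (x : WW d) (N : ℕ) : Continuous (fun z : ℂ => (FH d x)^[N] (z, 1)) :=
  ((full_cont d x).iterate N).comp (by fun_prop : Continuous (fun z : ℂ => (z, (1 : ℂ))))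

theorem full_WN_open (d : ℕ) (x : WW d) (U : Set ℂ) (hU : IsOpen U) (N : ℕ) :
    IsOpen (WN d x U N) := by
  have h1 := full_contN d x N
  have h2 : Continuous (fun z : ℂ => ((FH d x)^[N] (z, 1)).1) := continuous_fst.comp h1
  have h3 : Continuous (fun z : ℂ => ((FH d x)^[N] (z, 1)).2) := continuous_snd.comp h1
  have h4 : IsOpen {z : ℂ | ((FH d x)^[N] (z, 1)).2 ≠ 0} := isOpen_ne_fun h3 continuous_const
  have h5 : ContinuousOn (fun z : ℂ => ((FH d x)^[N] (z, 1)).1 / ((FH d x)^[N] (z, 1)).2)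
      {z : ℂ | ((FH d x)^[N] (z, 1)).2 ≠ 0} := h2.continuousOn.div h3.continuousOn (fun z hz => hz)
  have h6 : WN d x U N = {z : ℂ | ((FH d x)^[N] (z, 1)).2 ≠ 0} ∩
      (fun z : ℂ => ((FH d x)^[N] (z, 1)).1 / ((FH d x)^[N] (z, 1)).2) ⁻¹' U := by
    ext z
    constructor
    · rintro ⟨w, hw, ho⟩
      refine ⟨ho.1, ?_⟩
      have : ((FH d x)^[N] (z, 1)).1 / ((FH d x)^[N] (z, 1)).2 = w :=
        full_over_unique (full_over_div ho.1) ho
      rw [mem_preimage, this]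
      exact hw
    · rintro ⟨h7, h8⟩
      exact ⟨_, h8, full_over_div h7⟩
  rw [h6]
  exact h5.isOpen_inter_preimage h4 hU

/-! ### surjectivity near infinity -/

theorem full_surj (f : ℂ → ℂ) (R : ℝ) (hf : DifferentiableOn ℂ f {z | R < ‖z‖})
    (hi : InjOn f {z | R < ‖z‖})
    (ha : Tendsto (fun z : ℂ => f z - z) (Bornology.cobounded ℂ) (𝓝 0)) :
    ∃ B : ℝ, ∀ w : ℂ, B < ‖w‖ → ∃ z : ℂ, R < ‖z‖ ∧ f z = w := by
  have h1 : ∀ᶠ z : ℂ in Bornology.cobounded ℂ, ‖f z - z‖ < 1 / 10 := by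
    have h := ha.norm
    rw [norm_zero] at h
    exact h.eventually (gt_mem_nhds (by norm_num))
  rw [← comap_norm_atTop, eventually_comap] at h1
  obtain ⟨R1, hR1⟩ := eventually_atTop.1 h1
  have h2 : ∀ z : ℂ, R1 ≤ ‖z‖ → ‖f z - z‖ < 1 / 10 := fun z hz => hR1 ‖z‖ hz z rfl
  refine ⟨max R R1 + 1, fun w hw => ?_⟩
  have hball : ∀ z ∈ closedBall w 1, max R R1 < ‖z‖ := by
    intro z hz
    rw [mem_closedBall, dist_eq_norm] at hz
    have : ‖w‖ ≤ ‖z‖ + ‖z - w‖ := by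
      have := norm_sub_le z (z - w)
      simpa using this
    linarith
  have hb1 : closedBall w 1 ⊆ {z | R < ‖z‖} := fun z hz => (le_max_left _ _).trans_lt (hball z hz)
  have hb2 : ∀ z ∈ closedBall w 1, ‖f z - z‖ < 1 / 10 := fun z hz =>
    h2 z ((le_max_right _ _).trans (hball z hz).le)
  have hd : DiffContOnCl ℂ f (ball w 1) := by
    apply DifferentiableOn.diffContOnCl
    rw [closure_ball w (by norm_num)]
    exact hf.mono hb1
  have hw0 : w ∈ closedBall w 1 := mem_closedBall_self (by norm_num)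
  have hsph : ∀ z ∈ sphere w 1, (8 / 10 : ℝ) ≤ ‖f z - f w‖ := by
    intro z hz
    have hz1 : ‖z - w‖ = 1 := by
      rw [mem_sphere, dist_eq_norm] at hz
      exact hz
    have hz2 := hb2 z (sphere_subset_closedBall hz)
    have hz3 := hb2 w hw0
    have h5 : ‖z - w‖ ≤ ‖f z - f w‖ + ‖f z - z‖ + ‖f w - w‖ := by
      have h6 : z - w = (f z - f w) - (f z - z) + (f w - w) := by ring
      calc ‖z - w‖ = ‖(f z - f w) - (f z - z) + (f w - w)‖ := by rw [← h6]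
        _ ≤ ‖(f z - f w) - (f z - z)‖ + ‖f w - w‖ := norm_add_le _ _
        _ ≤ _ := by
            have := norm_sub_le (f z - f w) (f z - z)
            linarith
    linarith
  have hfr : ∃ᶠ z in 𝓝 w, f z ≠ f w := by
    have h5 : ∀ᶠ z in 𝓝[≠] w, f z ≠ f w := by
      have h6 : closedBall w 1 ∈ 𝓝 w := closedBall_mem_nhds w (by norm_num)
      filter_upwards [nhdsWithin_le_nhds h6, self_mem_nhdsWithin] with z hz hz'
      intro he
      exact hz' (hi (hb1 hz) (hb1 hw0) he)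
    exact h5.frequently.filter_mono nhdsWithin_le_nhds
  have h7 := hd.ball_subset_image_closedBall (by norm_num) hsph hfr
  have h8 : w ∈ ball (f w) ((8 / 10 : ℝ) / 2) := by
    rw [mem_ball, dist_comm, dist_eq_norm]
    have := hb2 w hw0
    linarith
  obtain ⟨z, hz, hzw⟩ := h7 h8
  exact ⟨z, hb1 hz, hzw⟩

/-! ### extension over a finite set -/

theorem full_ext (W WB : Set ℂ) (φ : ℂ → ℂ) (hW : IsOpen W) (hWB : IsOpen WB) (_hsub : WB ⊆ W)
    (hfin : (W \ WB).Finite) (hd : DifferentiableOn ℂ φ WB) (hi : InjOn φ WB)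
    (hb : ∃ B : ℝ, ∀ z₀ ∈ W \ WB, ∀ z ∈ WB, dist z z₀ < 1 → ‖φ z‖ ≤ B) :
    ∃ Ψ : ℂ → ℂ, DifferentiableOn ℂ Ψ W ∧ InjOn Ψ W ∧ ∀ z ∈ WB, Ψ z = φ z := by
  classical
  obtain ⟨B, hB⟩ := hb
  set Ψ : ℂ → ℂ := fun z => if z ∈ WB then φ z else limUnder (𝓝[≠] z) φ with hΨ
  have hΨ1 : ∀ z ∈ WB, Ψ z = φ z := fun z hz => if_pos hz
  have hnear : ∀ z ∈ W, ∀ᶠ y in 𝓝[≠] z, y ∈ WB := by
    intro z hz
    have h1 : ((W \ WB) \ {z})ᶜ ∈ 𝓝 z :=
      (hfin.subset sdiff_subset).isClosed.isOpen_compl.mem_nhds (fun h => h.2 rfl)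
    filter_upwards [nhdsWithin_le_nhds h1, nhdsWithin_le_nhds (hW.mem_nhds hz),
      self_mem_nhdsWithin] with y h2 h3 h4
    by_contra h5
    exact h2 ⟨⟨h3, h5⟩, h4⟩
  have hdiff : DifferentiableOn ℂ Ψ W := by
    intro z hz
    apply DifferentiableAt.differentiableWithinAt
    by_cases hzB : z ∈ WB
    · have h1 : DifferentiableAt ℂ φ z := hd.differentiableAt (hWB.mem_nhds hzB)
      refine h1.congr_of_eventuallyEq ?_
      filter_upwards [hWB.mem_nhds hzB] with y hy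
      exact hΨ1 y hy
    · obtain ⟨s, hs, hs2⟩ := mem_nhdsWithin_iff_exists_mem_nhds_inter.1 (hnear z hz)
      set s' := s ∩ ball z 1 with hs'
      have hs'n : s' ∈ 𝓝 z := inter_mem hs (ball_mem_nhds z (by norm_num))
      have hsub' : s' \ {z} ⊆ WB := fun y hy => hs2 ⟨hy.1.1, hy.2⟩
      have h3 : DifferentiableOn ℂ (Function.update φ z (limUnder (𝓝[≠] z) φ)) s' := by
        apply Complex.differentiableOn_update_limUnder_of_bddAbove hs'n (hd.mono hsub')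
        refine ⟨B, ?_⟩
        rintro _ ⟨y, hy, rfl⟩
        exact hB z ⟨hz, hzB⟩ y (hsub' hy) hy.1.2
      have h4 := h3.differentiableAt hs'n
      refine h4.congr_of_eventuallyEq ?_
      filter_upwards [hs'n] with y hy
      by_cases hyz : y = z
      · rw [hyz, Function.update_self]
        exact if_neg hzB
      · rw [Function.update_of_ne hyz]
        exact hΨ1 y (hsub' ⟨hy, hyz⟩)
  have hopen : ∀ z ∈ W, 𝓝 (Ψ z) ≤ map Ψ (𝓝 z) := by
    intro z hz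
    have h1 : AnalyticAt ℂ Ψ z := hdiff.analyticAt (hW.mem_nhds hz)
    refine h1.eventually_constant_or_nhds_le_map_nhds.resolve_left ?_
    intro h2
    have h3 : ∀ᶠ y in 𝓝[≠] z, Ψ y = Ψ z ∧ y ∈ WB ∧ y ≠ z := by
      filter_upwards [nhdsWithin_le_nhds h2, hnear z hz, self_mem_nhdsWithin] with y a b c
      exact ⟨a, b, c⟩
    obtain ⟨a, ha1, ha2, ha3⟩ := h3.exists
    have h4 : ∀ᶠ y in 𝓝[≠] z, y ≠ a := by
      have : ({a} : Set ℂ)ᶜ ∈ 𝓝 z := isOpen_compl_singleton.mem_nhds (fun h => ha3 h.symm)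
      filter_upwards [nhdsWithin_le_nhds this] with y hy
      exact hy
    obtain ⟨b, ⟨hb1, hb2, hb3⟩, hb4⟩ := (h3.and h4).exists
    apply hb4
    apply hi hb2 ha2
    rw [← hΨ1 b hb2, ← hΨ1 a ha2, hb1, ha1]
  refine ⟨Ψ, hdiff, ?_, hΨ1⟩
  intro z1 hz1 z2 hz2 he
  by_contra hne
  obtain ⟨u1, u2, hu1, hu2, hz1u, hz2u, hdis⟩ := t2_separation hne
  have hA1 : Ψ '' (u1 ∩ W) ∈ 𝓝 (Ψ z1) :=
    hopen z1 hz1 (image_mem_map (inter_mem (hu1.mem_nhds hz1u) (hW.mem_nhds hz1)))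
  have hA2 : Ψ '' (u2 ∩ W) ∈ 𝓝 (Ψ z1) := by
    rw [he]
    exact hopen z2 hz2 (image_mem_map (inter_mem (hu2.mem_nhds hz2u) (hW.mem_nhds hz2)))
  have hA3 : ((Ψ '' (W \ WB)) \ {Ψ z1})ᶜ ∈ 𝓝 (Ψ z1) :=
    ((hfin.image Ψ).subset sdiff_subset).isClosed.isOpen_compl.mem_nhds (fun h => h.2 rfl)
  have h5 : ∀ᶠ w in 𝓝[≠] (Ψ z1), w ∈ Ψ '' (u1 ∩ W) ∧ w ∈ Ψ '' (u2 ∩ W) ∧ w ∉ Ψ '' (W \ WB) := by
    filter_upwards [nhdsWithin_le_nhds hA1, nhdsWithin_le_nhds hA2, nhdsWithin_le_nhds hA3,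
      self_mem_nhdsWithin] with w a b c e
    exact ⟨a, b, fun h => c ⟨h, e⟩⟩
  obtain ⟨w, ⟨a, ha, haw⟩, ⟨b, hb, hbw⟩, hw⟩ := h5.exists
  have haB : a ∈ WB := by
    by_contra h
    exact hw ⟨a, ⟨ha.2, h⟩, haw⟩
  have hbB : b ∈ WB := by
    by_contra h
    exact hw ⟨b, ⟨hb.2, h⟩, hbw⟩
  have hab : a = b := by
    apply hi haB hbB
    rw [← hΨ1 a haB, ← hΨ1 b hbB, haw, hbw]
  exact (Set.disjoint_left.1 hdis) ha.1 (hab ▸ hb.1)

/-! ### the motion is injective -/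

section motion

variable {d : ℕ} {γ : ℂ → WW d} {ρ : ℝ} {U : Set ℂ} {H : ℂ → ℂ → ℂ} {Bd : ℕ → Set ℂ} {N : ℕ}
  {Φ : ℂ → ℂ → ℂ}

theorem full_mcont (hM : MOT d γ ρ U H Bd N Φ) {z : ℂ} (hz : z ∈ WN d (γ 0) (U \ Bd N) N) :
    ContinuousOn (fun s => Φ s z) (ball (0 : ℂ) ρ) := by
  have h1 : ContinuousOn (fun s : ℂ => ((s, z) : ℂ × ℂ)) (ball (0 : ℂ) ρ) := by fun_prop
  exact hM.diff.continuousOn.comp h1 (fun s hs => ⟨hs, hz⟩)

theorem full_inj (hR : RDA d γ ρ U H Bd) (hM : MOT d γ ρ U H Bd N Φ) {t : ℂ}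
    (ht : t ∈ ball (0 : ℂ) ρ) : InjOn (Φ t) (WN d (γ 0) (U \ Bd N) N) := by
  intro z hz z' hz' he
  have h0 : (0 : ℂ) ∈ ball (0 : ℂ) ρ := mem_ball_self hR.hρ
  obtain ⟨v, hv, hov⟩ := id hz
  obtain ⟨v', hv', hov'⟩ := id hz'
  have e1 := hM.eqn t ht z hz v hov
  have e2 := hM.eqn t ht z' hz' v' hov'
  rw [← he] at e2
  have e3 : v = v' := hR.Hi t ht hv.1 hv'.1 (full_over_unique e1 e2)
  subst e3
  have e4 := hM.uniq z hz (fun s => Φ s z') (full_mcont hM hz') ⟨t, ht, he.symm⟩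
    (fun s hs w hw => by
      have e5 : w = v := full_over_unique hw hov
      subst e5
      exact hM.eqn s hs z' hz' w hov') 0 h0
  rw [hM.zero z' hz', hM.zero z hz] at e4
  exact e4.symm

/-- commutation at the non exceptional points -/
theorem full_comm (hR : RDA d γ ρ U H Bd) (hM : MOT d γ ρ U H Bd N Φ) {t : ℂ}
    (ht : t ∈ ball (0 : ℂ) ρ) {z z' : ℂ} (hz : z ∈ WN d (γ 0) (U \ Bd N) N)
    (hz' : z' ∈ WN d (γ 0) (U \ Bd N) N) (ho : Over (FH d (γ 0) (z, 1)) z') :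
    Over (FH d (γ t) (Φ t z, 1)) (Φ t z') := by
  have h0 : (0 : ℂ) ∈ ball (0 : ℂ) ρ := mem_ball_self hR.hρ
  obtain ⟨v, hv, hov⟩ := id hz
  obtain ⟨v', hv', hov'⟩ := id hz'
  -- the base value of z' is the image of the base value of z
  have h1 : Over (FH d (γ 0) (v, 1)) v' := by
    have h2 : Over ((FH d (γ 0))^[N] (FH d (γ 0) (z, 1))) v' :=
      (full_over_N d (γ 0) ho N v').2 hov'
    rw [← Function.iterate_succ_apply, Function.iterate_succ_apply'] at h2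
    exact (full_over_N d (γ 0) hov 1 v').1 h2
  have h2 : ∀ s ∈ ball (0 : ℂ) ρ, Over ((FH d (γ s))^[N] (FH d (γ s) (Φ s z, 1))) (H s v') := by
    intro s hs
    have h3 := hM.eqn s hs z hz v hov
    have h4 := hR.conj s hs v hv.1 v' h1
    rw [← Function.iterate_succ_apply, Function.iterate_succ_apply']
    exact (full_over_N d (γ s) h3 1 (H s v')).2 h4
  have h3 : ∀ s ∈ ball (0 : ℂ) ρ, (FH d (γ s) (Φ s z, 1)).2 ≠ 0 := by
    intro s hs h4
    set p := FH d (γ s) (Φ s z, 1) with hp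
    have h5 : p.1 ≠ 0 := by
      intro h5
      have h6 : FH d (γ s) (Φ s z, 1) = 0 := by
        rw [← hp]
        exact Prod.ext h5 h4
      have h7 := hR.ndg s hs _ h6
      exact one_ne_zero (congrArg Prod.snd h7)
    have h6 : p = p.1 • ((1, 0) : ℂ × ℂ) := by
      apply Prod.ext
      · simp
      · simp [h4]
    have h7 := h2 s hs
    rw [← hp, h6, full_smulN, full_over_smul (pow_ne_zero _ h5)] at h7
    exact hv'.2 (hR.inf s hs N v' hv'.1 h7)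
  have h4 : ∀ s ∈ ball (0 : ℂ) ρ, Over (FH d (γ s) (Φ s z, 1))
      ((FH d (γ s) (Φ s z, 1)).1 / (FH d (γ s) (Φ s z, 1)).2) := fun s hs =>
    full_over_div (h3 s hs)
  have hcont : ContinuousOn (fun s => FH d (γ s) (Φ s z, 1)) (ball (0 : ℂ) ρ) := by
    have h5 : ContinuousOn (fun s : ℂ => ((γ s, (Φ s z, 1)) : WW d × (ℂ × ℂ))) (ball (0 : ℂ) ρ) :=
      hR.γd.continuousOn.prodMk ((full_mcont hM hz).prodMk continuousOn_const)
    exact (full_cont2 d).comp_continuousOn h5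
  have h5 := hM.uniq z' hz'
    (fun s => (FH d (γ s) (Φ s z, 1)).1 / (FH d (γ s) (Φ s z, 1)).2)
    ((continuous_fst.comp_continuousOn hcont).div (continuous_snd.comp_continuousOn hcont) h3)
    ⟨0, h0, by
      rw [hM.zero z hz, hM.zero z' hz']
      exact full_over_unique (full_over_div ho.1) ho⟩
    (fun s hs w hw => by
      have e5 : w = v' := full_over_unique hw hov'
      subst e5
      exact (full_over_N d (γ s) (h4 s hs) N (H s w)).1 (h2 s hs)) t ht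
  rw [← h5]
  exact h4 t ht

end motion

theorem full_holds : StFULL := by
  intro hBAD d γ ρ U H Bd N Φ R₆ far hd hR hM hF t ht
  have h0 : (0 : ℂ) ∈ ball (0 : ℂ) ρ := mem_ball_self hR.hρ
  set W := WN d (γ 0) U N with hWdef
  set WB := WN d (γ 0) (U \ Bd N) N with hWBdef
  have hWo : IsOpen W := full_WN_open d (γ 0) U hR.Uo N
  have hWBo : IsOpen WB :=
    full_WN_open d (γ 0) (U \ Bd N) (hR.Uo.sdiff (hR.Bf N).isClosed) N
  have hsub : WB ⊆ W := fun z ⟨w, hw, ho⟩ => ⟨w, hw.1, ho⟩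
  have hfin : (W \ WB).Finite := by
    refine (hBAD d N (γ 0) (Bd N) (by omega) (hR.ndg 0 h0) (hR.Bf N)).subset ?_
    rintro z ⟨⟨w, hw, ho⟩, hz2⟩
    refine ⟨w, ?_, ho⟩
    by_contra h
    exact hz2 ⟨w, ⟨hw, h⟩, ho⟩
  have hinj : InjOn (Φ t) WB := full_inj hR hM ht
  have hdiff : DifferentiableOn ℂ (Φ t) WB := by
    have h1 : DifferentiableOn ℂ (fun z : ℂ => ((t, z) : ℂ × ℂ)) WB := by fun_prop
    exact hM.diff.comp h1 (fun z hz => ⟨ht, hz⟩)
  have hfar : ∀ z ∈ WB, R₆ < ‖z‖ → far t z = Φ t z := by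
    intro z hz hz6
    exact hM.uniq z hz (fun s => far s z) (hF.cont z hz6)
      ⟨0, h0, by rw [hF.zero z hz6, hM.zero z hz]⟩
      (fun s hs w hw => hF.eqn s hs z hz6 w hw) t ht
  obtain ⟨C, hC⟩ := hfin.isBounded.exists_norm_le
  set R' := max R₆ (C + 1) with hR'
  have hbig : ∀ z : ℂ, R' < ‖z‖ → z ∈ WB := by
    intro z hz
    by_contra h
    have h1 : z ∈ W := hF.mem z ((le_max_left _ _).trans_lt hz)
    have h2 := hC z ⟨h1, h⟩
    have h3 : C + 1 ≤ R' := le_max_right _ _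
    linarith
  have hbigfar : ∀ z : ℂ, R' < ‖z‖ → far t z = Φ t z := fun z hz =>
    hfar z (hbig z hz) ((le_max_left _ _).trans_lt hz)
  have hR6 : {z : ℂ | R' < ‖z‖} ⊆ {z : ℂ | R₆ < ‖z‖} := by
    intro z hz
    have hz' : R' < ‖z‖ := hz
    exact lt_of_le_of_lt (le_max_left R₆ (C + 1)) hz'
  obtain ⟨B, hB⟩ := full_surj (far t) R' ((hF.hol t ht).mono hR6)
    (fun z hz z' hz' he => hinj (hbig z hz) (hbig z' hz')
      (by rw [← hbigfar z hz, ← hbigfar z' hz']; exact he)) (hF.asy t ht)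
  have hbd : ∀ z ∈ WB, ‖z‖ ≤ R' → ‖Φ t z‖ ≤ B := by
    intro z hz hzR
    by_contra h
    push Not at h
    obtain ⟨z1, h1, h2⟩ := hB _ h
    rw [hbigfar z1 h1] at h2
    have h3 := hinj (hbig z1 h1) hz h2
    rw [h3] at h1
    linarith
  obtain ⟨Ψ, hΨd, hΨi, hΨe⟩ := full_ext W WB (Φ t) hWo hWBo hsub hfin hdiff hinj
    ⟨B, fun z₀ hz₀ z hz hdist => hbd z hz (by
      have h1 := hC z₀ hz₀
      have h3 : C + 1 ≤ R' := le_max_right _ _
      have h4 : ‖z‖ ≤ ‖z₀‖ + dist z z₀ := by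
        rw [dist_eq_norm]
        have := norm_add_le z₀ (z - z₀)
        simpa using this
      linarith)⟩
  refine ⟨Ψ, hΨd, hΨi, hΨe, ?_, ?_⟩
  · refine (hF.asy t ht).congr' ?_
    have h1 : ∀ᶠ z : ℂ in Bornology.cobounded ℂ, R' < ‖z‖ := by
      rw [← comap_norm_atTop, eventually_comap]
      filter_upwards [eventually_gt_atTop R'] with a ha z hz
      rw [hz]; exact ha
    filter_upwards [h1] with z hz
    rw [hbigfar z hz, hΨe z (hbig z hz)]
  · intro z hz z' hz' ho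
    -- limit
    have hcz : Continuous (fun ζ : ℂ => FH d (γ 0) (ζ, 1)) :=
      (full_cont d (γ 0)).comp (by fun_prop)
    set f0 : ℂ → ℂ := fun ζ => (FH d (γ 0) (ζ, 1)).1 / (FH d (γ 0) (ζ, 1)).2 with hf0
    have hf0z : f0 z = z' := full_over_unique (full_over_div ho.1) ho
    have hf0c : ContinuousAt f0 z :=
      (continuous_fst.comp hcz).continuousAt.div (continuous_snd.comp hcz).continuousAt ho.1
    have hf0t : Tendsto f0 (𝓝 z) (𝓝 z') := by
      have := hf0c.tendsto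
      rwa [hf0z] at this
    have e1 : ∀ᶠ ζ in 𝓝[≠] z, (FH d (γ 0) (ζ, 1)).2 ≠ 0 :=
      nhdsWithin_le_nhds ((continuous_snd.comp hcz).continuousAt.eventually_ne ho.1)
    have e2 : ∀ᶠ ζ in 𝓝[≠] z, f0 ζ ∈ W := nhdsWithin_le_nhds (hf0t (hWo.mem_nhds hz'))
    have e3 : ∀ᶠ ζ in 𝓝[≠] z, ζ ∈ WB := by
      have h1 : ((W \ WB) \ {z})ᶜ ∈ 𝓝 z :=
        (hfin.subset sdiff_subset).isClosed.isOpen_compl.mem_nhds (fun h => h.2 rfl)
      filter_upwards [nhdsWithin_le_nhds h1, nhdsWithin_le_nhds (hWo.mem_nhds hz),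
        self_mem_nhdsWithin] with y h2 h3 h4
      by_contra h5
      exact h2 ⟨⟨h3, h5⟩, h4⟩
    have hfin2 : (WN d (γ 0) (W \ WB) 1).Finite :=
      hBAD d 1 (γ 0) (W \ WB) (by omega) (hR.ndg 0 h0) hfin
    have e4 : ∀ᶠ ζ in 𝓝[≠] z, ζ ∉ WN d (γ 0) (W \ WB) 1 := by
      have h1 : ((WN d (γ 0) (W \ WB) 1) \ {z})ᶜ ∈ 𝓝 z :=
        (hfin2.subset sdiff_subset).isClosed.isOpen_compl.mem_nhds (fun h => h.2 rfl)
      filter_upwards [nhdsWithin_le_nhds h1, self_mem_nhdsWithin] with y h2 h3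
      exact fun h => h2 ⟨h, h3⟩
    have e5 : ∀ᶠ ζ in 𝓝[≠] z, (FH d (γ t) (Ψ ζ, 1)).1 =
        Ψ (f0 ζ) * (FH d (γ t) (Ψ ζ, 1)).2 := by
      filter_upwards [e1, e2, e3, e4] with ζ a1 a2 a3 a4
      have a5 : Over (FH d (γ 0) (ζ, 1)) (f0 ζ) := full_over_div a1
      have a6 : f0 ζ ∈ WB := by
        by_contra h
        exact a4 ⟨f0 ζ, ⟨a2, h⟩, a5⟩
      have a7 := full_comm hR hM ht a3 a6 a5
      rw [hΨe ζ a3, hΨe (f0 ζ) a6]
      exact a7.2
    have hΨc : ∀ y ∈ W, ContinuousAt Ψ y := fun y hy =>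
      (hΨd.differentiableAt (hWo.mem_nhds hy)).continuousAt
    have hL : ContinuousAt (fun ζ : ℂ => FH d (γ t) (Ψ ζ, 1)) z := by
      have h1 : ContinuousAt (fun ζ : ℂ => ((Ψ ζ, 1) : ℂ × ℂ)) z :=
        (hΨc z hz).prodMk continuousAt_const
      exact (full_cont d (γ t)).continuousAt.comp h1
    have t1 : Tendsto (fun ζ : ℂ => (FH d (γ t) (Ψ ζ, 1)).1) (𝓝[≠] z)
        (𝓝 (FH d (γ t) (Ψ z, 1)).1) :=
      ((continuous_fst.tendsto _).comp hL.tendsto).mono_left nhdsWithin_le_nhds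
    have t2 : Tendsto (fun ζ : ℂ => (FH d (γ t) (Ψ ζ, 1)).2) (𝓝[≠] z)
        (𝓝 (FH d (γ t) (Ψ z, 1)).2) :=
      ((continuous_snd.tendsto _).comp hL.tendsto).mono_left nhdsWithin_le_nhds
    have t3 : Tendsto (fun ζ : ℂ => Ψ (f0 ζ)) (𝓝[≠] z) (𝓝 (Ψ z')) :=
      ((hΨc z' hz').tendsto.comp hf0t).mono_left nhdsWithin_le_nhds
    have t4 : (FH d (γ t) (Ψ z, 1)).1 = Ψ z' * (FH d (γ t) (Ψ z, 1)).2 :=
      tendsto_nhds_unique (t1.congr' e5) (t3.mul t2)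
    refine ⟨?_, t4⟩
    intro h5
    have h6 : FH d (γ t) (Ψ z, 1) = 0 := by
      apply Prod.ext
      · rw [t4, h5, mul_zero]; rfl
      · exact h5
    have h7 := hR.ndg t ht _ h6
    exact one_ne_zero (congrArg Prod.snd h7)

end Pool.Agent.H713R4.RB
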