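import Mathlib
import Pool.Agent.H713R4.RB.Defs
import Pool.Agent.Helper523.LL.MeanDisc

/-! Task GAIN3: deformation controls the distance of the maps. -/

set_option autoImplicit false

open Topology Filter Metric Set Polynomial MeasureTheory

namespace Pool.Agent.H713R4.RB

namespace GAIN3

/-- the value of a holomorphic function is controlled by its `L²` norm on a disc -/
theorem pt_bound {g : ℂ → ℂ} {z : ℂ} {δ : ℝ} (hδ : 0 < δ) {K : Set ℂ} (hK : ball z δ ⊆ K)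
    (hg : DifferentiableOn ℂ g (ball z δ)) {E : ℝ} (hE : 0 ≤ E)
    (h : ∫⁻ w in K, ENNReal.ofReal (‖g w‖ ^ 2) ≤ ENNReal.ofReal (E ^ 2)) : ‖g z‖ ≤ E / δ := by
  have h1 : DifferentiableOn ℂ (fun w => g (z + w) ^ 2) (ball 0 δ) := by
    apply DifferentiableOn.pow
    apply hg.comp
    · exact (differentiable_id.const_add z).differentiableOn
    · intro w hw
      rw [mem_ball_zero_iff] at hw
      rw [mem_ball, dist_eq_norm]
      simpa using hw
  have h2 := Pool.Agent.Helper523.LL.mean_disc _ δ hδ h1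
  have h3 : ∫⁻ w in ball (0 : ℂ) δ, ENNReal.ofReal ‖g (z + w) ^ 2‖ =
      ∫⁻ w in ball z δ, ENNReal.ofReal (‖g w‖ ^ 2) := by
    rw [← lintegral_indicator measurableSet_ball, ← lintegral_indicator measurableSet_ball,
      ← lintegral_add_left_eq_self
        ((ball z δ).indicator fun w => ENNReal.ofReal (‖g w‖ ^ 2)) z]
    apply lintegral_congr
    intro w
    by_cases hw : w ∈ ball (0 : ℂ) δ
    · have hw2 : z + w ∈ ball z δ := by
        rw [mem_ball_zero_iff] at hw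
        rw [mem_ball, dist_eq_norm]
        simpa using hw
      rw [indicator_of_mem hw, indicator_of_mem hw2, norm_pow]
    · have hw2 : z + w ∉ ball z δ := by
        intro hw2
        apply hw
        rw [mem_ball, dist_eq_norm] at hw2
        rw [mem_ball_zero_iff]
        simpa using hw2
      rw [indicator_of_notMem hw, indicator_of_notMem hw2]
  rw [h3] at h2
  have h4 := (h2.trans (lintegral_mono_set hK)).trans h
  rw [add_zero, norm_pow] at h4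
  have h5 : Real.pi * δ ^ 2 * ‖g z‖ ^ 2 ≤ E ^ 2 := by
    rwa [ENNReal.ofReal_le_ofReal_iff (by positivity)] at h4
  rw [le_div_iff₀ hδ]
  have h6 : (‖g z‖ * δ) ^ 2 ≤ E ^ 2 := by
    have h7 : (1 : ℝ) ≤ Real.pi := by linarith [Real.pi_gt_three]
    have h8 : 0 ≤ (‖g z‖ * δ) ^ 2 := by positivity
    nlinarith
  exact (pow_le_pow_iff_left₀ (by positivity) hE two_ne_zero).1 h6

/-- oscillation of `Ψ - id` on a disc -/
theorem osc_bound {Ψ : ℂ → ℂ} {v : ℂ} {r : ℝ} (hr : 0 < r) {K : Set ℂ} (hK : ball v r ⊆ K)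
    (hΨ : DifferentiableOn ℂ Ψ (ball v r)) {E : ℝ} (hE : 0 ≤ E)
    (h : ∫⁻ w in K, ENNReal.ofReal (‖deriv Ψ w - 1‖ ^ 2) ≤ ENNReal.ofReal (E ^ 2)) :
    ∀ w ∈ ball v (r / 2), ‖(Ψ w - w) - (Ψ v - v)‖ ≤ E := by
  intro w hw
  have hd : DifferentiableOn ℂ (fun w => deriv Ψ w - 1) (ball v r) :=
    (hΨ.deriv isOpen_ball).sub_const 1
  have h1 : ∀ u ∈ ball v (r / 2), ‖deriv Ψ u - 1‖ ≤ E / (r / 2) := by
    intro u hu
    have hsub : ball u (r / 2) ⊆ ball v r := by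
      apply ball_subset_ball'
      rw [mem_ball] at hu
      linarith
    exact pt_bound (g := fun w => deriv Ψ w - 1) (half_pos hr) (hsub.trans hK) (hd.mono hsub) hE h
  have h2 : ∀ u ∈ ball v (r / 2), HasDerivWithinAt (fun w => Ψ w - w) (deriv Ψ u - 1)
      (ball v (r / 2)) u := by
    intro u hu
    have hu2 : u ∈ ball v r := ball_subset_ball (by linarith) hu
    have := (hΨ.differentiableAt (isOpen_ball.mem_nhds hu2)).hasDerivAt
    exact (this.sub (hasDerivAt_id u)).hasDerivWithinAt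
  have h3 := Convex.norm_image_sub_le_of_norm_hasDerivWithin_le h2 h1 (convex_ball _ _)
    (mem_ball_self (half_pos hr)) hw
  refine h3.trans ?_
  rw [mem_ball, dist_eq_norm] at hw
  calc E / (r / 2) * ‖w - v‖ ≤ E / (r / 2) * (r / 2) :=
        mul_le_mul_of_nonneg_left hw.le (by positivity)
    _ = E := div_mul_cancel₀ _ (half_pos hr).ne'

/-- `Ψ - id` near infinity -/
theorem far_bound {Ψ : ℂ → ℂ} {R₄ R₅ : ℝ} (hR₄ : 0 < R₄) (hR₅ : R₄ < R₅) {K : Set ℂ}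
    (hK : {z : ℂ | R₄ < ‖z‖ ∧ ‖z‖ < R₅} ⊆ K)
    (hΨ : DifferentiableOn ℂ Ψ {z : ℂ | R₄ < ‖z‖})
    (hinf : Tendsto (fun z : ℂ => Ψ z - z) (Bornology.cobounded ℂ) (𝓝 0)) {E : ℝ} (hE : 0 ≤ E)
    (h : ∫⁻ w in K, ENNReal.ofReal (‖deriv Ψ w - 1‖ ^ 2) ≤ ENNReal.ofReal (E ^ 2)) :
    ∀ z : ℂ, (R₄ + R₅) / 2 ≤ ‖z‖ → ‖Ψ z - z‖ ≤
      ((R₄ + R₅) / 2) / ((R₅ - R₄) / 2) * E := by
  set R := (R₄ + R₅) / 2 with hRdef
  set δ := (R₅ - R₄) / 2 with hδdef
  have hδ : 0 < δ := by rw [hδdef]; linarith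
  have hR : 0 < R := by rw [hRdef]; linarith
  have hR4R : R₄ < R := by rw [hRdef]; linarith
  have hopen : IsOpen {z : ℂ | R₄ < ‖z‖} := isOpen_lt continuous_const continuous_norm
  have hd : DifferentiableOn ℂ (fun w => deriv Ψ w - 1) {z : ℂ | R₄ < ‖z‖} :=
    (hΨ.deriv hopen).sub_const 1
  -- the bound on the circle
  have h1 : ∀ u : ℂ, ‖u‖ = R → ‖deriv Ψ u - 1‖ ≤ E / δ := by
    intro u hu
    have hsub : ball u δ ⊆ {z : ℂ | R₄ < ‖z‖ ∧ ‖z‖ < R₅} := by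
      intro w hw
      rw [mem_ball, dist_eq_norm] at hw
      have e1 := norm_sub_norm_le w u
      have e2 := norm_sub_norm_le u w
      rw [norm_sub_rev] at e2
      constructor
      · rw [hu] at e2
        have : R - δ = R₄ := by rw [hRdef, hδdef]; ring
        linarith
      · rw [hu] at e1
        have : R + δ = R₅ := by rw [hRdef, hδdef]; ring
        linarith
    exact pt_bound (g := fun w => deriv Ψ w - 1) hδ (hsub.trans hK)
      (hd.mono (hsub.trans fun w hw => hw.1)) hE h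
  -- the function at the origin
  set g : ℂ → ℂ := fun ζ => if ζ = 0 then 0 else Ψ ζ⁻¹ - ζ⁻¹ with hg
  have hg0 : g 0 = 0 := by simp [hg]
  have hgne : ∀ ζ : ℂ, ζ ≠ 0 → g ζ = Ψ ζ⁻¹ - ζ⁻¹ := fun ζ hζ => by simp [hg, hζ]
  have hinv : ∀ ζ ∈ ball (0 : ℂ) R₄⁻¹, ζ ≠ 0 → R₄ < ‖ζ⁻¹‖ := by
    intro x hx hx0
    rw [mem_ball_zero_iff] at hx
    rw [norm_inv]
    exact (lt_inv_comm₀ (norm_pos_iff.2 hx0) hR₄).1 hx
  have hder : ∀ ζ ∈ ball (0 : ℂ) R₄⁻¹, ζ ≠ 0 →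
      HasDerivAt g ((deriv Ψ ζ⁻¹ - 1) * (-(ζ ^ 2)⁻¹)) ζ := by
    intro ζ hζ hζ0
    have e1 : HasDerivAt (fun w => Ψ w - w) (deriv Ψ ζ⁻¹ - 1) ζ⁻¹ :=
      (hΨ.differentiableAt (hopen.mem_nhds (hinv ζ hζ hζ0))).hasDerivAt.sub (hasDerivAt_id _)
    have e2 := e1.comp ζ (hasDerivAt_inv hζ0)
    refine e2.congr_of_eventuallyEq ?_
    filter_upwards [isOpen_ne.mem_nhds hζ0] with w hw
    exact hgne w hw
  have hgd : DifferentiableOn ℂ g (ball (0 : ℂ) R₄⁻¹) := by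
    have hs : ball (0 : ℂ) R₄⁻¹ ∈ 𝓝 (0 : ℂ) := ball_mem_nhds _ (inv_pos.2 hR₄)
    rw [← Complex.differentiableOn_compl_singleton_and_continuousAt_iff hs]
    constructor
    · intro ζ hζ
      exact (hder ζ hζ.1 hζ.2).differentiableAt.differentiableWithinAt
    · have e1 : Tendsto (fun ζ : ℂ => Ψ ζ⁻¹ - ζ⁻¹) (𝓝[≠] 0) (𝓝 0) :=
        hinf.comp tendsto_inv₀_nhdsNE_zero
      rw [continuousAt_iff_punctured_nhds, hg0]
      refine e1.congr' ?_
      filter_upwards [self_mem_nhdsWithin] with w hw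
      exact (hgne w hw).symm
  have hRR : R⁻¹ < R₄⁻¹ := (inv_lt_inv₀ hR hR₄).2 hR4R
  have hcb : closedBall (0 : ℂ) R⁻¹ ⊆ ball 0 R₄⁻¹ := closedBall_subset_ball hRR
  have hgd' := hgd.deriv isOpen_ball
  have h2 : ∀ ζ ∈ closedBall (0 : ℂ) R⁻¹, ‖deriv g ζ‖ ≤ E / δ * R ^ 2 := by
    intro ζ hζ
    have hR' : R⁻¹ ≠ 0 := (inv_pos.2 hR).ne'
    refine Complex.norm_le_of_forall_mem_frontier_norm_le (U := ball (0 : ℂ) R⁻¹) (f := deriv g)
      isBounded_ball ?_ ?_ ?_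
    · apply DifferentiableOn.diffContOnCl
      rw [closure_ball _ hR']
      exact hgd'.mono hcb
    · intro w hw
      rw [frontier_ball _ hR', mem_sphere_zero_iff_norm] at hw
      have hw0 : w ≠ 0 := by
        rw [← norm_pos_iff, hw]
        exact inv_pos.2 hR
      have hwb : w ∈ ball (0 : ℂ) R₄⁻¹ := by
        rw [mem_ball_zero_iff, hw]
        exact hRR
      rw [(hder w hwb hw0).deriv, norm_mul, norm_neg, norm_inv, norm_pow, hw]
      have e1 := h1 w⁻¹ (by rw [norm_inv, hw, inv_inv])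
      rw [inv_pow, inv_inv]
      exact mul_le_mul_of_nonneg_right e1 (by positivity)
    · rw [closure_ball _ hR']
      exact hζ
  intro z hz
  have hz0 : z ≠ 0 := by
    rw [← norm_pos_iff]
    linarith
  have hzi : z⁻¹ ∈ closedBall (0 : ℂ) R⁻¹ := by
    rw [mem_closedBall_zero_iff, norm_inv]
    exact inv_anti₀ hR hz
  have h3 := Convex.norm_image_sub_le_of_norm_deriv_le (f := g) (s := closedBall (0 : ℂ) R⁻¹)
    (fun x hx => hgd.differentiableAt (isOpen_ball.mem_nhds (hcb hx))) h2 (convex_closedBall _ _)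
    (mem_closedBall_self (inv_pos.2 hR).le) hzi
  rw [hg0, sub_zero, sub_zero, hgne _ (inv_ne_zero hz0), inv_inv] at h3
  refine h3.trans ?_
  rw [mem_closedBall_zero_iff] at hzi
  calc E / δ * R ^ 2 * ‖z⁻¹‖ ≤ E / δ * R ^ 2 * R⁻¹ :=
        mul_le_mul_of_nonneg_left hzi (by positivity)
    _ = R / δ * E := by field_simp

/-- the polynomial with given coefficients -/
noncomputable def pol {d : ℕ} (a : Fin (d + 1) → ℂ) : ℂ[X] :=
  ∑ i : Fin (d + 1), C (a i) * X ^ (i : ℕ)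

theorem PP_eq {d : ℕ} (x : WW d) : PP d x = pol (fun i => x (Sum.inl i)) := rfl

theorem QQ_eq {d : ℕ} (x : WW d) : QQ d x = pol (fun i => x (Sum.inr i)) := rfl

theorem eval_pol {d : ℕ} (a : Fin (d + 1) → ℂ) (z : ℂ) :
    (pol a).eval z = ∑ i : Fin (d + 1), a i * z ^ (i : ℕ) := by
  simp [pol, eval_finsetSum]

theorem eval_der_pol {d : ℕ} (a : Fin (d + 1) → ℂ) (z : ℂ) :
    (derivative (pol a)).eval z = ∑ i : Fin (d + 1), a i * ((i : ℕ) * z ^ ((i : ℕ) - 1)) := by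
  simp only [pol, derivative_sum, eval_finsetSum]
  refine Finset.sum_congr rfl fun i _ => ?_
  rw [derivative_C_mul, eval_mul, eval_C, derivative_X_pow, eval_mul, eval_C, eval_pow, eval_X]

theorem coeff_pol {d : ℕ} (a : Fin (d + 1) → ℂ) (i : Fin (d + 1)) : (pol a).coeff i = a i := by
  simp only [pol, finsetSum_coeff, coeff_C_mul, coeff_X_pow]
  rw [Finset.sum_eq_single i]
  · simp
  · intro j _ hj
    rw [if_neg, mul_zero]
    intro h
    exact hj (Fin.ext h.symm)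
  · simp

theorem natDegree_pol_le {d : ℕ} (a : Fin (d + 1) → ℂ) : (pol a).natDegree ≤ d := by
  apply natDegree_sum_le_of_forall_le
  intro i _
  exact (natDegree_C_mul_X_pow_le _ _).trans (by omega)

theorem eval_lim {d : ℕ} {a : ℕ → Fin (d + 1) → ℂ} {a0 : Fin (d + 1) → ℂ}
    (ha : Tendsto a atTop (𝓝 a0)) {w : ℕ → ℂ} {z : ℂ} (hw : Tendsto w atTop (𝓝 z)) :
    Tendsto (fun n => (pol (a n)).eval (w n)) atTop (𝓝 ((pol a0).eval z)) := by
  simp only [eval_pol]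
  refine tendsto_finsetSum _ fun i _ => ?_
  exact ((tendsto_pi_nhds.1 ha) i).mul (hw.pow _)

theorem quot_lim {d : ℕ} {a : ℕ → Fin (d + 1) → ℂ} {a0 : Fin (d + 1) → ℂ}
    (ha : Tendsto a atTop (𝓝 a0)) (z : ℂ) {h : ℕ → ℂ} {D : ℕ → ℝ} {κ : ℂ}
    (hh : Tendsto (fun n => h n / (D n : ℂ)) atTop (𝓝 κ)) (h0 : Tendsto h atTop (𝓝 0)) :
    Tendsto (fun n => ((pol (a n)).eval (z + h n) - (pol (a n)).eval z) / (D n : ℂ)) atTop
      (𝓝 (κ * (derivative (pol a0)).eval z)) := by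
  have e : ∀ n, ((pol (a n)).eval (z + h n) - (pol (a n)).eval z) / (D n : ℂ) =
      (h n / (D n : ℂ)) * ∑ i : Fin (d + 1), a n i *
        ∑ j ∈ Finset.range (i : ℕ), (z + h n) ^ j * z ^ ((i : ℕ) - 1 - j) := by
    intro n
    rw [eval_pol, eval_pol, ← Finset.sum_sub_distrib, div_mul_eq_mul_div, Finset.mul_sum]
    congr 1
    refine Finset.sum_congr rfl fun i _ => ?_
    have := geom_sum₂_mul (z + h n) z (i : ℕ)
    rw [← mul_sub, ← this]
    ring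
  simp only [e]
  refine hh.mul ?_
  rw [eval_der_pol]
  refine tendsto_finsetSum _ fun i _ => ?_
  refine ((tendsto_pi_nhds.1 ha) i).mul ?_
  have hz : Tendsto (fun n => z + h n) atTop (𝓝 z) := by
    simpa using h0.const_add z
  have h2 : Tendsto (fun n => ∑ j ∈ Finset.range (i : ℕ), (z + h n) ^ j * z ^ ((i : ℕ) - 1 - j))
      atTop (𝓝 (∑ j ∈ Finset.range (i : ℕ), z ^ j * z ^ ((i : ℕ) - 1 - j))) :=
    tendsto_finsetSum _ fun j _ => (hz.pow j).mul_const _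
  convert h2 using 2
  rw [Finset.sum_congr rfl (g := fun _ => z ^ ((i : ℕ) - 1))]
  · rw [Finset.sum_const, Finset.card_range, nsmul_eq_mul]
  · intro j hj
    rw [← pow_add]
    congr 1
    have := Finset.mem_range.1 hj
    omega

/-- the basic limit -/
theorem lim_lemma {d : ℕ} {xs ys : ℕ → WW d} {xT u : WW d} {D : ℕ → ℝ}
    (hx : Tendsto xs atTop (𝓝 xT)) (hy : Tendsto ys atTop (𝓝 xT)) (hD : ∀ n, 0 < D n)
    (hD0 : Tendsto D atTop (𝓝 0))
    (hu : Tendsto (fun n => ((D n)⁻¹ : ℝ) • (ys n - xs n)) atTop (𝓝 u)) {z : ℂ}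
    (hQ : (QQ d xT).eval z ≠ 0) {h k : ℕ → ℂ} {κ : ℂ}
    (hh : Tendsto (fun n => h n / (D n : ℂ)) atTop (𝓝 κ))
    (heq : ∀ᶠ n in atTop, (PP d (ys n)).eval (z + h n) =
      ((PP d (xs n)).eval z / (QQ d (xs n)).eval z + k n) * (QQ d (ys n)).eval (z + h n)) :
    Tendsto (fun n => k n / (D n : ℂ)) atTop
      (𝓝 ((κ * (derivative (PP d xT)).eval z + (PP d u).eval z -
        (PP d xT).eval z / (QQ d xT).eval z *
          (κ * (derivative (QQ d xT)).eval z + (QQ d u).eval z)) / (QQ d xT).eval z)) := by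
  have hDc : ∀ n, (D n : ℂ) ≠ 0 := fun n => Complex.ofReal_ne_zero.2 (hD n).ne'
  have h0 : Tendsto h atTop (𝓝 0) := by
    have h1 : Tendsto (fun n => (h n / (D n : ℂ)) * (D n : ℂ)) atTop (𝓝 (κ * ((0 : ℝ) : ℂ))) :=
      hh.mul ((Complex.continuous_ofReal.tendsto 0).comp hD0)
    simp only [Complex.ofReal_zero, mul_zero] at h1
    refine h1.congr fun n => ?_
    exact div_mul_cancel₀ _ (hDc n)
  have hcomp : ∀ (σ : Fin (d + 1) → Fin (d + 1) ⊕ Fin (d + 1)) {vs : ℕ → WW d} {v : WW d},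
      Tendsto vs atTop (𝓝 v) → Tendsto (fun n => fun i => vs n (σ i)) atTop (𝓝 fun i => v (σ i)) := by
    intro σ vs v hv
    rw [tendsto_pi_nhds]
    intro i
    exact (tendsto_pi_nhds.1 hv) (σ i)
  have hz : Tendsto (fun n => z + h n) atTop (𝓝 z) := by
    simpa using h0.const_add z
  have hc : Tendsto (fun _ : ℕ => z) atTop (𝓝 z) := tendsto_const_nhds
  -- limits
  have a1 := quot_lim (hcomp Sum.inl hy) z hh h0
  have a2 := quot_lim (hcomp Sum.inr hy) z hh h0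
  have a3 := eval_lim (hcomp Sum.inl hu) hc
  have a4 := eval_lim (hcomp Sum.inr hu) hc
  have a5 := eval_lim (hcomp Sum.inl hx) hc
  have a6 := eval_lim (hcomp Sum.inr hx) hc
  have a7 := eval_lim (hcomp Sum.inr hy) hz
  have hlin : ∀ (σ : Fin (d + 1) → Fin (d + 1) ⊕ Fin (d + 1)) (n : ℕ),
      (pol (fun i => (((D n)⁻¹ : ℝ) • (ys n - xs n)) (σ i))).eval z =
      ((pol (fun i => ys n (σ i))).eval z - (pol (fun i => xs n (σ i))).eval z) / (D n : ℂ) := by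
    intro σ n
    rw [eval_pol, eval_pol, eval_pol, ← Finset.sum_sub_distrib, Finset.sum_div]
    refine Finset.sum_congr rfl fun i _ => ?_
    rw [Pi.smul_apply, Pi.sub_apply, Complex.real_smul, Complex.ofReal_inv]
    field_simp
  simp only [hlin] at a3 a4
  simp only [← PP_eq, ← QQ_eq] at a1 a2 a3 a4 a5 a6 a7
  have hQn : ∀ᶠ n in atTop, (QQ d (ys n)).eval (z + h n) ≠ 0 := a7.eventually_ne hQ
  have hQx : ∀ᶠ n in atTop, (QQ d (xs n)).eval z ≠ 0 := a6.eventually_ne hQ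
  have key : Tendsto (fun n => (((PP d (ys n)).eval (z + h n) - (PP d (ys n)).eval z) / (D n : ℂ) +
      ((PP d (ys n)).eval z - (PP d (xs n)).eval z) / (D n : ℂ) -
      (PP d (xs n)).eval z / (QQ d (xs n)).eval z *
        (((QQ d (ys n)).eval (z + h n) - (QQ d (ys n)).eval z) / (D n : ℂ) +
      ((QQ d (ys n)).eval z - (QQ d (xs n)).eval z) / (D n : ℂ))) / (QQ d (ys n)).eval (z + h n))
      atTop (𝓝 ((κ * (derivative (PP d xT)).eval z + (PP d u).eval z -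
        (PP d xT).eval z / (QQ d xT).eval z *
          (κ * (derivative (QQ d xT)).eval z + (QQ d u).eval z)) / (QQ d xT).eval z)) :=
    ((a1.add a3).sub ((a5.div a6 hQ).mul (a2.add a4))).div a7 hQ
  refine key.congr' ?_
  filter_upwards [heq, hQn, hQx] with n hn h1 h2
  have h3 := hDc n
  rw [hn]
  field_simp
  ring

theorem FH_one {d : ℕ} (x : WW d) (z : ℂ) :
    FH d x (z, 1) = ((PP d x).eval z, (QQ d x).eval z) := by
  simp only [FH, PP_eq, QQ_eq, eval_pol, one_pow, mul_one]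

theorem over_one {d : ℕ} (x : WW d) (z w : ℂ) :
    Over (FH d x (z, 1)) w ↔ (QQ d x).eval z ≠ 0 ∧ (PP d x).eval z = w * (QQ d x).eval z := by
  rw [FH_one]
  rfl

theorem coprime_of_ndg {d : ℕ} {x : WW d} (h : Ndg d x) (hQ : QQ d x ≠ 0) :
    IsCoprime (PP d x) (QQ d x) := by
  classical
  rw [← EuclideanDomain.gcd_isUnit_iff]
  by_contra hn
  have hg0 : EuclideanDomain.gcd (PP d x) (QQ d x) ≠ 0 := by
    intro h0
    rw [EuclideanDomain.gcd_eq_zero_iff] at h0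
    exact hQ h0.2
  have hdeg : (EuclideanDomain.gcd (PP d x) (QQ d x)).degree ≠ 0 := by
    intro h0
    exact hn (isUnit_iff_degree_eq_zero.2 h0)
  obtain ⟨z, hz⟩ := IsAlgClosed.exists_root _ hdeg
  have h1 : (PP d x).eval z = 0 :=
    eval_eq_zero_of_dvd_of_eval_eq_zero (EuclideanDomain.gcd_dvd_left _ _) hz
  have h2 : (QQ d x).eval z = 0 :=
    eval_eq_zero_of_dvd_of_eval_eq_zero (EuclideanDomain.gcd_dvd_right _ _) hz
  have h3 := h (z, 1) (by rw [FH_one, h1, h2]; rfl)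
  exact one_ne_zero (congrArg Prod.snd h3)

theorem alg_final {d : ℕ} (hd : 2 ≤ d) {xT u : WW d} (hT : Ndg d xT)
    (hQd : xT (Sum.inr (Fin.last d)) ≠ 0) (hu : u (Sum.inr (Fin.last d)) = 0) {κ κ₂ : ℂ}
    (h1 : PP d u * QQ d xT - PP d xT * QQ d u = C κ * QQ d xT ^ 2)
    (h2 : C κ * (derivative (PP d xT) * QQ d xT - PP d xT * derivative (QQ d xT)) +
      C κ * QQ d xT ^ 2 = C κ₂ * QQ d xT ^ 2) : u = 0 := by
  have hc : (QQ d xT).coeff d ≠ 0 := by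
    have := coeff_pol (fun i => xT (Sum.inr i)) (Fin.last d)
    rw [Fin.val_last, ← QQ_eq] at this
    rw [this]
    exact hQd
  have hQ0 : QQ d xT ≠ 0 := by
    intro h
    rw [h, coeff_zero] at hc
    exact hc rfl
  have hnd : (QQ d xT).natDegree = d :=
    le_antisymm (natDegree_pol_le _) (le_natDegree_of_ne_zero hc)
  have hcop := coprime_of_ndg hT hQ0
  -- κ = 0
  have hκ : κ = 0 := by
    by_contra hκ
    have hu1 : IsUnit (C κ : ℂ[X]) := isUnit_C.2 (isUnit_iff_ne_zero.2 hκ)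
    have h3 : QQ d xT ∣ C κ * (PP d xT * derivative (QQ d xT)) := by
      refine ⟨C κ * derivative (PP d xT) + C κ * QQ d xT - C κ₂ * QQ d xT, ?_⟩
      linear_combination -h2
    rw [hu1.dvd_mul_left] at h3
    have h4 : QQ d xT ∣ derivative (QQ d xT) := hcop.symm.dvd_of_dvd_mul_left h3
    have h5 : derivative (QQ d xT) = 0 := by
      by_contra h6
      exact absurd (degree_derivative_lt hQ0) (not_lt.2 (degree_le_of_dvd h4 h6))
    have h6 := derivative_eq_zero.1 h5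
    omega
  rw [hκ, C_0, zero_mul, sub_eq_zero] at h1
  have h3 : QQ d xT ∣ QQ d u := by
    apply hcop.symm.dvd_of_dvd_mul_left
    rw [← h1]
    exact dvd_mul_left _ _
  have h4 : QQ d u = 0 := by
    by_contra h5
    have h6 := degree_le_of_dvd h3 h5
    have h7 : (QQ d u).natDegree ≤ d := natDegree_pol_le _
    have h8 : (QQ d u).natDegree = d := by
      have := natDegree_le_of_dvd h3 h5
      omega
    have h9 : (QQ d u).coeff d = 0 := by
      have := coeff_pol (fun i => u (Sum.inr i)) (Fin.last d)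
      rw [Fin.val_last, ← QQ_eq] at this
      rw [this, hu]
    have h10 : (QQ d u).leadingCoeff = 0 := by
      rw [leadingCoeff, h8, h9]
    exact h5 (leadingCoeff_eq_zero.1 h10)
  rw [h4, mul_zero] at h1
  have h5 : PP d u = 0 := (mul_eq_zero.1 h1).resolve_right hQ0
  funext k
  rcases k with i | i
  · have := coeff_pol (fun i => u (Sum.inl i)) i
    rw [← PP_eq, h5, coeff_zero] at this
    exact this.symm
  · have := coeff_pol (fun i => u (Sum.inr i)) i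
    rw [← QQ_eq, h4, coeff_zero] at this
    exact this.symm

theorem far_set {d : ℕ} {xT : WW d} {v₁ : ℂ} (h : Over (FH d xT (1, 0)) v₁) {r : ℝ} (hr : 0 < r) :
    ∀ᶠ z in Bornology.cobounded ℂ, (QQ d xT).eval z ≠ 0 ∧
      ‖(PP d xT).eval z / (QQ d xT).eval z - v₁‖ < r := by
  have hcont : Continuous fun ζ : ℂ => FH d xT (1, ζ) := by
    unfold FH
    fun_prop
  have h1 : Tendsto (fun ζ : ℂ => (FH d xT (1, ζ)).1 / (FH d xT (1, ζ)).2) (𝓝 0) (𝓝 v₁) := by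
    have h2 : (FH d xT (1, 0)).1 / (FH d xT (1, 0)).2 = v₁ := by
      rw [h.2, mul_div_cancel_right₀ _ h.1]
    rw [← h2]
    exact (hcont.fst.tendsto 0).div (hcont.snd.tendsto 0) h.1
  have h2 : ∀ᶠ ζ in 𝓝 (0 : ℂ), (FH d xT (1, ζ)).2 ≠ 0 :=
    (hcont.snd.tendsto 0).eventually_ne h.1
  have h3 : ∀ᶠ ζ in 𝓝 (0 : ℂ), ‖(FH d xT (1, ζ)).1 / (FH d xT (1, ζ)).2 - v₁‖ < r := by
    have := h1.eventually (ball_mem_nhds v₁ hr)
    filter_upwards [this] with ζ hζ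
    rwa [dist_eq_norm] at hζ
  have h4 := (tendsto_inv₀_cobounded (α := ℂ)).eventually (h2.and h3)
  have h5 : ∀ᶠ z in Bornology.cobounded ℂ, z ≠ (0 : ℂ) := by
    have := (tendsto_norm_cobounded_atTop (E := ℂ)).eventually (eventually_gt_atTop 0)
    filter_upwards [this] with z hz
    exact norm_pos_iff.1 hz
  filter_upwards [h4, h5] with z hz hz0
  have hp : ∀ i : Fin (d + 1), z ^ d * (z⁻¹ ^ (d - (i : ℕ))) = z ^ (i : ℕ) := by
    intro i
    have hi : (i : ℕ) + (d - (i : ℕ)) = d := by omega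
    calc z ^ d * (z⁻¹ ^ (d - (i : ℕ))) = z ^ ((i : ℕ) + (d - (i : ℕ))) * (z⁻¹ ^ (d - (i : ℕ))) := by
          rw [hi]
      _ = z ^ (i : ℕ) * (z * z⁻¹) ^ (d - (i : ℕ)) := by rw [pow_add, mul_pow]; ring
      _ = z ^ (i : ℕ) := by rw [mul_inv_cancel₀ hz0, one_pow, mul_one]
  have hP : (PP d xT).eval z = z ^ d * (FH d xT (1, z⁻¹)).1 := by
    rw [PP_eq, eval_pol]
    simp only [FH, one_pow, one_mul]
    rw [Finset.mul_sum]
    refine Finset.sum_congr rfl fun i _ => ?_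
    rw [← hp i]
    ring
  have hQ : (QQ d xT).eval z = z ^ d * (FH d xT (1, z⁻¹)).2 := by
    rw [QQ_eq, eval_pol]
    simp only [FH, one_pow, one_mul]
    rw [Finset.mul_sum]
    refine Finset.sum_congr rfl fun i _ => ?_
    rw [← hp i]
    ring
  have hzd : z ^ d ≠ 0 := pow_ne_zero _ hz0
  refine ⟨?_, ?_⟩
  · rw [hQ]
    exact mul_ne_zero hzd hz.1
  · rw [hP, hQ, mul_div_mul_left _ _ hzd]
    exact hz.2

theorem lead_of_over {d : ℕ} {xT : WW d} {v₁ : ℂ} (h : Over (FH d xT (1, 0)) v₁) :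
    xT (Sum.inr (Fin.last d)) ≠ 0 := by
  have h1 := h.1
  simp only [FH, one_pow, one_mul] at h1
  rw [Finset.sum_eq_single (Fin.last d)] at h1
  · simpa using h1
  · intro i _ hi
    have : d - (i : ℕ) ≠ 0 := by
      have h2 : (i : ℕ) ≠ d := fun h3 => hi (Fin.ext (by rw [h3, Fin.val_last]))
      omega
    rw [zero_pow this, mul_zero]
  · simp

theorem infinite_of_cobounded {S : Set ℂ} (hS : S ∈ Bornology.cobounded ℂ) : S.Infinite := by
  intro hf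
  have h1 : Sᶜ ∈ Bornology.cobounded ℂ := by
    have := hf.isBounded
    rwa [Bornology.isBounded_def] at this
  have h2 := inter_mem hS h1
  rw [inter_compl_self] at h2
  exact (inferInstance : (Bornology.cobounded ℂ).NeBot).ne (empty_mem_iff_bot.1 h2)

theorem lim_transfer {D ε : ℕ → ℝ} (hD : ∀ n, 0 < D n) (hε0 : Tendsto ε atTop (𝓝 0))
    {k c : ℕ → ℂ} {A : ℂ} (hk : Tendsto (fun n => k n / (D n : ℂ)) atTop (𝓝 A))
    (h : ∀ᶠ n in atTop, ‖k n - c n‖ ≤ ε n * D n) :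
    Tendsto (fun n => c n / (D n : ℂ)) atTop (𝓝 A) := by
  have h1 : Tendsto (fun n => k n / (D n : ℂ) - c n / (D n : ℂ)) atTop (𝓝 0) := by
    apply squeeze_zero_norm' _ hε0
    filter_upwards [h] with n hn
    rw [← sub_div, norm_div, Complex.norm_real, Real.norm_eq_abs, abs_of_pos (hD n),
      div_le_iff₀ (hD n)]
    exact hn
  have h2 := hk.sub h1
  rw [sub_zero] at h2
  refine h2.congr fun n => ?_
  ring

theorem step {d : ℕ} {xs ys : ℕ → WW d} {xT u : WW d} {D ε : ℕ → ℝ}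
    (hx : Tendsto xs atTop (𝓝 xT)) (hy : Tendsto ys atTop (𝓝 xT)) (hD : ∀ n, 0 < D n)
    (hD0 : Tendsto D atTop (𝓝 0)) (hε0 : Tendsto ε atTop (𝓝 0))
    (hu : Tendsto (fun n => ((D n)⁻¹ : ℝ) • (ys n - xs n)) atTop (𝓝 u))
    {Ω : ℕ → Set ℂ} {Ψ : ℕ → ℂ → ℂ} {v : ℂ} {r : ℝ} (hr : 0 < r) (hv : ∀ n, ball v r ⊆ Ω n)
    (hosc : ∀ n, ∀ w ∈ ball v (r / 2), ‖(Ψ n w - w) - (Ψ n v - v)‖ ≤ ε n * D n)
    (heq : ∀ n, ∀ z ∈ Ω n, ∀ z' ∈ Ω n, Over (FH d (xs n) (z, 1)) z' →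
      Over (FH d (ys n) (Ψ n z, 1)) (Ψ n z'))
    {z : ℂ} (hz : ∀ n, z ∈ Ω n) (hQ : (QQ d xT).eval z ≠ 0)
    (hf : ‖(PP d xT).eval z / (QQ d xT).eval z - v‖ < r / 2) {κ : ℂ}
    (hκ : Tendsto (fun n => (Ψ n z - z) / (D n : ℂ)) atTop (𝓝 κ)) :
    Tendsto (fun n => (Ψ n v - v) / (D n : ℂ)) atTop
      (𝓝 ((κ * (derivative (PP d xT)).eval z + (PP d u).eval z -
        (PP d xT).eval z / (QQ d xT).eval z *
          (κ * (derivative (QQ d xT)).eval z + (QQ d u).eval z)) / (QQ d xT).eval z)) := by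
  set f : ℕ → ℂ := fun n => (PP d (xs n)).eval z / (QQ d (xs n)).eval z with hfdef
  have hcomp : ∀ (σ : Fin (d + 1) → Fin (d + 1) ⊕ Fin (d + 1)) {vs : ℕ → WW d} {v : WW d},
      Tendsto vs atTop (𝓝 v) → Tendsto (fun n => fun i => vs n (σ i)) atTop (𝓝 fun i => v (σ i)) := by
    intro σ vs v hv
    rw [tendsto_pi_nhds]
    intro i
    exact (tendsto_pi_nhds.1 hv) (σ i)
  have hc : Tendsto (fun _ : ℕ => z) atTop (𝓝 z) := tendsto_const_nhds
  have a5 := eval_lim (hcomp Sum.inl hx) hc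
  have a6 := eval_lim (hcomp Sum.inr hx) hc
  simp only [← PP_eq, ← QQ_eq] at a5 a6
  have hflim : Tendsto f atTop (𝓝 ((PP d xT).eval z / (QQ d xT).eval z)) := a5.div a6 hQ
  have hfball : ∀ᶠ n in atTop, f n ∈ ball v (r / 2) := by
    apply hflim.eventually (isOpen_ball.mem_nhds _)
    rw [mem_ball, dist_eq_norm]
    exact hf
  have hQx : ∀ᶠ n in atTop, (QQ d (xs n)).eval z ≠ 0 := a6.eventually_ne hQ
  have h1 := lim_lemma hx hy hD hD0 hu hQ (k := fun n => Ψ n (f n) - f n) hκ (by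
    filter_upwards [hfball, hQx] with n hn hq
    have h2 : Over (FH d (xs n) (z, 1)) (f n) := by
      rw [over_one]
      exact ⟨hq, (div_mul_cancel₀ _ hq).symm⟩
    have h3 := heq n z (hz n) (f n) (hv n (ball_subset_ball (by linarith) hn)) h2
    rw [over_one] at h3
    have e1 : z + (Ψ n z - z) = Ψ n z := by ring
    rw [e1, h3.2]
    simp only [hfdef]
    ring)
  refine lim_transfer hD hε0 h1 ?_
  filter_upwards [hfball] with n hn
  exact hosc n (f n) hn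

theorem core {d : ℕ} {xT : WW d} {v₁ v₂ : ℂ} {R₄ R₅ r₁ : ℝ} (hd : 2 ≤ d) (hT : Ndg d xT)
    (hv₁ : Over (FH d xT (1, 0)) v₁) (hv₂ : Over (FH d xT (v₁, 1)) v₂) (hR₄ : 0 < R₄)
    (hR₅ : R₄ < R₅) (hr₁ : 0 < r₁) {xs ys : ℕ → WW d} {u : WW d} {D ε : ℕ → ℝ}
    (hx : Tendsto xs atTop (𝓝 xT)) (hy : Tendsto ys atTop (𝓝 xT))
    (hlast : ∀ n, ys n (Sum.inr (Fin.last d)) = xs n (Sum.inr (Fin.last d)))
    (hD : ∀ n, 0 < D n) (hD0 : Tendsto D atTop (𝓝 0)) (hε : ∀ n, 0 ≤ ε n)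
    (hε0 : Tendsto ε atTop (𝓝 0))
    (hu : Tendsto (fun n => ((D n)⁻¹ : ℝ) • (ys n - xs n)) atTop (𝓝 u))
    {Ω : ℕ → Set ℂ} {Ψ : ℕ → ℂ → ℂ}
    (hΩ₄ : ∀ n, {z | R₄ < ‖z‖} ⊆ Ω n) (hΩ₁ : ∀ n, ball v₁ r₁ ⊆ Ω n)
    (hΩ₂ : ∀ n, ball v₂ r₁ ⊆ Ω n) (hΨd : ∀ n, DifferentiableOn ℂ (Ψ n) (Ω n))
    (hΨi : ∀ n, Tendsto (fun z : ℂ => Ψ n z - z) (Bornology.cobounded ℂ) (𝓝 0))
    (heq : ∀ n, ∀ z ∈ Ω n, ∀ z' ∈ Ω n, Over (FH d (xs n) (z, 1)) z' →
      Over (FH d (ys n) (Ψ n z, 1)) (Ψ n z'))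
    (hint : ∀ n, ∫⁻ z in K1 R₄ R₅ v₁ v₂ r₁, ENNReal.ofReal (‖deriv (Ψ n) z - 1‖ ^ 2) ≤
      ENNReal.ofReal ((ε n * D n) ^ 2)) : u = 0 := by
  have hE : ∀ n, 0 ≤ ε n * D n := fun n => mul_nonneg (hε n) (hD n).le
  have hK₁ : ball v₁ r₁ ⊆ K1 R₄ R₅ v₁ v₂ r₁ := fun z hz => Or.inl (Or.inr hz)
  have hK₂ : ball v₂ r₁ ⊆ K1 R₄ R₅ v₁ v₂ r₁ := fun z hz => Or.inr hz
  have hK₃ : {z : ℂ | R₄ < ‖z‖ ∧ ‖z‖ < R₅} ⊆ K1 R₄ R₅ v₁ v₂ r₁ := fun z hz => Or.inl (Or.inl hz)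
  have osc₁ := fun n => osc_bound hr₁ hK₁ ((hΨd n).mono (hΩ₁ n)) (hE n) (hint n)
  have osc₂ := fun n => osc_bound hr₁ hK₂ ((hΨd n).mono (hΩ₂ n)) (hE n) (hint n)
  have far := fun n => far_bound hR₄ hR₅ hK₃ ((hΨd n).mono (hΩ₄ n)) (hΨi n) (hE n) (hint n)
  set Cf : ℝ := ((R₄ + R₅) / 2) / ((R₅ - R₄) / 2) with hCf
  -- near infinity
  have hSinf : ∀ᶠ z in Bornology.cobounded ℂ, ((QQ d xT).eval z ≠ 0 ∧
      ‖(PP d xT).eval z / (QQ d xT).eval z - v₁‖ < r₁ / 2) ∧ (R₄ + R₅) / 2 ≤ ‖z‖ :=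
    (far_set hv₁ (half_pos hr₁)).and
      ((tendsto_norm_cobounded_atTop (E := ℂ)).eventually (eventually_ge_atTop _))
  have stepD : ∀ z : ℂ, (((QQ d xT).eval z ≠ 0 ∧
      ‖(PP d xT).eval z / (QQ d xT).eval z - v₁‖ < r₁ / 2) ∧ (R₄ + R₅) / 2 ≤ ‖z‖) →
      Tendsto (fun n => (Ψ n v₁ - v₁) / (D n : ℂ)) atTop
      (𝓝 ((0 * (derivative (PP d xT)).eval z + (PP d u).eval z -
        (PP d xT).eval z / (QQ d xT).eval z *
          (0 * (derivative (QQ d xT)).eval z + (QQ d u).eval z)) / (QQ d xT).eval z)) := by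
    intro z hz
    refine step hx hy hD hD0 hε0 hu hr₁ hΩ₁ osc₁ heq (fun n => hΩ₄ n ?_) hz.1.1 hz.1.2 ?_
    · have := hz.2
      show R₄ < ‖z‖
      linarith
    · have h0 : Tendsto (fun n => Cf * ε n) atTop (𝓝 0) := by
        simpa using hε0.const_mul Cf
      apply squeeze_zero_norm _ h0
      intro n
      rw [norm_div, Complex.norm_real, Real.norm_eq_abs, abs_of_pos (hD n), div_le_iff₀ (hD n)]
      have := far n z hz.2
      linarith
  obtain ⟨z₀, hz₀⟩ := hSinf.exists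
  have hκ := stepD z₀ hz₀
  set κ : ℂ := ((0 * (derivative (PP d xT)).eval z₀ + (PP d u).eval z₀ -
        (PP d xT).eval z₀ / (QQ d xT).eval z₀ *
          (0 * (derivative (QQ d xT)).eval z₀ + (QQ d u).eval z₀)) / (QQ d xT).eval z₀) with hκdef
  have id1 : PP d u * QQ d xT - PP d xT * QQ d u = C κ * QQ d xT ^ 2 := by
    apply eq_of_infinite_eval_eq
    apply (infinite_of_cobounded hSinf).mono
    intro z hz
    have h1 := tendsto_nhds_unique (stepD z hz) hκ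
    have hq := hz.1.1
    show eval z (PP d u * QQ d xT - PP d xT * QQ d u) = eval z (C κ * QQ d xT ^ 2)
    rw [eval_sub, eval_mul, eval_mul, eval_mul, eval_C, eval_pow, ← h1]
    field_simp
    ring
  -- near `v₁`
  have stepE : ∀ w ∈ ball v₁ (r₁ / 2), (QQ d xT).eval w ≠ 0 →
      ‖(PP d xT).eval w / (QQ d xT).eval w - v₂‖ < r₁ / 2 →
      Tendsto (fun n => (Ψ n v₂ - v₂) / (D n : ℂ)) atTop
      (𝓝 ((κ * (derivative (PP d xT)).eval w + (PP d u).eval w -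
        (PP d xT).eval w / (QQ d xT).eval w *
          (κ * (derivative (QQ d xT)).eval w + (QQ d u).eval w)) / (QQ d xT).eval w)) := by
    intro w hw hq hf
    refine step hx hy hD hD0 hε0 hu hr₁ hΩ₂ osc₂ heq
      (fun n => hΩ₁ n (ball_subset_ball (by linarith) hw)) hq hf ?_
    refine lim_transfer hD hε0 hκ (Eventually.of_forall fun n => ?_)
    rw [norm_sub_rev]
    exact osc₁ n w hw
  rw [over_one] at hv₂
  have hfv : (PP d xT).eval v₁ / (QQ d xT).eval v₁ = v₂ := by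
    rw [hv₂.2, mul_div_cancel_right₀ _ hv₂.1]
  have hnear : ∀ᶠ w in 𝓝 v₁, w ∈ ball v₁ (r₁ / 2) ∧ (QQ d xT).eval w ≠ 0 ∧
      ‖(PP d xT).eval w / (QQ d xT).eval w - v₂‖ < r₁ / 2 := by
    have c1 : ContinuousAt (fun w => (PP d xT).eval w / (QQ d xT).eval w) v₁ :=
      (PP d xT).continuous.continuousAt.div (QQ d xT).continuous.continuousAt hv₂.1
    have c2 := c1.eventually (ball_mem_nhds _ (half_pos hr₁))
    beta_reduce at c2
    rw [hfv] at c2
    filter_upwards [ball_mem_nhds v₁ (half_pos hr₁),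
      (QQ d xT).continuous.continuousAt.eventually_ne hv₂.1, c2] with w h1 h2 h3
    refine ⟨h1, h2, ?_⟩
    rwa [dist_eq_norm] at h3
  have hv₁self := hnear.self_of_nhds
  have hκ₂ := stepE v₁ hv₁self.1 hv₁self.2.1 hv₁self.2.2
  set κ₂ : ℂ := ((κ * (derivative (PP d xT)).eval v₁ + (PP d u).eval v₁ -
        (PP d xT).eval v₁ / (QQ d xT).eval v₁ *
          (κ * (derivative (QQ d xT)).eval v₁ + (QQ d u).eval v₁)) / (QQ d xT).eval v₁) with hκ₂def
  have id2 : C κ * (derivative (PP d xT) * QQ d xT - PP d xT * derivative (QQ d xT)) +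
      C κ * QQ d xT ^ 2 = C κ₂ * QQ d xT ^ 2 := by
    rw [← id1]
    apply eq_of_infinite_eval_eq
    apply (infinite_of_mem_nhds v₁ hnear).mono
    intro w hw
    have h1 := tendsto_nhds_unique (stepE w hw.1 hw.2.1 hw.2.2) hκ₂
    have hq := hw.2.1
    show eval w (C κ * (derivative (PP d xT) * QQ d xT - PP d xT * derivative (QQ d xT)) +
      (PP d u * QQ d xT - PP d xT * QQ d u)) = eval w (C κ₂ * QQ d xT ^ 2)
    simp only [eval_add, eval_sub, eval_mul, eval_C, eval_pow]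
    rw [← h1]
    field_simp
    ring
  have hulast : u (Sum.inr (Fin.last d)) = 0 := by
    have h1 := (tendsto_pi_nhds.1 hu) (Sum.inr (Fin.last d))
    have h2 : (fun n => (((D n)⁻¹ : ℝ) • (ys n - xs n)) (Sum.inr (Fin.last d))) =
        fun _ => (0 : ℂ) := by
      funext n
      rw [Pi.smul_apply, Pi.sub_apply, hlast n, sub_self, smul_zero]
    rw [h2] at h1
    exact tendsto_nhds_unique h1 tendsto_const_nhds
  exact alg_final hd hT (lead_of_over hv₁) hulast id1 id2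

end GAIN3

open GAIN3 in
theorem gain3_holds : StGAIN3 := by
  intro d xT v₁ v₂ R₄ R₅ r₁ hd hT hv₁ hv₂ hR₄ hR₅ hr₁
  by_contra hcon
  have hn : ∀ n : ℕ, ∃ (x y : WW d), x ∈ ball xT (1 / ((n : ℝ) + 1)) ∧
      y ∈ ball xT (1 / ((n : ℝ) + 1)) ∧ y (Sum.inr (Fin.last d)) = x (Sum.inr (Fin.last d)) ∧
      ¬ Gain d R₄ R₅ v₁ v₂ r₁ (1 / ((n : ℝ) + 1)) x y := by
    intro n
    by_contra hc
    apply hcon
    refine ⟨1 / ((n : ℝ) + 1), 1 / ((n : ℝ) + 1), by positivity, by positivity, ?_⟩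
    intro x hx y hy hl
    by_contra hG
    exact hc ⟨x, y, hx, hy, hl, hG⟩
  choose xs ys hxs hys hlast hG using hn
  have hG2 : ∀ n, ∃ (Ω : Set ℂ) (Ψ : ℂ → ℂ), IsOpen Ω ∧ {z | R₄ < ‖z‖} ⊆ Ω ∧
      ball v₁ r₁ ⊆ Ω ∧ ball v₂ r₁ ⊆ Ω ∧ DifferentiableOn ℂ Ψ Ω ∧
      Tendsto (fun z : ℂ => Ψ z - z) (Bornology.cobounded ℂ) (𝓝 0) ∧
      (∀ z ∈ Ω, ∀ z' ∈ Ω, Over (FH d (xs n) (z, 1)) z' → Over (FH d (ys n) (Ψ z, 1)) (Ψ z')) ∧
      ∫⁻ z in K1 R₄ R₅ v₁ v₂ r₁, ENNReal.ofReal (‖deriv Ψ z - 1‖ ^ 2) <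
        ENNReal.ofReal (1 / ((n : ℝ) + 1) * Dl d (xs n) (ys n)) := by
    intro n
    by_contra hc
    apply hG n
    intro Ω Ψ h1 h2 h3 h4 h5 h6 h7
    by_contra h8
    exact hc ⟨Ω, Ψ, h1, h2, h3, h4, h5, h6, h7, not_le.1 h8⟩
  choose Ω Ψ hΩo hΩ₄ hΩ₁ hΩ₂ hΨd hΨi heq hlt using hG2
  set D : ℕ → ℝ := fun n => ‖ys n - xs n‖ with hDdef
  have hD : ∀ n, 0 < D n := by
    intro n
    rw [hDdef]
    simp only [norm_pos_iff]
    intro h0
    have h1 := hlt n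
    have h2 : Dl d (xs n) (ys n) = 0 := by
      unfold Dl
      apply Finset.sum_eq_zero
      intro k _
      have := congrFun h0 k
      rw [Pi.sub_apply, Pi.zero_apply] at this
      rw [this]
      simp
    rw [h2, mul_zero, ENNReal.ofReal_zero] at h1
    exact absurd h1 (not_lt.2 (zero_le))
  set c : ℝ := (Fintype.card (Fin (d + 1) ⊕ Fin (d + 1)) : ℝ) with hc
  have hc0 : 0 ≤ c := by positivity
  have hDl : ∀ n, Dl d (xs n) (ys n) ≤ c * D n ^ 2 := by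
    intro n
    unfold Dl
    calc ∑ k, ‖ys n k - xs n k‖ ^ 2 ≤ ∑ _k : Fin (d + 1) ⊕ Fin (d + 1), D n ^ 2 := by
          apply Finset.sum_le_sum
          intro k _
          apply pow_le_pow_left₀ (norm_nonneg _)
          exact norm_le_pi_norm (ys n - xs n) k
      _ = c * D n ^ 2 := by
          rw [Finset.sum_const, nsmul_eq_mul, Finset.card_univ]
  set ε : ℕ → ℝ := fun n => Real.sqrt (c * (1 / ((n : ℝ) + 1))) with hεdef
  have hε : ∀ n, 0 ≤ ε n := fun n => Real.sqrt_nonneg _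
  have h1n : Tendsto (fun n : ℕ => 1 / ((n : ℝ) + 1)) atTop (𝓝 0) :=
    tendsto_one_div_add_atTop_nhds_zero_nat
  have hε0 : Tendsto ε atTop (𝓝 0) := by
    have h1 : Tendsto (fun n : ℕ => c * (1 / ((n : ℝ) + 1))) atTop (𝓝 0) := by
      simpa using h1n.const_mul c
    have h2 := (Real.continuous_sqrt.tendsto 0).comp h1
    rw [Real.sqrt_zero] at h2
    exact h2
  have hx : Tendsto xs atTop (𝓝 xT) := by
    rw [tendsto_iff_dist_tendsto_zero]
    exact squeeze_zero (fun _ => dist_nonneg) (fun n => (mem_ball.1 (hxs n)).le) h1n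
  have hy : Tendsto ys atTop (𝓝 xT) := by
    rw [tendsto_iff_dist_tendsto_zero]
    exact squeeze_zero (fun _ => dist_nonneg) (fun n => (mem_ball.1 (hys n)).le) h1n
  have hD0 : Tendsto D atTop (𝓝 0) := by
    have := (hy.sub hx).norm
    rw [sub_self, norm_zero] at this
    exact this
  have hint : ∀ n, ∫⁻ z in K1 R₄ R₅ v₁ v₂ r₁, ENNReal.ofReal (‖deriv (Ψ n) z - 1‖ ^ 2) ≤
      ENNReal.ofReal ((ε n * D n) ^ 2) := by
    intro n
    refine (hlt n).le.trans (ENNReal.ofReal_le_ofReal ?_)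
    rw [mul_pow, hεdef]
    simp only
    rw [Real.sq_sqrt (by positivity)]
    have h1 : 0 ≤ 1 / ((n : ℝ) + 1) := by positivity
    calc 1 / ((n : ℝ) + 1) * Dl d (xs n) (ys n) ≤ 1 / ((n : ℝ) + 1) * (c * D n ^ 2) :=
          mul_le_mul_of_nonneg_left (hDl n) h1
      _ = c * (1 / ((n : ℝ) + 1)) * D n ^ 2 := by ring
  have hsph : ∀ n, ((D n)⁻¹ : ℝ) • (ys n - xs n) ∈ sphere (0 : WW d) 1 := by
    intro n
    rw [mem_sphere_zero_iff_norm, norm_smul, norm_inv, Real.norm_eq_abs, abs_of_pos (hD n)]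
    exact inv_mul_cancel₀ (hD n).ne'
  obtain ⟨u, hu, φ, hφ, hlim⟩ := (isCompact_sphere (0 : WW d) 1).tendsto_subseq hsph
  have hφt := hφ.tendsto_atTop
  have h0 := core hd hT hv₁ hv₂ hR₄ hR₅ hr₁ (xs := xs ∘ φ) (ys := ys ∘ φ) (u := u) (D := D ∘ φ)
    (ε := ε ∘ φ) (Ω := Ω ∘ φ) (Ψ := Ψ ∘ φ) (hx.comp hφt) (hy.comp hφt) (fun n => hlast (φ n))
    (fun n => hD (φ n)) (hD0.comp hφt) (fun n => hε (φ n)) (hε0.comp hφt) hlim
    (fun n => hΩ₄ (φ n)) (fun n => hΩ₁ (φ n)) (fun n => hΩ₂ (φ n)) (fun n => hΨd (φ n))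
    (fun n => hΨi (φ n)) (fun n => heq (φ n)) (fun n => hint (φ n))
  rw [h0, mem_sphere_zero_iff_norm, norm_zero] at hu
  exact zero_ne_one hu

end Pool.Agent.H713R4.RB
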