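import Mathlib
import Pool.Agent.H713R4.RB.Defs2

/-! Task GEN: generic parameters. -/

set_option autoImplicit false

open Topology Filter Metric Set Polynomial MeasureTheory

namespace Pool.Agent.H713R4.RB

section gen

variable {d q : ℕ} {xT : WW d} {ρ₀ : ℝ} {s : Fin q → WW d → ℂ} {rr : Fin q → ℝ}
  {σ : Equiv.Perm (Fin q)} {th : ℝ} {K : WW d × (ℂ × ℂ) → ℂ} {lab : WW d × (ℂ × ℂ) → Fin q}

theorem GEN_over {p : ℂ × ℂ} {w : ℂ} (h : Over p w) : p = p.2 • ((w, 1) : ℂ × ℂ) := by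
  ext
  · simp [h.2, mul_comm]
  · simp

theorem GEN_over_smul {p : ℂ × ℂ} {w c : ℂ} (hc : c ≠ 0) (h : Over p w) : Over (c • p) w := by
  refine ⟨mul_ne_zero hc h.1, ?_⟩
  simp only [Prod.smul_fst, Prod.smul_snd, smul_eq_mul, h.2]
  ring

theorem GEN_FH_smul (x : WW d) (c : ℂ) (p : ℂ × ℂ) : FH d x (c • p) = c ^ d • FH d x p := by
  have key : ∀ g : Fin (d + 1) → ℂ,
      ∑ i : Fin (d + 1), g i * ((c • p).1 ^ (i : ℕ) * (c • p).2 ^ (d - (i : ℕ))) =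
        c ^ d * ∑ i : Fin (d + 1), g i * (p.1 ^ (i : ℕ) * p.2 ^ (d - (i : ℕ))) := by
    intro g
    rw [Finset.mul_sum]
    apply Finset.sum_congr rfl
    intro i _
    have : c ^ d = c ^ (i : ℕ) * c ^ (d - (i : ℕ)) := by
      rw [← pow_add]
      congr 1
      have := i.2
      omega
    rw [this]
    simp only [Prod.smul_fst, Prod.smul_snd, smul_eq_mul, mul_pow]
    ring
  unfold FH
  ext
  · simp only [Prod.smul_mk, smul_eq_mul]
    exact key fun i => x (Sum.inl i)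
  · simp only [Prod.smul_mk, smul_eq_mul]
    exact key fun i => x (Sum.inr i)

/-- the sinks are permuted -/
theorem GEN_con0 (hS : SK d q xT ρ₀ s rr σ th) {y : WW d} (hy : y ∈ ball xT ρ₀) (l : Fin q) :
    Over (FH d y (s l y, 1)) (s (σ l) y) := by
  obtain ⟨w, h1, h2⟩ := hS.con y hy l (s l y) (mem_ball_self (hS.rp l))
  rw [sub_self, norm_zero, mul_zero, zero_mul] at h2
  have h3 : ‖w - s (σ l) y‖ = 0 := by
    by_contra h
    have : 0 < ‖w - s (σ l) y‖ * rr l :=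
      mul_pos (lt_of_le_of_ne (norm_nonneg _) (Ne.symm h)) (hS.rp l)
    linarith
  rw [norm_eq_zero, sub_eq_zero] at h3
  rwa [h3] at h1

theorem GEN_sink (hS : SK d q xT ρ₀ s rr σ th) {y : WW d} (hy : y ∈ ball xT ρ₀) (l : Fin q)
    (n : ℕ) : ∃ c : ℂ, c ≠ 0 ∧ (FH d y)^[n] (s l y, 1) = c • ((s ((σ ^ n) l) y, 1) : ℂ × ℂ) := by
  induction n with
  | zero => exact ⟨1, one_ne_zero, by simp⟩
  | succ n ih =>
    obtain ⟨c, hc, h⟩ := ih
    have h1 := GEN_con0 hS hy ((σ ^ n) l)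
    refine ⟨c ^ d * (FH d y (s ((σ ^ n) l) y, 1)).2, mul_ne_zero (pow_ne_zero _ hc) h1.1, ?_⟩
    rw [Function.iterate_succ_apply', h, GEN_FH_smul, pow_succ', Equiv.Perm.mul_apply, mul_smul]
    congr 1
    exact GEN_over h1

/-- the sinks are periodic -/
theorem GEN_period (hS : SK d q xT ρ₀ s rr σ th) {y : WW d} (hy : y ∈ ball xT ρ₀) (l : Fin q) :
    ∃ c : ℂ, c ≠ 0 ∧ (FH d y)^[orderOf σ] (s l y, 1) = c • ((s l y, 1) : ℂ × ℂ) := by
  obtain ⟨c, hc, h⟩ := GEN_sink hS hy l (orderOf σ)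
  rw [pow_orderOf_eq_one] at h
  exact ⟨c, hc, by simpa using h⟩

theorem GEN_FHN_smul (x : WW d) (n : ℕ) : ∀ (c : ℂ) (p : ℂ × ℂ), c ≠ 0 →
    ∃ c' : ℂ, c' ≠ 0 ∧ (FH d x)^[n] (c • p) = c' • (FH d x)^[n] p := by
  induction n with
  | zero => exact fun c p hc => ⟨c, hc, rfl⟩
  | succ n ih =>
    intro c p hc
    obtain ⟨c', hc', h⟩ := ih (c ^ d) (FH d x p) (pow_ne_zero _ hc)
    refine ⟨c', hc', ?_⟩
    rw [Function.iterate_succ_apply, Function.iterate_succ_apply, GEN_FH_smul, h]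

/-- attracted points approach the sinks -/
theorem GEN_orbit (hS : SK d q xT ρ₀ s rr σ th) {y : WW d} (hy : y ∈ ball xT ρ₀) {p : ℂ × ℂ}
    {n : ℕ} {l : Fin q} {w : ℂ} (h1 : Over ((FH d y)^[n] p) w) (h2 : w ∈ ball (s l y) (rr l))
    (j : ℕ) : ∃ w' : ℂ, Over ((FH d y)^[n + j] p) w' ∧
      w' ∈ ball (s ((σ ^ j) l) y) (rr ((σ ^ j) l)) ∧
      ‖w' - s ((σ ^ j) l) y‖ ≤ th ^ j * rr ((σ ^ j) l) := by
  induction j with
  | zero =>
    refine ⟨w, h1, by simpa using h2, ?_⟩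
    rw [mem_ball, dist_eq_norm] at h2
    simpa using h2.le
  | succ j ih =>
    obtain ⟨w', h3, h4, h5⟩ := ih
    obtain ⟨w'', h6, h7⟩ := hS.con y hy _ w' h4
    have hp := hS.rp ((σ ^ j) l)
    have hp' := hS.rp (σ ((σ ^ j) l))
    have hth := hS.th0
    have h8 : ‖w'' - s (σ ((σ ^ j) l)) y‖ ≤ th ^ (j + 1) * rr (σ ((σ ^ j) l)) := by
      have h9 : ‖w'' - s (σ ((σ ^ j) l)) y‖ * rr ((σ ^ j) l) ≤
          (th ^ (j + 1) * rr (σ ((σ ^ j) l))) * rr ((σ ^ j) l) := by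
        refine h7.trans ?_
        calc th * ‖w' - s ((σ ^ j) l) y‖ * rr (σ ((σ ^ j) l))
            ≤ th * (th ^ j * rr ((σ ^ j) l)) * rr (σ ((σ ^ j) l)) := by gcongr
          _ = (th ^ (j + 1) * rr (σ ((σ ^ j) l))) * rr ((σ ^ j) l) := by ring
      exact le_of_mul_le_mul_right h9 hp
    have e : (σ ^ (j + 1)) l = σ ((σ ^ j) l) := by rw [pow_succ', Equiv.Perm.mul_apply]
    rw [e]
    refine ⟨w'', ?_, ?_, h8⟩
    · rw [← add_assoc, Function.iterate_succ_apply', GEN_over h3, GEN_FH_smul]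
      exact GEN_over_smul (pow_ne_zero _ h3.1) h6
    · rw [mem_ball, dist_eq_norm]
      refine h8.trans_lt ?_
      have : th ^ (j + 1) < 1 := pow_lt_one₀ hth.le hS.th1 (by omega)
      nlinarith

theorem GEN_close (hS : SK d q xT ρ₀ s rr σ th) {y : WW d} (hy : y ∈ ball xT ρ₀) {p : ℂ × ℂ}
    (hA : Att d q s rr y p) {r : ℝ} (hr : 0 < r) : ∃ (N : ℕ) (l : Fin q) (w : ℂ), 1 ≤ N ∧
      Over ((FH d y)^[N] p) w ∧ w ∈ ball (s l y) (rr l) ∧ w ∈ ball (s l y) r := by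
  obtain ⟨n, l, w, h1, h2⟩ := hA
  have hev : ∀ᶠ j : ℕ in atTop, ∀ l : Fin q, th ^ j * rr l < r := by
    rw [eventually_all]
    intro l
    have h3 : Tendsto (fun j : ℕ => th ^ j * rr l) atTop (𝓝 (0 * rr l)) :=
      (tendsto_pow_atTop_nhds_zero_of_lt_one hS.th0.le hS.th1).mul_const _
    rw [zero_mul] at h3
    exact h3.eventually (eventually_lt_nhds hr)
  obtain ⟨j, hj1, hj2⟩ := (hev.and (eventually_ge_atTop 1)).exists
  obtain ⟨w', h3, h4, h5⟩ := GEN_orbit hS hy h1 h2 j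
  refine ⟨n + j, (σ ^ j) l, w', by omega, h3, h4, ?_⟩
  rw [mem_ball, dist_eq_norm]
  exact h5.trans_lt (hj1 _)

/-- the Koenigs coordinate along an orbit -/
theorem GEN_K (hO : StOPEN) (hS : SK d q xT ρ₀ s rr σ th) (hK : KD d q xT ρ₀ s rr σ K lab)
    {y : WW d} (hy : y ∈ BM d q xT ρ₀ s) {p : ℂ × ℂ} (hA : Att d q s rr y p) (n : ℕ) :
    Att d q s rr y ((FH d y)^[n] p) ∧ lab (y, (FH d y)^[n] p) = (σ ^ n) (lab (y, p)) ∧
      K (y, (FH d y)^[n] p) =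
        (∏ j ∈ Finset.range n, mu d y (s ((σ ^ j) (lab (y, p))) y)) * K (y, p) := by
  induction n with
  | zero => simpa using hA
  | succ n ih =>
    obtain ⟨h1, h2, h3⟩ := ih
    rw [Function.iterate_succ_apply']
    refine ⟨((hO d q xT ρ₀ s rr σ th hS).2.2.2 y hy.1 _).2 h1, ?_, ?_⟩
    · rw [hK.step' y hy.1 _ h1, h2, pow_succ', Equiv.Perm.mul_apply]
    · rw [hK.step y hy _ h1, h2, h3, Finset.prod_range_succ]
      ring

theorem GEN_prod_ne {y : WW d} (hy : y ∈ BM d q xT ρ₀ s) (l : Fin q) (n : ℕ) :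
    ∏ j ∈ Finset.range n, mu d y (s ((σ ^ j) l) y) ≠ 0 :=
  Finset.prod_ne_zero_iff.2 fun _ _ => hy.2 _

theorem GEN_BL {y : WW d} (hy : y ∈ BM d q xT ρ₀ s) :
    ∃ lam : ℝ, 0 < lam ∧ y ∈ BL d q xT ρ₀ s lam := by
  rcases isEmpty_or_nonempty (Fin q) with he | hne
  · exact ⟨1, one_pos, hy.1, fun l => (he.false l).elim⟩
  · obtain ⟨l₀, hl₀⟩ := Finite.exists_min fun l : Fin q => ‖mu d y (s l y)‖
    have hp : 0 < ‖mu d y (s l₀ y)‖ := norm_pos_iff.2 (hy.2 l₀)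
    refine ⟨‖mu d y (s l₀ y)‖ / 2, by positivity, hy.1, fun l => ?_⟩
    have := hl₀ l
    linarith

/-- zeros of the Koenigs coordinate are preperiodic -/
theorem GEN_zero (hO : StOPEN) (hS : SK d q xT ρ₀ s rr σ th) (hK : KD d q xT ρ₀ s rr σ K lab)
    {y : WW d} (hy : y ∈ BM d q xT ρ₀ s) {p : ℂ × ℂ} (hA : Att d q s rr y p)
    (h0 : K (y, p) = 0) : ∃ n : ℕ, ∃ c : ℂ, c ≠ 0 ∧
      (FH d y)^[n + orderOf σ] p = c • (FH d y)^[n] p := by
  obtain ⟨lam, hlam, hyB⟩ := GEN_BL hy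
  obtain ⟨r₁, r₂, ω, hr₁, hr₂, _, _, hinv⟩ := hK.inv lam hlam
  obtain ⟨N, l, w, _, h1, h2, h3⟩ := GEN_close hS hy.1 hA hr₁
  have h4 := ((hinv y hyB l).2 w h3).2.2
  have h5 : K (y, (w, 1)) = 0 := by
    have h6 := (GEN_K hO hS hK hy hA N).2.2
    rw [h0, mul_zero, GEN_over h1] at h6
    have hAw : Att d q s rr y (w, 1) := ⟨0, l, w, by simp [Over], h2⟩
    rwa [hK.scal y hy _ hAw _ h1.1] at h6
  rw [h5, norm_zero, mul_zero] at h4
  have h6 : w = s l y := by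
    have := norm_nonneg (w - s l y)
    have h7 : ‖w - s l y‖ = 0 := le_antisymm h4 this
    rwa [norm_eq_zero, sub_eq_zero] at h7
  obtain ⟨c, hc, hper⟩ := GEN_period hS hy.1 l
  obtain ⟨c', hc', hs⟩ := GEN_FHN_smul y (orderOf σ) (((FH d y)^[N] p).2) ((s l y, 1) : ℂ × ℂ) h1.1
  refine ⟨N, c' * c * (((FH d y)^[N] p).2)⁻¹,
    mul_ne_zero (mul_ne_zero hc' hc) (inv_ne_zero h1.1), ?_⟩
  rw [add_comm, Function.iterate_add_apply]
  have e1 := GEN_over h1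
  rw [h6] at e1
  conv_lhs => rw [e1, hs, hper]
  conv_rhs => rw [e1]
  rw [smul_smul, smul_smul]
  congr 1
  simp only [Prod.smul_snd, smul_eq_mul, mul_one]
  field_simp [h1.1]

/-! ### The derivative at infinity -/

theorem GEN_aff (x : WW d) (z : ℂ) : FH d x (z, 1) = ((PP d x).eval z, (QQ d x).eval z) := by
  unfold FH PP QQ
  simp [Polynomial.eval_finsetSum]

theorem GEN_FH_eq (x : WW d) {p : ℂ × ℂ} (hp : p.2 ≠ 0) :
    FH d x p = (p.2 ^ d * (PP d x).eval (p.1 / p.2), p.2 ^ d * (QQ d x).eval (p.1 / p.2)) := by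
  have h : p = p.2 • ((p.1 / p.2, 1) : ℂ × ℂ) := by
    ext
    · simp only [Prod.smul_mk, smul_eq_mul]
      field_simp [hp]
    · simp
  conv_lhs => rw [h, GEN_FH_smul, GEN_aff]
  simp

theorem GEN_cont (x : WW d) : Continuous (FH d x) := by
  unfold FH
  fun_prop

theorem GEN_cont' (x : WW d) (n : ℕ) : Continuous ((FH d x)^[n]) := (GEN_cont x).iterate n

theorem GEN_der0 {e : ℕ} (g : Fin (e + 1 + 1) → ℂ) :
    HasDerivAt (fun ζ : ℂ => ∑ i : Fin (e + 1 + 1), g i * ((1 : ℂ) ^ (i : ℕ) * ζ ^ (e + 1 - (i : ℕ))))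
      (g ⟨e, by omega⟩) 0 := by
  have h : ∀ i : Fin (e + 1 + 1), HasDerivAt
      (fun ζ : ℂ => g i * ((1 : ℂ) ^ (i : ℕ) * ζ ^ (e + 1 - (i : ℕ))))
      (g i * ((1 : ℂ) ^ (i : ℕ) * (((e + 1 - (i : ℕ) : ℕ) : ℂ) * 0 ^ (e + 1 - (i : ℕ) - 1)))) 0 := by
    intro i
    exact ((hasDerivAt_pow _ _).const_mul _).const_mul _
  have h2 := HasDerivAt.fun_sum (u := Finset.univ) (fun i _ => h i)
  refine h2.congr_deriv ?_
  rw [Finset.sum_eq_single (⟨e, by omega⟩ : Fin (e + 1 + 1))]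
  · simp
  · intro i _ hi
    have hi' : (i : ℕ) ≠ e := fun h => hi (Fin.ext h)
    have hi2 := i.2
    rcases Nat.lt_or_ge (i : ℕ) e with h | h
    · rw [zero_pow (by omega)]
      simp
    · have : e + 1 - (i : ℕ) = 0 := by omega
      rw [this]
      simp
  · simp

theorem GEN_val0 {e : ℕ} (g : Fin (e + 1) → ℂ) :
    ∑ i : Fin (e + 1), g i * ((1 : ℂ) ^ (i : ℕ) * (0 : ℂ) ^ (e - (i : ℕ))) = g (Fin.last e) := by
  rw [Finset.sum_eq_single (Fin.last e)]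
  · simp
  · intro i _ hi
    have hi' : (i : ℕ) ≠ e := fun h => hi (Fin.ext h)
    have hi2 := i.2
    rw [zero_pow (by omega)]
    simp
  · simp

theorem GEN_coeff {f : ℕ} (A B : ℂ[X]) (hA : A.natDegree ≤ f + 1) (hB : B.natDegree ≤ f + 2) :
    (A * B).coeff (2 * f + 2) = A.coeff (f + 1) * B.coeff (f + 1) + A.coeff f * B.coeff (f + 2) := by
  rw [Polynomial.coeff_mul]
  have hsub : ({(f + 1, f + 1), (f, f + 2)} : Finset (ℕ × ℕ)) ⊆
      Finset.HasAntidiagonal.antidiagonal (2 * f + 2) := by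
    intro y hy
    simp only [Finset.mem_insert, Finset.mem_singleton] at hy
    rw [Finset.HasAntidiagonal.mem_antidiagonal]
    rcases hy with rfl | rfl <;> (simp only; omega)
  rw [← Finset.sum_subset hsub]
  · rw [Finset.sum_pair]
    simp
  · intro y hy hy'
    rw [Finset.HasAntidiagonal.mem_antidiagonal] at hy
    simp only [Finset.mem_insert, Finset.mem_singleton, Prod.ext_iff, not_or, not_and_or] at hy'
    by_cases h1 : f + 1 < y.1
    · rw [Polynomial.coeff_eq_zero_of_natDegree_lt (by omega), zero_mul]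
    · have : f + 2 < y.2 := by omega
      rw [Polynomial.coeff_eq_zero_of_natDegree_lt (n := y.2) (by omega), mul_zero]

theorem GEN_PPc (x : WW d) (i : Fin (d + 1)) : (PP d x).coeff i = x (Sum.inl i) := by
  unfold PP
  rw [Polynomial.finsetSum_coeff, Finset.sum_eq_single i]
  · simp
  · intro j _ hj
    rw [Polynomial.coeff_C_mul_X_pow, if_neg]
    exact fun h => hj (Fin.ext h.symm)
  · simp

theorem GEN_QQc (x : WW d) (i : Fin (d + 1)) : (QQ d x).coeff i = x (Sum.inr i) := by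
  unfold QQ
  rw [Polynomial.finsetSum_coeff, Finset.sum_eq_single i]
  · simp
  · intro j _ hj
    rw [Polynomial.coeff_C_mul_X_pow, if_neg]
    exact fun h => hj (Fin.ext h.symm)
  · simp

theorem GEN_PPd (x : WW d) : (PP d x).natDegree ≤ d := by
  unfold PP
  apply Polynomial.natDegree_sum_le_of_forall_le
  intro i _
  refine (Polynomial.natDegree_C_mul_X_pow_le _ _).trans ?_
  have := i.2
  omega

theorem GEN_QQd (x : WW d) : (QQ d x).natDegree ≤ d := by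
  unfold QQ
  apply Polynomial.natDegree_sum_le_of_forall_le
  intro i _
  refine (Polynomial.natDegree_C_mul_X_pow_le _ _).trans ?_
  have := i.2
  omega

theorem GEN_bet {f : ℕ} (x : WW (f + 1 + 1)) : bet (f + 1 + 1) x =
    x (Sum.inl (Fin.last _)) * x (Sum.inr ⟨f + 1, by omega⟩) -
      x (Sum.inl ⟨f + 1, by omega⟩) * x (Sum.inr (Fin.last _)) := by
  have e1 := GEN_PPc x (Fin.last _)
  have e2 := GEN_QQc x (Fin.last _)
  have e3 := GEN_PPc x ⟨f + 1, by omega⟩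
  have e4 := GEN_QQc x ⟨f + 1, by omega⟩
  simp only [Fin.val_last] at e1 e2 e3 e4
  unfold bet wr
  have h2 : 2 * (f + 1 + 1) - 2 = 2 * f + 2 := by omega
  rw [h2, Polynomial.coeff_sub, mul_comm (PP _ x) (derivative (QQ _ x)),
    GEN_coeff _ _ ((Polynomial.natDegree_derivative_le _).trans
      (by have := GEN_PPd x; omega)) (GEN_QQd x),
    GEN_coeff _ _ ((Polynomial.natDegree_derivative_le _).trans
      (by have := GEN_QQd x; omega)) (GEN_PPd x)]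
  simp only [Polynomial.coeff_derivative]
  rw [← e1, ← e2, ← e3, ← e4]
  push_cast
  ring

theorem GEN_inf1 (hd : 2 ≤ d) (x : WW d) (hx : x (Sum.inr (Fin.last d)) ≠ 0) :
    HasDerivAt (fun ζ : ℂ => (FH d x (1, ζ)).1 / (FH d x (1, ζ)).2)
      (-bet d x / x (Sum.inr (Fin.last d)) ^ 2) 0 := by
  obtain ⟨f, rfl⟩ : ∃ f, d = f + 1 + 1 := ⟨d - 2, by omega⟩
  have h1 := GEN_der0 fun i => x (Sum.inl i)
  have h2 := GEN_der0 fun i => x (Sum.inr i)
  have h3 := GEN_val0 fun i => x (Sum.inl i)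
  have h4 := GEN_val0 fun i => x (Sum.inr i)
  have h5 := h1.fun_div h2 (by rw [h4]; exact hx)
  refine h5.congr_deriv ?_
  rw [h3, h4, GEN_bet]
  congr 1
  ring

/-- chain rule for one step -/
theorem GEN_chain (y : WW d) {a : ℂ → ℂ × ℂ} {D : ℂ} (ha : ContinuousAt a 0) (h0 : (a 0).2 ≠ 0)
    (hD : HasDerivAt (fun ζ => (a ζ).1 / (a ζ).2) D 0) (h1 : (FH d y (a 0)).2 ≠ 0) :
    HasDerivAt (fun ζ => (FH d y (a ζ)).1 / (FH d y (a ζ)).2)
      (mu d y ((a 0).1 / (a 0).2) * D) 0 := by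
  have hQ : (QQ d y).eval ((a 0).1 / (a 0).2) ≠ 0 := by
    rw [GEN_FH_eq y h0] at h1
    exact right_ne_zero_of_mul h1
  have h2 := ((PP d y).hasDerivAt ((a 0).1 / (a 0).2)).fun_div
    ((QQ d y).hasDerivAt ((a 0).1 / (a 0).2)) hQ
  have h3 := HasDerivAt.comp (0 : ℂ) h2 hD
  have h4 : ∀ᶠ ζ in 𝓝 (0 : ℂ), (a ζ).2 ≠ 0 :=
    (continuous_snd.continuousAt.comp ha).eventually_ne h0
  have h5 := h3.congr_of_eventuallyEq (f₁ := fun ζ => (FH d y (a ζ)).1 / (FH d y (a ζ)).2) (by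
    filter_upwards [h4] with ζ hζ
    rw [GEN_FH_eq y hζ]
    simp only [Function.comp_apply]
    rw [mul_div_mul_left _ _ (pow_ne_zero _ hζ)])
  refine h5.congr_deriv ?_
  unfold mu wr
  simp

theorem GEN_ne {y : WW d} (hN : Ndg d y) (n : ℕ) {p : ℂ × ℂ} (hp : p ≠ 0) :
    (FH d y)^[n] p ≠ 0 := by
  induction n with
  | zero => exact hp
  | succ n ih =>
    rw [Function.iterate_succ_apply']
    exact fun h => ih (hN _ h)

theorem GEN_inf (hd : 2 ≤ d) {y : WW d} (hN : Ndg d y) (hy : y (Sum.inr (Fin.last d)) ≠ 0)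
    (hb : bet d y ≠ 0)
    (hper : ∀ m : ℕ, 1 ≤ m → ∀ c : ℂ, c ≠ 0 → (FH d y)^[m] (1, 0) ≠ c • ((1, 0) : ℂ × ℂ))
    (hcr : ∀ k : ℕ, ¬ Crit d y ((FH d y)^[k] (1, 0))) (N : ℕ) :
    ((FH d y)^[N + 1] (1, 0)).2 ≠ 0 ∧ ∃ D : ℂ, D ≠ 0 ∧
      HasDerivAt (fun ζ : ℂ => ((FH d y)^[N + 1] (1, ζ)).1 / ((FH d y)^[N + 1] (1, ζ)).2) D 0 := by
  have hfin : ∀ k : ℕ, ((FH d y)^[k + 1] (1, 0)).2 ≠ 0 := by
    intro k h
    have hne : (FH d y)^[k + 1] (1, 0) ≠ 0 := GEN_ne hN _ (by simp)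
    have h1 : ((FH d y)^[k + 1] (1, 0)).1 ≠ 0 := by
      intro h'
      exact hne (Prod.ext h' h)
    refine hper (k + 1) (by omega) _ h1 ?_
    ext
    · simp
    · simpa using h
  refine ⟨hfin N, ?_⟩
  induction N with
  | zero =>
    refine ⟨_, ?_, GEN_inf1 hd y hy⟩
    exact div_ne_zero (neg_ne_zero.2 hb) (pow_ne_zero _ hy)
  | succ N ih =>
    obtain ⟨D, hD, h⟩ := ih
    have hc : ContinuousAt (fun ζ : ℂ => (FH d y)^[N + 1] (1, ζ)) 0 := by
      have : Continuous (fun ζ : ℂ => (FH d y)^[N + 1] (1, ζ)) :=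
        (GEN_cont' y (N + 1)).comp (by fun_prop)
      exact this.continuousAt
    have h1 := hfin (N + 1)
    rw [Function.iterate_succ_apply'] at h1
    have h2 := GEN_chain y (a := fun ζ : ℂ => (FH d y)^[N + 1] (1, ζ)) hc (hfin N) h h1
    refine ⟨mu d y (((FH d y)^[N + 1] (1, 0)).1 / ((FH d y)^[N + 1] (1, 0)).2) * D, ?_, ?_⟩
    rotate_left
    · simp only [Function.iterate_succ_apply' (FH d y) (N + 1)]
      exact h2
    · refine mul_ne_zero ?_ hD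
      have h3 := hcr (N + 1)
      unfold Crit at h3
      push Not at h3
      unfold mu
      refine div_ne_zero (h3.1 (hfin N)) (pow_ne_zero _ ?_)
      rw [GEN_FH_eq y (hfin N)] at h1
      exact right_ne_zero_of_mul h1

/-- the derivative of the Koenigs coordinate at infinity -/
theorem GEN_derK (hO : StOPEN) (hS : SK d q xT ρ₀ s rr σ th) (hK : KD d q xT ρ₀ s rr σ K lab)
    {y : WW d} (hyB : y ∈ BM d q xT ρ₀ s) (hy : y (Sum.inr (Fin.last d)) ≠ 0)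
    (hb : bet d y ≠ 0) (hA : Att d q s rr y (1, 0))
    (hper : ∀ m : ℕ, 1 ≤ m → ∀ c : ℂ, c ≠ 0 → (FH d y)^[m] (1, 0) ≠ c • ((1, 0) : ℂ × ℂ))
    (hcr : ∀ k : ℕ, ¬ Crit d y ((FH d y)^[k] (1, 0))) :
    deriv (fun ζ : ℂ => K (y, (1, ζ))) 0 ≠ 0 := by
  have hO' := hO d q xT ρ₀ s rr σ th hS
  obtain ⟨lam, hlam, hyL⟩ := GEN_BL hyB
  obtain ⟨r₁, r₂, ω, hr₁, hr₂, _, hωd, hinv⟩ := hK.inv lam hlam
  obtain ⟨N', l, w, hN', h1, h2, h3⟩ := GEN_close hS hyB.1 hA hr₁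
  obtain ⟨N, rfl⟩ : ∃ N, N' = N + 1 := ⟨N' - 1, by omega⟩
  obtain ⟨hfin, D, hD, hder⟩ := GEN_inf hS.hd (hS.ndg y hyB.1) hy hb hper hcr N
  -- the local coordinate at `w`
  set κ : ℂ → ℂ := fun z => K (y, (z, 1)) with hκ
  have hκd : DifferentiableAt ℂ κ w := by
    have h4 : DifferentiableOn ℂ κ (ball (s l y) (rr l)) := by
      refine hK.hol.comp (f := fun z : ℂ => (y, ((z, 1) : ℂ × ℂ))) (by fun_prop) ?_
      intro z hz
      exact ⟨hyB, 0, l, z, by simp [Over], hz⟩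
    exact h4.differentiableAt (isOpen_ball.mem_nhds h2)
  have hωd' : DifferentiableAt ℂ (fun v : ℂ => ω l (y, v)) (κ w) := by
    have h4 : DifferentiableOn ℂ (fun v : ℂ => ω l (y, v)) (ball (0 : ℂ) r₂) := by
      refine (hωd l).comp (f := fun v : ℂ => (y, v)) (by fun_prop) ?_
      intro z hz
      exact ⟨hyL, hz⟩
    refine h4.differentiableAt (isOpen_ball.mem_nhds ?_)
    rw [mem_ball_zero_iff]
    exact ((hinv y hyL l).2 w h3).1
  have hκ' : deriv κ w ≠ 0 := by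
    intro h0
    have h4 : HasDerivAt (fun z => ω l (y, κ z)) (deriv (fun v : ℂ => ω l (y, v)) (κ w) * deriv κ w)
        w := HasDerivAt.comp w hωd'.hasDerivAt hκd.hasDerivAt
    have h5 : (fun z => ω l (y, κ z)) =ᶠ[𝓝 w] id := by
      filter_upwards [isOpen_ball.mem_nhds h3] with z hz
      exact ((hinv y hyL l).2 z hz).2.1
    have h6 := h4.congr_of_eventuallyEq h5.symm
    have h7 := h6.unique (hasDerivAt_id w)
    rw [h0, mul_zero] at h7
    exact zero_ne_one h7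
  have hw : w = ((FH d y)^[N + 1] (1, 0)).1 / ((FH d y)^[N + 1] (1, 0)).2 := by
    rw [h1.2, mul_div_cancel_right₀ _ h1.1]
  have hcomp : HasDerivAt
      (fun ζ : ℂ => κ (((FH d y)^[N + 1] (1, ζ)).1 / ((FH d y)^[N + 1] (1, ζ)).2))
      (deriv κ w * D) 0 := by
    have h4 : HasDerivAt κ (deriv κ w)
        (((FH d y)^[N + 1] (1, 0)).1 / ((FH d y)^[N + 1] (1, 0)).2) := by
      rw [← hw]
      exact hκd.hasDerivAt
    exact HasDerivAt.comp (0 : ℂ) h4 hder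
  -- near `0`
  have hA' : ∀ᶠ ζ in 𝓝 (0 : ℂ), Att d q s rr y (1, ζ) := by
    have h4 : Continuous (fun ζ : ℂ => (y, ((1, ζ) : ℂ × ℂ))) := by fun_prop
    have h5 := (hO'.1.preimage h4).mem_nhds (x := (0 : ℂ)) ⟨hyB.1, hA⟩
    filter_upwards [h5] with ζ hζ using hζ.2
  have hlab : ∀ᶠ ζ in 𝓝 (0 : ℂ), lab (y, (1, ζ)) = lab (y, (1, 0)) := by
    have h4 : ContinuousAt (fun ζ : ℂ => (y, ((1, ζ) : ℂ × ℂ))) 0 := by
      have : Continuous (fun ζ : ℂ => (y, ((1, ζ) : ℂ × ℂ))) := by fun_prop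
      exact this.continuousAt
    exact h4.eventually (hK.labc (y, (1, 0)) hyB.1 hA)
  have hne : ∀ᶠ ζ in 𝓝 (0 : ℂ), ((FH d y)^[N + 1] (1, ζ)).2 ≠ 0 := by
    have h4 : Continuous (fun ζ : ℂ => ((FH d y)^[N + 1] (1, ζ)).2) :=
      continuous_snd.comp ((GEN_cont' y (N + 1)).comp (by fun_prop))
    exact h4.continuousAt.eventually_ne hfin
  set Pm : ℂ := ∏ j ∈ Finset.range (N + 1), mu d y (s ((σ ^ j) (lab (y, (1, 0)))) y) with hPm
  have hPm0 : Pm ≠ 0 := GEN_prod_ne hyB _ _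
  have heq : (fun ζ : ℂ => K (y, (1, ζ))) =ᶠ[𝓝 0] fun ζ =>
      Pm⁻¹ * κ (((FH d y)^[N + 1] (1, ζ)).1 / ((FH d y)^[N + 1] (1, ζ)).2) := by
    filter_upwards [hA', hlab, hne] with ζ h4 h5 h6
    obtain ⟨h7, _, h8⟩ := GEN_K hO hS hK hyB h4 (N + 1)
    rw [h5, ← hPm] at h8
    have h9 := hK.scal y hyB _ h7 (((FH d y)^[N + 1] (1, ζ)).2)⁻¹ (inv_ne_zero h6)
    have h10 : (((FH d y)^[N + 1] (1, ζ)).2)⁻¹ • (FH d y)^[N + 1] (1, ζ) =
        ((((FH d y)^[N + 1] (1, ζ)).1 / ((FH d y)^[N + 1] (1, ζ)).2, 1) : ℂ × ℂ) := by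
      ext
      · simp only [Prod.smul_fst, smul_eq_mul]
        rw [div_eq_inv_mul]
      · simp only [Prod.smul_snd, smul_eq_mul]
        exact inv_mul_cancel₀ h6
    rw [h10] at h9
    rw [hκ]
    simp only
    rw [h9, h8, ← mul_assoc, inv_mul_cancel₀ hPm0, one_mul]
  have hfinal := (hcomp.const_mul Pm⁻¹).congr_of_eventuallyEq heq
  rw [hfinal.deriv]
  exact mul_ne_zero (inv_ne_zero hPm0) (mul_ne_zero hκ' hD)

end gen

theorem gen_holds : StGEN := by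
  intro hDEN hO d q xT ρ₀ s rr σ th K lab hS hK x hx hxl hb hA C hC ε hε
  have hd := hS.hd
  have hO' := hO d q xT ρ₀ s rr σ th hS
  obtain ⟨hbase, hrel, hcrit⟩ := hDEN d x hd (hS.ndg x hx) hxl hb
  have hwr0 : wr d x ≠ 0 := by
    intro h
    apply hb
    unfold bet
    rw [h, Polynomial.coeff_zero]
  -- the open conditions
  have htr0 : tr d x 0 = x := by
    funext k
    cases k <;> simp [tr]
  have htrc : Continuous (tr d x) := by
    apply continuous_pi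
    intro k
    cases k <;> (simp only [tr, Sum.elim_inl, Sum.elim_inr]; fun_prop)
  have hopen : ∀ p : ℂ × ℂ, Att d q s rr x p → ∀ᶠ t in 𝓝 (0 : ℂ),
      tr d x t ∈ ball xT ρ₀ ∧ Att d q s rr (tr d x t) p := by
    intro p hp
    have h4 : Continuous (fun t : ℂ => (tr d x t, p)) := by fun_prop
    exact (hO'.1.preimage h4).mem_nhds (x := (0 : ℂ)) (by
      show tr d x 0 ∈ ball xT ρ₀ ∧ Att d q s rr (tr d x 0) p
      rw [htr0]
      exact ⟨hx, hp⟩)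
  have hε' : ∀ᶠ t in 𝓝 (0 : ℂ), tr d x t ∈ ball x ε :=
    htrc.continuousAt.eventually (isOpen_ball.mem_nhds (by rw [htr0]; exact mem_ball_self hε))
  have hCe : ∀ᶠ t in 𝓝 (0 : ℂ), ∀ c ∈ C, Att d q s rr (tr d x t) (c, 1) := by
    refine (Filter.eventually_all_finset C).2 ?_
    intro c hc
    filter_upwards [hopen (c, 1) (hC c hc).2] with t ht using ht.2
  -- the exceptional parameters
  set Pts : Set (ℂ × ℂ) := insert (1, 0) ((fun c : ℂ => ((c, 1) : ℂ × ℂ)) '' {c | (wr d x).IsRoot c})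
    with hPts
  have hPf : Pts.Finite := ((Polynomial.finite_setOfPred_isRoot hwr0).image _).insert _
  have hP0 : ∀ p ∈ Pts, p ≠ 0 := by
    intro p hp
    rcases hp with rfl | ⟨c, _, rfl⟩
    · simp
    · simp
  set Bad : Set ℂ := (⋃ p ∈ Pts, ⋃ n : ℕ, ⋃ m : ℕ, {t : ℂ | 1 ≤ m ∧ ∃ c : ℂ, c ≠ 0 ∧
      (FH d (tr d x t))^[n + m] p = c • (FH d (tr d x t))^[n] p}) ∪
    ⋃ k : ℕ, {t : ℂ | Crit d (tr d x t) ((FH d (tr d x t))^[k] (1, 0))} with hBad
  have hBc : Bad.Countable := by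
    refine Set.Countable.union ?_ (Set.countable_iUnion fun k => (hcrit k).countable)
    refine hPf.countable.biUnion fun p hp => Set.countable_iUnion fun n =>
      Set.countable_iUnion fun m => ?_
    by_cases hm : 1 ≤ m
    · exact ((hrel p (hP0 p hp) n m hm).subset fun t ht => ht.2).countable
    · refine Set.countable_empty.mono ?_
      rintro t ⟨h1, _⟩
      exact absurd h1 hm
  obtain ⟨t, htB, ht1, ht2, ht3⟩ : ∃ t, t ∉ Bad ∧ (tr d x t ∈ ball xT ρ₀ ∧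
      Att d q s rr (tr d x t) (1, 0)) ∧ tr d x t ∈ ball x ε ∧
      ∀ c ∈ C, Att d q s rr (tr d x t) (c, 1) := by
    have h1 := (hopen (1, 0) hA).and (hε'.and hCe)
    have h2 : Dense Badᶜ := hBc.dense_compl ℂ
    obtain ⟨t, ht⟩ := (h2.inter_nhds_nonempty (x := 0) h1)
    exact ⟨t, ht.1, ht.2⟩
  have hNrel : ∀ p ∈ Pts, ∀ n m : ℕ, 1 ≤ m → ∀ c : ℂ, c ≠ 0 →
      (FH d (tr d x t))^[n + m] p ≠ c • (FH d (tr d x t))^[n] p := by
    intro p hp n m hm c hc h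
    apply htB
    left
    simp only [Set.mem_iUnion]
    exact ⟨p, hp, n, m, hm, c, hc, h⟩
  have hNcrit : ∀ k : ℕ, ¬ Crit d (tr d x t) ((FH d (tr d x t))^[k] (1, 0)) := by
    intro k h
    apply htB
    right
    simp only [Set.mem_iUnion]
    exact ⟨k, h⟩
  obtain ⟨hNd, hwr, hQQ⟩ := hbase t
  set y := tr d x t with hy
  have hord : 1 ≤ orderOf σ := orderOf_pos σ
  have hyB : y ∈ BM d q xT ρ₀ s := by
    refine ⟨ht1.1, fun l h => ?_⟩
    have h1 := GEN_con0 hS ht1.1 l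
    have h2 : (QQ d y).eval (s l y) ≠ 0 := by
      have h3 := h1.1
      rw [GEN_aff] at h3
      exact h3
    unfold mu at h
    rw [div_eq_zero_iff] at h
    rcases h with h | h
    · obtain ⟨c, hc, hp⟩ := GEN_period hS ht1.1 l
      refine hNrel (s l y, 1) (Or.inr ⟨s l y, ?_, rfl⟩) 0 (orderOf σ) hord c hc ?_
      · rw [hwr] at h
        exact h
      · rw [zero_add]
        exact hp
    · exact h2 (pow_eq_zero_iff (two_ne_zero) |>.1 h)
  have hKne : ∀ p ∈ Pts, Att d q s rr y p → K (y, p) ≠ 0 := by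
    intro p hp hAp h0
    obtain ⟨n, c, hc, h⟩ := GEN_zero hO hS hK hyB hAp h0
    exact hNrel p hp n _ hord c hc h
  have hbt : bet d y ≠ 0 := by
    unfold bet
    rw [hwr]
    exact hb
  refine ⟨y, ht2, hyB, hwr, hQQ, ht1.2, hKne _ (Or.inl rfl) ht1.2, ?_, fun c hc => ⟨ht3 c hc,
    hKne _ (Or.inr ⟨c, (hC c hc).1, rfl⟩) (ht3 c hc)⟩⟩
  refine GEN_derK hO hS hK hyB hxl hbt ht1.2 ?_ hNcrit
  intro m hm c hc h
  exact hNrel (1, 0) (Or.inl rfl) 0 m hm c hc (by rw [zero_add]; exact h)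

end Pool.Agent.H713R4.RB
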