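import Mathlib
import Pool.Agent.H713R4.RB.Defs3
import Pool.Agent.H792R2.CE.B1
import Pool.Agent.H792R2.CE.C2

/-! Task HYP: hyperbolicity in the frozen form. -/

set_option autoImplicit false

open Topology Filter Metric Set Polynomial MeasureTheory
open scoped OnePoint

namespace Pool.Agent.H713R4.RB

namespace HY

open Pool.Agent.Helper114.Herman Pool.Agent.Helper114.Konig
open Pool.Agent.H792R2.CE (sph sph_coe sph_infty sph_coe_of_ne B1_continuous C4_inj rf)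

theorem coeff_PP (d : ℕ) (x : WW d) (i : Fin (d + 1)) :
    (PP d x).coeff (i : ℕ) = x (Sum.inl i) := by
  unfold PP
  rw [finsetSum_coeff, Finset.sum_eq_single i]
  · simp
  · intro j _ hj
    have h : ¬ (i : ℕ) = (j : ℕ) := fun h => hj (Fin.ext h.symm)
    rw [coeff_C_mul, coeff_X_pow, if_neg h, mul_zero]
  · simp

theorem coeff_QQ (d : ℕ) (x : WW d) (i : Fin (d + 1)) :
    (QQ d x).coeff (i : ℕ) = x (Sum.inr i) := by
  unfold QQ
  rw [finsetSum_coeff, Finset.sum_eq_single i]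
  · simp
  · intro j _ hj
    have h : ¬ (i : ℕ) = (j : ℕ) := fun h => hj (Fin.ext h.symm)
    rw [coeff_C_mul, coeff_X_pow, if_neg h, mul_zero]
  · simp

theorem natDegree_PP_le (d : ℕ) (x : WW d) : (PP d x).natDegree ≤ d :=
  natDegree_sum_le_of_forall_le _ _ fun i _ =>
    (natDegree_C_mul_X_pow_le _ _).trans (by have := i.2; omega)

theorem natDegree_QQ_le (d : ℕ) (x : WW d) : (QQ d x).natDegree ≤ d :=
  natDegree_sum_le_of_forall_le _ _ fun i _ =>
    (natDegree_C_mul_X_pow_le _ _).trans (by have := i.2; omega)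

theorem natDegree_QQ {d : ℕ} {x : WW d} (h : x (Sum.inr (Fin.last d)) ≠ 0) :
    (QQ d x).natDegree = d := by
  refine le_antisymm (natDegree_QQ_le d x) (le_natDegree_of_ne_zero ?_)
  have h1 := coeff_QQ d x (Fin.last d)
  rw [Fin.val_last] at h1
  rw [h1]
  exact h

theorem sum_mul_pow (d : ℕ) (a : Fin (d + 1) → ℂ) (z v : ℂ) :
    ∑ i : Fin (d + 1), a i * ((z * v) ^ (i : ℕ) * v ^ (d - (i : ℕ))) =
      v ^ d * ∑ i : Fin (d + 1), a i * z ^ (i : ℕ) := by
  rw [Finset.mul_sum]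
  refine Finset.sum_congr rfl fun i _ => ?_
  have h1 : (i : ℕ) + (d - (i : ℕ)) = d := by have := i.2; omega
  rw [mul_pow]
  calc a i * (z ^ (i : ℕ) * v ^ (i : ℕ) * v ^ (d - (i : ℕ)))
      = (v ^ (i : ℕ) * v ^ (d - (i : ℕ))) * (a i * z ^ (i : ℕ)) := by ring
    _ = v ^ d * (a i * z ^ (i : ℕ)) := by rw [← pow_add, h1]

theorem sum_zero (d : ℕ) (a : Fin (d + 1) → ℂ) (u : ℂ) :
    ∑ i : Fin (d + 1), a i * (u ^ (i : ℕ) * (0 : ℂ) ^ (d - (i : ℕ))) =
      u ^ d * a (Fin.last d) := by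
  rw [Finset.sum_eq_single (Fin.last d)]
  · rw [Fin.val_last, Nat.sub_self]
    ring
  · intro j _ hj
    have h1 : (j : ℕ) ≠ d := fun h => hj (Fin.ext (by rw [h, Fin.val_last]))
    have h2 : d - (j : ℕ) ≠ 0 := by have := j.2; omega
    rw [zero_pow h2, mul_zero, mul_zero]
  · simp

theorem eval_PP (d : ℕ) (x : WW d) (z : ℂ) :
    (PP d x).eval z = ∑ i : Fin (d + 1), x (Sum.inl i) * z ^ (i : ℕ) := by
  simp [PP, eval_finsetSum]

theorem eval_QQ (d : ℕ) (x : WW d) (z : ℂ) :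
    (QQ d x).eval z = ∑ i : Fin (d + 1), x (Sum.inr i) * z ^ (i : ℕ) := by
  simp [QQ, eval_finsetSum]

theorem FH_mul (d : ℕ) (x : WW d) (z v : ℂ) :
    FH d x (z * v, v) = (v ^ d * (PP d x).eval z, v ^ d * (QQ d x).eval z) := by
  rw [eval_PP, eval_QQ, ← sum_mul_pow, ← sum_mul_pow]
  rfl

theorem FH_one (d : ℕ) (x : WW d) (z : ℂ) :
    FH d x (z, 1) = ((PP d x).eval z, (QQ d x).eval z) := by
  have h := FH_mul d x z 1
  rwa [mul_one, one_pow, one_mul, one_mul] at h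

theorem FH_zero (d : ℕ) (x : WW d) (u : ℂ) :
    FH d x (u, 0) = (u ^ d * (PP d x).coeff d, u ^ d * (QQ d x).coeff d) := by
  have h1 := coeff_PP d x (Fin.last d)
  have h2 := coeff_QQ d x (Fin.last d)
  rw [Fin.val_last] at h1 h2
  rw [h1, h2]
  exact Prod.ext (sum_zero d (fun i => x (Sum.inl i)) u) (sum_zero d (fun i => x (Sum.inr i)) u)

theorem coprime {d : ℕ} {x : WW d} (h : Ndg d x) : IsCoprime (PP d x) (QQ d x) := by
  refine (Polynomial.isCoprime_iff_aeval_ne_zero_of_isAlgClosed ℂ ℂ _ _).2 ?_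
  intro a
  by_contra hcon
  push Not at hcon
  simp only [coe_aeval_eq_eval] at hcon
  have h1 := h (a, 1) (by rw [FH_one, hcon.1, hcon.2]; rfl)
  exact one_ne_zero (congrArg Prod.snd h1)

/-- the point of the sphere -/
noncomputable def pt (p : ℂ × ℂ) : OnePoint ℂ := pr p.1 p.2

theorem pt_one (z : ℂ) : pt (z, 1) = (z : OnePoint ℂ) := by
  unfold pt
  rw [pr_ne one_ne_zero, div_one]

theorem pt_over {p : ℂ × ℂ} {w : ℂ} (h : Over p w) : pt p = (w : OnePoint ℂ) := by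
  unfold pt
  rw [pr_ne h.1, h.2, mul_div_cancel_right₀ _ h.1]

theorem sph_pt {d : ℕ} {x : WW d} {p : ℂ × ℂ} (hp : p ≠ 0) :
    sph d (PP d x) (QQ d x) (pt p) = pt (FH d x p) := by
  obtain ⟨u, v⟩ := p
  by_cases hv : v = 0
  · subst hv
    have hu : u ≠ 0 := fun h => hp (by rw [h]; rfl)
    rw [FH_zero]
    unfold pt
    rw [pr_zero, sph_infty, pr_smul (pow_ne_zero _ hu)]
  · have h1 : (u, v) = ((u / v) * v, v) := by rw [div_mul_cancel₀ _ hv]
    rw [h1, FH_mul]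
    unfold pt
    rw [pr_ne hv, mul_div_cancel_right₀ _ hv, sph_coe, pr_smul (pow_ne_zero _ hv)]

theorem iter_pt {d : ℕ} {x : WW d} (h : Ndg d x) {p : ℂ × ℂ} (hp : p ≠ 0) (n : ℕ) :
    (FH d x)^[n] p ≠ 0 ∧
      (sph d (PP d x) (QQ d x))^[n] (pt p) = pt ((FH d x)^[n] p) := by
  induction n with
  | zero => exact ⟨hp, rfl⟩
  | succ n ih =>
    rw [Function.iterate_succ_apply', Function.iterate_succ_apply', ih.2, sph_pt ih.1]
    exact ⟨fun h0 => ih.1 (h _ h0), rfl⟩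

section

variable {d q : ℕ} {xT : WW d} {ρ₀ : ℝ} {s : Fin q → WW d → ℂ} {rr : Fin q → ℝ}
  {σ : Equiv.Perm (Fin q)} {th : ℝ}

theorem trap (hS : SK d q xT ρ₀ s rr σ th) {x : WW d} (hx : x ∈ ball xT ρ₀) (l : Fin q) {z : ℂ}
    (hz : z ∈ ball (s l x) (rr l)) (n : ℕ) :
    ∃ w : ℂ, (sph d (PP d x) (QQ d x))^[n] (z : OnePoint ℂ) = (w : OnePoint ℂ) ∧
      w ∈ ball (s ((σ ^ n) l) x) (rr ((σ ^ n) l)) ∧
      ‖w - s ((σ ^ n) l) x‖ * rr l ≤ th ^ n * ‖z - s l x‖ * rr ((σ ^ n) l) := by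
  induction n with
  | zero =>
    refine ⟨z, rfl, by simpa using hz, ?_⟩
    simp
  | succ n ih =>
    obtain ⟨w, h1, h2, h3⟩ := ih
    obtain ⟨w', h4, h5⟩ := hS.con x hx _ w h2
    have h6 : (σ ^ (n + 1)) l = σ ((σ ^ n) l) := by
      rw [pow_succ', Equiv.Perm.mul_apply]
    have h7 : (sph d (PP d x) (QQ d x))^[n + 1] (z : OnePoint ℂ) = (w' : OnePoint ℂ) := by
      rw [Function.iterate_succ_apply', h1, ← pt_one w, sph_pt (by simp), pt_over h4]
    rw [h6]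
    have r0 := hS.rp l
    have rn := hS.rp ((σ ^ n) l)
    have rn1 := hS.rp (σ ((σ ^ n) l))
    have t0 := hS.th0
    have t1 := hS.th1
    rw [mem_ball, dist_eq_norm] at h2
    refine ⟨w', h7, ?_, ?_⟩
    · rw [mem_ball, dist_eq_norm]
      have h8 : th * ‖w - s ((σ ^ n) l) x‖ < rr ((σ ^ n) l) := by
        have := norm_nonneg (w - s ((σ ^ n) l) x)
        nlinarith
      have h9 : ‖w' - s (σ ((σ ^ n) l)) x‖ * rr ((σ ^ n) l) <
          rr (σ ((σ ^ n) l)) * rr ((σ ^ n) l) := by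
        refine h5.trans_lt ?_
        rw [mul_comm (rr (σ ((σ ^ n) l)))]
        exact mul_lt_mul_of_pos_right h8 rn1
      exact lt_of_mul_lt_mul_right h9 rn.le
    · refine le_of_mul_le_mul_right ?_ rn
      have e1 := mul_le_mul_of_nonneg_right h5 r0.le
      have e2 := mul_le_mul_of_nonneg_left h3 (mul_pos t0 rn1).le
      calc ‖w' - s (σ ((σ ^ n) l)) x‖ * rr l * rr ((σ ^ n) l)
          = ‖w' - s (σ ((σ ^ n) l)) x‖ * rr ((σ ^ n) l) * rr l := by ring
        _ ≤ th * ‖w - s ((σ ^ n) l) x‖ * rr (σ ((σ ^ n) l)) * rr l := e1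
        _ = th * rr (σ ((σ ^ n) l)) * (‖w - s ((σ ^ n) l) x‖ * rr l) := by ring
        _ ≤ th * rr (σ ((σ ^ n) l)) * (th ^ n * ‖z - s l x‖ * rr ((σ ^ n) l)) := e2
        _ = th ^ (n + 1) * ‖z - s l x‖ * rr (σ ((σ ^ n) l)) * rr ((σ ^ n) l) := by ring

theorem fixed (hS : SK d q xT ρ₀ s rr σ th) {x : WW d} (hx : x ∈ ball xT ρ₀) (l : Fin q) :
    (sph d (PP d x) (QQ d x))^[orderOf σ] ((s l x : ℂ) : OnePoint ℂ) =
      ((s l x : ℂ) : OnePoint ℂ) := by
  obtain ⟨w, h1, -, h3⟩ := trap hS hx l (mem_ball_self (hS.rp l)) (orderOf σ)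
  rw [h1]
  rw [sub_self, norm_zero, mul_zero, zero_mul, pow_orderOf_eq_one, Equiv.Perm.one_apply] at h3
  have h4 : ‖w - s l x‖ = 0 := by
    have h5 := norm_nonneg (w - s l x)
    have h6 := hS.rp l
    by_contra h7
    have h8 : 0 < ‖w - s l x‖ := lt_of_le_of_ne h5 (Ne.symm h7)
    have := mul_pos h8 h6
    linarith
  rw [sub_eq_zero.1 (norm_eq_zero.1 h4)]

theorem attr (hS : SK d q xT ρ₀ s rr σ th) {x : WW d} (hx : x ∈ ball xT ρ₀) {l : Fin q} {w : ℂ}
    (hw : w ∈ ball (s l x) (rr l)) {y : OnePoint ℂ} {n : ℕ}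
    (hy : (sph d (PP d x) (QQ d x))^[n] y = (w : OnePoint ℂ)) :
    Tendsto (fun k : ℕ => (sph d (PP d x) (QQ d x))^[orderOf σ * k] y) atTop
      (𝓝 ((s ((σ ^ n)⁻¹ l) x : ℂ) : OnePoint ℂ)) := by
  have hN : 0 < orderOf σ := orderOf_pos σ
  choose W h1 h2 h3 using trap hS hx l hw
  have hσ : ∀ k, n ≤ orderOf σ * k → σ ^ (orderOf σ * k - n) = (σ ^ n)⁻¹ := by
    intro k hk
    rw [eq_inv_iff_mul_eq_one, ← pow_add, Nat.sub_add_cancel hk, pow_mul, pow_orderOf_eq_one,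
      one_pow]
  have hbig : Tendsto (fun k : ℕ => orderOf σ * k) atTop atTop :=
    tendsto_atTop_mono (fun k => Nat.le_mul_of_pos_left k hN) tendsto_id
  have hbig' : Tendsto (fun k : ℕ => orderOf σ * k - n) atTop atTop :=
    (tendsto_sub_atTop_nat n).comp hbig
  have hev : ∀ᶠ k : ℕ in atTop, n ≤ orderOf σ * k := hbig.eventually_ge_atTop n
  have hW : Tendsto (fun k : ℕ => W (orderOf σ * k - n)) atTop (𝓝 (s ((σ ^ n)⁻¹ l) x)) := by
    rw [tendsto_iff_norm_sub_tendsto_zero]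
    have h0 : Tendsto (fun k : ℕ => th ^ (orderOf σ * k - n) * (‖w - s l x‖ *
        rr ((σ ^ n)⁻¹ l) / rr l)) atTop (𝓝 0) := by
      have := ((tendsto_pow_atTop_nhds_zero_of_lt_one hS.th0.le hS.th1).comp hbig').mul_const
        (‖w - s l x‖ * rr ((σ ^ n)⁻¹ l) / rr l)
      rwa [zero_mul] at this
    refine squeeze_zero' (Eventually.of_forall fun k => norm_nonneg _) ?_ h0
    filter_upwards [hev] with k hk
    have h4 := h3 (orderOf σ * k - n)
    rw [hσ k hk] at h4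
    have h5 := hS.rp l
    rw [← mul_div_assoc, le_div_iff₀ h5]
    linarith
  refine (((OnePoint.continuous_coe (X := ℂ)).tendsto _).comp hW).congr' ?_
  filter_upwards [hev] with k hk
  have h6 : (sph d (PP d x) (QQ d x))^[orderOf σ * k] y =
      (sph d (PP d x) (QQ d x))^[orderOf σ * k - n] ((sph d (PP d x) (QQ d x))^[n] y) := by
    rw [← Function.iterate_add_apply, Nat.sub_add_cancel hk]
  rw [h6, hy, h1]
  rfl

/-- attracted points tend to a sink -/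
theorem concl (hS : SK d q xT ρ₀ s rr σ th) {x : WW d} (hx : x ∈ ball xT ρ₀) {p : ℂ × ℂ}
    (hp : p ≠ 0) (h : Att d q s rr x p) :
    ∃ z : OnePoint ℂ, ∃ n : ℕ, 0 < n ∧ (sph d (PP d x) (QQ d x))^[n] z = z ∧
      (∃ U ∈ nhds z, ∀ w ∈ U, Filter.Tendsto
        (fun k : ℕ => (sph d (PP d x) (QQ d x))^[n * k] w) Filter.atTop (nhds z)) ∧
      Filter.Tendsto (fun k : ℕ => (sph d (PP d x) (QQ d x))^[n * k] (pt p)) Filter.atTop
        (nhds z) := by
  obtain ⟨n, l, w, h1, h2⟩ := h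
  have h3 : (sph d (PP d x) (QQ d x))^[n] (pt p) = (w : OnePoint ℂ) := by
    rw [(iter_pt (hS.ndg x hx) hp n).2, pt_over h1]
  refine ⟨((s ((σ ^ n)⁻¹ l) x : ℂ) : OnePoint ℂ), orderOf σ, orderOf_pos σ, fixed hS hx _, ?_,
    attr hS hx h2 h3⟩
  refine ⟨(fun z : ℂ => (z : OnePoint ℂ)) '' ball (s ((σ ^ n)⁻¹ l) x) (rr ((σ ^ n)⁻¹ l)),
    (OnePoint.isOpenEmbedding_coe (X := ℂ)).isOpenMap.image_mem_nhds
      (ball_mem_nhds _ (hS.rp _)), ?_⟩
  rintro _ ⟨z, hz, rfl⟩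
  have h4 := attr (n := 0) hS hx hz (y := (z : OnePoint ℂ)) rfl
  rw [pow_zero, inv_one, Equiv.Perm.one_apply] at h4
  exact h4

end

end HY

open Pool.Agent.H792R2.CE (sph sph_coe sph_infty sph_coe_of_ne B1_continuous C4_inj rf) in
theorem hyp_holds : StHYP := by
  intro hO d q xT ρ₀ s rr σ th hS x hx hlast hinf hcrit
  have hN := hS.ndg x hx
  have hco := HY.coprime hN
  have hQ := HY.natDegree_QQ hlast
  have hP := HY.natDegree_PP_le d x
  obtain ⟨-, -, hO3, hO4⟩ := hO d q xT ρ₀ s rr σ th hS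
  refine ⟨hco, by rw [hQ]; exact max_eq_right hP, sph d (PP d x) (QQ d x),
    B1_continuous hco hP hQ, fun z hz => sph_coe_of_ne hz, fun c hc => ?_⟩
  induction c using OnePoint.rec with
  | infty =>
    have h1 := HY.concl hS hx (p := (1, 0)) (by simp) hinf
    have h2 : HY.pt (1, 0) = ∞ := Pool.Agent.Helper114.Herman.pr_zero _
    rwa [h2] at h1
  | coe c =>
    have hatt : Att d q s rr x (c, 1) := by
      by_cases h0 : (QQ d x).eval c = 0
      · have hPc : (PP d x).eval c ≠ 0 := by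
          intro h1
          have h2 := hN (c, 1) (by rw [HY.FH_one, h0, h1]; rfl)
          exact one_ne_zero (congrArg Prod.snd h2)
        rw [← hO4 x hx, HY.FH_one, h0]
        have h3 := hO3 x hx (1, 0) hinf _ hPc
        have h4 : (PP d x).eval c • ((1, 0) : ℂ × ℂ) = ((PP d x).eval c, 0) := by
          rw [Prod.smul_mk, smul_eq_mul, mul_one, smul_zero]
        rwa [h4] at h3
      · refine hcrit c ?_
        by_contra h1
        exact hc (C4_inj h0 h1)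
    have h1 := HY.concl hS hx (p := (c, 1)) (by simp) hatt
    rwa [HY.pt_one] at h1

end Pool.Agent.H713R4.RB
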