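import Mathlib
import Pool.Agent.H713R4.RB.Defs2

/-! Task KD: Koenigs coordinate on the basins. -/

set_option autoImplicit false

open Topology Filter Metric Set Polynomial MeasureTheory

namespace Pool.Agent.H713R4.RB

namespace TKD

/-! ### The homogeneous lift -/

theorem FH_smul (d : ℕ) (x : WW d) (c : ℂ) (p : ℂ × ℂ) : FH d x (c • p) = c ^ d • FH d x p := by
  have key : ∀ (y : Fin (d + 1) → ℂ), ∑ i : Fin (d + 1), y i *
      ((c • p).1 ^ (i : ℕ) * (c • p).2 ^ (d - (i : ℕ))) =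
      c ^ d * ∑ i : Fin (d + 1), y i * (p.1 ^ (i : ℕ) * p.2 ^ (d - (i : ℕ))) := by
    intro y
    rw [Finset.mul_sum]
    refine Finset.sum_congr rfl fun i _ => ?_
    have h1 : c ^ d = c ^ (i : ℕ) * c ^ (d - (i : ℕ)) := by
      rw [← pow_add]
      congr 1
      have := i.is_lt
      omega
    rw [h1, Prod.smul_fst, Prod.smul_snd, smul_eq_mul, smul_eq_mul, mul_pow, mul_pow]
    ring
  ext
  · exact key _
  · exact key _

theorem FH_iter_smul (d : ℕ) (x : WW d) (c : ℂ) (p : ℂ × ℂ) (n : ℕ) :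
    (FH d x)^[n] (c • p) = c ^ (d ^ n) • (FH d x)^[n] p := by
  induction n with
  | zero => simp
  | succ n ih =>
    rw [Function.iterate_succ_apply', ih, FH_smul, Function.iterate_succ_apply', ← pow_mul,
      pow_succ]

theorem FH_fst (d : ℕ) (x : WW d) (z : ℂ) : (FH d x (z, 1)).1 = (PP d x).eval z := by
  simp [FH, PP, eval_finsetSum]

theorem FH_snd (d : ℕ) (x : WW d) (z : ℂ) : (FH d x (z, 1)).2 = (QQ d x).eval z := by
  simp [FH, QQ, eval_finsetSum]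

/-- the finite point -/
noncomputable def vv (p : ℂ × ℂ) : ℂ := p.1 / p.2

/-- the rational map -/
noncomputable def gg (d : ℕ) (x : WW d) (z : ℂ) : ℂ := (PP d x).eval z / (QQ d x).eval z

theorem over_iff (p : ℂ × ℂ) (w : ℂ) : Over p w ↔ p.2 ≠ 0 ∧ vv p = w := by
  unfold Over vv
  refine and_congr_right fun h => ?_
  rw [div_eq_iff h]

theorem vv_smul (c : ℂ) (hc : c ≠ 0) (p : ℂ × ℂ) : vv (c • p) = vv p := by
  unfold vv
  rw [Prod.smul_fst, Prod.smul_snd, smul_eq_mul, smul_eq_mul, mul_div_mul_left _ _ hc]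

theorem eq_smul (p : ℂ × ℂ) (h : p.2 ≠ 0) : p = p.2 • ((vv p, 1) : ℂ × ℂ) := by
  ext
  · simp only [Prod.smul_fst, smul_eq_mul, vv]
    rw [mul_div_cancel₀ _ h]
  · simp

theorem FH_eq (d : ℕ) (x : WW d) (p : ℂ × ℂ) (h : p.2 ≠ 0) :
    FH d x p = p.2 ^ d • FH d x (vv p, 1) := by
  conv_lhs => rw [eq_smul p h]
  rw [FH_smul]

theorem vv_FH (d : ℕ) (x : WW d) (p : ℂ × ℂ) (h : p.2 ≠ 0) : vv (FH d x p) = gg d x (vv p) := by
  rw [FH_eq d x p h, vv_smul _ (pow_ne_zero _ h)]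
  unfold gg
  rw [← FH_fst, ← FH_snd]
  rfl

theorem snd_FH (d : ℕ) (x : WW d) (p : ℂ × ℂ) (h : p.2 ≠ 0) :
    (FH d x p).2 ≠ 0 ↔ (QQ d x).eval (vv p) ≠ 0 := by
  rw [FH_eq d x p h, Prod.smul_snd, smul_eq_mul, FH_snd]
  constructor
  · intro h1 h2
    exact h1 (by rw [h2, mul_zero])
  · intro h1
    exact mul_ne_zero (pow_ne_zero _ h) h1

/-! ### Differentiability -/

theorem divOn {E : Type*} [NormedAddCommGroup E] [NormedSpace ℂ E] {f g : E → ℂ} {S : Set E}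
    (hf : DifferentiableOn ℂ f S) (hg : DifferentiableOn ℂ g S) (h0 : ∀ x ∈ S, g x ≠ 0) :
    DifferentiableOn ℂ (fun x => f x / g x) S := by
  have h1 : DifferentiableOn ℂ (fun x => f x * (g x)⁻¹) S := hf.mul (hg.inv h0)
  refine h1.congr fun x _ => ?_
  rw [div_eq_mul_inv]

theorem divAt {E : Type*} [NormedAddCommGroup E] [NormedSpace ℂ E] {f g : E → ℂ} {a : E}
    (hf : DifferentiableAt ℂ f a) (hg : DifferentiableAt ℂ g a) (h0 : g a ≠ 0) :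
    DifferentiableAt ℂ (fun x => f x / g x) a := by
  have h1 : DifferentiableAt ℂ (fun x => f x * (g x)⁻¹) a := hf.mul (hg.inv h0)
  have h2 : (fun x => f x / g x) = fun x => f x * (g x)⁻¹ := by
    funext x
    rw [div_eq_mul_inv]
  rw [h2]
  exact h1

theorem prodAt {E : Type*} [NormedAddCommGroup E] [NormedSpace ℂ E] {f : ℕ → E → ℂ} {a : E} (N : ℕ)
    (hf : ∀ j < N, DifferentiableAt ℂ (f j) a) :
    DifferentiableAt ℂ (fun x => ∏ j ∈ Finset.range N, f j x) a := by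
  classical
  exact (HasFDerivAt.finsetProd (u := Finset.range N) (g := f)
    fun j hj => (hf j (Finset.mem_range.1 hj)).hasFDerivAt).differentiableAt

theorem dFH (d : ℕ) : Differentiable ℂ (fun y : WW d × (ℂ × ℂ) => FH d y.1 y.2) := by
  unfold FH
  fun_prop

theorem dFHn (d n : ℕ) : Differentiable ℂ (fun y : WW d × (ℂ × ℂ) => (FH d y.1)^[n] y.2) := by
  induction n with
  | zero => exact differentiable_snd
  | succ n ih =>
    have h1 : (fun y : WW d × (ℂ × ℂ) => (FH d y.1)^[n + 1] y.2) =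
        (fun y : WW d × (ℂ × ℂ) => FH d y.1 y.2) ∘ fun y => (y.1, (FH d y.1)^[n] y.2) := by
      funext y
      simp only [Function.comp_apply]
      rw [Function.iterate_succ_apply']
    rw [h1]
    exact (dFH d).comp (differentiable_fst.prodMk ih)

theorem dP (d : ℕ) : Differentiable ℂ (fun y : WW d × ℂ => (PP d y.1).eval y.2) := by
  have h1 : (fun y : WW d × ℂ => (PP d y.1).eval y.2) = fun y => (FH d y.1 (y.2, 1)).1 := by
    funext y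
    rw [FH_fst]
  rw [h1]
  exact differentiable_fst.comp ((dFH d).comp
    (differentiable_fst.prodMk (differentiable_snd.prodMk (differentiable_const 1))))

theorem dQ (d : ℕ) : Differentiable ℂ (fun y : WW d × ℂ => (QQ d y.1).eval y.2) := by
  have h1 : (fun y : WW d × ℂ => (QQ d y.1).eval y.2) = fun y => (FH d y.1 (y.2, 1)).2 := by
    funext y
    rw [FH_snd]
  rw [h1]
  exact differentiable_snd.comp ((dFH d).comp
    (differentiable_fst.prodMk (differentiable_snd.prodMk (differentiable_const 1))))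

theorem dwr (d : ℕ) : Differentiable ℂ (fun y : WW d × ℂ => (wr d y.1).eval y.2) := by
  have h1 : ∀ y : WW d × ℂ, (derivative (PP d y.1)).eval y.2 =
      ∑ i : Fin (d + 1), y.1 (Sum.inl i) * (((i : ℕ) : ℂ) * y.2 ^ ((i : ℕ) - 1)) := by
    intro y
    simp [PP, eval_finsetSum, derivative_X_pow]
  have h2 : ∀ y : WW d × ℂ, (derivative (QQ d y.1)).eval y.2 =
      ∑ i : Fin (d + 1), y.1 (Sum.inr i) * (((i : ℕ) : ℂ) * y.2 ^ ((i : ℕ) - 1)) := by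
    intro y
    simp [QQ, eval_finsetSum, derivative_X_pow]
  have h3 : (fun y : WW d × ℂ => (wr d y.1).eval y.2) = fun y : WW d × ℂ =>
      (∑ i : Fin (d + 1), y.1 (Sum.inl i) * (((i : ℕ) : ℂ) * y.2 ^ ((i : ℕ) - 1))) *
        (QQ d y.1).eval y.2 - (PP d y.1).eval y.2 *
      ∑ i : Fin (d + 1), y.1 (Sum.inr i) * (((i : ℕ) : ℂ) * y.2 ^ ((i : ℕ) - 1)) := by
    funext y
    unfold wr
    rw [eval_sub, eval_mul, eval_mul, h1, h2]
  rw [h3]
  have h4 : Differentiable ℂ (fun y : WW d × ℂ =>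
      ∑ i : Fin (d + 1), y.1 (Sum.inl i) * (((i : ℕ) : ℂ) * y.2 ^ ((i : ℕ) - 1))) := by fun_prop
  have h5 : Differentiable ℂ (fun y : WW d × ℂ =>
      ∑ i : Fin (d + 1), y.1 (Sum.inr i) * (((i : ℕ) : ℂ) * y.2 ^ ((i : ℕ) - 1))) := by fun_prop
  exact (h4.mul (dQ d)).sub ((dP d).mul h5)

theorem hasDerivAt_gg (d : ℕ) (x : WW d) (z : ℂ) (h : (QQ d x).eval z ≠ 0) :
    HasDerivAt (gg d x) (mu d x z) z := by
  have h1 := ((PP d x).hasDerivAt z).div ((QQ d x).hasDerivAt z) h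
  have h2 : mu d x z = ((derivative (PP d x)).eval z * (QQ d x).eval z -
      (PP d x).eval z * (derivative (QQ d x)).eval z) / (QQ d x).eval z ^ 2 := by
    unfold mu wr
    rw [eval_sub, eval_mul, eval_mul]
  rw [h2]
  exact h1

/-! ### Sinks -/

section sinks

variable {d q : ℕ} {xT : WW d} {ρ₀ : ℝ} {s : Fin q → WW d → ℂ} {rr : Fin q → ℝ}
  {σ : Equiv.Perm (Fin q)} {th : ℝ}

/-- the point `p` is in the disc of the sink `l` -/
def In (s : Fin q → WW d → ℂ) (rr : Fin q → ℝ) (x : WW d) (p : ℂ × ℂ) (l : Fin q) : Prop :=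
  p.2 ≠ 0 ∧ vv p ∈ ball (s l x) (rr l)

theorem att_iff (x : WW d) (p : ℂ × ℂ) :
    Att d q s rr x p ↔ ∃ (n : ℕ) (l : Fin q), In s rr x ((FH d x)^[n] p) l := by
  unfold Att In
  constructor
  · rintro ⟨n, l, w, h1, h2⟩
    obtain ⟨h3, h4⟩ := (over_iff _ _).1 h1
    exact ⟨n, l, h3, by rw [h4]; exact h2⟩
  · rintro ⟨n, l, h1, h2⟩
    exact ⟨n, l, _, (over_iff _ _).2 ⟨h1, rfl⟩, h2⟩

theorem con' (h : SK d q xT ρ₀ s rr σ th) {x : WW d} (hx : x ∈ ball xT ρ₀) {l : Fin q} {z : ℂ}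
    (hz : z ∈ ball (s l x) (rr l)) : (QQ d x).eval z ≠ 0 ∧
      ‖gg d x z - s (σ l) x‖ * rr l ≤ th * ‖z - s l x‖ * rr (σ l) ∧
      gg d x z ∈ ball (s (σ l) x) (rr (σ l)) := by
  obtain ⟨w, hw, hc⟩ := h.con x hx l z hz
  obtain ⟨h1, h2⟩ := (over_iff _ _).1 hw
  have h3 : vv (FH d x (z, 1)) = gg d x z := by
    unfold vv gg
    rw [FH_fst, FH_snd]
  rw [FH_snd] at h1
  rw [← h2, h3] at hc
  refine ⟨h1, hc, ?_⟩
  rw [mem_ball_iff_norm] at hz ⊢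
  have hl := h.rp l
  have hl' := h.rp (σ l)
  have h4 : th * ‖z - s l x‖ * rr (σ l) < rr l * rr (σ l) := by
    apply mul_lt_mul_of_pos_right _ hl'
    have h5 := norm_nonneg (z - s l x)
    have h6 := h.th0
    have h7 := h.th1
    nlinarith
  have h5 : ‖gg d x z - s (σ l) x‖ * rr l < rr (σ l) * rr l := by linarith
  exact lt_of_mul_lt_mul_right h5 hl.le

theorem In_step (h : SK d q xT ρ₀ s rr σ th) {x : WW d} (hx : x ∈ ball xT ρ₀) {l : Fin q}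
    {p : ℂ × ℂ} (hp : In s rr x p l) : In s rr x (FH d x p) (σ l) ∧
      ‖vv (FH d x p) - s (σ l) x‖ * rr l ≤ th * ‖vv p - s l x‖ * rr (σ l) := by
  obtain ⟨h1, h2⟩ := hp
  obtain ⟨c1, c2, c3⟩ := con' h hx h2
  rw [← vv_FH d x p h1] at c2 c3
  exact ⟨⟨(snd_FH d x p h1).2 c1, c3⟩, c2⟩

theorem pow_succ_app (n : ℕ) (a : Fin q) : (σ ^ (n + 1)) a = σ ((σ ^ n) a) := by
  rw [pow_succ', Equiv.Perm.mul_apply]

theorem pow_succ_app' (n : ℕ) (a : Fin q) : (σ ^ (n + 1)) a = (σ ^ n) (σ a) := by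
  rw [pow_succ, Equiv.Perm.mul_apply]

theorem pow_add_app (n k : ℕ) (a : Fin q) : (σ ^ (n + k)) a = (σ ^ k) ((σ ^ n) a) := by
  rw [add_comm, pow_add, Equiv.Perm.mul_apply]

theorem In_iter (h : SK d q xT ρ₀ s rr σ th) {x : WW d} (hx : x ∈ ball xT ρ₀) {l : Fin q}
    {p : ℂ × ℂ} (hp : In s rr x p l) (k : ℕ) : In s rr x ((FH d x)^[k] p) ((σ ^ k) l) ∧
      ‖vv ((FH d x)^[k] p) - s ((σ ^ k) l) x‖ * rr l ≤
        th ^ k * ‖vv p - s l x‖ * rr ((σ ^ k) l) := by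
  induction k with
  | zero => exact ⟨hp, by simp⟩
  | succ k ih =>
    obtain ⟨h1, h2⟩ := ih
    obtain ⟨h3, h4⟩ := In_step h hx h1
    rw [Function.iterate_succ_apply', pow_succ_app]
    refine ⟨h3, ?_⟩
    have hk := h.rp ((σ ^ k) l)
    have hk' := h.rp (σ ((σ ^ k) l))
    have hl := h.rp l
    have h5 : (‖vv (FH d x ((FH d x)^[k] p)) - s (σ ((σ ^ k) l)) x‖ * rr l) * rr ((σ ^ k) l) ≤
        (th ^ (k + 1) * ‖vv p - s l x‖ * rr (σ ((σ ^ k) l))) * rr ((σ ^ k) l) := by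
      calc (‖vv (FH d x ((FH d x)^[k] p)) - s (σ ((σ ^ k) l)) x‖ * rr l) * rr ((σ ^ k) l) =
          (‖vv (FH d x ((FH d x)^[k] p)) - s (σ ((σ ^ k) l)) x‖ * rr ((σ ^ k) l)) * rr l := by ring
        _ ≤ (th * ‖vv ((FH d x)^[k] p) - s ((σ ^ k) l) x‖ * rr (σ ((σ ^ k) l))) * rr l :=
            mul_le_mul_of_nonneg_right h4 hl.le
        _ = (th * rr (σ ((σ ^ k) l))) * (‖vv ((FH d x)^[k] p) - s ((σ ^ k) l) x‖ * rr l) := by ring
        _ ≤ (th * rr (σ ((σ ^ k) l))) * (th ^ k * ‖vv p - s l x‖ * rr ((σ ^ k) l)) :=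
            mul_le_mul_of_nonneg_left h2 (mul_nonneg h.th0.le hk'.le)
        _ = _ := by ring
    exact le_of_mul_le_mul_right h5 hk

theorem In_smul {x : WW d} {l : Fin q} {p : ℂ × ℂ} {c : ℂ} (hc : c ≠ 0) :
    In s rr x (c • p) l ↔ In s rr x p l := by
  unfold In
  rw [vv_smul c hc, Prod.smul_snd, smul_eq_mul]
  constructor
  · rintro ⟨h1, h2⟩
    exact ⟨fun h0 => h1 (by rw [h0, mul_zero]), h2⟩
  · rintro ⟨h1, h2⟩
    exact ⟨mul_ne_zero hc h1, h2⟩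

theorem In_unique (h : SK d q xT ρ₀ s rr σ th) {x : WW d} (hx : x ∈ ball xT ρ₀) {l l' : Fin q}
    {p : ℂ × ℂ} (h1 : In s rr x p l) (h2 : In s rr x p l') : l = l' := by
  by_contra hne
  exact Set.disjoint_left.1 (h.dis x hx l l' hne) h1.2 h2.2

/-- the label -/
def Lab (s : Fin q → WW d → ℂ) (rr : Fin q → ℝ) (σ : Equiv.Perm (Fin q)) (x : WW d) (p : ℂ × ℂ)
    (a : Fin q) : Prop := ∃ n : ℕ, In s rr x ((FH d x)^[n] p) ((σ ^ n) a)

theorem Lab_mono (h : SK d q xT ρ₀ s rr σ th) {x : WW d} (hx : x ∈ ball xT ρ₀) {p : ℂ × ℂ}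
    {a : Fin q} {n : ℕ} (hn : In s rr x ((FH d x)^[n] p) ((σ ^ n) a)) (k : ℕ) :
    In s rr x ((FH d x)^[n + k] p) ((σ ^ (n + k)) a) := by
  have := (In_iter h hx hn k).1
  rw [← Function.iterate_add_apply, add_comm k n] at this
  rwa [pow_add_app]

theorem Lab_unique (h : SK d q xT ρ₀ s rr σ th) {x : WW d} (hx : x ∈ ball xT ρ₀) {p : ℂ × ℂ}
    {a b : Fin q} (ha : Lab s rr σ x p a) (hb : Lab s rr σ x p b) : a = b := by
  obtain ⟨n, hn⟩ := ha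
  obtain ⟨m, hm⟩ := hb
  have h1 := Lab_mono h hx hn m
  have h2 := Lab_mono h hx hm n
  rw [add_comm m n] at h2
  exact (σ ^ (n + m)).injective (In_unique h hx h1 h2)

theorem Lab_of_att {x : WW d} {p : ℂ × ℂ} (hA : Att d q s rr x p) : ∃ a, Lab s rr σ x p a := by
  obtain ⟨n, l, hl⟩ := (att_iff x p).1 hA
  refine ⟨(σ ^ n).symm l, n, ?_⟩
  rw [Equiv.apply_symm_apply]
  exact hl

theorem att_of_Lab {x : WW d} {p : ℂ × ℂ} {a : Fin q} (h : Lab s rr σ x p a) :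
    Att d q s rr x p := by
  obtain ⟨n, hn⟩ := h
  exact (att_iff x p).2 ⟨n, _, hn⟩

theorem Lab_step (h : SK d q xT ρ₀ s rr σ th) {x : WW d} (hx : x ∈ ball xT ρ₀) {p : ℂ × ℂ}
    {a : Fin q} (ha : Lab s rr σ x p a) : Lab s rr σ x (FH d x p) (σ a) := by
  obtain ⟨n, hn⟩ := ha
  refine ⟨n, ?_⟩
  have h1 := Lab_mono h hx hn 1
  rw [Function.iterate_succ_apply, pow_succ_app'] at h1
  exact h1

theorem Lab_smul {x : WW d} {p : ℂ × ℂ} {a : Fin q} {c : ℂ} (hc : c ≠ 0)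
    (ha : Lab s rr σ x p a) : Lab s rr σ x (c • p) a := by
  obtain ⟨n, hn⟩ := ha
  refine ⟨n, ?_⟩
  rw [FH_iter_smul]
  exact (In_smul (pow_ne_zero _ hc)).2 hn

open scoped Classical in
/-- the label as a function -/
noncomputable def labf (hq : 0 < q) (s : Fin q → WW d → ℂ) (rr : Fin q → ℝ)
    (σ : Equiv.Perm (Fin q)) (y : WW d × (ℂ × ℂ)) : Fin q :=
  if h : ∃ a, Lab s rr σ y.1 y.2 a then h.choose else ⟨0, hq⟩

theorem labf_eq (hq : 0 < q) (h : SK d q xT ρ₀ s rr σ th) {x : WW d} (hx : x ∈ ball xT ρ₀)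
    {p : ℂ × ℂ} {a : Fin q} (ha : Lab s rr σ x p a) : labf hq s rr σ (x, p) = a := by
  have hex : ∃ a, Lab s rr σ (x, p).1 (x, p).2 a := ⟨a, ha⟩
  unfold labf
  rw [dif_pos hex]
  exact Lab_unique h hx hex.choose_spec ha

theorem labf_spec (hq : 0 < q) (h : SK d q xT ρ₀ s rr σ th) {x : WW d} (hx : x ∈ ball xT ρ₀)
    {p : ℂ × ℂ} (hA : Att d q s rr x p) : Lab s rr σ x p (labf hq s rr σ (x, p)) := by
  obtain ⟨a, ha⟩ := Lab_of_att (σ := σ) hA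
  rw [labf_eq hq h hx ha]
  exact ha

/-- openness of the discs -/
theorem In_open (h : SK d q xT ρ₀ s rr σ th) {y : WW d × (ℂ × ℂ)} (hy : y.1 ∈ ball xT ρ₀) {n : ℕ}
    {l : Fin q} (δ : ℝ)
    (hn : ((FH d y.1)^[n] y.2).2 ≠ 0 ∧ vv ((FH d y.1)^[n] y.2) ∈ ball (s l y.1) δ) :
    ∀ᶠ y' in 𝓝 y, y'.1 ∈ ball xT ρ₀ ∧
      (((FH d y'.1)^[n] y'.2).2 ≠ 0 ∧ vv ((FH d y'.1)^[n] y'.2) ∈ ball (s l y'.1) δ) := by
  have c0 : ContinuousAt (fun y' : WW d × (ℂ × ℂ) => y'.1) y := continuous_fst.continuousAt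
  have c1 : ContinuousAt (fun y' : WW d × (ℂ × ℂ) => (FH d y'.1)^[n] y'.2) y :=
    (dFHn d n).continuous.continuousAt
  have c2 : ContinuousAt (fun y' : WW d × (ℂ × ℂ) => ((FH d y'.1)^[n] y'.2).2) y := c1.snd
  have c3 : ContinuousAt (fun y' : WW d × (ℂ × ℂ) => vv ((FH d y'.1)^[n] y'.2)) y :=
    c1.fst.div c2 hn.1
  have c4 : ContinuousAt (fun y' : WW d × (ℂ × ℂ) => s l y'.1) y := by
    have h1 : ContinuousAt (s l) y.1 :=
      ((h.sd l).differentiableAt (isOpen_ball.mem_nhds hy)).continuousAt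
    exact ContinuousAt.comp (f := fun y' : WW d × (ℂ × ℂ) => y'.1) h1 c0
  have e0 : ∀ᶠ y' in 𝓝 y, y'.1 ∈ ball xT ρ₀ := c0.eventually (isOpen_ball.mem_nhds hy)
  have e1 : ∀ᶠ y' in 𝓝 y, ((FH d y'.1)^[n] y'.2).2 ≠ 0 := c2.eventually_ne hn.1
  have e2 : ∀ᶠ y' in 𝓝 y, ‖vv ((FH d y'.1)^[n] y'.2) - s l y'.1‖ < δ :=
    ((c3.sub c4).norm).eventually (gt_mem_nhds (mem_ball_iff_norm.1 hn.2))
  filter_upwards [e0, e1, e2] with y' a0 a1 a2
  exact ⟨a0, a1, mem_ball_iff_norm.2 a2⟩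

theorem Lab_open (h : SK d q xT ρ₀ s rr σ th) {y : WW d × (ℂ × ℂ)} (hy : y.1 ∈ ball xT ρ₀)
    {a : Fin q} (ha : Lab s rr σ y.1 y.2 a) :
    ∀ᶠ y' in 𝓝 y, y'.1 ∈ ball xT ρ₀ ∧ Lab s rr σ y'.1 y'.2 a := by
  obtain ⟨n, hn⟩ := ha
  filter_upwards [In_open h hy (rr ((σ ^ n) a)) hn] with y' hy'
  exact ⟨hy'.1, n, hy'.2⟩

/-! ### the multipliers -/

theorem s_mem (h : SK d q xT ρ₀ s rr σ th) (x : WW d) (l : Fin q) : s l x ∈ ball (s l x) (rr l) :=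
  mem_ball_self (h.rp l)

theorem gg_s (h : SK d q xT ρ₀ s rr σ th) {x : WW d} (hx : x ∈ ball xT ρ₀) (l : Fin q) :
    gg d x (s l x) = s (σ l) x := by
  have h1 := (con' h hx (s_mem h x l)).2.1
  rw [sub_self, norm_zero, mul_zero, zero_mul] at h1
  have h2 := h.rp l
  have h3 : ‖gg d x (s l x) - s (σ l) x‖ ≤ 0 := by
    by_contra h4
    push Not at h4
    have := mul_pos h4 h2
    linarith
  exact sub_eq_zero.1 (norm_le_zero_iff.1 h3)

theorem dmu (h : SK d q xT ρ₀ s rr σ th) (l : Fin q) :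
    DifferentiableOn ℂ (fun x => mu d x (s l x)) (ball xT ρ₀) := by
  have h1 : DifferentiableOn ℂ (fun x : WW d => ((x, s l x) : WW d × ℂ)) (ball xT ρ₀) :=
    differentiableOn_id.prodMk (h.sd l)
  have e1 : DifferentiableOn ℂ (fun x : WW d => (wr d x).eval (s l x)) (ball xT ρ₀) :=
    (dwr d).comp_differentiableOn h1
  have e2 : DifferentiableOn ℂ (fun x : WW d => (QQ d x).eval (s l x)) (ball xT ρ₀) :=
    (dQ d).comp_differentiableOn h1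
  have e3 : DifferentiableOn ℂ (fun x : WW d => (QQ d x).eval (s l x) ^ 2) (ball xT ρ₀) :=
    e2.pow 2
  unfold mu
  exact divOn e1 e3 fun x hx => pow_ne_zero 2 (con' h hx (s_mem h x l)).1

theorem BL_open (h : SK d q xT ρ₀ s rr σ th) (lam : ℝ) : IsOpen (BL d q xT ρ₀ s lam) := by
  rw [isOpen_iff_mem_nhds]
  rintro x ⟨hx, hl⟩
  have h1 : ∀ l, ∀ᶠ x' in 𝓝 x, lam < ‖mu d x' (s l x')‖ := fun l =>
    (((dmu h l).differentiableAt (isOpen_ball.mem_nhds hx)).continuousAt.norm).eventually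
      (lt_mem_nhds (hl l))
  filter_upwards [isOpen_ball.mem_nhds hx, eventually_all.2 h1] with x' a b
  exact ⟨a, b⟩

theorem exists_lam (hq : 0 < q) {x : WW d} (hx : x ∈ BM d q xT ρ₀ s) :
    ∃ lam : ℝ, 0 < lam ∧ x ∈ BL d q xT ρ₀ s lam := by
  have : Nonempty (Fin q) := ⟨⟨0, hq⟩⟩
  obtain ⟨l0, hl0⟩ := Finite.exists_min (fun l => ‖mu d x (s l x)‖)
  have h0 : 0 < ‖mu d x (s l0 x)‖ := norm_pos_iff.2 (hx.2 l0)
  refine ⟨‖mu d x (s l0 x)‖ / 2, by positivity, hx.1, fun l => ?_⟩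
  have := hl0 l
  linarith

theorem BL_sub {lam : ℝ} (hlam : 0 ≤ lam) : BL d q xT ρ₀ s lam ⊆ BM d q xT ρ₀ s := by
  rintro x ⟨h1, h2⟩
  exact ⟨h1, fun l => norm_pos_iff.1 (hlam.trans_lt (h2 l))⟩

end sinks

section part2

variable {d q : ℕ} {xT : WW d} {ρ₀ : ℝ} {s : Fin q → WW d → ℂ} {rr : Fin q → ℝ}
  {σ : Equiv.Perm (Fin q)} {th : ℝ}

/-- the local maps -/
noncomputable def G0 (s : Fin q → WW d → ℂ) (σ : Equiv.Perm (Fin q)) (l : Fin q)
    (y : WW d × ℂ) : ℂ := gg d y.1 (s l y.1 + y.2) - s (σ l) y.1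

theorem add_mem {x : WW d} {l : Fin q} {z : ℂ} {r : ℝ} (hz : z ∈ ball (0 : ℂ) r) :
    s l x + z ∈ ball (s l x) r := by
  rw [mem_ball_iff_norm] at hz ⊢
  rwa [add_sub_cancel_left, ← sub_zero z]

theorem G0_diff (h : SK d q xT ρ₀ s rr σ th) (l : Fin q) :
    DifferentiableOn ℂ (G0 s σ l) (ball xT ρ₀ ×ˢ ball (0 : ℂ) (rr l)) := by
  have e0 : DifferentiableOn ℂ (fun y : WW d × ℂ => s l y.1) (ball xT ρ₀ ×ˢ ball (0 : ℂ) (rr l)) :=
    (h.sd l).comp differentiableOn_fst fun y hy => hy.1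
  have e4 : DifferentiableOn ℂ (fun y : WW d × ℂ => s (σ l) y.1)
      (ball xT ρ₀ ×ˢ ball (0 : ℂ) (rr l)) :=
    (h.sd (σ l)).comp differentiableOn_fst fun y hy => hy.1
  have e1 : DifferentiableOn ℂ (fun y : WW d × ℂ => ((y.1, s l y.1 + y.2) : WW d × ℂ))
      (ball xT ρ₀ ×ˢ ball (0 : ℂ) (rr l)) := differentiableOn_fst.prodMk (e0.add differentiableOn_snd)
  have e2 : DifferentiableOn ℂ (fun y : WW d × ℂ => (PP d y.1).eval (s l y.1 + y.2))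
      (ball xT ρ₀ ×ˢ ball (0 : ℂ) (rr l)) := (dP d).comp_differentiableOn e1
  have e3 : DifferentiableOn ℂ (fun y : WW d × ℂ => (QQ d y.1).eval (s l y.1 + y.2))
      (ball xT ρ₀ ×ˢ ball (0 : ℂ) (rr l)) := (dQ d).comp_differentiableOn e1
  unfold G0 gg
  exact (divOn e2 e3 fun y hy => (con' h hy.1 (add_mem hy.2)).1).sub e4

theorem G0_zero (h : SK d q xT ρ₀ s rr σ th) {x : WW d} (hx : x ∈ ball xT ρ₀) (l : Fin q) :
    G0 s σ l (x, 0) = 0 := by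
  unfold G0
  simp only [add_zero]
  rw [gg_s h hx, sub_self]

theorem G0_bd (h : SK d q xT ρ₀ s rr σ th) {x : WW d} (hx : x ∈ ball xT ρ₀) (l : Fin q) {z : ℂ}
    (hz : z ∈ ball (0 : ℂ) (rr l)) : ‖G0 s σ l (x, z)‖ * rr l ≤ th * ‖z‖ * rr (σ l) ∧
      ‖G0 s σ l (x, z)‖ < rr (σ l) := by
  obtain ⟨h1, h2, h3⟩ := con' h hx (add_mem hz)
  rw [add_sub_cancel_left] at h2
  exact ⟨h2, mem_ball_iff_norm.1 h3⟩

theorem G0_fun (h : SK d q xT ρ₀ s rr σ th) {x : WW d} (hx : x ∈ ball xT ρ₀) (l : Fin q) :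
    DifferentiableOn ℂ (fun z => G0 s σ l (x, z)) (ball (0 : ℂ) (rr l)) := by
  refine (G0_diff h l).comp (f := fun z : ℂ => ((x, z) : WW d × ℂ))
    ((differentiableOn_const x).prodMk differentiableOn_id) ?_
  intro z hz
  exact ⟨hx, hz⟩

theorem G0_deriv (h : SK d q xT ρ₀ s rr σ th) {x : WW d} (hx : x ∈ ball xT ρ₀) (l : Fin q) :
    deriv (fun z => G0 s σ l (x, z)) 0 = mu d x (s l x) := by
  have h1 := hasDerivAt_gg d x (s l x) (con' h hx (s_mem h x l)).1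
  have h2 : HasDerivAt (fun z : ℂ => s l x + z) 1 0 := (hasDerivAt_id (0 : ℂ)).const_add (s l x)
  have h3 : HasDerivAt (gg d x) (mu d x (s l x)) (s l x + 0) := by rwa [add_zero]
  have h4 : HasDerivAt (fun z : ℂ => gg d x (s l x + z)) (mu d x (s l x) * 1) 0 :=
    HasDerivAt.comp (0 : ℂ) h3 h2
  have h5 := h4.sub_const (s (σ l) x)
  rw [mul_one] at h5
  exact h5.deriv

theorem G0_quad (h : SK d q xT ρ₀ s rr σ th) {x : WW d} (hx : x ∈ ball xT ρ₀) (l : Fin q) {z : ℂ}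
    (hz : z ∈ ball (0 : ℂ) (rr l)) :
    ‖G0 s σ l (x, z) - mu d x (s l x) * z‖ ≤
      (2 * (rr (σ l) / rr l)) / rr l * ‖z‖ ^ 2 := by
  set φ : ℂ → ℂ := fun z => G0 s σ l (x, z) with hφ
  have hl := h.rp l
  have hl' := h.rp (σ l)
  have hd : DifferentiableOn ℂ φ (ball (0 : ℂ) (rr l)) := G0_fun h hx l
  have h0 : φ 0 = 0 := G0_zero h hx l
  have hm : MapsTo φ (ball (0 : ℂ) (rr l)) (closedBall (φ 0) (rr (σ l))) := by
    intro z hz
    rw [h0, mem_closedBall_zero_iff]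
    exact (G0_bd h hx l hz).2.le
  set g : ℂ → ℂ := dslope φ 0 with hg
  have hgd : DifferentiableOn ℂ g (ball (0 : ℂ) (rr l)) :=
    (Complex.differentiableOn_dslope (isOpen_ball.mem_nhds (mem_ball_self hl))).2 hd
  have hgb : ∀ z ∈ ball (0 : ℂ) (rr l), ‖g z‖ ≤ rr (σ l) / rr l := fun z hz =>
    Complex.norm_dslope_le_div_of_mapsTo_ball hd hm hz
  have hgm : MapsTo g (ball (0 : ℂ) (rr l)) (closedBall (g 0) (2 * (rr (σ l) / rr l))) := by
    intro z hz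
    rw [mem_closedBall_iff_norm]
    calc ‖g z - g 0‖ ≤ ‖g z‖ + ‖g 0‖ := norm_sub_le _ _
      _ ≤ rr (σ l) / rr l + rr (σ l) / rr l := add_le_add (hgb z hz) (hgb 0 (mem_ball_self hl))
      _ = _ := by ring
  have h5 := Complex.dist_le_div_mul_dist_of_mapsTo_ball hgd hgm hz
  rw [dist_zero_right, dist_eq_norm] at h5
  have h6 : g 0 = mu d x (s l x) := by
    rw [hg, dslope_same]
    exact G0_deriv h hx l
  have h7 : φ z = z * g z := by
    rcases eq_or_ne z 0 with rfl | hne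
    · rw [h0, zero_mul]
    · rw [hg, dslope_of_ne _ hne, slope_def_field, sub_zero, h0, sub_zero]
      field_simp
  have h8 : G0 s σ l (x, z) - mu d x (s l x) * z = z * (g z - g 0) := by
    rw [h6]
    have : G0 s σ l (x, z) = φ z := rfl
    rw [this, h7]
    ring
  rw [h8, norm_mul]
  calc ‖z‖ * ‖g z - g 0‖ ≤ ‖z‖ * (2 * (rr (σ l) / rr l) / rr l * ‖z‖) :=
        mul_le_mul_of_nonneg_left h5 (norm_nonneg _)
    _ = _ := by ring

/-- the conclusion of Koenigs' theorem in our situation -/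
structure KO (d q : ℕ) (xT : WW d) (ρ₀ : ℝ) (s : Fin q → WW d → ℂ) (rr : Fin q → ℝ)
    (σ : Equiv.Perm (Fin q)) (lam δ : ℝ) (κ : Fin q → WW d × ℂ → ℂ) : Prop where
  δ0 : 0 < δ
  δ1 : δ ≤ 1
  kd : ∀ l, DifferentiableOn ℂ (κ l) (BL d q xT ρ₀ s lam ×ˢ ball (0 : ℂ) (δ * rr l))
  kb : ∀ l, ∀ x ∈ BL d q xT ρ₀ s lam, ∀ z ∈ ball (0 : ℂ) (δ * rr l),
    ‖κ l (x, z) - z‖ ≤ ‖z‖ / 8
  k1 : ∀ l, ∀ x ∈ BL d q xT ρ₀ s lam, deriv (fun z : ℂ => κ l (x, z)) 0 = 1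
  ku : ∀ l, ∀ x ∈ BL d q xT ρ₀ s lam, ∀ z : ℕ → ℂ, z 0 ∈ ball (0 : ℂ) (δ * rr l) →
    (∀ n, z (n + 1) = G0 s σ ((σ ^ n) l) (x, z n)) →
    Tendsto (fun n : ℕ => z n / ∏ j ∈ Finset.range n, mu d x (s ((σ ^ j) l) x)) atTop
      (𝓝 (κ l (x, z 0)))

theorem koen (hK : StKOEN) (h : SK d q xT ρ₀ s rr σ th) {lam : ℝ} (hlam : 0 < lam) :
    ∃ (δ : ℝ) (κ : Fin q → WW d × ℂ → ℂ), KO d q xT ρ₀ s rr σ lam δ κ := by
  set C : ℝ := ∑ l, (2 * (rr (σ l) / rr l)) / rr l with hC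
  have hC0 : ∀ l, 0 ≤ (2 * (rr (σ l) / rr l)) / rr l := fun l => by
    have h1 := h.rp l
    have h2 := h.rp (σ l)
    positivity
  have hC1 : ∀ l, (2 * (rr (σ l) / rr l)) / rr l ≤ C := fun l =>
    Finset.single_le_sum (f := fun l => (2 * (rr (σ l) / rr l)) / rr l) (fun i _ => hC0 i)
      (Finset.mem_univ l)
  have hsub : ∀ {x : WW d}, x ∈ BL d q xT ρ₀ s lam → x ∈ ball xT ρ₀ := fun hx => hx.1
  obtain ⟨δ, κ, h1, h2, h3, h4, h5, h6⟩ := hK (WW d) q σ (BL d q xT ρ₀ s lam) (G0 s σ)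
    (fun l x => mu d x (s l x)) rr th C lam (BL_open h lam) h.th0 h.th1 hlam
    (Finset.sum_nonneg fun l _ => hC0 l) h.rp
    (fun l => (G0_diff h l).mono (prod_mono (fun x hx => hx.1) subset_rfl))
    (fun l x hx z hz => (G0_bd h hx.1 l hz).1)
    (fun l x hx z hz => (G0_quad h hx.1 l hz).trans
      (mul_le_mul_of_nonneg_right (hC1 l) (sq_nonneg _)))
    (fun l x hx => (hx.2 l).le)
  exact ⟨δ, κ, h1, h2, h3, fun l x hx z hz => (h4 l x hx z hz).1, h5, h6⟩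

/-- the sequence which converges to the Koenigs coordinate -/
noncomputable def sq (s : Fin q → WW d → ℂ) (σ : Equiv.Perm (Fin q)) (x : WW d) (p : ℂ × ℂ)
    (a : Fin q) (n : ℕ) : ℂ :=
  (vv ((FH d x)^[n] p) - s ((σ ^ n) a) x) / ∏ j ∈ Finset.range n, mu d x (s ((σ ^ j) a) x)

/-- the local formula -/
noncomputable def Fl (s : Fin q → WW d → ℂ) (σ : Equiv.Perm (Fin q)) (κ : Fin q → WW d × ℂ → ℂ)
    (a : Fin q) (N : ℕ) (y : WW d × (ℂ × ℂ)) : ℂ :=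
  κ ((σ ^ N) a) (y.1, vv ((FH d y.1)^[N] y.2) - s ((σ ^ N) a) y.1) /
    ∏ j ∈ Finset.range N, mu d y.1 (s ((σ ^ j) a) y.1)

theorem key (h : SK d q xT ρ₀ s rr σ th) {lam δ : ℝ}
    {κ : Fin q → WW d × ℂ → ℂ} (hκ : KO d q xT ρ₀ s rr σ lam δ κ) {x : WW d}
    (hx : x ∈ BL d q xT ρ₀ s lam) {p : ℂ × ℂ} {a : Fin q} {N : ℕ}
    (hN : ((FH d x)^[N] p).2 ≠ 0 ∧ vv ((FH d x)^[N] p) ∈ ball (s ((σ ^ N) a) x)
      (δ * rr ((σ ^ N) a))) :
    Tendsto (sq s σ x p a) atTop (𝓝 (Fl s σ κ a N (x, p))) := by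
  have hIn : In s rr x ((FH d x)^[N] p) ((σ ^ N) a) := by
    refine ⟨hN.1, ball_subset_ball ?_ hN.2⟩
    have h1 := h.rp ((σ ^ N) a)
    have h2 := hκ.δ1
    nlinarith
  set z : ℕ → ℂ := fun n => vv ((FH d x)^[N + n] p) - s ((σ ^ (N + n)) a) x with hz
  have hz0 : z 0 ∈ ball (0 : ℂ) (δ * rr ((σ ^ N) a)) := by
    rw [mem_ball_zero_iff]
    exact mem_ball_iff_norm.1 hN.2
  have hz1 : ∀ n, z (n + 1) = G0 s σ ((σ ^ n) ((σ ^ N) a)) (x, z n) := by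
    intro n
    have h1 := Lab_mono h hx.1 hIn n
    rw [hz]
    simp only [G0]
    rw [← pow_add_app, ← pow_succ_app, add_sub_cancel, ← add_assoc, Function.iterate_succ_apply',
      vv_FH d x _ h1.1]
  have h2 := hκ.ku ((σ ^ N) a) x hx z hz0 hz1
  rw [← tendsto_add_atTop_iff_nat N]
  have h3 : (fun n => sq s σ x p a (n + N)) = fun n =>
      (z n / ∏ j ∈ Finset.range n, mu d x (s ((σ ^ j) ((σ ^ N) a)) x)) /
        ∏ j ∈ Finset.range N, mu d x (s ((σ ^ j) a) x) := by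
    funext n
    unfold sq
    rw [add_comm n N, Finset.prod_range_add, div_div]
    congr 1
    rw [mul_comm]
    congr 1
    exact Finset.prod_congr rfl fun j _ => by rw [pow_add_app]
  rw [h3]
  exact h2.div_const _

theorem exists_N (h : SK d q xT ρ₀ s rr σ th) {δ : ℝ} (hδ : 0 < δ) {x : WW d}
    (hx : x ∈ ball xT ρ₀) {p : ℂ × ℂ} {a : Fin q} (ha : Lab s rr σ x p a) :
    ∃ N : ℕ, 1 ≤ N ∧ ((FH d x)^[N] p).2 ≠ 0 ∧ vv ((FH d x)^[N] p) ∈ ball (s ((σ ^ N) a) x)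
      (δ * rr ((σ ^ N) a)) := by
  obtain ⟨n, hn⟩ := ha
  obtain ⟨k, hk⟩ := exists_pow_lt_of_lt_one hδ h.th1
  have hk1 : th ^ (k + 1) < δ := by
    rw [pow_succ]
    have h1 := pow_pos h.th0 k
    have h2 := h.th1
    nlinarith
  obtain ⟨h1, h2⟩ := In_iter h hx hn (k + 1)
  rw [← Function.iterate_add_apply, add_comm (k + 1) n, ← pow_add_app] at h1 h2
  refine ⟨n + (k + 1), by omega, h1.1, ?_⟩
  rw [mem_ball_iff_norm]
  have h3 := mem_ball_iff_norm.1 hn.2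
  have h4 := h.rp ((σ ^ n) a)
  have h5 := h.rp ((σ ^ (n + (k + 1))) a)
  have h6 : ‖vv ((FH d x)^[n + (k + 1)] p) - s ((σ ^ (n + (k + 1))) a) x‖ * rr ((σ ^ n) a) ≤
      (th ^ (k + 1) * rr ((σ ^ (n + (k + 1))) a)) * rr ((σ ^ n) a) := by
    refine h2.trans ?_
    have h7 := mul_le_mul_of_nonneg_left h3.le
      (mul_nonneg (pow_pos h.th0 (k + 1)).le h5.le)
    linarith
  have h8 := le_of_mul_le_mul_right h6 h4
  have h9 := mul_lt_mul_of_pos_right hk1 h5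
  linarith

/-- the Koenigs coordinate -/
noncomputable def KK (hq : 0 < q) (s : Fin q → WW d → ℂ) (rr : Fin q → ℝ)
    (σ : Equiv.Perm (Fin q)) (y : WW d × (ℂ × ℂ)) : ℂ :=
  limUnder atTop (sq s σ y.1 y.2 (labf hq s rr σ y))

theorem KK_eq (hq : 0 < q) (h : SK d q xT ρ₀ s rr σ th) {lam δ : ℝ}
    {κ : Fin q → WW d × ℂ → ℂ} (hκ : KO d q xT ρ₀ s rr σ lam δ κ) {x : WW d}
    (hx : x ∈ BL d q xT ρ₀ s lam) {p : ℂ × ℂ} {a : Fin q} {N : ℕ}
    (hN : ((FH d x)^[N] p).2 ≠ 0 ∧ vv ((FH d x)^[N] p) ∈ ball (s ((σ ^ N) a) x)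
      (δ * rr ((σ ^ N) a))) : KK hq s rr σ (x, p) = Fl s σ κ a N (x, p) := by
  have ha : Lab s rr σ x p a := by
    refine ⟨N, hN.1, ball_subset_ball ?_ hN.2⟩
    have h1 := h.rp ((σ ^ N) a)
    have h2 := hκ.δ1
    nlinarith
  unfold KK
  rw [labf_eq hq h hx.1 ha]
  exact (key h hκ hx hN).limUnder_eq

theorem KK_lim (hK : StKOEN) (hq : 0 < q) (h : SK d q xT ρ₀ s rr σ th) {x : WW d}
    (hx : x ∈ BM d q xT ρ₀ s) {p : ℂ × ℂ} {a : Fin q} (ha : Lab s rr σ x p a) :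
    Tendsto (sq s σ x p a) atTop (𝓝 (KK hq s rr σ (x, p))) := by
  obtain ⟨lam, hlam, hxl⟩ := exists_lam hq hx
  obtain ⟨δ, κ, hκ⟩ := koen hK h hlam
  obtain ⟨N, -, hN⟩ := exists_N h hκ.δ0 hx.1 ha
  rw [KK_eq hq h hκ hxl hN]
  exact key h hκ hxl hN

end part2

section part3

variable {d q : ℕ} {xT : WW d} {ρ₀ : ℝ} {s : Fin q → WW d → ℂ} {rr : Fin q → ℝ}
  {σ : Equiv.Perm (Fin q)} {th : ℝ}

theorem vv_at {x : WW d} {p : ℂ × ℂ} {n : ℕ} (h0 : ((FH d x)^[n] p).2 ≠ 0) :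
    DifferentiableAt ℂ (fun y : WW d × (ℂ × ℂ) => vv ((FH d y.1)^[n] y.2)) (x, p) := by
  have h1 : DifferentiableAt ℂ (fun y : WW d × (ℂ × ℂ) => (FH d y.1)^[n] y.2) (x, p) :=
    (dFHn d n) (x, p)
  exact divAt h1.fst h1.snd h0

theorem Fl_at (h : SK d q xT ρ₀ s rr σ th) {lam δ : ℝ} (hlam : 0 < lam)
    {κ : Fin q → WW d × ℂ → ℂ} (hκ : KO d q xT ρ₀ s rr σ lam δ κ) {x : WW d}
    (hx : x ∈ BL d q xT ρ₀ s lam) {p : ℂ × ℂ} {a : Fin q} {N : ℕ}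
    (hN : ((FH d x)^[N] p).2 ≠ 0 ∧ vv ((FH d x)^[N] p) ∈ ball (s ((σ ^ N) a) x)
      (δ * rr ((σ ^ N) a))) : DifferentiableAt ℂ (Fl s σ κ a N) (x, p) := by
  have hfst : DifferentiableAt ℂ (fun y : WW d × (ℂ × ℂ) => y.1) (x, p) := differentiableAt_fst
  have hs : ∀ l, DifferentiableAt ℂ (fun y : WW d × (ℂ × ℂ) => s l y.1) (x, p) := fun l =>
    DifferentiableAt.comp (g := s l) (f := fun y : WW d × (ℂ × ℂ) => y.1) (x, p)
      ((h.sd l).differentiableAt (isOpen_ball.mem_nhds hx.1)) hfst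
  have hm : ∀ l, DifferentiableAt ℂ (fun y : WW d × (ℂ × ℂ) => mu d y.1 (s l y.1)) (x, p) :=
    fun l => DifferentiableAt.comp (g := fun x => mu d x (s l x))
      (f := fun y : WW d × (ℂ × ℂ) => y.1) (x, p)
      ((dmu h l).differentiableAt (isOpen_ball.mem_nhds hx.1)) hfst
  have h1 : DifferentiableAt ℂ (fun y : WW d × (ℂ × ℂ) =>
      ((y.1, vv ((FH d y.1)^[N] y.2) - s ((σ ^ N) a) y.1) : WW d × ℂ)) (x, p) :=
    hfst.prodMk ((vv_at hN.1).sub (hs _))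
  have h2 : DifferentiableAt ℂ (κ ((σ ^ N) a))
      (x, vv ((FH d x)^[N] p) - s ((σ ^ N) a) x) := by
    refine (hκ.kd _).differentiableAt ?_
    refine ((BL_open h lam).prod isOpen_ball).mem_nhds ⟨hx, ?_⟩
    rw [mem_ball_zero_iff]
    exact mem_ball_iff_norm.1 hN.2
  have h3 : DifferentiableAt ℂ (fun y : WW d × (ℂ × ℂ) =>
      κ ((σ ^ N) a) (y.1, vv ((FH d y.1)^[N] y.2) - s ((σ ^ N) a) y.1)) (x, p) :=
    DifferentiableAt.comp (g := κ ((σ ^ N) a)) (x, p) h2 h1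
  have h4 : DifferentiableAt ℂ (fun y : WW d × (ℂ × ℂ) =>
      ∏ j ∈ Finset.range N, mu d y.1 (s ((σ ^ j) a) y.1)) (x, p) :=
    prodAt N fun j _ => hm _
  exact divAt h3 h4 (Finset.prod_ne_zero_iff.2 fun j _ => (BL_sub hlam.le hx).2 _)

/-- the local formula holds near a point -/
theorem KK_near (hq : 0 < q) (h : SK d q xT ρ₀ s rr σ th) {lam δ : ℝ}
    {κ : Fin q → WW d × ℂ → ℂ} (hκ : KO d q xT ρ₀ s rr σ lam δ κ) {x : WW d}
    (hx : x ∈ BL d q xT ρ₀ s lam) {p : ℂ × ℂ} {a : Fin q} {N : ℕ}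
    (hN : ((FH d x)^[N] p).2 ≠ 0 ∧ vv ((FH d x)^[N] p) ∈ ball (s ((σ ^ N) a) x)
      (δ * rr ((σ ^ N) a))) : ∀ᶠ y in 𝓝 ((x, p) : WW d × (ℂ × ℂ)),
        KK hq s rr σ y = Fl s σ κ a N y := by
  have h1 := In_open h (y := (x, p)) hx.1 _ hN
  have h2 : ∀ᶠ y in 𝓝 ((x, p) : WW d × (ℂ × ℂ)), y.1 ∈ BL d q xT ρ₀ s lam :=
    continuous_fst.continuousAt.eventually ((BL_open h lam).mem_nhds hx)
  filter_upwards [h1, h2] with y a1 a2
  exact KK_eq hq h hκ (x := y.1) a2 (p := y.2) a1.2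

theorem f_hol (hK : StKOEN) (hq : 0 < q) (h : SK d q xT ρ₀ s rr σ th) :
    DifferentiableOn ℂ (KK hq s rr σ) {y | y.1 ∈ BM d q xT ρ₀ s ∧ Att d q s rr y.1 y.2} := by
  rintro ⟨x, p⟩ ⟨hx, hA⟩
  obtain ⟨lam, hlam, hxl⟩ := exists_lam hq hx
  obtain ⟨δ, κ, hκ⟩ := koen hK h hlam
  obtain ⟨a, ha⟩ := Lab_of_att (σ := σ) hA
  obtain ⟨N, -, hN⟩ := exists_N h hκ.δ0 hx.1 ha
  have h1 := Fl_at h hlam hκ hxl hN
  have h2 : DifferentiableAt ℂ (KK hq s rr σ) (x, p) :=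
    h1.congr_of_eventuallyEq (KK_near hq h hκ hxl hN)
  exact h2.differentiableWithinAt

theorem f_labc (hq : 0 < q) (h : SK d q xT ρ₀ s rr σ th) (y : WW d × (ℂ × ℂ))
    (hy : y.1 ∈ ball xT ρ₀) (hA : Att d q s rr y.1 y.2) :
    ∀ᶠ y' in 𝓝 y, labf hq s rr σ y' = labf hq s rr σ y := by
  obtain ⟨a, ha⟩ := Lab_of_att (σ := σ) hA
  have h1 : labf hq s rr σ y = a := labf_eq hq h hy ha
  filter_upwards [Lab_open h hy ha] with y' hy'
  rw [h1]
  exact labf_eq hq h hy'.1 hy'.2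

theorem vv_iter_smul (x : WW d) {c : ℂ} (hc : c ≠ 0) (p : ℂ × ℂ) (n : ℕ) :
    vv ((FH d x)^[n] (c • p)) = vv ((FH d x)^[n] p) := by
  rw [FH_iter_smul, vv_smul _ (pow_ne_zero _ hc)]

theorem sq_smul (x : WW d) {c : ℂ} (hc : c ≠ 0) (p : ℂ × ℂ) (a : Fin q) :
    sq s σ x (c • p) a = sq s σ x p a := by
  funext n
  unfold sq
  rw [vv_iter_smul x hc]

theorem f_scal' (hq : 0 < q) (h : SK d q xT ρ₀ s rr σ th) {x : WW d} (hx : x ∈ ball xT ρ₀)
    {p : ℂ × ℂ} (hA : Att d q s rr x p) {c : ℂ} (hc : c ≠ 0) :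
    labf hq s rr σ (x, c • p) = labf hq s rr σ (x, p) := by
  obtain ⟨a, ha⟩ := Lab_of_att (σ := σ) hA
  rw [labf_eq hq h hx ha, labf_eq hq h hx (Lab_smul hc ha)]

theorem f_scal (hq : 0 < q) (h : SK d q xT ρ₀ s rr σ th) {x : WW d} (hx : x ∈ ball xT ρ₀)
    {p : ℂ × ℂ} (hA : Att d q s rr x p) {c : ℂ} (hc : c ≠ 0) :
    KK hq s rr σ (x, c • p) = KK hq s rr σ (x, p) := by
  unfold KK
  simp only
  rw [f_scal' hq h hx hA hc, sq_smul x hc]

theorem f_step' (hq : 0 < q) (h : SK d q xT ρ₀ s rr σ th) {x : WW d} (hx : x ∈ ball xT ρ₀)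
    {p : ℂ × ℂ} (hA : Att d q s rr x p) :
    labf hq s rr σ (x, FH d x p) = σ (labf hq s rr σ (x, p)) := by
  obtain ⟨a, ha⟩ := Lab_of_att (σ := σ) hA
  rw [labf_eq hq h hx ha, labf_eq hq h hx (Lab_step h hx ha)]

theorem f_step (hK : StKOEN) (hq : 0 < q) (h : SK d q xT ρ₀ s rr σ th) {x : WW d}
    (hx : x ∈ BM d q xT ρ₀ s) {p : ℂ × ℂ} (hA : Att d q s rr x p) :
    KK hq s rr σ (x, FH d x p) =
      mu d x (s (labf hq s rr σ (x, p)) x) * KK hq s rr σ (x, p) := by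
  obtain ⟨a, ha⟩ := Lab_of_att (σ := σ) hA
  rw [labf_eq hq h hx.1 ha]
  have h1 := KK_lim hK hq h hx ha
  have h2 := KK_lim hK hq h hx (Lab_step h hx.1 ha)
  have h3 : sq s σ x (FH d x p) (σ a) = fun n => mu d x (s a x) * sq s σ x p a (n + 1) := by
    funext n
    unfold sq
    rw [Finset.prod_range_succ', ← pow_succ_app', Function.iterate_succ_apply]
    have h4 : ∏ j ∈ Finset.range n, mu d x (s ((σ ^ j) (σ a)) x) =
        ∏ j ∈ Finset.range n, mu d x (s ((σ ^ (j + 1)) a) x) :=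
      Finset.prod_congr rfl fun j _ => by rw [pow_succ_app']
    rw [h4]
    have h5 : mu d x (s a x) ≠ 0 := hx.2 a
    simp only [pow_zero, Equiv.Perm.coe_one, id_eq]
    field_simp
  rw [h3] at h2
  have h6 : Tendsto (fun n => mu d x (s a x) * sq s σ x p a (n + 1)) atTop
      (𝓝 (mu d x (s a x) * KK hq s rr σ (x, p))) :=
    ((tendsto_add_atTop_iff_nat 1).2 h1).const_mul _
  exact tendsto_nhds_unique h2 h6

theorem In_disc (x : WW d) (l : Fin q) {z : ℂ} {r : ℝ} (hz : z ∈ ball (s l x) r) :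
    ((FH d x)^[0] (z, 1)).2 ≠ 0 ∧ vv ((FH d x)^[0] (z, 1)) ∈ ball (s ((σ ^ 0) l) x) r := by
  simp only [Function.iterate_zero, id_eq, pow_zero, Equiv.Perm.coe_one]
  refine ⟨one_ne_zero, ?_⟩
  unfold vv
  simpa using hz

theorem f_loc (hq : 0 < q) (h : SK d q xT ρ₀ s rr σ th) {x : WW d} (hx : x ∈ ball xT ρ₀)
    (l : Fin q) {z : ℂ} (hz : z ∈ ball (s l x) (rr l)) : labf hq s rr σ (x, (z, 1)) = l := by
  refine labf_eq hq h hx ⟨0, ?_⟩
  exact In_disc (σ := σ) x l hz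

/-- the local formula in the small disc -/
theorem KK_disc (hq : 0 < q) (h : SK d q xT ρ₀ s rr σ th) {lam δ : ℝ}
    {κ : Fin q → WW d × ℂ → ℂ} (hκ : KO d q xT ρ₀ s rr σ lam δ κ) {x : WW d}
    (hx : x ∈ BL d q xT ρ₀ s lam) (l : Fin q) {z : ℂ} (hz : z ∈ ball (s l x) (δ * rr l)) :
    KK hq s rr σ (x, (z, 1)) = κ l (x, z - s l x) := by
  have h1 := In_disc (σ := σ) x l hz
  rw [KK_eq (a := l) (N := 0) hq h hκ hx h1]
  unfold Fl vv
  simp

theorem f_zero (hK : StKOEN) (hq : 0 < q) (h : SK d q xT ρ₀ s rr σ th) {x : WW d}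
    (hx : x ∈ BM d q xT ρ₀ s) (l : Fin q) : KK hq s rr σ (x, (s l x, 1)) = 0 := by
  obtain ⟨lam, hlam, hxl⟩ := exists_lam hq hx
  obtain ⟨δ, κ, hκ⟩ := koen hK h hlam
  have h0 : 0 < δ * rr l := mul_pos hκ.δ0 (h.rp l)
  rw [KK_disc hq h hκ hxl l (mem_ball_self h0), sub_self]
  have h1 := hκ.kb l x hxl 0 (mem_ball_self h0)
  simpa using h1

theorem f_der (hK : StKOEN) (hq : 0 < q) (h : SK d q xT ρ₀ s rr σ th) {x : WW d}
    (hx : x ∈ BM d q xT ρ₀ s) (l : Fin q) :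
    deriv (fun ζ : ℂ => KK hq s rr σ (x, (ζ, 1))) (s l x) = 1 := by
  obtain ⟨lam, hlam, hxl⟩ := exists_lam hq hx
  obtain ⟨δ, κ, hκ⟩ := koen hK h hlam
  have h0 : 0 < δ * rr l := mul_pos hκ.δ0 (h.rp l)
  have h1 : (fun ζ : ℂ => KK hq s rr σ (x, (ζ, 1))) =ᶠ[𝓝 (s l x)]
      fun ζ => κ l (x, ζ - s l x) := by
    filter_upwards [isOpen_ball.mem_nhds (mem_ball_self h0)] with ζ hζ
    exact KK_disc hq h hκ hxl l hζ
  rw [h1.deriv_eq, deriv_comp_sub_const (f := fun z => κ l (x, z)), sub_self]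
  exact hκ.k1 l x hxl

theorem f_crit (hK : StKOEN) (hW : StWN) (hq : 0 < q) (h : SK d q xT ρ₀ s rr σ th) {x : WW d}
    (hx : x ∈ BM d q xT ρ₀ s) {z : ℂ} (hA : Att d q s rr x (z, 1)) (hz : (wr d x).eval z = 0) :
    deriv (fun ζ : ℂ => KK hq s rr σ (x, (ζ, 1))) z = 0 := by
  obtain ⟨lam, hlam, hxl⟩ := exists_lam hq hx
  obtain ⟨δ, κ, hκ⟩ := koen hK h hlam
  obtain ⟨a, ha⟩ := Lab_of_att (σ := σ) hA
  obtain ⟨N, hN1, hN⟩ := exists_N h hκ.δ0 hx.1 ha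
  have hi : ContinuousAt (fun ζ : ℂ => ((x, (ζ, 1)) : WW d × (ℂ × ℂ))) z := by fun_prop
  have h1 : (fun ζ : ℂ => KK hq s rr σ (x, (ζ, 1))) =ᶠ[𝓝 z]
      fun ζ => Fl s σ κ a N (x, (ζ, 1)) := hi.eventually (KK_near hq h hκ hxl hN)
  rw [h1.deriv_eq]
  have hw := (hW d N x z (by have := h.hd; omega) (h.ndg x hx.1)).2
    ⟨0, by omega, Or.inl ⟨one_ne_zero, by simpa using hz⟩⟩
  have hd1 : DifferentiableAt ℂ (fun ζ : ℂ => (FH d x)^[N] (ζ, 1)) z := by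
    have hc : DifferentiableAt ℂ (fun ζ : ℂ => ((x, (ζ, 1)) : WW d × (ℂ × ℂ))) z := by fun_prop
    exact DifferentiableAt.comp (g := fun y : WW d × (ℂ × ℂ) => (FH d y.1)^[N] y.2) z
      (dFHn d N _) hc
  have hd2 := hd1.fst.hasDerivAt
  have hd3 := hd1.snd.hasDerivAt
  have hd4 := hd2.div hd3 hN.1
  rw [hw, zero_div] at hd4
  have hd5 : HasDerivAt (fun ζ : ℂ => vv ((FH d x)^[N] (ζ, 1)) - s ((σ ^ N) a) x) 0 z :=
    hd4.sub_const _
  have hd6 : DifferentiableAt ℂ (fun u : ℂ => κ ((σ ^ N) a) (x, u))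
      (vv ((FH d x)^[N] (z, 1)) - s ((σ ^ N) a) x) := by
    have h2 : DifferentiableAt ℂ (κ ((σ ^ N) a))
        (x, vv ((FH d x)^[N] (z, 1)) - s ((σ ^ N) a) x) := by
      refine (hκ.kd _).differentiableAt ?_
      refine ((BL_open h lam).prod isOpen_ball).mem_nhds ⟨hxl, ?_⟩
      rw [mem_ball_zero_iff]
      exact mem_ball_iff_norm.1 hN.2
    have hc : DifferentiableAt ℂ (fun u : ℂ => ((x, u) : WW d × ℂ))
      (vv ((FH d x)^[N] (z, 1)) - s ((σ ^ N) a) x) := by fun_prop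
    exact DifferentiableAt.comp (g := κ ((σ ^ N) a)) _ h2 hc
  have hd7 := HasDerivAt.comp z hd6.hasDerivAt hd5
  rw [mul_zero] at hd7
  have hd8 := hd7.div_const (∏ j ∈ Finset.range N, mu d x (s ((σ ^ j) a) x))
  rw [zero_div] at hd8
  exact hd8.deriv

end part3

section part4

variable {d q : ℕ} {xT : WW d} {ρ₀ : ℝ} {s : Fin q → WW d → ℂ} {rr : Fin q → ℝ}
  {σ : Equiv.Perm (Fin q)} {th : ℝ} {lam δ : ℝ} {κ : Fin q → WW d × ℂ → ℂ}

theorem kslice (hκ : KO d q xT ρ₀ s rr σ lam δ κ) {x : WW d} (hx : x ∈ BL d q xT ρ₀ s lam)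
    (l : Fin q) : DifferentiableOn ℂ (fun z => κ l (x, z)) (ball (0 : ℂ) (δ * rr l)) :=
  (hκ.kd l).comp (f := fun z : ℂ => ((x, z) : WW d × ℂ))
    ((differentiableOn_const x).prodMk differentiableOn_id) fun _ hz => ⟨hx, hz⟩

theorem kdiff (hκ : KO d q xT ρ₀ s rr σ lam δ κ) {x : WW d} (hx : x ∈ BL d q xT ρ₀ s lam)
    (l : Fin q) : DifferentiableOn ℂ (fun z => κ l (x, z) - z) (ball (0 : ℂ) (δ * rr l)) :=
  (kslice hκ hx l).sub differentiableOn_id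

theorem kder (h : SK d q xT ρ₀ s rr σ th) (hκ : KO d q xT ρ₀ s rr σ lam δ κ) {x : WW d}
    (hx : x ∈ BL d q xT ρ₀ s lam) (l : Fin q) {z : ℂ} (hz : z ∈ ball (0 : ℂ) (δ * rr l / 2)) :
    ‖deriv (fun z => κ l (x, z) - z) z‖ ≤ 3 / 8 := by
  have hR : 0 < δ * rr l := mul_pos hκ.δ0 (h.rp l)
  set R := δ * rr l with hRdef
  rw [mem_ball_zero_iff] at hz
  have hsub : closedBall z (R / 4) ⊆ ball (0 : ℂ) R := by
    intro w hw
    rw [mem_closedBall_iff_norm] at hw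
    rw [mem_ball_zero_iff]
    have h1 : ‖w‖ ≤ ‖w - z‖ + ‖z‖ := norm_le_norm_sub_add w z
    linarith
  have h1 : DiffContOnCl ℂ (fun z => κ l (x, z) - z) (ball z (R / 4)) :=
    (kdiff hκ hx l).diffContOnCl_ball hsub
  have h2 := Complex.norm_deriv_le_of_forall_mem_sphere_norm_le (C := 3 * R / 32)
    (by positivity : 0 < R / 4) h1 (by
      intro w hw
      have hw' : w ∈ closedBall z (R / 4) := sphere_subset_closedBall hw
      have h3 := hκ.kb l x hx w (hsub hw')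
      rw [mem_closedBall_iff_norm] at hw'
      have h4 : ‖w‖ ≤ ‖w - z‖ + ‖z‖ := norm_le_norm_sub_add w z
      linarith)
  have h3 : 3 * R / 32 / (R / 4) = 3 / 8 := by
    field_simp
    norm_num
  rwa [h3] at h2

theorem klip (h : SK d q xT ρ₀ s rr σ th) (hκ : KO d q xT ρ₀ s rr σ lam δ κ) {x : WW d}
    (hx : x ∈ BL d q xT ρ₀ s lam) (l : Fin q) {z z' : ℂ} (hz : z ∈ ball (0 : ℂ) (δ * rr l / 2))
    (hz' : z' ∈ ball (0 : ℂ) (δ * rr l / 2)) :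
    5 / 8 * ‖z - z'‖ ≤ ‖κ l (x, z) - κ l (x, z')‖ := by
  have hR : 0 < δ * rr l := mul_pos hκ.δ0 (h.rp l)
  have h1 := Convex.norm_image_sub_le_of_norm_deriv_le (𝕜 := ℂ)
    (f := fun z => κ l (x, z) - z) (C := 3 / 8) (s := ball (0 : ℂ) (δ * rr l / 2))
    (fun w hw => (kdiff hκ hx l).differentiableAt (isOpen_ball.mem_nhds
      (ball_subset_ball (by linarith) hw))) (fun w hw => kder h hκ hx l hw)
    (convex_ball _ _) hz' hz
  have h2 : z - z' = (κ l (x, z) - κ l (x, z')) -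
      ((κ l (x, z) - z) - (κ l (x, z') - z')) := by ring
  have h3 : ‖z - z'‖ ≤ ‖κ l (x, z) - κ l (x, z')‖ +
      ‖(κ l (x, z) - z) - (κ l (x, z') - z')‖ := by
    conv_lhs => rw [h2]
    exact norm_sub_le _ _
  linarith

theorem klow (hκ : KO d q xT ρ₀ s rr σ lam δ κ) {x : WW d}
    (hx : x ∈ BL d q xT ρ₀ s lam) (l : Fin q) {z : ℂ} (hz : z ∈ ball (0 : ℂ) (δ * rr l)) :
    7 / 8 * ‖z‖ ≤ ‖κ l (x, z)‖ ∧ ‖κ l (x, z)‖ ≤ 9 / 8 * ‖z‖ := by
  have h1 := hκ.kb l x hx z hz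
  have h2 : ‖z‖ ≤ ‖κ l (x, z)‖ + ‖κ l (x, z) - z‖ := by
    have : z = κ l (x, z) - (κ l (x, z) - z) := by ring
    conv_lhs => rw [this]
    exact norm_sub_le _ _
  have h3 : ‖κ l (x, z)‖ ≤ ‖κ l (x, z) - z‖ + ‖z‖ := norm_le_norm_sub_add _ _
  constructor <;> linarith

theorem ksurj (h : SK d q xT ρ₀ s rr σ th) (hκ : KO d q xT ρ₀ s rr σ lam δ κ) {x : WW d}
    (hx : x ∈ BL d q xT ρ₀ s lam) (l : Fin q) {w : ℂ} (hw : w ∈ ball (0 : ℂ) (δ * rr l / 16)) :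
    ∃ z ∈ closedBall (0 : ℂ) (δ * rr l / 4), κ l (x, z) = w := by
  have hR : 0 < δ * rr l := mul_pos hκ.δ0 (h.rp l)
  set R := δ * rr l with hRdef
  have h0 : κ l (x, 0) = 0 := by
    have := (klow hκ hx l (mem_ball_self hR)).2
    simpa using this
  have hsub : closedBall (0 : ℂ) (R / 4) ⊆ ball (0 : ℂ) R := by
    intro w hw
    rw [mem_closedBall_zero_iff] at hw
    rw [mem_ball_zero_iff]
    linarith
  have h1 : DiffContOnCl ℂ (fun z => κ l (x, z)) (ball (0 : ℂ) (R / 4)) :=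
    (kslice hκ hx l).diffContOnCl_ball hsub
  have h2 := h1.ball_subset_image_closedBall (ε := 7 * R / 32) (by positivity : 0 < R / 4)
    (by
      intro z hz
      have hz' : z ∈ closedBall (0 : ℂ) (R / 4) := sphere_subset_closedBall hz
      have h3 := (klow hκ hx l (hsub hz')).1
      rw [mem_sphere_zero_iff_norm] at hz
      simp only [h0, sub_zero]
      rw [hz] at h3
      linarith)
    (by
      have h3 : ∃ᶠ z : ℂ in 𝓝 0, z ≠ 0 := by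
        have h4 : ∃ᶠ z : ℂ in 𝓝[≠] 0, z ≠ 0 := by
          apply Eventually.frequently
          exact eventually_mem_nhdsWithin
        exact h4.filter_mono nhdsWithin_le_nhds
      have h4 : ∀ᶠ z : ℂ in 𝓝 0, z ∈ ball (0 : ℂ) R :=
        isOpen_ball.mem_nhds (mem_ball_self hR)
      refine (h3.and_eventually h4).mono ?_
      rintro z ⟨hz1, hz2⟩ hz3
      have h5 := (klow hκ hx l hz2).1
      rw [hz3, h0, norm_zero] at h5
      have h6 : 0 < ‖z‖ := norm_pos_iff.2 hz1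
      linarith)
  rw [h0] at h2
  have h3 : w ∈ ball (0 : ℂ) (7 * R / 32 / 2) := by
    refine ball_subset_ball ?_ hw
    linarith
  obtain ⟨z, hz, hzw⟩ := h2 h3
  exact ⟨z, hz, hzw⟩

/-- the local inverse -/
noncomputable def om (rr : Fin q → ℝ) (δ : ℝ) (κ : Fin q → WW d × ℂ → ℂ) (l : Fin q)
    (y : WW d × ℂ) : ℂ :=
  Function.invFunOn (fun z => κ l (y.1, z)) (closedBall (0 : ℂ) (δ * rr l / 4)) y.2

theorem om_spec (h : SK d q xT ρ₀ s rr σ th) (hκ : KO d q xT ρ₀ s rr σ lam δ κ) {x : WW d}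
    (hx : x ∈ BL d q xT ρ₀ s lam) (l : Fin q) {w : ℂ} (hw : w ∈ ball (0 : ℂ) (δ * rr l / 16)) :
    ‖om rr δ κ l (x, w)‖ ≤ δ * rr l / 4 ∧ κ l (x, om rr δ κ l (x, w)) = w := by
  have h1 : ∃ z ∈ closedBall (0 : ℂ) (δ * rr l / 4), (fun z => κ l (x, z)) z = w :=
    ksurj h hκ hx l hw
  have h2 := Function.invFunOn_mem h1
  have h3 := Function.invFunOn_eq h1
  exact ⟨mem_closedBall_zero_iff.1 h2, h3⟩

theorem kD (h : SK d q xT ρ₀ s rr σ th) (hκ : KO d q xT ρ₀ s rr σ lam δ κ) {x : WW d}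
    (hx : x ∈ BL d q xT ρ₀ s lam) (l : Fin q) {z : ℂ} (hz : z ∈ ball (0 : ℂ) (δ * rr l / 2)) :
    HasFDerivAt (κ l) (fderiv ℂ (κ l) (x, z)) (x, z) ∧ ∀ v : ℂ, fderiv ℂ (κ l) (x, z) (0, v) = 0 →
      v = 0 := by
  have hR : 0 < δ * rr l := mul_pos hκ.δ0 (h.rp l)
  have hz' : z ∈ ball (0 : ℂ) (δ * rr l) := ball_subset_ball (by linarith) hz
  have h1 : DifferentiableAt ℂ (κ l) (x, z) :=
    (hκ.kd l).differentiableAt (((BL_open h lam).prod isOpen_ball).mem_nhds ⟨hx, hz'⟩)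
  refine ⟨h1.hasFDerivAt, fun v hv => ?_⟩
  have h2 : HasDerivAt (fun z : ℂ => ((x, z) : WW d × ℂ)) (0, 1) z :=
    (hasDerivAt_const z x).prodMk (hasDerivAt_id z)
  have h3 : HasDerivAt (fun z : ℂ => κ l (x, z)) (fderiv ℂ (κ l) (x, z) (0, 1)) z :=
    h1.hasFDerivAt.comp_hasDerivAt z h2
  have h4 := (h3.sub (hasDerivAt_id z)).deriv
  have h5 := kder h hκ hx l hz
  have h6 : deriv (fun z => κ l (x, z) - z) z = fderiv ℂ (κ l) (x, z) (0, 1) - 1 := h4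
  rw [h6] at h5
  have h7 : fderiv ℂ (κ l) (x, z) (0, 1) ≠ 0 := by
    intro h8
    rw [h8] at h5
    norm_num at h5
  have h8 : ((0, v) : WW d × ℂ) = v • ((0, 1) : WW d × ℂ) := by simp
  rw [h8, map_smul, smul_eq_mul] at hv
  rcases mul_eq_zero.1 hv with h9 | h9
  · exact h9
  · exact absurd h9 h7

theorem om_at (h : SK d q xT ρ₀ s rr σ th) (hκ : KO d q xT ρ₀ s rr σ lam δ κ) {x : WW d}
    (hx : x ∈ BL d q xT ρ₀ s lam) (l : Fin q) {w : ℂ} (hw : w ∈ ball (0 : ℂ) (δ * rr l / 16)) :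
    DifferentiableAt ℂ (om rr δ κ l) (x, w) := by
  have hR : 0 < δ * rr l := mul_pos hκ.δ0 (h.rp l)
  obtain ⟨a1, a2⟩ := om_spec h hκ hx l hw
  set z0 := om rr δ κ l (x, w) with hz0
  have hz0m : z0 ∈ ball (0 : ℂ) (δ * rr l / 2) := by
    rw [mem_ball_zero_iff]
    linarith
  have hz0m' : z0 ∈ ball (0 : ℂ) (δ * rr l) := by
    rw [mem_ball_zero_iff]
    linarith
  have hnear : ∀ᶠ y in 𝓝 ((x, w) : WW d × ℂ), y.1 ∈ BL d q xT ρ₀ s lam ∧
      y.2 ∈ ball (0 : ℂ) (δ * rr l / 16) :=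
    ((BL_open h lam).prod isOpen_ball).mem_nhds ⟨hx, hw⟩
  obtain ⟨hF, hinj⟩ := kD h hκ hx l hz0m
  -- continuity
  have hcont : ContinuousAt (om rr δ κ l) (x, w) := by
    have c1 : ContinuousAt (fun y : WW d × ℂ => ‖y.2 - κ l (y.1, z0)‖) (x, w) := by
      have c2 : ContinuousAt (fun y : WW d × ℂ => ((y.1, z0) : WW d × ℂ)) (x, w) := by fun_prop
      have c3 : ContinuousAt (fun y : WW d × ℂ => κ l (y.1, z0)) (x, w) :=
        ContinuousAt.comp (g := κ l) (f := fun y : WW d × ℂ => ((y.1, z0) : WW d × ℂ))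
          hF.continuousAt c2
      exact (continuousAt_snd.sub c3).norm
    have c4 : Tendsto (fun y : WW d × ℂ => 8 / 5 * ‖y.2 - κ l (y.1, z0)‖) (𝓝 (x, w)) (𝓝 0) := by
      have c5 := c1.tendsto.const_mul (8 / 5 : ℝ)
      simp only [a2, sub_self, norm_zero, mul_zero] at c5
      exact c5
    unfold ContinuousAt
    rw [← hz0, tendsto_iff_norm_sub_tendsto_zero]
    refine squeeze_zero' (Eventually.of_forall fun y => norm_nonneg _) ?_ c4
    filter_upwards [hnear] with y hy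
    obtain ⟨b1, b2⟩ := om_spec h hκ hy.1 l hy.2
    have hm : om rr δ κ l (y.1, y.2) ∈ ball (0 : ℂ) (δ * rr l / 2) := by
      rw [mem_ball_zero_iff]
      linarith
    have h3 := klip h hκ hy.1 l hm hz0m
    rw [b2] at h3
    change ‖om rr δ κ l (y.1, y.2) - z0‖ ≤ _
    linarith
  -- the derivative
  set F' : (WW d × ℂ) →L[ℂ] (WW d × ℂ) :=
    (ContinuousLinearMap.fst ℂ (WW d) ℂ).prod (fderiv ℂ (κ l) (x, z0)) with hF'
  have hFF : HasFDerivAt (fun y : WW d × ℂ => ((y.1, κ l y) : WW d × ℂ)) F' (x, z0) :=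
    hasFDerivAt_fst.prodMk hF
  have hi : Function.Injective (F' : (WW d × ℂ) →ₗ[ℂ] (WW d × ℂ)) := by
    rw [injective_iff_map_eq_zero]
    rintro ⟨u, v⟩ huv
    have e1 : ((u, fderiv ℂ (κ l) (x, z0) (u, v)) : WW d × ℂ) = 0 := huv
    obtain ⟨e2, e3⟩ := Prod.mk_eq_zero.1 e1
    subst e2
    rw [hinj v e3]
    rfl
  set E : (WW d × ℂ) ≃L[ℂ] (WW d × ℂ) :=
    (LinearEquiv.ofInjectiveEndo (F' : (WW d × ℂ) →ₗ[ℂ] (WW d × ℂ)) hi).toContinuousLinearEquiv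
    with hE
  have hEF : (E : (WW d × ℂ) →L[ℂ] (WW d × ℂ)) = F' := by
    ext y <;> rfl
  have hg := HasFDerivAt.of_local_left_inverse (g := fun y : WW d × ℂ => (y.1, om rr δ κ l y))
    (f := fun y : WW d × ℂ => ((y.1, κ l y) : WW d × ℂ)) (f' := E) (a := (x, w))
    (continuousAt_fst.prodMk hcont) (by rw [hEF]; exact hFF) (by
      filter_upwards [hnear] with y hy
      obtain ⟨b1, b2⟩ := om_spec h hκ hy.1 l hy.2
      change ((y.1, κ l (y.1, om rr δ κ l (y.1, y.2))) : WW d × ℂ) = y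
      rw [b2])
  exact hg.differentiableAt.snd

theorem f_inv (hK : StKOEN) (hq : 0 < q) (h : SK d q xT ρ₀ s rr σ th) (lam : ℝ)
    (hlam : 0 < lam) : ∃ (r₁ r₂ : ℝ) (ω : Fin q → WW d × ℂ → ℂ), 0 < r₁ ∧ 0 < r₂ ∧
    (∀ l, r₁ ≤ rr l) ∧
    (∀ l, DifferentiableOn ℂ (ω l) (BL d q xT ρ₀ s lam ×ˢ ball (0 : ℂ) r₂)) ∧
    ∀ x ∈ BL d q xT ρ₀ s lam, ∀ l,
      (∀ w ∈ ball (0 : ℂ) r₂, ω l (x, w) ∈ ball (s l x) (rr l) ∧
        KK hq s rr σ (x, (ω l (x, w), 1)) = w ∧ ‖ω l (x, w) - s l x‖ ≤ 2 * ‖w‖) ∧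
      ∀ z ∈ ball (s l x) r₁, ‖KK hq s rr σ (x, (z, 1))‖ < r₂ ∧
        ω l (x, KK hq s rr σ (x, (z, 1))) = z ∧ ‖z - s l x‖ ≤ 2 * ‖KK hq s rr σ (x, (z, 1))‖ := by
  obtain ⟨δ, κ, hκ⟩ := koen hK h hlam
  have : Nonempty (Fin q) := ⟨⟨0, hq⟩⟩
  obtain ⟨l0, hl0⟩ := Finite.exists_min rr
  have hm : 0 < rr l0 := h.rp l0
  have hδ := hκ.δ0
  have hδ1 := hκ.δ1
  have hR : ∀ l, 0 < δ * rr l := fun l => mul_pos hδ (h.rp l)
  have hRl : ∀ l, δ * rr l ≤ rr l := fun l => by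
    have := h.rp l
    nlinarith
  have hml : ∀ l, δ * rr l0 ≤ δ * rr l := fun l => mul_le_mul_of_nonneg_left (hl0 l) hδ.le
  have hr2 : ∀ l, ball (0 : ℂ) (δ * rr l0 / 16) ⊆ ball (0 : ℂ) (δ * rr l / 16) := fun l =>
    ball_subset_ball (by have := hml l; linarith)
  refine ⟨δ * rr l0 / 32, δ * rr l0 / 16, fun l y => s l y.1 + om rr δ κ l y, by positivity,
    by positivity, ?_, ?_, ?_⟩
  · intro l
    have h1 := hml l
    have h2 := hRl l
    have h3 := hR l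
    have h4 := hR l0
    linarith
  · rintro l ⟨x, w⟩ ⟨hx, hw⟩
    have h1 := om_at h hκ (x := x) hx l (w := w) (hr2 l hw)
    have h2 : DifferentiableAt ℂ (fun y : WW d × ℂ => s l y.1) (x, w) :=
      DifferentiableAt.comp (g := s l) (f := fun y : WW d × ℂ => y.1) (x, w)
        ((h.sd l).differentiableAt (isOpen_ball.mem_nhds hx.1)) differentiableAt_fst
    exact (h2.add h1).differentiableWithinAt
  · intro x hx l
    have h3 := hR l
    constructor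
    · intro w hw
      obtain ⟨b1, b2⟩ := om_spec h hκ hx l (hr2 l hw)
      have hm2 : om rr δ κ l (x, w) ∈ ball (0 : ℂ) (δ * rr l) := by
        rw [mem_ball_zero_iff]
        linarith
      have hm3 : s l x + om rr δ κ l (x, w) ∈ ball (s l x) (δ * rr l) := add_mem hm2
      refine ⟨ball_subset_ball (hRl l) hm3, ?_, ?_⟩
      · rw [KK_disc hq h hκ hx l hm3, add_sub_cancel_left, b2]
      · simp only [add_sub_cancel_left]
        have h4 := (klow hκ hx l hm2).1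
        rw [b2] at h4
        have h5 := norm_nonneg w
        linarith
    · intro z hz
      have hz1 : z - s l x ∈ ball (0 : ℂ) (δ * rr l0 / 32) := by
        rw [mem_ball_zero_iff]
        exact mem_ball_iff_norm.1 hz
      have h4 := hml l
      have h5 := hR l0
      have hz2 : z - s l x ∈ ball (0 : ℂ) (δ * rr l) := ball_subset_ball (by linarith) hz1
      have hz2' : z - s l x ∈ ball (0 : ℂ) (δ * rr l / 2) := ball_subset_ball (by linarith) hz1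
      have hz3 : z ∈ ball (s l x) (δ * rr l) := ball_subset_ball (by linarith) hz
      rw [KK_disc hq h hκ hx l hz3]
      obtain ⟨b1, b2⟩ := klow hκ hx l hz2
      rw [mem_ball_zero_iff] at hz1
      have hK2 : ‖κ l (x, z - s l x)‖ < δ * rr l0 / 16 := by linarith
      refine ⟨hK2, ?_, ?_⟩
      · obtain ⟨c1, c2⟩ := om_spec h hκ hx l (hr2 l (mem_ball_zero_iff.2 hK2))
        have hm2 : om rr δ κ l (x, κ l (x, z - s l x)) ∈ ball (0 : ℂ) (δ * rr l / 2) := by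
          rw [mem_ball_zero_iff]
          linarith
        have h6 := klip h hκ hx l hm2 hz2'
        rw [c2, sub_self, norm_zero] at h6
        have h7 : ‖om rr δ κ l (x, κ l (x, z - s l x)) - (z - s l x)‖ ≤ 0 := by linarith
        have h8 := sub_eq_zero.1 (norm_le_zero_iff.1 h7)
        simp only
        rw [h8]
        ring
      · have h6 := norm_nonneg (z - s l x)
        linarith

end part4

end TKD

theorem kd_holds : StKD := by
  intro hK hW d q xT ρ₀ s rr σ th hq h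
  refine ⟨TKD.KK hq s rr σ, TKD.labf hq s rr σ, ?_⟩
  exact
    { hol := TKD.f_hol hK hq h
      labc := fun y hy hA => TKD.f_labc hq h y hy hA
      scal := fun x hx p hA c hc => TKD.f_scal hq h hx.1 hA hc
      scal' := fun x hx p hA c hc => TKD.f_scal' hq h hx hA hc
      step := fun x hx p hA => TKD.f_step hK hq h hx hA
      step' := fun x hx p hA => TKD.f_step' hq h hx hA
      loc := fun x hx l z hz => TKD.f_loc hq h hx l hz
      zero := fun x hx l => TKD.f_zero hK hq h hx l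
      der := fun x hx l => TKD.f_der hK hq h hx l
      crit := fun x hx z hA hz => TKD.f_crit hK hW hq h hx hA hz
      inv := fun lam hlam => TKD.f_inv hK hq h lam hlam }

end Pool.Agent.H713R4.RB
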