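import Mathlib
import Pool.Agent.H713R4.RB.Defs2
import Pool.Agent.Helper540.Holo

/-! Task KOEN: nonautonomous Koenigs linearization with parameters. -/

set_option autoImplicit false

open Topology Filter Metric Set Polynomial MeasureTheory

namespace Pool.Agent.H713R4.RB

namespace Koen

set_option linter.unusedSectionVars false

section

variable {V : Type} [NormedAddCommGroup V] [NormedSpace ℂ V] {q : ℕ}

/-- iterates -/
noncomputable def Zn (σ : Equiv.Perm (Fin q)) (G : Fin q → V × ℂ → ℂ) : ℕ → Fin q → V × ℂ → ℂ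
  | 0, _, p => p.2
  | n + 1, l, p => G ((σ ^ n) l) (p.1, Zn σ G n l p)

/-- products of the multipliers -/
noncomputable def Pn (σ : Equiv.Perm (Fin q)) (m : Fin q → V → ℂ) (n : ℕ) (l : Fin q) (x : V) : ℂ :=
  ∏ j ∈ Finset.range n, m ((σ ^ j) l) x

/-- the approximations -/
noncomputable def kn (σ : Equiv.Perm (Fin q)) (G : Fin q → V × ℂ → ℂ) (m : Fin q → V → ℂ) (n : ℕ)
    (l : Fin q) (p : V × ℂ) : ℂ := Zn σ G n l p / Pn σ m n l p.1

lemma perm_succ (σ : Equiv.Perm (Fin q)) (n : ℕ) (l : Fin q) :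
    (σ ^ (n + 1)) l = σ ((σ ^ n) l) := by
  rw [pow_succ', Equiv.Perm.mul_apply]

lemma perm_succ' (σ : Equiv.Perm (Fin q)) (n : ℕ) (l : Fin q) :
    (σ ^ (n + 1)) l = (σ ^ n) (σ l) := by
  rw [pow_succ, Equiv.Perm.mul_apply]

variable {σ : Equiv.Perm (Fin q)} {B : Set V} {G : Fin q → V × ℂ → ℂ} {m : Fin q → V → ℂ}
  {w : Fin q → ℝ} {th C lam : ℝ}

lemma contr (hth : 0 < th) (hth1 : th < 1) (hw : ∀ l, 0 < w l)
    (hGc : ∀ l, ∀ x ∈ B, ∀ z ∈ ball (0 : ℂ) (w l), ‖G l (x, z)‖ * w l ≤ th * ‖z‖ * w (σ l))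
    (l : Fin q) (x : V) (hx : x ∈ B) (z : ℂ) (hz : z ∈ ball (0 : ℂ) (w l)) (n : ℕ) :
    ‖Zn σ G n l (x, z)‖ * w l ≤ th ^ n * ‖z‖ * w ((σ ^ n) l) ∧
      Zn σ G n l (x, z) ∈ ball (0 : ℂ) (w ((σ ^ n) l)) := by
  have hz' : ‖z‖ < w l := by rwa [mem_ball_zero_iff] at hz
  have key : ∀ n, ‖Zn σ G n l (x, z)‖ * w l ≤ th ^ n * ‖z‖ * w ((σ ^ n) l) →
      Zn σ G n l (x, z) ∈ ball (0 : ℂ) (w ((σ ^ n) l)) := by
    intro n hn
    rw [mem_ball_zero_iff]
    have h1 : th ^ n ≤ 1 := pow_le_one₀ hth.le hth1.le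
    have h2 : ‖Zn σ G n l (x, z)‖ * w l < w ((σ ^ n) l) * w l := by
      calc ‖Zn σ G n l (x, z)‖ * w l ≤ th ^ n * ‖z‖ * w ((σ ^ n) l) := hn
        _ ≤ 1 * ‖z‖ * w ((σ ^ n) l) := by
            apply mul_le_mul_of_nonneg_right _ (hw _).le
            exact mul_le_mul_of_nonneg_right h1 (norm_nonneg _)
        _ = ‖z‖ * w ((σ ^ n) l) := by ring
        _ < w l * w ((σ ^ n) l) := mul_lt_mul_of_pos_right hz' (hw _)
        _ = w ((σ ^ n) l) * w l := by ring
    exact lt_of_mul_lt_mul_right h2 (hw l).le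
  have h : ∀ n, ‖Zn σ G n l (x, z)‖ * w l ≤ th ^ n * ‖z‖ * w ((σ ^ n) l) := by
    intro n
    induction n with
    | zero => simp [Zn]
    | succ n ih =>
      have h1 := hGc ((σ ^ n) l) x hx _ (key n ih)
      rw [← perm_succ] at h1
      have h2 : ‖Zn σ G (n + 1) l (x, z)‖ * w ((σ ^ n) l) ≤
          th * ‖Zn σ G n l (x, z)‖ * w ((σ ^ (n + 1)) l) := h1
      have hwn := hw ((σ ^ n) l)
      have hwn1 := hw ((σ ^ (n + 1)) l)
      have h3 : (‖Zn σ G (n + 1) l (x, z)‖ * w l) * w ((σ ^ n) l) ≤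
          (th ^ (n + 1) * ‖z‖ * w ((σ ^ (n + 1)) l)) * w ((σ ^ n) l) := by
        calc (‖Zn σ G (n + 1) l (x, z)‖ * w l) * w ((σ ^ n) l)
            = (‖Zn σ G (n + 1) l (x, z)‖ * w ((σ ^ n) l)) * w l := by ring
          _ ≤ (th * ‖Zn σ G n l (x, z)‖ * w ((σ ^ (n + 1)) l)) * w l :=
              mul_le_mul_of_nonneg_right h2 (hw l).le
          _ = (th * w ((σ ^ (n + 1)) l)) * (‖Zn σ G n l (x, z)‖ * w l) := by ring
          _ ≤ (th * w ((σ ^ (n + 1)) l)) * (th ^ n * ‖z‖ * w ((σ ^ n) l)) :=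
              mul_le_mul_of_nonneg_left ih (by positivity)
          _ = _ := by ring
      exact le_of_mul_le_mul_right h3 hwn
  exact ⟨h n, key n (h n)⟩

lemma mult (hC : 0 ≤ C) (hw : ∀ l, 0 < w l)
    (hGc : ∀ l, ∀ x ∈ B, ∀ z ∈ ball (0 : ℂ) (w l), ‖G l (x, z)‖ * w l ≤ th * ‖z‖ * w (σ l))
    (hGm : ∀ l, ∀ x ∈ B, ∀ z ∈ ball (0 : ℂ) (w l), ‖G l (x, z) - m l x * z‖ ≤ C * ‖z‖ ^ 2)
    (l : Fin q) (x : V) (hx : x ∈ B) : ‖m l x‖ * w l ≤ th * w (σ l) := by
  apply le_of_forall_pos_le_add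
  intro ε hε
  have hwl := hw l
  obtain ⟨t, ht⟩ : ∃ t, t = min (w l / 2) (ε / (C * w l + 1)) := ⟨_, rfl⟩
  have ht0 : 0 < t := by rw [ht]; exact lt_min (by positivity) (by positivity)
  have ht1 : t < w l := by rw [ht]; exact lt_of_le_of_lt (min_le_left _ _) (by linarith)
  have ht2 : C * t * w l ≤ ε := by
    have h1 : t ≤ ε / (C * w l + 1) := by rw [ht]; exact min_le_right _ _
    rw [le_div_iff₀ (by positivity)] at h1
    nlinarith
  have htz : (t : ℂ) ∈ ball (0 : ℂ) (w l) := by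
    rw [mem_ball_zero_iff, Complex.norm_real, Real.norm_eq_abs, abs_of_pos ht0]
    exact ht1
  have hnt : ‖(t : ℂ)‖ = t := by rw [Complex.norm_real, Real.norm_eq_abs, abs_of_pos ht0]
  have h1 := hGc l x hx t htz
  have h2 := hGm l x hx t htz
  rw [hnt] at h1 h2
  have h3 : ‖m l x‖ * t ≤ ‖G l (x, (t : ℂ))‖ + C * t ^ 2 := by
    have h4 : ‖m l x * (t : ℂ)‖ ≤ ‖G l (x, (t : ℂ))‖ + ‖G l (x, (t : ℂ)) - m l x * t‖ := by
      have := norm_sub_le (G l (x, (t : ℂ))) (G l (x, (t : ℂ)) - m l x * t)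
      rwa [sub_sub_cancel] at this
    rw [norm_mul, hnt] at h4
    linarith
  have h5 : (‖m l x‖ * w l) * t ≤ (th * w (σ l) + ε) * t := by
    calc (‖m l x‖ * w l) * t = (‖m l x‖ * t) * w l := by ring
      _ ≤ (‖G l (x, (t : ℂ))‖ + C * t ^ 2) * w l := mul_le_mul_of_nonneg_right h3 hwl.le
      _ = ‖G l (x, (t : ℂ))‖ * w l + (C * t * w l) * t := by ring
      _ ≤ th * t * w (σ l) + ε * t := add_le_add h1 (mul_le_mul_of_nonneg_right ht2 ht0.le)
      _ = _ := by ring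
  exact le_of_mul_le_mul_right h5 ht0

lemma prod_bd (hth : 0 < th) (hw : ∀ l, 0 < w l)
    (hmu : ∀ l, ∀ x ∈ B, ‖m l x‖ * w l ≤ th * w (σ l))
    (l : Fin q) (x : V) (hx : x ∈ B) (n : ℕ) :
    ‖Pn σ m n l x‖ * w l ≤ th ^ n * w ((σ ^ n) l) := by
  induction n with
  | zero => simp [Pn]
  | succ n ih =>
    have h1 : Pn σ m (n + 1) l x = Pn σ m n l x * m ((σ ^ n) l) x := by
      unfold Pn
      rw [Finset.prod_range_succ]
    rw [h1, norm_mul]
    have h2 := hmu ((σ ^ n) l) x hx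
    rw [← perm_succ] at h2
    have hwn := hw ((σ ^ n) l)
    have h3 : (‖Pn σ m n l x‖ * ‖m ((σ ^ n) l) x‖ * w l) * w ((σ ^ n) l) ≤
        (th ^ (n + 1) * w ((σ ^ (n + 1)) l)) * w ((σ ^ n) l) := by
      calc (‖Pn σ m n l x‖ * ‖m ((σ ^ n) l) x‖ * w l) * w ((σ ^ n) l)
          = (‖Pn σ m n l x‖ * w l) * (‖m ((σ ^ n) l) x‖ * w ((σ ^ n) l)) := by ring
        _ ≤ (th ^ n * w ((σ ^ n) l)) * (th * w ((σ ^ (n + 1)) l)) := by
            apply mul_le_mul ih h2 (by positivity) (by positivity)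
        _ = _ := by ring
    exact le_of_mul_le_mul_right h3 hwn

lemma Pn_succ (n : ℕ) (l : Fin q) (x : V) :
    Pn σ m (n + 1) l x = Pn σ m n l x * m ((σ ^ n) l) x := by
  unfold Pn
  rw [Finset.prod_range_succ]

lemma Pn_succ' (n : ℕ) (l : Fin q) (x : V) :
    Pn σ m (n + 1) l x = Pn σ m n (σ l) x * m l x := by
  unfold Pn
  rw [Finset.prod_range_succ']
  rfl

lemma Pn_ne (hlam : 0 < lam) (hm : ∀ l, ∀ x ∈ B, lam ≤ ‖m l x‖) (l : Fin q) (x : V) (hx : x ∈ B)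
    (n : ℕ) : Pn σ m n l x ≠ 0 := by
  unfold Pn
  apply Finset.prod_ne_zero_iff.2
  intro j _
  have := hm ((σ ^ j) l) x hx
  exact norm_pos_iff.1 (lt_of_lt_of_le hlam this)

lemma growth (hC : 0 ≤ C) (hlam : 0 < lam) (hth : 0 < th) (hth1 : th < 1) (hw : ∀ l, 0 < w l)
    (hGc : ∀ l, ∀ x ∈ B, ∀ z ∈ ball (0 : ℂ) (w l), ‖G l (x, z)‖ * w l ≤ th * ‖z‖ * w (σ l))
    (hGm : ∀ l, ∀ x ∈ B, ∀ z ∈ ball (0 : ℂ) (w l), ‖G l (x, z) - m l x * z‖ ≤ C * ‖z‖ ^ 2)
    (hm : ∀ l, ∀ x ∈ B, lam ≤ ‖m l x‖)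
    (l : Fin q) (x : V) (hx : x ∈ B) (z : ℂ) (hz : z ∈ ball (0 : ℂ) (w l)) (n : ℕ) :
    ‖Zn σ G n l (x, z)‖ ≤ ‖Pn σ m n l x‖ * ‖z‖ *
      Real.exp (C / lam * ∑ j ∈ Finset.range n, ‖Zn σ G j l (x, z)‖) := by
  induction n with
  | zero => simp [Zn, Pn]
  | succ n ih =>
    obtain ⟨_, hmem⟩ := contr hth hth1 hw hGc l x hx z hz n
    have h1 := hGm ((σ ^ n) l) x hx _ hmem
    obtain ⟨y, hy⟩ : ∃ y, y = Zn σ G n l (x, z) := ⟨_, rfl⟩
    have hZ : Zn σ G (n + 1) l (x, z) = G ((σ ^ n) l) (x, y) := by rw [hy]; rfl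
    rw [← hy] at h1 ih
    obtain ⟨μ, hμ⟩ : ∃ μ, μ = m ((σ ^ n) l) x := ⟨_, rfl⟩
    have hμl : lam ≤ ‖μ‖ := by rw [hμ]; exact hm _ x hx
    rw [← hμ] at h1
    have h2 : ‖G ((σ ^ n) l) (x, y)‖ ≤ ‖μ‖ * ‖y‖ + C * ‖y‖ ^ 2 := by
      have h3 : G ((σ ^ n) l) (x, y) = μ * y + (G ((σ ^ n) l) (x, y) - μ * y) := by ring
      calc ‖G ((σ ^ n) l) (x, y)‖ = ‖μ * y + (G ((σ ^ n) l) (x, y) - μ * y)‖ := by rw [← h3]
        _ ≤ ‖μ * y‖ + ‖G ((σ ^ n) l) (x, y) - μ * y‖ := norm_add_le _ _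
        _ ≤ ‖μ‖ * ‖y‖ + C * ‖y‖ ^ 2 := by rw [norm_mul]; linarith
    have h4 : C * ‖y‖ ^ 2 ≤ ‖μ‖ * ‖y‖ * (C / lam * ‖y‖) := by
      have h5 : 1 ≤ ‖μ‖ / lam := (one_le_div hlam).2 hμl
      calc C * ‖y‖ ^ 2 = 1 * (C * ‖y‖ ^ 2) := by ring
        _ ≤ ‖μ‖ / lam * (C * ‖y‖ ^ 2) := mul_le_mul_of_nonneg_right h5 (by positivity)
        _ = _ := by ring
    have h6 : C / lam * ‖y‖ + 1 ≤ Real.exp (C / lam * ‖y‖) := Real.add_one_le_exp _
    rw [hZ, Pn_succ, ← hμ, norm_mul, Finset.sum_range_succ, ← hy, mul_add, Real.exp_add]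
    obtain ⟨E, hE⟩ : ∃ E, E = Real.exp (C / lam * ∑ j ∈ Finset.range n, ‖Zn σ G j l (x, z)‖) :=
      ⟨_, rfl⟩
    rw [← hE] at ih ⊢
    have hE0 : 0 < E := by rw [hE]; exact Real.exp_pos _
    calc ‖G ((σ ^ n) l) (x, y)‖ ≤ ‖μ‖ * ‖y‖ * (C / lam * ‖y‖ + 1) := by nlinarith
      _ ≤ ‖μ‖ * ‖y‖ * Real.exp (C / lam * ‖y‖) := mul_le_mul_of_nonneg_left h6 (by positivity)
      _ ≤ ‖μ‖ * (‖Pn σ m n l x‖ * ‖z‖ * E) * Real.exp (C / lam * ‖y‖) := by
          apply mul_le_mul_of_nonneg_right _ (Real.exp_pos _).le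
          exact mul_le_mul_of_nonneg_left ih (norm_nonneg _)
      _ = _ := by ring

/-- summary of the estimates for one point -/
lemma step_bd {R Wm δ : ℝ} (hR : ∀ l l', w l' ≤ R * w l) (hWm : ∀ l, w l ≤ Wm)
    (hC : 0 ≤ C) (hlam : 0 < lam) (hth : 0 < th) (hth1 : th < 1) (hw : ∀ l, 0 < w l)
    (hGc : ∀ l, ∀ x ∈ B, ∀ z ∈ ball (0 : ℂ) (w l), ‖G l (x, z)‖ * w l ≤ th * ‖z‖ * w (σ l))
    (hGm : ∀ l, ∀ x ∈ B, ∀ z ∈ ball (0 : ℂ) (w l), ‖G l (x, z) - m l x * z‖ ≤ C * ‖z‖ ^ 2)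
    (hm : ∀ l, ∀ x ∈ B, lam ≤ ‖m l x‖) (hδ0 : 0 < δ) (hδ1 : δ ≤ 1)
    (hδ : C * R * Wm / (lam * (1 - th)) * δ ≤ 1 / 32)
    (l : Fin q) (x : V) (hx : x ∈ B) (z : ℂ) (hz : z ∈ ball (0 : ℂ) (δ * w l)) (n : ℕ) :
    dist (kn σ G m n l (x, z)) (kn σ G m (n + 1) l (x, z)) ≤ (4 * C * R / lam * ‖z‖ ^ 2) * th ^ n := by
  have hwl := hw l
  have hz' : ‖z‖ < δ * w l := by rwa [mem_ball_zero_iff] at hz
  have hz1 : z ∈ ball (0 : ℂ) (w l) := by
    rw [mem_ball_zero_iff]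
    nlinarith
  have h1th : 0 < 1 - th := by linarith
  have hR1 : 1 ≤ R := by
    have := hR l l
    by_contra h
    push Not at h
    nlinarith
  have hR0 : 0 < R := by linarith
  have hmu := mult (σ := σ) (th := th) hC hw hGc hGm
  have hP : ∀ n, ‖Pn σ m n l x‖ ≤ R * th ^ n := by
    intro n
    have h1 := prod_bd (σ := σ) hth hw hmu l x hx n
    have h2 := hR l ((σ ^ n) l)
    have h3 : ‖Pn σ m n l x‖ * w l ≤ (R * th ^ n) * w l := by
      calc ‖Pn σ m n l x‖ * w l ≤ th ^ n * w ((σ ^ n) l) := h1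
        _ ≤ th ^ n * (R * w l) := mul_le_mul_of_nonneg_left h2 (by positivity)
        _ = _ := by ring
    exact le_of_mul_le_mul_right h3 hwl
  have hZ : ∀ n, ‖Zn σ G n l (x, z)‖ ≤ R * ‖z‖ * th ^ n := by
    intro n
    have h1 := (contr hth hth1 hw hGc l x hx z hz1 n).1
    have h2 := hR l ((σ ^ n) l)
    have h3 : ‖Zn σ G n l (x, z)‖ * w l ≤ (R * ‖z‖ * th ^ n) * w l := by
      calc ‖Zn σ G n l (x, z)‖ * w l ≤ th ^ n * ‖z‖ * w ((σ ^ n) l) := h1
        _ ≤ th ^ n * ‖z‖ * (R * w l) := mul_le_mul_of_nonneg_left h2 (by positivity)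
        _ = _ := by ring
    exact le_of_mul_le_mul_right h3 hwl
  have hsum : ∑ j ∈ Finset.range n, ‖Zn σ G j l (x, z)‖ ≤ R * ‖z‖ / (1 - th) := by
    calc ∑ j ∈ Finset.range n, ‖Zn σ G j l (x, z)‖ ≤ ∑ j ∈ Finset.range n, R * ‖z‖ * th ^ j :=
          Finset.sum_le_sum fun j _ => hZ j
      _ = R * ‖z‖ * ∑ j ∈ Finset.range n, th ^ j := by rw [Finset.mul_sum]
      _ ≤ R * ‖z‖ * (1 / (1 - th)) := by
          apply mul_le_mul_of_nonneg_left _ (by positivity)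
          rw [le_div_iff₀ h1th, geom_sum_mul_neg]
          have : 0 < th ^ n := by positivity
          linarith
      _ = _ := by ring
  have hzW : ‖z‖ ≤ δ * Wm := hz'.le.trans (mul_le_mul_of_nonneg_left (hWm l) hδ0.le)
  have hexp : Real.exp (C / lam * ∑ j ∈ Finset.range n, ‖Zn σ G j l (x, z)‖) ≤ 2 := by
    have h1 : C / lam * ∑ j ∈ Finset.range n, ‖Zn σ G j l (x, z)‖ ≤ 1 / 32 := by
      calc C / lam * ∑ j ∈ Finset.range n, ‖Zn σ G j l (x, z)‖
          ≤ C / lam * (R * (δ * Wm) / (1 - th)) := by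
            apply mul_le_mul_of_nonneg_left _ (by positivity)
            refine hsum.trans ?_
            apply div_le_div_of_nonneg_right _ h1th.le
            exact mul_le_mul_of_nonneg_left hzW hR0.le
        _ = C * R * Wm / (lam * (1 - th)) * δ := by
            field_simp
        _ ≤ 1 / 32 := hδ
    calc Real.exp (C / lam * ∑ j ∈ Finset.range n, ‖Zn σ G j l (x, z)‖)
        ≤ Real.exp (1 / 32) := Real.exp_le_exp.2 h1
      _ ≤ 2 := by
          have h2 := Real.exp_one_lt_d9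
          have h3 : Real.exp (1 / 32) ≤ 1 / (1 - 1 / 32) := by
            have h4 := Real.add_one_le_exp (-(1 / 32 : ℝ))
            rw [Real.exp_neg] at h4
            have h5 := Real.exp_pos (1 / 32 : ℝ)
            rw [le_div_iff₀ (by norm_num)]
            have h6 := mul_le_mul_of_nonneg_left h4 h5.le
            rw [mul_inv_cancel₀ h5.ne'] at h6
            linarith
          refine h3.trans (by norm_num)
  have hgr := growth hC hlam hth hth1 hw hGc hGm hm l x hx z hz1 n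
  obtain ⟨y, hy⟩ : ∃ y, y = Zn σ G n l (x, z) := ⟨_, rfl⟩
  obtain ⟨p, hp⟩ : ∃ p, p = Pn σ m n l x := ⟨_, rfl⟩
  obtain ⟨μ, hμ⟩ : ∃ μ, μ = m ((σ ^ n) l) x := ⟨_, rfl⟩
  have hp0 : p ≠ 0 := by rw [hp]; exact Pn_ne hlam hm l x hx n
  have hμl : lam ≤ ‖μ‖ := by rw [hμ]; exact hm _ x hx
  have hμ0 : μ ≠ 0 := norm_pos_iff.1 (lt_of_lt_of_le hlam hμl)
  have hy2 : ‖y‖ ≤ 2 * ‖p‖ * ‖z‖ := by
    rw [hy, hp]
    refine hgr.trans ?_
    calc _ ≤ ‖Pn σ m n l x‖ * ‖z‖ * 2 := mul_le_mul_of_nonneg_left hexp (by positivity)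
      _ = _ := by ring
  have hpR : ‖p‖ ≤ R * th ^ n := by rw [hp]; exact hP n
  have hGy : ‖G ((σ ^ n) l) (x, y) - μ * y‖ ≤ C * ‖y‖ ^ 2 := by
    rw [hy, hμ]
    exact hGm ((σ ^ n) l) x hx _ (contr hth hth1 hw hGc l x hx z hz1 n).2
  have e1 : kn σ G m n l (x, z) = y / p := by rw [hy, hp]; rfl
  have e2 : kn σ G m (n + 1) l (x, z) = G ((σ ^ n) l) (x, y) / (p * μ) := by
    rw [hy, hp, hμ, ← Pn_succ]
    rfl
  rw [dist_comm, dist_eq_norm, e1, e2]
  have e3 : G ((σ ^ n) l) (x, y) / (p * μ) - y / p = (G ((σ ^ n) l) (x, y) - μ * y) / (p * μ) := by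
    field_simp
  rw [e3, norm_div, norm_mul]
  have hpp : 0 < ‖p‖ := norm_pos_iff.2 hp0
  calc ‖G ((σ ^ n) l) (x, y) - μ * y‖ / (‖p‖ * ‖μ‖) ≤ (C * (2 * ‖p‖ * ‖z‖) ^ 2) / (‖p‖ * lam) := by
        apply div_le_div₀ (by positivity) _ (by positivity) _
        · refine hGy.trans ?_
          apply mul_le_mul_of_nonneg_left _ hC
          exact pow_le_pow_left₀ (norm_nonneg _) hy2 2
        · exact mul_le_mul_of_nonneg_left hμl hpp.le
    _ = 4 * C / lam * ‖z‖ ^ 2 * ‖p‖ := by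
        field_simp
        ring
    _ ≤ 4 * C / lam * ‖z‖ ^ 2 * (R * th ^ n) := mul_le_mul_of_nonneg_left hpR (by positivity)
    _ = _ := by ring

lemma Zn_shift (l : Fin q) (x : V) (z : ℂ) (n : ℕ) :
    Zn σ G n (σ l) (x, G l (x, z)) = Zn σ G (n + 1) l (x, z) := by
  induction n with
  | zero => rfl
  | succ n ih =>
    show G ((σ ^ n) (σ l)) (x, Zn σ G n (σ l) (x, G l (x, z))) =
      G ((σ ^ (n + 1)) l) (x, Zn σ G (n + 1) l (x, z))
    rw [ih, perm_succ']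

end

end Koen

open Koen in
theorem koen_holds : StKOEN := by
  intro V _ _ _ q σ B G m w th C lam hB hth hth1 hlam hC hw hG hGc hGm hm
  have h1th : 0 < 1 - th := by linarith
  -- constants
  obtain ⟨Wm, hWm0, hWm⟩ : ∃ Wm : ℝ, 0 < Wm ∧ ∀ l, w l ≤ Wm := by
    refine ⟨∑ l, w l + 1, ?_, fun l => ?_⟩
    · have := Finset.sum_nonneg fun l (_ : l ∈ Finset.univ) => (hw l).le
      linarith
    · have := Finset.single_le_sum (f := w) (fun l _ => (hw l).le) (Finset.mem_univ l)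
      linarith
  obtain ⟨R, hR0, hR⟩ : ∃ R : ℝ, 0 < R ∧ ∀ l l', w l' ≤ R * w l := by
    refine ⟨∑ l, Wm / w l + 1, ?_, fun l l' => ?_⟩
    · have := Finset.sum_nonneg fun l (_ : l ∈ Finset.univ) => (div_pos hWm0 (hw l)).le
      linarith
    · have h1 := Finset.single_le_sum (f := fun l => Wm / w l)
        (fun l _ => (div_pos hWm0 (hw l)).le) (Finset.mem_univ l)
      have h2 : w l' ≤ Wm / w l * w l := by
        rw [div_mul_cancel₀ _ (hw l).ne']
        exact hWm l'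
      refine h2.trans (mul_le_mul_of_nonneg_right ?_ (hw l).le)
      have h3 : Wm / w l ≤ ∑ l, Wm / w l := h1
      linarith
  obtain ⟨K0, hK0⟩ : ∃ K0, K0 = C * R * Wm / (lam * (1 - th)) := ⟨_, rfl⟩
  have hK00 : 0 ≤ K0 := by rw [hK0]; positivity
  obtain ⟨δ, hδdef⟩ : ∃ δ, δ = 1 / (32 * K0 + 1) := ⟨_, rfl⟩
  have hδ0 : 0 < δ := by rw [hδdef]; positivity
  have hδ1 : δ ≤ 1 := by
    rw [hδdef, div_le_one (by positivity)]
    linarith
  have hδK : K0 * δ ≤ 1 / 32 := by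
    rw [hδdef, mul_one_div, div_le_iff₀ (by positivity)]
    linarith
  have hδ : C * R * Wm / (lam * (1 - th)) * δ ≤ 1 / 32 := by rw [← hK0]; exact hδK
  have hdist : ∀ l, ∀ x ∈ B, ∀ z ∈ ball (0 : ℂ) (δ * w l), ∀ n,
      dist (kn σ G m n l (x, z)) (kn σ G m (n + 1) l (x, z)) ≤
        (4 * C * R / lam * ‖z‖ ^ 2) * th ^ n :=
    fun l x hx z hz n => step_bd hR hWm hC hlam hth hth1 hw hGc hGm hm hδ0 hδ1 hδ l x hx z hz n
  obtain ⟨κ, hκ⟩ : ∃ κ : Fin q → V × ℂ → ℂ, ∀ l p, κ l p =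
      limUnder atTop (fun n => kn σ G m n l p) := ⟨_, fun _ _ => rfl⟩
  have hlim : ∀ l, ∀ x ∈ B, ∀ z ∈ ball (0 : ℂ) (δ * w l),
      Tendsto (fun n => kn σ G m n l (x, z)) atTop (𝓝 (κ l (x, z))) := by
    intro l x hx z hz
    rw [hκ]
    exact (cauchySeq_of_le_geometric th _ hth1 (hdist l x hx z hz)).tendsto_limUnder
  have hk0 : ∀ l (p : V × ℂ), kn σ G m 0 l p = p.2 := by
    intro l p
    unfold kn Pn Zn
    simp
  obtain ⟨K1, hK1⟩ : ∃ K1, K1 = 4 * C * R / lam / (1 - th) := ⟨_, rfl⟩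
  have hK10 : 0 ≤ K1 := by rw [hK1]; positivity
  have hquad : ∀ l, ∀ x ∈ B, ∀ z ∈ ball (0 : ℂ) (δ * w l), ‖κ l (x, z) - z‖ ≤ K1 * ‖z‖ ^ 2 := by
    intro l x hx z hz
    have h1 := dist_le_of_le_geometric_of_tendsto₀ th _ hth1 (hdist l x hx z hz) (hlim l x hx z hz)
    rw [hk0, dist_comm, dist_eq_norm] at h1
    refine h1.trans (le_of_eq ?_)
    rw [hK1]
    ring
  -- differentiability of the multipliers and of the approximations
  have hmdiff : ∀ l, DifferentiableOn ℂ (m l) B := by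
    intro l
    have ho : IsOpen (B ×ˢ ball (0 : ℂ) (w l)) := hB.prod isOpen_ball
    have h1 := Pool.Agent.Helper540.differentiableOn_fderiv_apply ho (hG l) ((0 : V), (1 : ℂ))
    have h2 : ∀ x ∈ B, m l x = fderiv ℂ (G l) (x, 0) ((0 : V), (1 : ℂ)) := by
      intro x hx
      have h0mem : ((x, (0 : ℂ)) : V × ℂ) ∈ B ×ˢ ball (0 : ℂ) (w l) := ⟨hx, mem_ball_self (hw l)⟩
      have hd : DifferentiableAt ℂ (G l) (x, 0) := (hG l).differentiableAt (ho.mem_nhds h0mem)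
      have hc : HasDerivAt (fun z : ℂ => ((x, z) : V × ℂ)) ((0 : V), (1 : ℂ)) 0 :=
        (hasDerivAt_const (0 : ℂ) x).prodMk (hasDerivAt_id (0 : ℂ))
      have h3 : HasDerivAt (fun z : ℂ => G l (x, z)) (fderiv ℂ (G l) (x, 0) ((0 : V), (1 : ℂ))) 0 :=
        hd.hasFDerivAt.comp_hasDerivAt (0 : ℂ) hc
      have h4 : HasDerivAt (fun z : ℂ => G l (x, z)) (m l x) 0 := by
        have hG0 : G l (x, 0) = 0 := by
          have := hGc l x hx 0 (mem_ball_self (hw l))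
          rw [norm_zero, mul_zero, zero_mul] at this
          have h5 : ‖G l (x, 0)‖ ≤ 0 := by
            by_contra h
            push Not at h
            have := mul_pos h (hw l)
            linarith
          exact norm_le_zero_iff.1 h5
        rw [hasDerivAt_iff_isLittleO]
        have hO : (fun z : ℂ => G l (x, z) - G l (x, 0) - (z - 0) • m l x) =O[𝓝 0]
            fun z : ℂ => z ^ 2 := by
          apply Asymptotics.IsBigO.of_bound C
          filter_upwards [ball_mem_nhds (0 : ℂ) (hw l)] with z hz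
          rw [hG0, sub_zero, sub_zero, smul_eq_mul, norm_pow, mul_comm z]
          exact hGm l x hx z hz
        have hlo : (fun z : ℂ => z ^ 2) =o[𝓝 0] fun z : ℂ => z - 0 := by
          simp only [sub_zero]
          exact Asymptotics.isLittleO_pow_id (by norm_num)
        exact hO.trans_isLittleO hlo
      exact h4.unique h3
    have h5 : DifferentiableOn ℂ (fun x : V => fderiv ℂ (G l) (x, 0) ((0 : V), (1 : ℂ))) B := by
      have hin : DifferentiableOn ℂ (fun x : V => ((x, (0 : ℂ)) : V × ℂ)) B :=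
        (differentiable_id.prodMk (differentiable_const (0 : ℂ))).differentiableOn
      exact h1.comp hin fun x hx => ⟨hx, mem_ball_self (hw l)⟩
    exact h5.congr h2
  have hZd : ∀ l n, DifferentiableOn ℂ (Zn σ G n l) (B ×ˢ ball (0 : ℂ) (w l)) := by
    intro l n
    induction n with
    | zero => exact differentiable_snd.differentiableOn
    | succ n ih =>
      have h1 : DifferentiableOn ℂ (fun p : V × ℂ => ((p.1, Zn σ G n l p) : V × ℂ))
          (B ×ˢ ball (0 : ℂ) (w l)) := (differentiable_fst.differentiableOn).prodMk ih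
      exact (hG ((σ ^ n) l)).comp h1 fun p hp =>
        ⟨hp.1, (contr hth hth1 hw hGc l p.1 hp.1 p.2 hp.2 n).2⟩
  have hPd : ∀ l n, DifferentiableOn ℂ (fun p : V × ℂ => Pn σ m n l p.1)
      (B ×ˢ ball (0 : ℂ) (w l)) := by
    intro l n
    induction n with
    | zero =>
      unfold Pn
      simp only [Finset.range_zero, Finset.prod_empty]
      exact differentiableOn_const _
    | succ n ih =>
      have h1 : (fun p : V × ℂ => Pn σ m (n + 1) l p.1) =
          fun p : V × ℂ => Pn σ m n l p.1 * m ((σ ^ n) l) p.1 := by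
        funext p
        rw [Pn_succ]
      rw [h1]
      have hf : DifferentiableOn ℂ (fun p : V × ℂ => p.1) (B ×ˢ ball (0 : ℂ) (w l)) :=
        differentiable_fst.differentiableOn
      have hmt : MapsTo (fun p : V × ℂ => p.1) (B ×ˢ ball (0 : ℂ) (w l)) B := by
        rintro p hp
        exact hp.1
      have h2 : DifferentiableOn ℂ (fun p : V × ℂ => m ((σ ^ n) l) p.1)
          (B ×ˢ ball (0 : ℂ) (w l)) := (hmdiff ((σ ^ n) l)).comp hf hmt
      exact ih.mul h2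
  have hkd : ∀ l n, DifferentiableOn ℂ (kn σ G m n l) (B ×ˢ ball (0 : ℂ) (w l)) := by
    intro l n
    have h3 : ∀ p ∈ B ×ˢ ball (0 : ℂ) (w l), Pn σ m n l p.1 ≠ 0 := by
      rintro p hp
      exact Pn_ne hlam hm l p.1 hp.1 n
    have h4 : kn σ G m n l = fun p => Zn σ G n l p * (Pn σ m n l p.1)⁻¹ := by
      funext p
      unfold kn
      rw [div_eq_mul_inv]
    rw [h4]
    have h5 : DifferentiableOn ℂ (fun p : V × ℂ => (Pn σ m n l p.1)⁻¹)
        (B ×ˢ ball (0 : ℂ) (w l)) := by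
      intro p hp
      have h6 := (differentiableAt_inv (h3 p hp)).comp_differentiableWithinAt p (hPd l n p hp)
      exact h6
    exact (hZd l n).mul h5
  have hwδ : ∀ l, δ * w l ≤ w l := fun l => by nlinarith [hw l]
  refine ⟨δ, κ, hδ0, hδ1, ?_, ?_, ?_, ?_⟩
  · -- holomorphy
    intro l c hc
    have ho : IsOpen (B ×ˢ ball (0 : ℂ) (δ * w l)) := hB.prod isOpen_ball
    obtain ⟨r, hr, hsub⟩ := Metric.isOpen_iff.1 ho c hc
    have hun : TendstoUniformlyOn (fun n => kn σ G m n l) (κ l) atTop (ball c r) := by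
      rw [Metric.tendstoUniformlyOn_iff]
      intro ε hε
      have ht : Tendsto (fun n : ℕ => 4 * C * R / lam * (w l) ^ 2 * th ^ n / (1 - th)) atTop (𝓝 0) := by
        have := ((tendsto_pow_atTop_nhds_zero_of_lt_one hth.le hth1).const_mul
          (4 * C * R / lam * (w l) ^ 2)).div_const (1 - th)
        simpa using this
      filter_upwards [ht.eventually (gt_mem_nhds hε)] with n hn p hp
      have hp' := hsub hp
      have h1 := dist_le_of_le_geometric_of_tendsto th _ hth1 (hdist l p.1 hp'.1 p.2 hp'.2)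
        (hlim l p.1 hp'.1 p.2 hp'.2) n
      rw [dist_comm]
      refine lt_of_le_of_lt ?_ hn
      refine h1.trans ?_
      have hpz : ‖p.2‖ ≤ w l := by
        have := hp'.2
        rw [mem_ball_zero_iff] at this
        exact this.le.trans (hwδ l)
      apply div_le_div_of_nonneg_right _ h1th.le
      apply mul_le_mul_of_nonneg_right _ (by positivity)
      apply mul_le_mul_of_nonneg_left _ (by positivity)
      exact pow_le_pow_left₀ (norm_nonneg _) hpz 2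
    have hd := Pool.Agent.Helper540.differentiableOn_of_uniform_limit
      (fun n => (hkd l n).mono (hsub.trans (prod_mono_right (ball_subset_ball (hwδ l))))) hun
    have hc2 : c ∈ ball c (r / 2) := mem_ball_self (by positivity)
    exact (hd.differentiableAt (isOpen_ball.mem_nhds hc2)).differentiableWithinAt
  · intro l x hx z hz
    constructor
    · refine (hquad l x hx z hz).trans ?_
      have hz' : ‖z‖ < δ * w l := by rwa [mem_ball_zero_iff] at hz
      have h1 : K1 * ‖z‖ ≤ 1 / 8 := by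
        calc K1 * ‖z‖ ≤ K1 * (δ * Wm) := by
              apply mul_le_mul_of_nonneg_left _ hK10
              exact hz'.le.trans (mul_le_mul_of_nonneg_left (hWm l) hδ0.le)
          _ = 4 * (K0 * δ) := by
              rw [hK1, hK0]
              field_simp
          _ ≤ 4 * (1 / 32) := by linarith
          _ = 1 / 8 := by norm_num
      calc K1 * ‖z‖ ^ 2 = (K1 * ‖z‖) * ‖z‖ := by ring
        _ ≤ 1 / 8 * ‖z‖ := mul_le_mul_of_nonneg_right h1 (norm_nonneg _)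
        _ = ‖z‖ / 8 := by ring
    · have hz' : ‖z‖ < δ * w l := by rwa [mem_ball_zero_iff] at hz
      have hz1 : z ∈ ball (0 : ℂ) (w l) := by
        rw [mem_ball_zero_iff]
        exact lt_of_lt_of_le hz' (hwδ l)
      have hGz : G l (x, z) ∈ ball (0 : ℂ) (δ * w (σ l)) := by
        rw [mem_ball_zero_iff]
        have h1 := hGc l x hx z hz1
        have h2 : ‖G l (x, z)‖ * w l < (δ * w (σ l)) * w l := by
          have hws := hw (σ l)
          calc ‖G l (x, z)‖ * w l ≤ th * ‖z‖ * w (σ l) := h1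
            _ ≤ 1 * ‖z‖ * w (σ l) := by
                apply mul_le_mul_of_nonneg_right _ hws.le
                exact mul_le_mul_of_nonneg_right hth1.le (norm_nonneg _)
            _ = ‖z‖ * w (σ l) := by ring
            _ < (δ * w l) * w (σ l) := mul_lt_mul_of_pos_right hz' hws
            _ = _ := by ring
        exact lt_of_mul_lt_mul_right h2 (hw l).le
      have h1 := hlim (σ l) x hx _ hGz
      have h2 := (hlim l x hx z hz).comp (tendsto_add_atTop_nat 1)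
      have h3 := h2.const_mul (m l x)
      have h4 : ∀ n, kn σ G m n (σ l) (x, G l (x, z)) = m l x * kn σ G m (n + 1) l (x, z) := by
        intro n
        unfold kn
        rw [Zn_shift]
        show Zn σ G (n + 1) l (x, z) / Pn σ m n (σ l) x =
          m l x * (Zn σ G (n + 1) l (x, z) / Pn σ m (n + 1) l x)
        rw [Pn_succ']
        have hml : m l x ≠ 0 := norm_pos_iff.1 (lt_of_lt_of_le hlam (hm l x hx))
        have hPne := Pn_ne (σ := σ) hlam hm (σ l) x hx n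
        field_simp
      have h5 : Tendsto (fun n => kn σ G m n (σ l) (x, G l (x, z))) atTop
          (𝓝 (m l x * κ l (x, z))) := by
        refine h3.congr fun n => ?_
        exact (h4 n).symm
      exact tendsto_nhds_unique h1 h5
  · intro l x hx
    have hk00 : κ l (x, 0) = 0 := by
      have h0 : (0 : ℂ) ∈ ball (0 : ℂ) (δ * w l) := mem_ball_self (mul_pos hδ0 (hw l))
      have := hquad l x hx 0 h0
      rw [norm_zero, sub_zero] at this
      have h1 : ‖κ l (x, 0)‖ ≤ 0 := by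
        refine this.trans (le_of_eq ?_)
        ring
      exact norm_le_zero_iff.1 h1
    have h4 : HasDerivAt (fun z : ℂ => κ l (x, z)) 1 0 := by
      rw [hasDerivAt_iff_isLittleO]
      have hO : (fun z : ℂ => κ l (x, z) - κ l (x, 0) - (z - 0) • (1 : ℂ)) =O[𝓝 0]
          fun z : ℂ => z ^ 2 := by
        apply Asymptotics.IsBigO.of_bound K1
        filter_upwards [ball_mem_nhds (0 : ℂ) (mul_pos hδ0 (hw l))] with z hz
        rw [hk00, sub_zero, sub_zero, smul_eq_mul, norm_pow, mul_one]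
        exact hquad l x hx z hz
      have hlo : (fun z : ℂ => z ^ 2) =o[𝓝 0] fun z : ℂ => z - 0 := by
        simp only [sub_zero]
        exact Asymptotics.isLittleO_pow_id (by norm_num)
      exact hO.trans_isLittleO hlo
    exact h4.deriv
  · intro l x hx z hz hz2
    have h1 : ∀ n, z n = Zn σ G n l (x, z 0) := by
      intro n
      induction n with
      | zero => rfl
      | succ n ih =>
        rw [hz2 n, ih]
        rfl
    have h2 := hlim l x hx (z 0) hz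
    refine h2.congr fun n => ?_
    rw [h1 n]
    rfl

end Pool.Agent.H713R4.RB
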