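import Mathlib
import Pool.Agent.H713R4.RB.Defs3
import Pool.Agent.Helper114.KRat

/-! Task LINK: sphere vs homogeneous coordinates. -/

set_option autoImplicit false

open Topology Filter Metric Set Polynomial MeasureTheory
open scoped OnePoint

namespace Pool.Agent.H713R4.RB

open Pool.Agent.Helper114.Herman

theorem link_FH (d : ℕ) (P Q : ℂ[X]) (p : ℂ × ℂ) :
    FH d (cv d P Q) p = (hom P d p.1 p.2, hom Q d p.1 p.2) := by
  unfold FH cv hom
  simp only [Sum.elim_inl, Sum.elim_inr]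
  refine Prod.ext ?_ ?_
  · simp only
    rw [Finset.sum_range]
    exact Finset.sum_congr rfl fun i _ => by ring
  · simp only
    rw [Finset.sum_range]
    exact Finset.sum_congr rfl fun i _ => by ring

theorem link_PP {d : ℕ} {P Q : ℂ[X]} (hP : P.natDegree ≤ d) : PP d (cv d P Q) = P := by
  unfold PP cv
  simp only [Sum.elim_inl]
  conv_rhs => rw [P.as_sum_range_C_mul_X_pow' (n := d + 1) (by omega), Finset.sum_range]

theorem link_QQ {d : ℕ} {P Q : ℂ[X]} (hQ : Q.natDegree ≤ d) : QQ d (cv d P Q) = Q := by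
  unfold QQ cv
  simp only [Sum.elim_inr]
  conv_rhs => rw [Q.as_sum_range_C_mul_X_pow' (n := d + 1) (by omega), Finset.sum_range]

theorem link_cont (d : ℕ) (x : WW d) : Continuous (FH d x) := by
  unfold FH
  fun_prop

theorem link_iter {d : ℕ} {P Q : ℂ[X]} {f : OnePoint ℂ → OnePoint ℂ} (hf : IsRat f P Q)
    (hd : d = max P.natDegree Q.natDegree) (hd0 : 0 < d) {p : ℂ × ℂ} (hp : p.1 ≠ 0 ∨ p.2 ≠ 0)
    (n : ℕ) : (((FH d (cv d P Q))^[n] p).1 ≠ 0 ∨ ((FH d (cv d P Q))^[n] p).2 ≠ 0) ∧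
      f^[n] (pr p.1 p.2) = pr ((FH d (cv d P Q))^[n] p).1 ((FH d (cv d P Q))^[n] p).2 := by
  induction n with
  | zero => exact ⟨hp, rfl⟩
  | succ n ih =>
    obtain ⟨h1, h2⟩ := ih
    rw [Function.iterate_succ_apply', Function.iterate_succ_apply', h2, link_FH]
    exact ⟨hom_not_both hf.cop hd h1 hd0, rat_formula hf hd hd0 h1⟩

theorem link_vl {d : ℕ} {P Q : ℂ[X]} (hP : P.natDegree ≤ d) (hQ : Q.natDegree ≤ d) {z₀ : ℂ}
    (h : ∀ i : ℕ, ((FH d (cv d P Q))^[i] (z₀, 1)).2 ≠ 0) (n : ℕ) :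
    vl d (cv d P Q) n =ᶠ[𝓝 z₀] (plane P Q)^[n] := by
  induction n with
  | zero =>
    refine Eventually.of_forall fun z => ?_
    simp [vl]
  | succ n ih =>
    have hc : ContinuousAt (fun z : ℂ => ((FH d (cv d P Q))^[n] (z, 1)).2) z₀ := by
      have h1 : Continuous ((FH d (cv d P Q))^[n]) := (link_cont d (cv d P Q)).iterate n
      have h2 : Continuous (fun z : ℂ => ((z, 1) : ℂ × ℂ)) := by fun_prop
      exact (continuous_snd.comp (h1.comp h2)).continuousAt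
    have hne := hc.eventually_ne (h n)
    filter_upwards [ih, hne] with z hz hz2
    rw [Function.iterate_succ_apply', ← hz]
    unfold vl plane
    rw [Function.iterate_succ_apply', link_FH, hom_ne hP hz2, hom_ne hQ hz2]
    exact mul_div_mul_left _ _ (pow_ne_zero _ hz2)

theorem link_near {d : ℕ} {P Q : ℂ[X]} {f : OnePoint ℂ → OnePoint ℂ} (hf : IsRat f P Q)
    (hd : d = max P.natDegree Q.natDegree) (hd0 : 0 < d) {p : ℂ × ℂ} (hp : p.1 ≠ 0 ∨ p.2 ≠ 0)
    (h : Attracted f (plane P Q) (pr p.1 p.2)) :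
    ∃ z₀ : ℂ, SinkPt d (cv d P Q) z₀ ∧ Near d (cv d P Q) p z₀ := by
  obtain ⟨n, hn, z₀, hfin, hper, hmult, ht⟩ := h
  have hP : P.natDegree ≤ d := hd ▸ le_max_left _ _
  have hQ : Q.natDegree ≤ d := hd ▸ le_max_right _ _
  have hover : ∀ (q : ℂ × ℂ) (w : ℂ), pr q.1 q.2 = (w : OnePoint ℂ) → Over q w := by
    intro q w hq
    have h2 : q.2 ≠ 0 := by
      intro h0
      rw [h0, pr_zero] at hq
      exact absurd hq (OnePoint.infty_ne_coe w)
    refine ⟨h2, ?_⟩
    rw [pr_ne h2] at hq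
    have h3 := OnePoint.coe_injective hq
    rw [← h3, div_mul_cancel₀ _ h2]
  have hz1 : ∀ i, f^[i] (z₀ : OnePoint ℂ) =
      pr ((FH d (cv d P Q))^[i] (z₀, 1)).1 ((FH d (cv d P Q))^[i] (z₀, 1)).2 := by
    intro i
    have := (link_iter hf hd hd0 (p := (z₀, 1)) (Or.inr one_ne_zero) i).2
    rwa [pr_one] at this
  have hz2 : ∀ i : ℕ, ((FH d (cv d P Q))^[i] (z₀, 1)).2 ≠ 0 := by
    intro i h0
    have h1 := hz1 i
    rw [h0, pr_zero] at h1
    exact hfin i h1
  refine ⟨z₀, ⟨hz2, n, hn, hover _ _ ?_, ?_⟩, ?_⟩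
  · rw [← hz1 n, hper]
  · rw [(link_vl hP hQ hz2 n).deriv_eq]
    exact hmult
  · intro δ hδ
    have hopen : IsOpen ((fun w : ℂ => (w : OnePoint ℂ)) '' ball z₀ δ) :=
      OnePoint.isOpenEmbedding_coe.isOpenMap _ isOpen_ball
    have hmem : (fun w : ℂ => (w : OnePoint ℂ)) '' ball z₀ δ ∈ 𝓝 (z₀ : OnePoint ℂ) :=
      hopen.mem_nhds ⟨z₀, mem_ball_self hδ, rfl⟩
    obtain ⟨k, hk⟩ := (ht.eventually hmem).exists
    obtain ⟨w, hw, hw2⟩ := hk
    refine ⟨n * k, w, hover _ _ ?_, ?_⟩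
    · rw [← (link_iter hf hd hd0 hp (n * k)).2]
      exact hw2.symm
    · rwa [mem_ball, dist_eq_norm] at hw

theorem link_holds : StLINK := by
  intro d P Q f hd2 hc hP hQ hcont heval
  have hd : d = max P.natDegree Q.natDegree := by omega
  have hd0 : 0 < d := by omega
  have hQ0 : Q ≠ 0 := by
    intro h0
    rw [h0] at hQ
    simp at hQ
    omega
  have hf : IsRat f P Q := ⟨hcont, hc, hQ0, heval⟩
  refine ⟨link_PP hP, link_QQ hQ.le, ?_, ?_, ?_⟩
  · intro p hp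
    by_contra hne
    have h1 : p.1 ≠ 0 ∨ p.2 ≠ 0 := by
      by_contra hcon
      push Not at hcon
      exact hne (Prod.ext hcon.1 hcon.2)
    have h2 := hom_not_both hc hd h1 hd0
    rw [link_FH, Prod.mk_eq_zero] at hp
    rcases h2 with h2 | h2
    · exact h2 hp.1
    · exact h2 hp.2
  · intro z hz
    refine link_near hf hd hd0 (p := (z, 1)) (Or.inr one_ne_zero) ?_
    rw [pr_one]
    exact hz
  · intro hz
    refine link_near hf hd hd0 (p := (1, 0)) (Or.inl one_ne_zero) ?_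
    rw [pr_zero]
    exact hz

end Pool.Agent.H713R4.RB
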