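import Mathlib
import Pool.Agent.H713R4.RB.Defs3
import Pool.Agent.H713R3.ZA.Circ

/-! Task MIN: near-minimizer argument (adapted from Min.lean). -/

set_option autoImplicit false

open Topology Filter Metric Set Polynomial MeasureTheory

namespace Pool.Agent.H713R4.RB

open Pool.Agent.H713R3.ZA

section
variable {V J : Type} [NormedAddCommGroup V] [NormedSpace ℂ V] [Fintype J]

theorem MIN_circ {cf : J → V → ℂ} (hcf : ∀ j, Differentiable ℂ (cf j)) {ρ r : ℝ} {γ : ℂ → V}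
    (hr : 0 < r) (hρ : r < ρ) (hd : DifferentiableOn ℂ γ (ball (0 : ℂ) ρ)) (τ : J → ℂ) :
    ∫ θ in (0 : ℝ)..(2 * Real.pi), ∑ j, ‖cf j (γ (circleMap 0 r θ)) - τ j‖ ^ 2 =
      2 * Real.pi * ∑ j, ‖cf j (γ 0) - τ j‖ ^ 2 +
        ∫ θ in (0 : ℝ)..(2 * Real.pi), ∑ j, ‖cf j (γ (circleMap 0 r θ)) - cf j (γ 0)‖ ^ 2 := by
  have hu : ∀ j, DifferentiableOn ℂ (fun t => cf j (γ t)) (ball (0 : ℂ) ρ) := fun j =>
    (hcf j).comp_differentiableOn hd
  have hi : ∀ (b : ℂ) (j : J), IntervalIntegrable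
      (fun θ : ℝ => ‖cf j (γ (circleMap 0 r θ)) - b‖ ^ 2) volume 0 (2 * Real.pi) :=
    fun b j => (((circ_cont hr hρ (hu j).continuousOn).sub continuous_const).norm.pow 2
      ).intervalIntegrable _ _
  rw [intervalIntegral.integral_finsetSum (fun j _ => hi (τ j) j),
    intervalIntegral.integral_finsetSum (fun j _ => hi (cf j (γ 0)) j), Finset.mul_sum,
    ← Finset.sum_add_distrib]
  apply Finset.sum_congr rfl
  intro j _
  exact circ_sq hr hρ (hu j) (τ j)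

theorem MIN_circ_ge {cf : J → V → ℂ} (hcf : ∀ j, Differentiable ℂ (cf j)) {ρ r : ℝ} {γ : ℂ → V}
    (hr : 0 < r) (hρ : r < ρ) (hd : DifferentiableOn ℂ γ (ball (0 : ℂ) ρ)) (j : J) {v : V}
    (hv : HasDerivAt γ v 0) :
    2 * Real.pi * (r ^ 2 * ‖fderiv ℂ (cf j) (γ 0) v‖ ^ 2) ≤
      ∫ θ in (0 : ℝ)..(2 * Real.pi), ∑ j, ‖cf j (γ (circleMap 0 r θ)) - cf j (γ 0)‖ ^ 2 := by
  have hu : ∀ j, DifferentiableOn ℂ (fun t => cf j (γ t)) (ball (0 : ℂ) ρ) := fun j =>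
    (hcf j).comp_differentiableOn hd
  have h1 := circ_deriv hr hρ (hu j)
  have h2 : deriv (fun t => cf j (γ t)) 0 = fderiv ℂ (cf j) (γ 0) v :=
    (((hcf j) (γ 0)).hasFDerivAt.comp_hasDerivAt 0 hv).deriv
  rw [h2] at h1
  refine h1.trans ?_
  have hcont : ∀ j, Continuous (fun θ : ℝ => ‖cf j (γ (circleMap 0 r θ)) - cf j (γ 0)‖ ^ 2) :=
    fun j => ((circ_cont hr hρ (hu j).continuousOn).sub continuous_const).norm.pow 2
  apply intervalIntegral.integral_mono_on (by have := Real.pi_pos; positivity)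
  · exact (hcont j).intervalIntegrable _ _
  · exact (continuous_finsetSum _ fun j _ => hcont j).intervalIntegrable _ _
  · intro θ _
    exact Finset.single_le_sum (f := fun j => ‖cf j (γ (circleMap 0 r θ)) - cf j (γ 0)‖ ^ 2)
      (fun _ _ => by positivity) (Finset.mem_univ j)

end

theorem min_holds : StMIN := by
  intro hFLOW V J _ _ _ _ cf τ AN L Ω f X j p₂ n₀ c₀ hcf hAK0 hn₀ hc₀ hL hfc hΩ hXd hfd hfne hfX
    hLΩ hx₂ hfx₂ hs1 hs2 hstep
  have hpi := Real.pi_pos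
  set a₀ : ℝ := c₀ * n₀ / 16 with ha₀
  have ha₀0 : 0 < a₀ := by positivity
  set c : ℝ := c₀ / 2 with hc
  have hc0 : 0 < c := by positivity
  have hcn : c * n₀ = 8 * a₀ := by rw [hc, ha₀]; ring
  obtain ⟨Fm₀, hFm₀⟩ := hL.exists_bound_of_continuousOn hfc
  set Fm : ℝ := max 1 Fm₀ with hFm
  have hFm1 : 1 ≤ Fm := le_max_left _ _
  have hFmb : ∀ x ∈ L, ‖f x‖ ≤ Fm := fun x hx => (hFm₀ x hx).trans (le_max_right _ _)
  have hlF : 0 ≤ Real.log Fm := Real.log_nonneg hFm1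
  set D : ℝ := 1 + Real.log Fm + |Real.log ‖f p₂‖| with hD
  have hD0 : 0 < D := by positivity
  set δ : ℝ := a₀ / D with hδ
  have hδ0 : 0 < δ := by positivity
  have hδD : δ * D = a₀ := by rw [hδ]; field_simp
  have hδ1 : δ * Real.log Fm ≤ a₀ := by
    rw [← hδD]
    apply mul_le_mul_of_nonneg_left _ hδ0.le
    have := abs_nonneg (Real.log ‖f p₂‖)
    linarith
  have hδ2 : -(δ * Real.log ‖f p₂‖) ≤ a₀ := by
    rw [← hδD, ← mul_neg]
    apply mul_le_mul_of_nonneg_left _ hδ0.le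
    have := neg_le_abs (Real.log ‖f p₂‖)
    linarith
  set DT : V → ℝ := fun p => ∑ j, ‖cf j p - τ j‖ ^ 2 with hDT
  have hDTc : Continuous DT :=
    continuous_finsetSum _ fun j _ => (((hcf j).continuous).sub continuous_const).norm.pow 2
  set W : V → ℝ := fun x => AN x + c * DT x - δ * Real.log ‖f x‖ with hW
  have hD0' : ∀ x : V, 0 ≤ c * DT x := fun x => mul_nonneg hc0.le
    (Finset.sum_nonneg fun _ _ => by positivity)
  have hlog : ∀ x ∈ L, f x ≠ 0 → δ * Real.log ‖f x‖ ≤ a₀ := by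
    intro x hx hfx
    refine le_trans ?_ hδ1
    apply mul_le_mul_of_nonneg_left _ hδ0.le
    exact Real.log_le_log (norm_pos_iff.mpr hfx) (hFmb x hx)
  set S : Set ℝ := W '' {x | x ∈ L ∧ f x ≠ 0} with hS
  have hSb : BddBelow S := by
    refine ⟨-a₀, ?_⟩
    rintro _ ⟨x, ⟨hx, hfx⟩, rfl⟩
    have h1 := hAK0 x
    have h2 := hD0' x
    have h3 := hlog x hx hfx
    simp only [hW]
    linarith
  have hSn : S.Nonempty := ⟨W p₂, p₂, ⟨hx₂, hfx₂⟩, rfl⟩
  set f₀ : ℝ := Real.exp (-(5 * a₀ / δ)) with hf₀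
  have hf₀0 : 0 < f₀ := Real.exp_pos _
  set K₁ : Set V := {x | x ∈ L ∧ c * DT x ≤ 6 * a₀} ∩ (L ∩ f ⁻¹' {w | f₀ ≤ ‖w‖}) with hK₁
  have hK₁c : IsCompact K₁ := by
    apply hL.of_isClosed_subset
    · apply IsClosed.inter
      · exact hL.isClosed.inter (isClosed_le (continuous_const.mul hDTc) continuous_const)
      · exact hfc.preimage_isClosed_of_isClosed hL.isClosed
          (isClosed_le continuous_const continuous_norm)
    · rintro x ⟨h1, -⟩; exact h1.1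
  have hK₁Ω : K₁ ⊆ Ω := by
    rintro x ⟨⟨hx, h1⟩, -, h2⟩
    have h2' : f₀ ≤ ‖f x‖ := h2
    apply hLΩ x hx
    · intro h4
      rw [h4, norm_zero] at h2'
      linarith
    · by_contra h5
      rw [not_lt] at h5
      have h6 := mul_le_mul_of_nonneg_left h5 hc0.le
      have h7 : c * ∑ j, ‖cf j x - τ j‖ ^ 2 ≤ 6 * a₀ := h1
      linarith
  obtain ⟨r₀, hr₀, hflow⟩ := hFLOW V Ω K₁ X hΩ hK₁c hK₁Ω hXd
  set r : ℝ := r₀ / 2 with hr
  have hr0 : 0 < r := by positivity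
  have hrr : r < r₀ := by linarith
  set gain : ℝ := c * (r ^ 2 * f₀ ^ 2) with hgain
  have hgain0 : 0 < gain := by positivity
  set η : ℝ := min (gain / 4) a₀ with hη
  have hη0 : 0 < η := lt_min (by positivity) ha₀0
  obtain ⟨_, ⟨x, ⟨hx, hfx⟩, rfl⟩, hxw⟩ := exists_lt_of_csInf_lt hSn
    (lt_add_of_pos_right (sInf S) hη0)
  have hWx₂ : W p₂ ≤ 3 * a₀ := by
    simp only [hW, hDT]
    linarith
  have hwle : sInf S ≤ W p₂ := csInf_le hSb ⟨p₂, ⟨hx₂, hfx₂⟩, rfl⟩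
  have hηa : η ≤ a₀ := min_le_right _ _
  have hηg : η ≤ gain / 4 := min_le_left _ _
  have hWx : W x ≤ 4 * a₀ := by linarith
  have hWxe : W x = AN x + c * DT x - δ * Real.log ‖f x‖ := rfl
  have hxK : x ∈ K₁ := by
    refine ⟨⟨hx, ?_⟩, hx, ?_⟩
    · have h1 := hAK0 x
      have h2 := hlog x hx hfx
      rw [hWxe] at hWx
      linarith
    · show f₀ ≤ ‖f x‖
      have h1 := hAK0 x
      have h2 := hD0' x
      rw [hWxe] at hWx
      have h3 : -(5 * a₀ / δ) ≤ Real.log ‖f x‖ := by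
        have h4 : -(5 * a₀) ≤ δ * Real.log ‖f x‖ := by linarith
        have h5 : -(5 * a₀ / δ) = -(5 * a₀) / δ := by ring
        rw [h5, div_le_iff₀ hδ0]
        have h6 := mul_comm δ (Real.log ‖f x‖)
        linarith
      rw [hf₀, ← Real.exp_log (norm_pos_iff.mpr hfx)]
      exact Real.exp_le_exp.mpr h3
  obtain ⟨γ, hγ0, hγ⟩ := hflow x hxK
  have hγd : DifferentiableOn ℂ γ (ball (0 : ℂ) r₀) := fun t ht =>
    (hγ t ht).2.differentiableAt.differentiableWithinAt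
  obtain ⟨hγL, hγs⟩ := hstep r₀ hr₀ γ (by rw [hγ0]; exact hx) hγ
  have hfγ : ∀ t ∈ ball (0 : ℂ) r₀, f (γ t) ≠ 0 := fun t ht => hfne _ (hγ t ht).1
  have hfγd : DifferentiableOn ℂ (fun t => f (γ t)) (ball (0 : ℂ) r₀) :=
    hfd.comp hγd (fun t ht => (hγ t ht).1)
  have hγc := circ_cont hr0 hrr hγd.continuousOn
  have hlogc : Continuous (fun θ : ℝ => Real.log ‖f (γ (circleMap 0 r θ))‖) := by
    have h1 := circ_cont hr0 hrr hfγd.continuousOn
    exact h1.norm.log (fun θ => (norm_pos_iff.mpr (hfγ _ (circ_mem hr0 hrr θ))).ne')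
  have hDTγ : Continuous (fun θ : ℝ => DT (γ (circleMap 0 r θ))) := hDTc.comp hγc
  have hDlγ : Continuous (fun θ : ℝ => ∑ j, ‖cf j (γ (circleMap 0 r θ)) - cf j (γ 0)‖ ^ 2) :=
    continuous_finsetSum _ fun j _ =>
      ((((hcf j).continuous).comp hγc).sub continuous_const).norm.pow 2
  set q : ℝ → ℝ := fun θ => c * DT (γ (circleMap 0 r θ)) -
    δ * Real.log ‖f (γ (circleMap 0 r θ))‖ with hq
  have hqc : Continuous q := (continuous_const.mul hDTγ).sub (continuous_const.mul hlogc)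
  obtain ⟨θ, hθ⟩ := hγs r hr0 hrr η hη0 q hqc
  have hθm := circ_mem hr0 hrr θ
  have hge : sInf S ≤ AN (γ (circleMap 0 r θ)) + q θ := by
    have h1 : sInf S ≤ W (γ (circleMap 0 r θ)) := csInf_le hSb
      ⟨γ (circleMap 0 r θ), ⟨hγL _ hθm, hfγ _ hθm⟩, rfl⟩
    have h2 : W (γ (circleMap 0 r θ)) = AN (γ (circleMap 0 r θ)) + q θ := by
      simp only [hW, hq]; ring
    rw [← h2]; exact h1
  -- evaluation of the integral
  set J' : ℝ := ∫ θ in (0 : ℝ)..(2 * Real.pi),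
    ∑ j, ‖cf j (γ (circleMap 0 r θ)) - cf j (γ 0)‖ ^ 2 with hJ
  have hDTi : ∫ θ in (0 : ℝ)..(2 * Real.pi), DT (γ (circleMap 0 r θ)) =
      2 * Real.pi * DT (γ 0) + J' := MIN_circ hcf hr0 hrr hγd τ
  have hint : ∫ θ in (0 : ℝ)..(2 * Real.pi), (q θ - c₀ * ∑ j, ‖cf j (γ (circleMap 0 r θ)) -
      cf j (γ 0)‖ ^ 2) =
      c * (2 * Real.pi * DT (γ 0) + J') - δ * (2 * Real.pi * Real.log ‖f (γ 0)‖) -
        c₀ * J' := by
    have i1 : IntervalIntegrable q volume 0 (2 * Real.pi) := hqc.intervalIntegrable _ _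
    have i2 : IntervalIntegrable (fun θ : ℝ => c₀ * ∑ j, ‖cf j (γ (circleMap 0 r θ)) -
        cf j (γ 0)‖ ^ 2) volume 0 (2 * Real.pi) :=
      (continuous_const.mul hDlγ).intervalIntegrable _ _
    have i3 : IntervalIntegrable (fun θ : ℝ => c * DT (γ (circleMap 0 r θ)))
        volume 0 (2 * Real.pi) := (continuous_const.mul hDTγ).intervalIntegrable _ _
    have i4 : IntervalIntegrable (fun θ : ℝ => δ * Real.log ‖f (γ (circleMap 0 r θ))‖)
        volume 0 (2 * Real.pi) := (continuous_const.mul hlogc).intervalIntegrable _ _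
    rw [intervalIntegral.integral_sub i1 i2, intervalIntegral.integral_const_mul]
    simp only [hq]
    rw [intervalIntegral.integral_sub i3 i4, intervalIntegral.integral_const_mul,
      intervalIntegral.integral_const_mul, hDTi,
      circ_log hr0 hrr hfγd hfγ]
  have hJge : 2 * Real.pi * (r ^ 2 * f₀ ^ 2) ≤ J' := by
    have h1 := MIN_circ_ge hcf hr0 hrr hγd j (hγ 0 (mem_ball_self hr₀)).2
    refine le_trans ?_ h1
    have h2 : f₀ ≤ ‖f (γ 0)‖ := by rw [hγ0]; exact hxK.2.2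
    have h3 : ‖f (γ 0)‖ ≤ ‖fderiv ℂ (cf j) (γ 0) (X (γ 0))‖ := hfX _ (hγ 0 (mem_ball_self hr₀)).1
    have h4 := h2.trans h3
    gcongr
  rw [hint, hγ0] at hθ
  have h1 : (2 * Real.pi)⁻¹ * (c * (2 * Real.pi * DT x + J') -
      δ * (2 * Real.pi * Real.log ‖f x‖) - c₀ * J') =
      c * DT x - δ * Real.log ‖f x‖ - c * ((2 * Real.pi)⁻¹ * J') := by
    have h2 : c₀ = 2 * c := by rw [hc]; ring
    rw [h2]
    field_simp
    ring
  have h2 : gain ≤ c * ((2 * Real.pi)⁻¹ * J') := by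
    rw [hgain]
    apply mul_le_mul_of_nonneg_left _ hc0.le
    rw [inv_mul_eq_div, le_div_iff₀ (by positivity), mul_comm]
    exact hJge
  rw [h1] at hθ
  rw [hWxe] at hxw
  linarith

end Pool.Agent.H713R4.RB
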