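import Mathlib
import Pool.Agent.H713R4.RB.Defs
import Pool.Agent.Helper540.Holo

/-! Task MOT: existence of the holomorphic motion (adapted from Mot1, Mot2). -/

set_option autoImplicit false

open Topology Filter Metric Set Polynomial MeasureTheory

namespace Pool.Agent.H713R4.RB

namespace MOTaux

variable {d : ℕ}

theorem differentiable_FH : Differentiable ℂ (fun q : WW d × (ℂ × ℂ) => FH d q.1 q.2) := by
  have hx : ∀ k : Fin (d + 1) ⊕ Fin (d + 1), Differentiable ℂ (fun q : WW d × (ℂ × ℂ) => q.1 k) := by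
    intro k
    exact differentiable_pi.1 differentiable_fst k
  have h1 : Differentiable ℂ (fun q : WW d × (ℂ × ℂ) => q.2.1) :=
    differentiable_snd.fst
  have h2 : Differentiable ℂ (fun q : WW d × (ℂ × ℂ) => q.2.2) :=
    differentiable_snd.snd
  unfold FH
  refine Differentiable.prodMk ?_ ?_
  · exact Differentiable.fun_sum fun i _ => (hx _).mul ((h1.pow _).mul (h2.pow _))
  · exact Differentiable.fun_sum fun i _ => (hx _).mul ((h1.pow _).mul (h2.pow _))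

theorem differentiable_iter (N : ℕ) :
    Differentiable ℂ (fun q : WW d × (ℂ × ℂ) => (FH d q.1)^[N] q.2) := by
  induction N with
  | zero => exact differentiable_snd
  | succ N ih =>
    have e : (fun q : WW d × (ℂ × ℂ) => (FH d q.1)^[N + 1] q.2) =
        fun q => (fun q : WW d × (ℂ × ℂ) => FH d q.1 q.2) (q.1, (FH d q.1)^[N] q.2) := by
      funext q
      rw [Function.iterate_succ_apply']
    rw [e]
    exact differentiable_FH.comp (differentiable_fst.prodMk ih)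

theorem differentiable_one (x : WW d) (N : ℕ) :
    Differentiable ℂ (fun z : ℂ => (FH d x)^[N] (z, 1)) := by
  have h : Differentiable ℂ (fun z : ℂ => ((x, (z, 1)) : WW d × (ℂ × ℂ))) :=
    (differentiable_const x).prodMk (differentiable_id.prodMk (differentiable_const 1))
  exact (differentiable_iter N).comp h

theorem ndg_iter {x : WW d} (h : Ndg d x) (N : ℕ) {p : ℂ × ℂ} (hp : (FH d x)^[N] p = 0) :
    p = 0 := by
  induction N with
  | zero => exact hp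
  | succ N ih =>
    rw [Function.iterate_succ_apply'] at hp
    exact ih (h _ hp)

theorem ndg_iter_one {x : WW d} (h : Ndg d x) (N : ℕ) (z : ℂ) : (FH d x)^[N] (z, 1) ≠ 0 := by
  intro h0
  have := congrArg Prod.snd (ndg_iter h N h0)
  exact one_ne_zero this

theorem ndg_iter_inf {x : WW d} (h : Ndg d x) (N : ℕ) : (FH d x)^[N] (1, 0) ≠ 0 := by
  intro h0
  have := congrArg Prod.fst (ndg_iter h N h0)
  exact one_ne_zero this

theorem over_of_eq {p : ℂ × ℂ} {w : ℂ} (hp : p ≠ 0) (h : p.1 = w * p.2) : Over p w := by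
  refine ⟨fun h2 => hp ?_, h⟩
  rw [h2, mul_zero] at h
  exact Prod.ext h h2

/-- The finite point over which `f^N` sends `z`. -/
noncomputable def vv (d : ℕ) (x : WW d) (N : ℕ) (z : ℂ) : ℂ :=
  ((FH d x)^[N] (z, 1)).1 / ((FH d x)^[N] (z, 1)).2

theorem over_iff {p : ℂ × ℂ} {w : ℂ} : Over p w ↔ p.2 ≠ 0 ∧ p.1 / p.2 = w := by
  unfold Over
  constructor
  · rintro ⟨h1, h2⟩
    exact ⟨h1, by rw [h2, mul_div_assoc, div_self h1, mul_one]⟩
  · rintro ⟨h1, h2⟩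
    exact ⟨h1, by rw [← h2, div_mul_cancel₀ _ h1]⟩

theorem mem_WN {x : WW d} {S : Set ℂ} {N : ℕ} {z : ℂ} :
    z ∈ WN d x S N ↔ ((FH d x)^[N] (z, 1)).2 ≠ 0 ∧ vv d x N z ∈ S := by
  constructor
  · rintro ⟨w, hw, ho⟩
    rw [over_iff] at ho
    refine ⟨ho.1, ?_⟩
    unfold vv
    rw [ho.2]
    exact hw
  · rintro ⟨h1, h2⟩
    exact ⟨_, h2, over_iff.2 ⟨h1, rfl⟩⟩

theorem over_vv {x : WW d} {S : Set ℂ} {N : ℕ} {z : ℂ} (h : z ∈ WN d x S N) :
    Over ((FH d x)^[N] (z, 1)) (vv d x N z) := over_iff.2 ⟨(mem_WN.1 h).1, rfl⟩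

theorem vv_diff {x : WW d} {S : Set ℂ} {N : ℕ} : DifferentiableOn ℂ (vv d x N) (WN d x S N) := by
  intro z hz
  have h := (differentiable_one x N) z
  exact (h.fst.div h.snd (mem_WN.1 hz).1).differentiableWithinAt

theorem isOpen_WN {x : WW d} {S : Set ℂ} (hS : IsOpen S) (N : ℕ) : IsOpen (WN d x S N) := by
  have h := (differentiable_one x N).continuous
  have h1 : IsOpen {z : ℂ | ((FH d x)^[N] (z, 1)).2 ≠ 0} :=
    isOpen_ne_fun h.snd continuous_const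
  have h2 : ContinuousOn (vv d x N) {z : ℂ | ((FH d x)^[N] (z, 1)).2 ≠ 0} :=
    h.fst.continuousOn.div h.snd.continuousOn (fun z hz => hz)
  have e : WN d x S N = {z : ℂ | ((FH d x)^[N] (z, 1)).2 ≠ 0} ∩ vv d x N ⁻¹' S := by
    ext z
    exact mem_WN
  rw [e]
  exact h2.isOpen_inter_preimage h1 hS

variable {γ : ℂ → WW d} {ρ : ℝ} {U : Set ℂ} {H : ℂ → ℂ → ℂ} {Bd : ℕ → Set ℂ}

theorem root_gen (hROOT : Pool.Agent.H713R3.ZA.StROOT) (hPRO : StPRO) (hWN : StWN) (hd : 2 ≤ d)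
    (hr : RDA d γ ρ U H Bd) (N : ℕ) {V : Type} [NormedAddCommGroup V]
    [NormedSpace ℂ V] [FiniteDimensional ℂ V] {U' : Set V} (hUo : IsOpen U') (hUc : Convex ℝ U')
    {τ σ : V → ℂ} (hτ : DifferentiableOn ℂ τ U') (hσ : DifferentiableOn ℂ σ U')
    (hτm : ∀ s ∈ U', τ s ∈ ball (0 : ℂ) ρ) (hσm : ∀ s ∈ U', σ s ∈ WN d (γ 0) (U \ Bd N) N)
    {s₀ : V} (hs₀ : s₀ ∈ U') {u : ℂ}
    (hu : Over ((FH d (γ (τ s₀)))^[N] (u, 1)) (H (τ s₀) (vv d (γ 0) N (σ s₀)))) :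
    ∃ Z : V → ℂ, DifferentiableOn ℂ Z U' ∧ Z s₀ = u ∧
      (∀ s ∈ U', Over ((FH d (γ (τ s)))^[N] (Z s, 1)) (H (τ s) (vv d (γ 0) N (σ s)))) ∧
      ∀ Z' : V → ℂ, ContinuousOn Z' U' → (∃ s₁ ∈ U', Z' s₁ = Z s₁) →
        (∀ s ∈ U', Over ((FH d (γ (τ s)))^[N] (Z' s, 1)) (H (τ s) (vv d (γ 0) N (σ s)))) →
        ∀ s ∈ U', Z' s = Z s := by
  have hd1 : 1 ≤ d := by omega
  have hγτ : DifferentiableOn ℂ (fun s => γ (τ s)) U' := hr.γd.comp hτ hτm
  have hvσ : DifferentiableOn ℂ (fun s => vv d (γ 0) N (σ s)) U' := vv_diff.comp hσ hσm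
  have hvU : ∀ s ∈ U', vv d (γ 0) N (σ s) ∈ U \ Bd N := fun s hs => (mem_WN.1 (hσm s hs)).2
  set w : V → ℂ := fun s => H (τ s) (vv d (γ 0) N (σ s)) with hw
  have hwd : DifferentiableOn ℂ w U' := by
    have h1 : DifferentiableOn ℂ (fun s => ((τ s, vv d (γ 0) N (σ s)) : ℂ × ℂ)) U' := hτ.prodMk hvσ
    exact hr.Hd.comp h1 (fun s hs => ⟨hτm s hs, (hvU s hs).1⟩)
  set G : V → ℂ → ℂ := fun s z => ((FH d (γ (τ s)))^[N] (z, 1)).1 -
    w s * ((FH d (γ (τ s)))^[N] (z, 1)).2 with hG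
  have hGd : DifferentiableOn ℂ (fun p : V × ℂ => G p.1 p.2) (U' ×ˢ univ) := by
    have h1 : DifferentiableOn ℂ (fun p : V × ℂ => ((γ (τ p.1), (p.2, 1)) : WW d × (ℂ × ℂ)))
        (U' ×ˢ univ) := by
      apply DifferentiableOn.prodMk _ ((differentiable_snd.prodMk
        (differentiable_const (1 : ℂ))).differentiableOn)
      exact hγτ.comp differentiable_fst.differentiableOn (fun p hp => hp.1)
    have h2 : DifferentiableOn ℂ (fun p : V × ℂ => (FH d (γ (τ p.1)))^[N] (p.2, 1))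
        (U' ×ˢ univ) := (differentiable_iter N).comp_differentiableOn h1
    have h3 : DifferentiableOn ℂ (fun p : V × ℂ => w p.1) (U' ×ˢ univ) :=
      hwd.comp differentiable_fst.differentiableOn (fun p hp => hp.1)
    exact h2.fst.sub (h3.mul h2.snd)
  have hGc : ContDiffOn ℂ 1 (fun p : V × ℂ => G p.1 p.2) (U' ×ˢ univ) := by
    exact_mod_cast Pool.Agent.Helper540.contDiffOn_of_differentiableOn (hUo.prod isOpen_univ) hGd 1
  have hov : ∀ s ∈ U', ∀ z, G s z = 0 → Over ((FH d (γ (τ s)))^[N] (z, 1)) (w s) := by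
    intro s hs z hz
    exact over_of_eq (ndg_iter_one (hr.ndg _ (hτm s hs)) N z) (sub_eq_zero.1 hz)
  obtain ⟨Z, hZd, hZ0, hZr, hZu⟩ := hROOT V U' G hUo hUc hGc (by
    intro K hKU hK M'
    have hKc : IsCompact ((fun s => ((γ (τ s), w s) : WW d × ℂ)) '' K) :=
      hK.image_of_continuousOn ((hγτ.continuousOn.mono hKU).prodMk (hwd.continuousOn.mono hKU))
    obtain ⟨B, hB⟩ := hPRO d N _ hd1 hKc (by
      rintro _ ⟨s, hs, rfl⟩ heq
      have hs' := hKU hs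
      have ho : Over ((FH d (γ (τ s)))^[N] (1, 0)) (H (τ s) (vv d (γ 0) N (σ s))) :=
        over_of_eq (ndg_iter_inf (hr.ndg _ (hτm s hs')) N) heq
      exact (hvU s hs').2 (hr.inf _ (hτm s hs') N _ (hvU s hs').1 ho)) M'
    exact ⟨B, fun s hs z hz => hB _ ⟨s, hs, rfl⟩ z hz⟩) (by
    intro s hs z hz h0
    have hn := hr.ndg _ (hτm s hs)
    have ho := hov s hs z hz
    have hdz := (differentiable_one (γ (τ s)) N) z
    have hdiff1 : DifferentiableAt ℂ (fun ζ : ℂ => ((FH d (γ (τ s)))^[N] (ζ, 1)).1) z := hdz.fst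
    have hdiff2 : DifferentiableAt ℂ (fun ζ : ℂ => ((FH d (γ (τ s)))^[N] (ζ, 1)).2) z := hdz.snd
    have h1 : deriv (G s) z = deriv (fun ζ : ℂ => ((FH d (γ (τ s)))^[N] (ζ, 1)).1) z -
        w s * deriv (fun ζ : ℂ => ((FH d (γ (τ s)))^[N] (ζ, 1)).2) z := by
      rw [← deriv_const_mul _ hdiff2, ← deriv_fun_sub hdiff1 (hdiff2.const_mul _)]
    rw [h1] at h0
    have h2 := (hWN d N (γ (τ s)) z hd1 hn).1 (by
      rw [sub_eq_zero.1 h0, ho.2]; ring)
    obtain ⟨j, hj, hc⟩ := h2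
    have hp : (FH d (γ (τ s)))^[j] (z, 1) ≠ 0 := ndg_iter_one hn j z
    have hit : (FH d (γ (τ s)))^[N - j] ((FH d (γ (τ s)))^[j] (z, 1)) =
        (FH d (γ (τ s)))^[N] (z, 1) := by
      rw [← Function.iterate_add_apply, Nat.sub_add_cancel hj.le]
    exact (hvU s hs).2 (hr.crit _ (hτm s hs) _ hp hc N (N - j) (by omega) (by omega) _
      (hvU s hs).1 (by rw [hit]; exact ho))) s₀ hs₀ u
    (sub_eq_zero.2 hu.2)
  refine ⟨Z, hZd, hZ0, fun s hs => hov s hs _ (hZr s hs), ?_⟩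
  intro Z' h1 h2 h3
  exact hZu Z' h1 h2 (fun s hs => sub_eq_zero.2 (h3 s hs).2)

theorem over_zero (hr : RDA d γ ρ U H Bd) {N : ℕ} {z : ℂ}
    (hz : z ∈ WN d (γ 0) (U \ Bd N) N) :
    Over ((FH d (γ 0))^[N] (z, 1)) (H 0 (vv d (γ 0) N z)) := by
  rw [hr.H0 _ (mem_WN.1 hz).2.1]
  exact over_vv hz

end MOTaux

open MOTaux in
theorem mot_holds : StMOT := by
  classical
  intro hROOT hPRO hWN _ d γ ρ U H Bd hd hr N
  set W := WN d (γ 0) (U \ Bd N) N with hW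
  have hWo : IsOpen W := isOpen_WN (hr.Uo.sdiff (hr.Bf N).isClosed) N
  have h1 : ∀ z ∈ W, ∃ Z : ℂ → ℂ, DifferentiableOn ℂ Z (ball 0 ρ) ∧ Z 0 = z ∧
      (∀ t ∈ ball (0 : ℂ) ρ, Over ((FH d (γ t))^[N] (Z t, 1)) (H t (vv d (γ 0) N z))) ∧
      ∀ Z' : ℂ → ℂ, ContinuousOn Z' (ball 0 ρ) → (∃ s₁ ∈ ball (0 : ℂ) ρ, Z' s₁ = Z s₁) →
        (∀ t ∈ ball (0 : ℂ) ρ, Over ((FH d (γ t))^[N] (Z' t, 1)) (H t (vv d (γ 0) N z))) →
        ∀ t ∈ ball (0 : ℂ) ρ, Z' t = Z t := by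
    intro z hz
    exact root_gen hROOT hPRO hWN hd hr N (V := ℂ) (U' := ball 0 ρ) (τ := id) (σ := fun _ => z)
      isOpen_ball (convex_ball 0 ρ) differentiableOn_id (differentiableOn_const z)
      (fun s hs => hs) (fun _ _ => hz) (mem_ball_self hr.hρ) (over_zero hr hz)
  choose! Z hZd hZ0 hZr hZu using h1
  refine ⟨fun t z => Z z t, ?_, hZ0, ?_, ?_⟩
  swap
  · intro t ht z hz w hw
    have := hZr z hz t ht
    rwa [show vv d (γ 0) N z = w from (over_iff.1 hw).2] at this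
  swap
  · intro z hz Z' h2 h3 h4
    exact hZu z hz Z' h2 h3 (fun t ht => h4 t ht _ (over_vv hz))
  rintro ⟨t₁, z₁⟩ ⟨ht₁, hz₁⟩
  apply DifferentiableAt.differentiableWithinAt
  obtain ⟨δ, hδ, hball⟩ := Metric.isOpen_iff.mp hWo z₁ hz₁
  have hU : IsOpen (ball (0 : ℂ) ρ ×ˢ ball z₁ δ) := isOpen_ball.prod isOpen_ball
  obtain ⟨Y, hYd, hY0, hYr, hYu⟩ := root_gen hROOT hPRO hWN hd hr N (V := ℂ × ℂ)
    (U' := ball (0 : ℂ) ρ ×ˢ ball z₁ δ) (τ := Prod.fst) (σ := Prod.snd) hU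
    ((convex_ball 0 ρ).prod (convex_ball z₁ δ)) differentiable_fst.differentiableOn
    differentiable_snd.differentiableOn (fun s hs => hs.1) (fun s hs => hball hs.2)
    (s₀ := (0, z₁)) ⟨mem_ball_self hr.hρ, mem_ball_self hδ⟩ (over_zero hr hz₁)
  -- at time zero `Y` is the identity
  obtain ⟨Y₀, -, hY₀0, -, hY₀u⟩ := root_gen hROOT hPRO hWN hd hr N (V := ℂ)
    (U' := ball z₁ δ) (τ := fun _ => 0) (σ := id) isOpen_ball
    (convex_ball z₁ δ) (differentiableOn_const 0)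
    differentiableOn_id (fun s hs => mem_ball_self hr.hρ) (fun s hs => hball hs)
    (s₀ := z₁) (mem_ball_self hδ) (over_zero hr hz₁)
  have hid : ∀ z ∈ ball z₁ δ, Y (0, z) = z := by
    have e0 : ∀ z ∈ ball z₁ δ, id z = Y₀ z := hY₀u id continuousOn_id
      ⟨z₁, mem_ball_self hδ, hY₀0.symm⟩ (fun z hz => over_zero hr (hball hz))
    have e1 : ∀ z ∈ ball z₁ δ, (fun z => Y (0, z)) z = Y₀ z := by
      apply hY₀u
      · exact hYd.continuousOn.comp (by fun_prop) (fun z hz => ⟨mem_ball_self hr.hρ, hz⟩)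
      · exact ⟨z₁, mem_ball_self hδ, by
          have := e0 z₁ (mem_ball_self hδ)
          simp only [id] at this
          rw [← this]; exact hY0⟩
      · intro z hz
        exact hYr (0, z) ⟨mem_ball_self hr.hρ, hz⟩
    intro z hz
    have := (e1 z hz).trans (e0 z hz).symm
    simpa using this
  have heq : ∀ p ∈ ball (0 : ℂ) ρ ×ˢ ball z₁ δ, Y p = Z p.2 p.1 := by
    rintro ⟨t, z⟩ ⟨ht, hz⟩
    have hzW := hball hz
    refine hZu z hzW (fun t => Y (t, z)) ?_ ⟨0, mem_ball_self hr.hρ, ?_⟩ ?_ t ht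
    · exact hYd.continuousOn.comp (by fun_prop) (fun t ht => ⟨ht, hz⟩)
    · rw [hid z hz, hZ0 z hzW]
    · intro t ht
      exact hYr (t, z) ⟨ht, hz⟩
  have hmem : ((t₁, z₁) : ℂ × ℂ) ∈ ball (0 : ℂ) ρ ×ˢ ball z₁ δ := ⟨ht₁, mem_ball_self hδ⟩
  refine (hYd.differentiableAt (hU.mem_nhds hmem)).congr_of_eventuallyEq ?_
  filter_upwards [hU.mem_nhds hmem] with p hp
  exact (heq p hp).symm

end Pool.Agent.H713R4.RB
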