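import Mathlib
import Pool.Agent.H713R4.RB.Defs2

/-! Task USC2: upper semicontinuity of area (adapt TUSC). -/

set_option autoImplicit false

open Topology Filter Metric Set Polynomial MeasureTheory

namespace Pool.Agent.H713R4.RB

namespace USC2

theorem FH_cont (d : ℕ) : Continuous fun y : WW d × (ℂ × ℂ) => FH d y.1 y.2 := by
  unfold FH
  fun_prop

theorem iter_cont (d n : ℕ) : Continuous fun y : WW d × (ℂ × ℂ) => (FH d y.1)^[n] y.2 := by
  induction n with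
  | zero => exact continuous_snd
  | succ n ih =>
    simp only [Function.iterate_succ_apply']
    exact (FH_cont d).comp (continuous_fst.prodMk ih)

theorem FH_smul (d : ℕ) (x : WW d) (c : ℂ) (p : ℂ × ℂ) :
    FH d x (c • p) = c ^ d • FH d x p := by
  have key : ∀ i : Fin (d + 1), (c * p.1) ^ (i : ℕ) * (c * p.2) ^ (d - (i : ℕ)) =
      c ^ d * (p.1 ^ (i : ℕ) * p.2 ^ (d - (i : ℕ))) := by
    intro i
    rw [mul_pow, mul_pow]
    have h : c ^ d = c ^ (i : ℕ) * c ^ (d - (i : ℕ)) := by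
      rw [← pow_add]
      congr 1
      have := i.isLt
      omega
    rw [h]
    ring
  refine Prod.ext ?_ ?_
  · simp only [FH, Prod.smul_fst, Prod.smul_snd, smul_eq_mul, key, Finset.mul_sum]
    exact Finset.sum_congr rfl fun i _ => by ring
  · simp only [FH, Prod.smul_fst, Prod.smul_snd, smul_eq_mul, key, Finset.mul_sum]
    exact Finset.sum_congr rfl fun i _ => by ring

theorem iter_smul (d n : ℕ) (x : WW d) (c : ℂ) (p : ℂ × ℂ) :
    (FH d x)^[n] (c • p) = c ^ (d ^ n) • (FH d x)^[n] p := by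
  induction n with
  | zero => simp
  | succ n ih =>
    rw [Function.iterate_succ_apply', ih, FH_smul, Function.iterate_succ_apply', ← pow_mul,
      pow_succ]

theorem over_smul {p : ℂ × ℂ} {c w : ℂ} (hc : c ≠ 0) (h : Over p w) : Over (c • p) w := by
  refine ⟨?_, ?_⟩
  · rw [Prod.smul_snd, smul_eq_mul]
    exact mul_ne_zero hc h.1
  · rw [Prod.smul_snd, Prod.smul_fst, smul_eq_mul, smul_eq_mul, h.2]
    ring

theorem att_smul {d q : ℕ} {s : Fin q → WW d → ℂ} {rr : Fin q → ℝ} {x : WW d} {p : ℂ × ℂ}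
    (h : Att d q s rr x p) {c : ℂ} (hc : c ≠ 0) : Att d q s rr x (c • p) := by
  obtain ⟨n, l, w, hw, hwb⟩ := h
  refine ⟨n, l, w, ?_, hwb⟩
  rw [iter_smul]
  exact over_smul (pow_ne_zero _ hc) hw

theorem att_open {d q : ℕ} {xT : WW d} {ρ₀ : ℝ} {s : Fin q → WW d → ℂ} {rr : Fin q → ℝ}
    (hsc : ∀ l, ContinuousOn (s l) (ball xT ρ₀)) (y : WW d × (ℂ × ℂ)) (hy : y.1 ∈ ball xT ρ₀)
    (ha : Att d q s rr y.1 y.2) : ∀ᶠ y' in 𝓝 y, Att d q s rr y'.1 y'.2 := by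
  obtain ⟨n, l, w, hw, hwb⟩ := ha
  have h1 : ContinuousAt (fun y' : WW d × (ℂ × ℂ) => ((FH d y'.1)^[n] y'.2).1) y :=
    (continuous_fst.comp (iter_cont d n)).continuousAt
  have h2 : ContinuousAt (fun y' : WW d × (ℂ × ℂ) => ((FH d y'.1)^[n] y'.2).2) y :=
    (continuous_snd.comp (iter_cont d n)).continuousAt
  have h3 : ContinuousAt (fun y' : WW d × (ℂ × ℂ) =>
      ((FH d y'.1)^[n] y'.2).1 / ((FH d y'.1)^[n] y'.2).2) y := h1.div h2 hw.1
  have h4 : ContinuousAt (fun y' : WW d × (ℂ × ℂ) => s l y'.1) y := by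
    have h5 : ContinuousAt (s l) y.1 := (hsc l).continuousAt (isOpen_ball.mem_nhds hy)
    exact ContinuousAt.comp (f := fun y' : WW d × (ℂ × ℂ) => y'.1) h5 continuous_fst.continuousAt
  have h6 : Tendsto (fun y' : WW d × (ℂ × ℂ) =>
      dist (((FH d y'.1)^[n] y'.2).1 / ((FH d y'.1)^[n] y'.2).2) (s l y'.1)) (𝓝 y)
      (𝓝 (dist (((FH d y.1)^[n] y.2).1 / ((FH d y.1)^[n] y.2).2) (s l y.1))) :=
    Tendsto.dist h3 h4
  have h7 : dist (((FH d y.1)^[n] y.2).1 / ((FH d y.1)^[n] y.2).2) (s l y.1) < rr l := by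
    rw [hw.2, mul_div_assoc, div_self hw.1, mul_one]
    exact mem_ball.mp hwb
  filter_upwards [h2.eventually_ne hw.1, (tendsto_order.mp h6).2 _ h7] with y' h h'
  exact ⟨n, l, _, ⟨h, (div_mul_cancel₀ _ h).symm⟩, mem_ball.mpr h'⟩

end USC2

theorem usc2_holds : StUSC2 := by
  intro d q xT ρ₀ s rr σ th h hinf hvol η hη
  have hxT : xT ∈ ball xT ρ₀ := mem_ball_self h.hρ
  have hsc : ∀ l, ContinuousOn (s l) (ball xT ρ₀) := fun l => (h.sd l).continuousOn
  -- uniformity near infinity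
  have h1 : ∀ᶠ y in 𝓝 ((xT, ((1 : ℂ), (0 : ℂ))) : WW d × (ℂ × ℂ)), Att d q s rr y.1 y.2 :=
    USC2.att_open hsc _ hxT hinf
  have h2 : ∀ᶠ y : WW d × ℂ in 𝓝 (xT, 0), Att d q s rr y.1 (1, y.2) := by
    have hc : Continuous fun y : WW d × ℂ => ((y.1, ((1 : ℂ), y.2)) : WW d × (ℂ × ℂ)) := by
      fun_prop
    exact (hc.tendsto (xT, 0)).eventually h1
  obtain ⟨δ₁, hδ₁, hδ₁'⟩ := Metric.eventually_nhds_iff.mp h2
  have hfar : ∀ x ∈ ball xT δ₁, ∀ z : ℂ, δ₁⁻¹ < ‖z‖ → Att d q s rr x (z, 1) := by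
    intro x hx z hz
    have hz1 : 0 < ‖z‖ := lt_trans (inv_pos.mpr hδ₁) hz
    have hz0 : z ≠ 0 := norm_pos_iff.mp hz1
    have h3 : Att d q s rr x (1, z⁻¹) := by
      refine hδ₁' (y := (x, z⁻¹)) ?_
      rw [Prod.dist_eq, max_lt_iff]
      refine ⟨mem_ball.mp hx, ?_⟩
      show dist z⁻¹ 0 < δ₁
      rw [dist_zero_right, norm_inv]
      exact inv_lt_of_inv_lt₀ hδ₁ hz
    have h4 := USC2.att_smul h3 hz0
    have h5 : z • ((1 : ℂ), z⁻¹) = (z, 1) := by
      rw [Prod.smul_mk, smul_eq_mul, smul_eq_mul, mul_one, mul_inv_cancel₀ hz0]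
    rwa [h5] at h4
  -- the attracted set
  have hO : IsOpen {z : ℂ | Att d q s rr xT (z, 1)} := by
    rw [isOpen_iff_eventually]
    intro z hz
    have hc : Continuous fun z : ℂ => ((xT, (z, (1 : ℂ))) : WW d × (ℂ × ℂ)) := by
      fun_prop
    exact (hc.tendsto z).eventually (USC2.att_open hsc (xT, (z, 1)) hxT hz)
  have hfin : volume ({z : ℂ | Att d q s rr xT (z, 1)} ∩ closedBall 0 δ₁⁻¹) ≠ ⊤ :=
    ne_top_of_le_ne_top measure_closedBall_lt_top.ne (measure_mono inter_subset_right)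
  have hη' : ENNReal.ofReal η ≠ 0 := (ENNReal.ofReal_pos.mpr hη).ne'
  obtain ⟨K, hKs, hKc, hKv⟩ := (hO.measurableSet.inter
    measurableSet_closedBall).exists_isCompact_sdiff_lt hfin hη'
  -- the tube lemma
  have hev : ∀ᶠ x in 𝓝 xT, ∀ z ∈ K, Att d q s rr x (z, 1) := by
    apply IsCompact.eventually_forall_of_forall_eventually hKc
    intro z hz
    have hc : Continuous fun y : WW d × ℂ => ((y.1, (y.2, (1 : ℂ))) : WW d × (ℂ × ℂ)) := by
      fun_prop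
    exact (hc.tendsto (xT, z)).eventually (USC2.att_open hsc (xT, (z, 1)) hxT (hKs hz).1)
  obtain ⟨δ₂, hδ₂, hδ₂'⟩ := Metric.eventually_nhds_iff.mp hev
  refine ⟨min δ₁ δ₂, lt_min hδ₁ hδ₂, fun x hx => ?_⟩
  have hx1 : x ∈ ball xT δ₁ := ball_subset_ball (min_le_left _ _) hx
  have hx2 : dist x xT < δ₂ := lt_of_lt_of_le (mem_ball.mp hx) (min_le_right _ _)
  have hsub : {z : ℂ | ¬ Att d q s rr x (z, 1)} ⊆
      (({z : ℂ | Att d q s rr xT (z, 1)} ∩ closedBall 0 δ₁⁻¹) \ K) ∪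
        {z : ℂ | ¬ Att d q s rr xT (z, 1)} := by
    intro z hz
    by_cases hza : Att d q s rr xT (z, 1)
    · left
      refine ⟨⟨hza, ?_⟩, fun hzK => hz (hδ₂' hx2 z hzK)⟩
      rw [mem_closedBall_zero_iff]
      by_contra hcon
      push Not at hcon
      exact hz (hfar x hx1 z hcon)
    · exact Or.inr hza
  calc volume {z : ℂ | ¬ Att d q s rr x (z, 1)}
      ≤ volume ((({z : ℂ | Att d q s rr xT (z, 1)} ∩ closedBall 0 δ₁⁻¹) \ K) ∪
        {z : ℂ | ¬ Att d q s rr xT (z, 1)}) := measure_mono hsub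
    _ ≤ volume (({z : ℂ | Att d q s rr xT (z, 1)} ∩ closedBall 0 δ₁⁻¹) \ K) +
        volume {z : ℂ | ¬ Att d q s rr xT (z, 1)} := measure_union_le _ _
    _ = volume (({z : ℂ | Att d q s rr xT (z, 1)} ∩ closedBall 0 δ₁⁻¹) \ K) := by
        rw [hvol, add_zero]
    _ ≤ ENNReal.ofReal η := hKv.le

end Pool.Agent.H713R4.RB
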