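import Mathlib
import Pool.Agent.H713R4.RB.Defs2
import Pool.Agent.H713R4.RB.TUSC2

/-! Task OPEN: attracted set open, infinity. -/

set_option autoImplicit false

open Topology Filter Metric Set Polynomial MeasureTheory

namespace Pool.Agent.H713R4.RB

namespace OPEN

theorem att_step {d q : ℕ} {xT : WW d} {ρ₀ : ℝ} {s : Fin q → WW d → ℂ} {rr : Fin q → ℝ}
    {σ : Equiv.Perm (Fin q)} {th : ℝ} (h : SK d q xT ρ₀ s rr σ th) {x : WW d}
    (hx : x ∈ ball xT ρ₀) {p : ℂ × ℂ} {l : Fin q} {w : ℂ} (hw : Over p w)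
    (hwb : w ∈ ball (s l x) (rr l)) :
    ∃ w' : ℂ, Over (FH d x p) w' ∧ w' ∈ ball (s (σ l) x) (rr (σ l)) := by
  obtain ⟨w', h1, h2⟩ := h.con x hx l w hwb
  have hp : p = p.2 • ((w, 1) : ℂ × ℂ) := by
    apply Prod.ext
    · rw [Prod.smul_fst, smul_eq_mul]
      rw [mul_comm]
      exact hw.2
    · rw [Prod.smul_snd, smul_eq_mul, mul_one]
  refine ⟨w', ?_, ?_⟩
  · rw [hp, USC2.FH_smul]
    exact USC2.over_smul (pow_ne_zero _ hw.1) h1
  · rw [mem_ball, dist_eq_norm] at hwb ⊢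
    have hr := h.rp l
    have hr' := h.rp (σ l)
    have h3 : ‖w' - s (σ l) x‖ * rr l < rr (σ l) * rr l := by
      calc ‖w' - s (σ l) x‖ * rr l ≤ th * ‖w - s l x‖ * rr (σ l) := h2
        _ ≤ 1 * ‖w - s l x‖ * rr (σ l) := by
            gcongr
            exact h.th1.le
        _ < rr l * rr (σ l) := by
            rw [one_mul]
            exact mul_lt_mul_of_pos_right hwb hr'
        _ = rr (σ l) * rr l := mul_comm _ _
    exact lt_of_mul_lt_mul_right h3 hr.le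

end OPEN

theorem open_holds : StOPEN := by
  intro d q xT ρ₀ s rr σ th h
  have hsc : ∀ l, ContinuousOn (s l) (ball xT ρ₀) := fun l => (h.sd l).continuousOn
  refine ⟨?_, ?_, ?_, ?_⟩
  · rw [isOpen_iff_eventually]
    rintro y ⟨hy, ha⟩
    have h1 := USC2.att_open hsc y hy ha
    have h2 : ∀ᶠ y' : WW d × (ℂ × ℂ) in 𝓝 y, y'.1 ∈ ball xT ρ₀ :=
      (continuous_fst.tendsto y).eventually (isOpen_ball.mem_nhds hy)
    filter_upwards [h1, h2] with y' h3 h4
    exact ⟨h4, h3⟩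
  · intro hinf
    have hxT : xT ∈ ball xT ρ₀ := mem_ball_self h.hρ
    have h1 : ∀ᶠ y in 𝓝 ((xT, ((1 : ℂ), (0 : ℂ))) : WW d × (ℂ × ℂ)), Att d q s rr y.1 y.2 :=
      USC2.att_open hsc _ hxT hinf
    have h2 : ∀ᶠ y : WW d × ℂ in 𝓝 (xT, 0), Att d q s rr y.1 (1, y.2) := by
      have hc : Continuous fun y : WW d × ℂ => ((y.1, ((1 : ℂ), y.2)) : WW d × (ℂ × ℂ)) := by
        fun_prop
      exact (hc.tendsto (xT, 0)).eventually h1
    obtain ⟨δ₁, hδ₁, hδ₁'⟩ := Metric.eventually_nhds_iff.mp h2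
    refine ⟨δ₁⁻¹, min δ₁ ρ₀, inv_pos.2 hδ₁, lt_min hδ₁ h.hρ, min_le_right _ _, ?_⟩
    intro x hx
    have hx' : dist x xT < δ₁ := lt_of_lt_of_le (mem_ball.mp hx) (min_le_left _ _)
    refine ⟨?_, ?_⟩
    · refine hδ₁' (y := (x, 0)) ?_
      rw [Prod.dist_eq, max_lt_iff]
      refine ⟨hx', ?_⟩
      show dist (0 : ℂ) 0 < δ₁
      rw [dist_self]
      exact hδ₁
    · intro z hz
      have hz1 : 0 < ‖z‖ := lt_trans (inv_pos.mpr hδ₁) hz
      have hz0 : z ≠ 0 := norm_pos_iff.mp hz1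
      have h3 : Att d q s rr x (1, z⁻¹) := by
        refine hδ₁' (y := (x, z⁻¹)) ?_
        rw [Prod.dist_eq, max_lt_iff]
        refine ⟨hx', ?_⟩
        show dist z⁻¹ 0 < δ₁
        rw [dist_zero_right, norm_inv]
        exact inv_lt_of_inv_lt₀ hδ₁ hz
      have h4 := USC2.att_smul h3 hz0
      have h5 : z • ((1 : ℂ), z⁻¹) = (z, 1) := by
        rw [Prod.smul_mk, smul_eq_mul, smul_eq_mul, mul_one, mul_inv_cancel₀ hz0]
      rwa [h5] at h4
  · intro x _ p hp c hc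
    exact USC2.att_smul hp hc
  · intro x hx p
    constructor
    · rintro ⟨n, l, w, hw, hwb⟩
      refine ⟨n + 1, l, w, ?_, hwb⟩
      rw [Function.iterate_succ_apply]
      exact hw
    · rintro ⟨n, l, w, hw, hwb⟩
      cases n with
      | zero =>
        obtain ⟨w', h1, h2⟩ := OPEN.att_step h hx hw hwb
        exact ⟨0, σ l, w', h1, h2⟩
      | succ n =>
        rw [Function.iterate_succ_apply] at hw
        exact ⟨n, l, w, hw, hwb⟩

end Pool.Agent.H713R4.RB
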