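import Mathlib
import Pool.Agent.H713R4.RB.Defs

/-! Task PRO: properness of f^N(z) = w. -/

set_option autoImplicit false

open Topology Filter Metric Set Polynomial MeasureTheory

namespace Pool.Agent.H713R4.RB

theorem pro_homog (d : ℕ) (x : WW d) (c : ℂ) (p : ℂ × ℂ) :
    FH d x (c * p.1, c * p.2) = (c ^ d * (FH d x p).1, c ^ d * (FH d x p).2) := by
  unfold FH
  refine Prod.ext ?_ ?_
  · show ∑ i : Fin (d + 1), x (Sum.inl i) * ((c * p.1) ^ (i : ℕ) * (c * p.2) ^ (d - (i : ℕ))) =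
      c ^ d * ∑ i : Fin (d + 1), x (Sum.inl i) * (p.1 ^ (i : ℕ) * p.2 ^ (d - (i : ℕ)))
    rw [Finset.mul_sum]
    refine Finset.sum_congr rfl fun i _ => ?_
    have hi : (i : ℕ) ≤ d := Nat.lt_succ_iff.mp i.2
    have h : c ^ d = c ^ (i : ℕ) * c ^ (d - (i : ℕ)) := by rw [← pow_add, Nat.add_sub_cancel' hi]
    rw [mul_pow, mul_pow, h]
    ring
  · show ∑ i : Fin (d + 1), x (Sum.inr i) * ((c * p.1) ^ (i : ℕ) * (c * p.2) ^ (d - (i : ℕ))) =
      c ^ d * ∑ i : Fin (d + 1), x (Sum.inr i) * (p.1 ^ (i : ℕ) * p.2 ^ (d - (i : ℕ)))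
    rw [Finset.mul_sum]
    refine Finset.sum_congr rfl fun i _ => ?_
    have hi : (i : ℕ) ≤ d := Nat.lt_succ_iff.mp i.2
    have h : c ^ d = c ^ (i : ℕ) * c ^ (d - (i : ℕ)) := by rw [← pow_add, Nat.add_sub_cancel' hi]
    rw [mul_pow, mul_pow, h]
    ring

theorem pro_homogN (d N : ℕ) (x : WW d) (c : ℂ) (p : ℂ × ℂ) :
    (FH d x)^[N] (c * p.1, c * p.2) =
      (c ^ (d ^ N) * ((FH d x)^[N] p).1, c ^ (d ^ N) * ((FH d x)^[N] p).2) := by
  induction N with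
  | zero => simp
  | succ N ih =>
    rw [Function.iterate_succ_apply', Function.iterate_succ_apply', ih,
      pro_homog d x (c ^ d ^ N) ((FH d x)^[N] p), ← pow_mul, ← pow_succ]

theorem pro_cont (d N : ℕ) : Continuous (fun q : WW d × (ℂ × ℂ) => (FH d q.1)^[N] q.2) := by
  induction N with
  | zero => exact continuous_snd
  | succ N ih =>
    have h1 : Continuous (fun q : WW d × (ℂ × ℂ) => FH d q.1 q.2) := by
      unfold FH
      fun_prop
    have h2 : (fun q : WW d × (ℂ × ℂ) => (FH d q.1)^[N + 1] q.2) =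
        (fun q : WW d × (ℂ × ℂ) => FH d q.1 q.2) ∘
          (fun q : WW d × (ℂ × ℂ) => (q.1, (FH d q.1)^[N] q.2)) := by
      funext q
      simp only [Function.comp_apply]
      rw [Function.iterate_succ_apply']
    rw [h2]
    exact h1.comp (continuous_fst.prodMk ih)

theorem pro_abs {Y : Type*} [TopologicalSpace Y] (K : Set Y) (G : Y → ℂ × ℂ → ℂ) (D : ℕ)
    (hD : 1 ≤ D) (hK : IsCompact K) (hG : Continuous (fun q : Y × (ℂ × ℂ) => G q.1 q.2))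
    (hom : ∀ (y : Y) (c : ℂ) (p : ℂ × ℂ), G y (c * p.1, c * p.2) = c ^ D * G y p)
    (hne : ∀ y ∈ K, G y (1, 0) ≠ 0) (M : ℝ) :
    ∃ B : ℝ, ∀ y ∈ K, ∀ z : ℂ, ‖G y (z, 1)‖ ≤ M → ‖z‖ ≤ B := by
  have hc : Continuous (fun q : Y × ℂ => ‖G q.1 (1, q.2)‖) :=
    (hG.comp (continuous_fst.prodMk (continuous_const.prodMk continuous_snd))).norm
  rcases K.eq_empty_or_nonempty with rfl | hKn
  · exact ⟨0, fun y hy => absurd hy (Set.notMem_empty y)⟩
  have hc0 : Continuous (fun y : Y => ‖G y (1, 0)‖) :=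
    hc.comp (continuous_id.prodMk continuous_const)
  obtain ⟨y0, hy0, hmin⟩ := hK.exists_isMinOn hKn hc0.continuousOn
  obtain ⟨m, hm⟩ : ∃ m : ℝ, m = ‖G y0 (1, 0)‖ / 2 := ⟨_, rfl⟩
  have hm0 : 0 < m := by
    have h1 : 0 < ‖G y0 (1, 0)‖ := norm_pos_iff.mpr (hne y0 hy0)
    rw [hm]
    linarith
  have hO : IsOpen {q : Y × ℂ | m < ‖G q.1 (1, q.2)‖} := isOpen_lt continuous_const hc
  have hsub : K ×ˢ ({0} : Set ℂ) ⊆ {q : Y × ℂ | m < ‖G q.1 (1, q.2)‖} := by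
    rintro ⟨y, t⟩ ⟨hy, ht⟩
    have ht0 : t = 0 := ht
    subst ht0
    have h2 : ‖G y0 (1, 0)‖ ≤ ‖G y (1, 0)‖ := hmin hy
    show m < ‖G y (1, 0)‖
    linarith
  obtain ⟨u, v, -, hv, hu1, hv1, huv⟩ := generalized_tube_lemma hK isCompact_singleton hO hsub
  obtain ⟨δ, hδ, hball⟩ := Metric.isOpen_iff.mp hv 0 (hv1 rfl)
  refine ⟨max 1 (max (1 / δ) (M / m)), fun y hy z hz => ?_⟩
  by_contra hB
  rw [not_le, max_lt_iff, max_lt_iff] at hB
  obtain ⟨hz1, hz2, hz3⟩ := hB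
  have hz0 : z ≠ 0 := by
    intro h
    rw [h, norm_zero] at hz1
    linarith
  have hzi : z⁻¹ ∈ ball (0 : ℂ) δ := by
    rw [mem_ball_zero_iff, norm_inv]
    rw [inv_lt_comm₀ (by linarith) hδ, inv_eq_one_div]
    exact hz2
  have hmem : (y, z⁻¹) ∈ u ×ˢ v := ⟨hu1 hy, hball hzi⟩
  have h3 : m < ‖G y (1, z⁻¹)‖ := huv hmem
  have h4 : G y (z, 1) = z ^ D * G y (1, z⁻¹) := by
    rw [← hom y z (1, z⁻¹), mul_one, mul_inv_cancel₀ hz0]
  rw [h4, norm_mul, norm_pow] at hz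
  have h7 : ‖z‖ ≤ ‖z‖ ^ D := le_self_pow₀ hz1.le (by omega)
  rw [div_lt_iff₀ hm0] at hz3
  have h8 : ‖z‖ * m ≤ ‖z‖ ^ D * ‖G y (1, z⁻¹)‖ :=
    mul_le_mul h7 h3.le hm0.le (by positivity)
  linarith

theorem pro_holds : StPRO := by
  intro d N K hd hK hne M
  refine pro_abs K (fun y p => ((FH d y.1)^[N] p).1 - y.2 * ((FH d y.1)^[N] p).2) (d ^ N)
    (Nat.one_le_pow _ _ hd) hK ?_ ?_ (fun y hy => sub_ne_zero.mpr (hne y hy)) M
  · have h1 : Continuous (fun q : (WW d × ℂ) × (ℂ × ℂ) => (FH d q.1.1)^[N] q.2) :=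
      (pro_cont d N).comp ((continuous_fst.comp continuous_fst).prodMk continuous_snd)
    exact (continuous_fst.comp h1).sub ((continuous_snd.comp continuous_fst).mul
      (continuous_snd.comp h1))
  · intro y c p
    simp only [pro_homogN d N y.1 c p]
    ring

end Pool.Agent.H713R4.RB
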