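import Mathlib
import Pool.Agent.H713R4.RB.Defs2

/-! Task RIGA: rigid discs give the conjugacy U, H. -/

set_option autoImplicit false

open Topology Filter Metric Set Polynomial MeasureTheory

namespace Pool.Agent.H713R4.RB

namespace RIGA

theorem over_unique {p : ℂ × ℂ} {w w' : ℂ} (h : Over p w) (h' : Over p w') : w = w' := by
  have h1 : w * p.2 = w' * p.2 := by rw [← h.2, ← h'.2]
  exact mul_right_cancel₀ h.1 h1

theorem over_smul {p : ℂ × ℂ} {w : ℂ} (h : Over p w) : p = p.2 • ((w, 1) : ℂ × ℂ) := by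
  ext
  · simp [h.2, mul_comm]
  · simp

theorem FH_smul (d : ℕ) (x : WW d) (c : ℂ) (p : ℂ × ℂ) : FH d x (c • p) = c ^ d • FH d x p := by
  unfold FH
  ext
  · simp only [Prod.smul_fst, Prod.smul_snd, smul_eq_mul, Finset.mul_sum]
    refine Finset.sum_congr rfl fun i _ => ?_
    have hi : (i : ℕ) ≤ d := Nat.lt_succ_iff.1 i.2
    have : c ^ d = c ^ (i : ℕ) * c ^ (d - (i : ℕ)) := by
      rw [← pow_add]; congr 1; omega
    rw [this, mul_pow, mul_pow]; ring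
  · simp only [Prod.smul_fst, Prod.smul_snd, smul_eq_mul, Finset.mul_sum]
    refine Finset.sum_congr rfl fun i _ => ?_
    have hi : (i : ℕ) ≤ d := Nat.lt_succ_iff.1 i.2
    have : c ^ d = c ^ (i : ℕ) * c ^ (d - (i : ℕ)) := by
      rw [← pow_add]; congr 1; omega
    rw [this, mul_pow, mul_pow]; ring

theorem over_FH {d : ℕ} {x : WW d} {p : ℂ × ℂ} {w w' : ℂ} (h : Over p w)
    (h' : Over (FH d x (w, 1)) w') : Over (FH d x p) w' := by
  rw [over_smul h, FH_smul]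
  refine ⟨?_, ?_⟩
  · simp only [Prod.smul_snd, smul_eq_mul]
    exact mul_ne_zero (pow_ne_zero _ h.1) h'.1
  · simp only [Prod.smul_fst, Prod.smul_snd, smul_eq_mul]
    rw [h'.2]; ring

theorem FH_cont (d : ℕ) (x : WW d) : Continuous (FH d x) := by
  unfold FH
  fun_prop

theorem FH_iter_cont (d : ℕ) (x : WW d) (N : ℕ) : Continuous ((FH d x)^[N]) :=
  (FH_cont d x).iterate N

section
variable {d q : ℕ} {xT : WW d} {ρ₀ : ℝ} {s : Fin q → WW d → ℂ} {rr : Fin q → ℝ}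
    {σ : Equiv.Perm (Fin q)} {th : ℝ} {K : WW d × (ℂ × ℂ) → ℂ} {lab : WW d × (ℂ × ℂ) → Fin q}

theorem att_ball {x : WW d} {l : Fin q} {z : ℂ} (hz : z ∈ ball (s l x) (rr l)) :
    Att d q s rr x (z, 1) := ⟨0, l, z, by simp [Over], hz⟩

theorem K_over (hK : KD d q xT ρ₀ s rr σ K lab) {x : WW d} (hx : x ∈ BM d q xT ρ₀ s) {p : ℂ × ℂ}
    {w : ℂ} (h : Over p w) (ha : Att d q s rr x (w, 1)) : K (x, p) = K (x, (w, 1)) := by
  conv_lhs => rw [over_smul h]
  exact hK.scal x hx (w, 1) ha p.2 h.1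

theorem lab_over (hK : KD d q xT ρ₀ s rr σ K lab) {x : WW d} (hx : x ∈ ball xT ρ₀) {p : ℂ × ℂ}
    {w : ℂ} (h : Over p w) (ha : Att d q s rr x (w, 1)) : lab (x, p) = lab (x, (w, 1)) := by
  conv_lhs => rw [over_smul h]
  exact hK.scal' x hx (w, 1) ha p.2 h.1

theorem BL_sub {lam : ℝ} (hl : 0 < lam) {x : WW d} (hx : x ∈ BL d q xT ρ₀ s lam) :
    x ∈ BM d q xT ρ₀ s :=
  ⟨hx.1, fun l h => by have := hx.2 l; rw [h, norm_zero] at this; linarith⟩

/-- the image of a point of a trapping disc -/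
theorem step_over (hS : SK d q xT ρ₀ s rr σ th) (hK : KD d q xT ρ₀ s rr σ K lab) {x : WW d}
    (hx : x ∈ BM d q xT ρ₀ s) {l : Fin q} {z w : ℂ} (hz : z ∈ ball (s l x) (rr l))
    (hw : Over (FH d x (z, 1)) w) :
    ‖w - s (σ l) x‖ * rr l ≤ th * ‖z - s l x‖ * rr (σ l) ∧ w ∈ ball (s (σ l) x) (rr (σ l)) ∧
      K (x, (w, 1)) = mu d x (s l x) * K (x, (z, 1)) := by
  obtain ⟨w', h1, h2⟩ := hS.con x hx.1 l z hz
  obtain rfl := over_unique hw h1
  have hw2 : w ∈ ball (s (σ l) x) (rr (σ l)) := by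
    rw [mem_ball, dist_eq_norm] at hz ⊢
    have a1 : th * ‖z - s l x‖ * rr (σ l) < rr l * rr (σ l) := by
      refine mul_lt_mul_of_pos_right ?_ (hS.rp _)
      nlinarith [hS.th0, hS.th1, norm_nonneg (z - s l x), hS.rp l]
    have a2 : ‖w - s (σ l) x‖ * rr l < rr (σ l) * rr l := by
      calc _ ≤ _ := h2
        _ < _ := a1
        _ = _ := by ring
    exact lt_of_mul_lt_mul_right a2 (hS.rp l).le
  refine ⟨h2, hw2, ?_⟩
  rw [← K_over hK hx hw (att_ball hw2), hK.step x hx (z, 1) (att_ball hz),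
    hK.loc x hx.1 l z hz]

theorem kappa_diff (hK : KD d q xT ρ₀ s rr σ K lab) {x : WW d} (hx : x ∈ BM d q xT ρ₀ s)
    (l : Fin q) : DifferentiableOn ℂ (fun z : ℂ => K (x, (z, 1))) (ball (s l x) (rr l)) := by
  have h := hK.hol
  refine h.comp (t := {y : WW d × (ℂ × ℂ) | y.1 ∈ BM d q xT ρ₀ s ∧ Att d q s rr y.1 y.2})
    (f := fun z : ℂ => ((x, (z, 1)) : WW d × (ℂ × ℂ))) ?_ ?_
  · fun_prop
  · intro z hz
    exact ⟨hx, att_ball hz⟩

theorem mu_le (hS : SK d q xT ρ₀ s rr σ th) (hK : KD d q xT ρ₀ s rr σ K lab) {x : WW d}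
    (hx : x ∈ BM d q xT ρ₀ s) (l : Fin q) : ‖mu d x (s l x)‖ * rr l ≤ rr (σ l) := by
  have key : ∀ l : Fin q, ∀ ε : ℝ, 0 < ε → ∀ᶠ z in 𝓝 (s l x),
      ‖K (x, (z, 1)) - (z - s l x)‖ ≤ ε * ‖z - s l x‖ := by
    intro l ε hε
    have h1 : HasDerivAt (fun ζ : ℂ => K (x, (ζ, 1))) 1 (s l x) := by
      have h2 := hK.der x hx l
      have h3 : DifferentiableAt ℂ (fun ζ : ℂ => K (x, (ζ, 1))) (s l x) :=
        differentiableAt_of_deriv_ne_zero (by rw [h2]; exact one_ne_zero)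
      have h5 := h3.hasDerivAt
      rw [h2] at h5
      exact h5
    have h4 := (hasDerivAt_iff_isLittleO.1 h1).bound hε
    filter_upwards [h4] with z hz
    have h0 : K (x, (s l x, 1)) = 0 := hK.zero x hx l
    simpa [h0] using hz
  -- choose the point
  obtain ⟨ε, hε0, hε1, hε2⟩ : ∃ ε : ℝ, 0 < ε ∧ ε < 1 ∧ (1 + ε) * th ≤ 1 - ε := by
    refine ⟨(1 - th) / 2, by linarith [hS.th1], by linarith [hS.th0], ?_⟩
    nlinarith [hS.th0, hS.th1]
  have hrl := hS.rp l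
  have hrl' := hS.rp (σ l)
  have e1 := key l ε hε0
  obtain ⟨δ, hδ, hd⟩ := Metric.eventually_nhds_iff.1 (key (σ l) ε hε0)
  have e2 : ∀ᶠ z in 𝓝 (s l x), z ∈ ball (s l x) (min (rr l) (δ * rr l / rr (σ l))) :=
    ball_mem_nhds _ (lt_min hrl (by positivity))
  have e3 : ∀ᶠ z in 𝓝[≠] (s l x), z ≠ s l x := eventually_mem_nhdsWithin
  obtain ⟨z, hz1, hz2, hz3⟩ := ((e1.filter_mono nhdsWithin_le_nhds).and
    ((e2.filter_mono nhdsWithin_le_nhds).and e3)).exists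
  have hzb : z ∈ ball (s l x) (rr l) := ball_subset_ball (min_le_left _ _) hz2
  obtain ⟨w, hw, -⟩ := hS.con x hx.1 l z hzb
  obtain ⟨h1, h2, h3⟩ := step_over hS hK hx hzb hw
  have hzz : ‖z - s l x‖ < δ * rr l / rr (σ l) := by
    have := ball_subset_ball (min_le_right _ _) hz2
    rwa [mem_ball, dist_eq_norm] at this
  have hpos : 0 < ‖z - s l x‖ := norm_pos_iff.2 (sub_ne_zero.2 hz3)
  have hw1 : dist w (s (σ l) x) < δ := by
    rw [dist_eq_norm]
    have a1 : ‖z - s l x‖ * rr (σ l) < δ * rr l := by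
      rwa [lt_div_iff₀ hrl'] at hzz
    have a2 : ‖w - s (σ l) x‖ * rr l < δ * rr l := by
      have : th * ‖z - s l x‖ * rr (σ l) ≤ ‖z - s l x‖ * rr (σ l) := by
        have : 0 ≤ ‖z - s l x‖ * rr (σ l) := by positivity
        nlinarith [hS.th1]
      linarith
    exact lt_of_mul_lt_mul_right a2 hrl.le
  have hw2 := hd hw1
  -- compare
  have b1 : ‖K (x, (w, 1))‖ ≤ (1 + ε) * ‖w - s (σ l) x‖ := by
    have := norm_le_norm_add_norm_sub' (K (x, (w, 1))) (w - s (σ l) x)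
    linarith
  have b2 : (1 - ε) * ‖z - s l x‖ ≤ ‖K (x, (z, 1))‖ := by
    have := norm_le_norm_add_norm_sub' (z - s l x) (K (x, (z, 1)))
    rw [norm_sub_rev (z - s l x) (K (x, (z, 1)))] at this
    linarith
  rw [h3, norm_mul] at b1
  have b3 : ‖mu d x (s l x)‖ * ((1 - ε) * ‖z - s l x‖) * rr l ≤
      (1 - ε) * ‖z - s l x‖ * rr (σ l) := by
    calc ‖mu d x (s l x)‖ * ((1 - ε) * ‖z - s l x‖) * rr l
        ≤ ‖mu d x (s l x)‖ * ‖K (x, (z, 1))‖ * rr l := by gcongr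
      _ ≤ (1 + ε) * ‖w - s (σ l) x‖ * rr l := by gcongr
      _ = (1 + ε) * (‖w - s (σ l) x‖ * rr l) := by ring
      _ ≤ (1 + ε) * (th * ‖z - s l x‖ * rr (σ l)) := by gcongr
      _ = ((1 + ε) * th) * (‖z - s l x‖ * rr (σ l)) := by ring
      _ ≤ (1 - ε) * (‖z - s l x‖ * rr (σ l)) := by gcongr
      _ = _ := by ring
  have b4 : 0 < (1 - ε) * ‖z - s l x‖ := mul_pos (by linarith) hpos
  refine le_of_mul_le_mul_left ?_ b4
  calc _ = ‖mu d x (s l x)‖ * ((1 - ε) * ‖z - s l x‖) * rr l := by ring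
    _ ≤ _ := b3

theorem iter_K (hOF : ∀ x ∈ ball xT ρ₀, ∀ p, Att d q s rr x (FH d x p) ↔ Att d q s rr x p)
    (hK : KD d q xT ρ₀ s rr σ K lab) {x : WW d} (hx : x ∈ BM d q xT ρ₀ s) {p : ℂ × ℂ}
    (hp : Att d q s rr x p) (n : ℕ) :
    Att d q s rr x ((FH d x)^[n] p) ∧ lab (x, (FH d x)^[n] p) = (σ ^ n) (lab (x, p)) ∧
      K (x, (FH d x)^[n] p) =
        (∏ j ∈ Finset.range n, mu d x (s ((σ ^ j) (lab (x, p))) x)) * K (x, p) := by
  induction n with
  | zero => simpa using hp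
  | succ n ih =>
    obtain ⟨h1, h2, h3⟩ := ih
    rw [Function.iterate_succ_apply']
    refine ⟨(hOF x hx.1 _).2 h1, ?_, ?_⟩
    · rw [hK.step' x hx.1 _ h1, h2, pow_succ', Equiv.Perm.mul_apply]
    · rw [hK.step x hx _ h1, h2, h3, Finset.prod_range_succ]; ring

theorem iter_u {lam : ℝ} {γ : ℂ → WW d} {ρ : ℝ} {u : Fin q → ℂ → ℂ} {m : ℕ} {c : Fin m → ℂ → ℂ}
    {li : Fin q} {lb : Fin m → Fin q}
    (hL : LD d q xT ρ₀ s rr σ K lab lam γ ρ u m c li lb) {t : ℂ} (ht : t ∈ ball (0 : ℂ) ρ)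
    (l : Fin q) (n : ℕ) :
    (∏ j ∈ Finset.range n, mu d (γ t) (s ((σ ^ j) l) (γ t))) * u l t =
      u ((σ ^ n) l) t * ∏ j ∈ Finset.range n, mu d (γ 0) (s ((σ ^ j) l) (γ 0)) := by
  induction n with
  | zero => simp
  | succ n ih =>
    have h := hL.us ((σ ^ n) l) t ht
    rw [Finset.prod_range_succ, Finset.prod_range_succ, pow_succ', Equiv.Perm.mul_apply]
    calc _ = ((∏ j ∈ Finset.range n, mu d (γ t) (s ((σ ^ j) l) (γ t))) * u l t) *
          mu d (γ t) (s ((σ ^ n) l) (γ t)) := by ring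
      _ = (mu d (γ t) (s ((σ ^ n) l) (γ t)) * u ((σ ^ n) l) t) *
          ∏ j ∈ Finset.range n, mu d (γ 0) (s ((σ ^ j) l) (γ 0)) := by rw [ih]; ring
      _ = _ := by rw [← h]; ring

end

end RIGA

open RIGA

theorem riga_holds : StRIGA := by
  intro hO d q xT ρ₀ s rr σ th K lab lam γ ρ u m c li lb hlam hS hK hL
  obtain ⟨-, -, hOs, hOF⟩ := hO d q xT ρ₀ s rr σ th hS
  obtain ⟨r₁, r₂, ω, hr1, hr2, hr1r, hωd, hω⟩ := hK.inv lam hlam
  obtain ⟨Cu, hCu1, hCu⟩ : ∃ Cu : ℝ, 1 ≤ Cu ∧ ∀ l, ∀ t ∈ ball (0 : ℂ) ρ, ‖u l t‖ ≤ Cu := by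
    obtain ⟨Cu0, hCu0⟩ := hL.ub
    exact ⟨max 1 Cu0, le_max_left _ _, fun l t ht => (hCu0 l t ht).1.trans (le_max_right _ _)⟩
  have hu0 : ∀ l, ∀ t ∈ ball (0 : ℂ) ρ, u l t ≠ 0 := by
    obtain ⟨Cu0, hCu0⟩ := hL.ub
    exact fun l t ht => (hCu0 l t ht).2
  obtain ⟨R, hR0, hR⟩ : ∃ R : ℝ, 0 < R ∧ ∀ l, rr l ≤ R := by
    refine ⟨∑ l, rr l + 1, ?_, fun l => ?_⟩
    · have : 0 ≤ ∑ l, rr l := Finset.sum_nonneg fun l _ => (hS.rp l).le
      linarith
    · have : rr l ≤ ∑ l, rr l :=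
        Finset.single_le_sum (fun l _ => (hS.rp l).le) (Finset.mem_univ l)
      linarith
  obtain ⟨e, he0, he1, he2⟩ : ∃ e : ℝ, 0 < e ∧ (∀ l, Cu * (e * rr l) < r₂) ∧
      ∀ l, 2 * (Cu * (e * rr l)) < r₁ := by
    have hm : 0 < min (r₁ / 4) (r₂ / 2) := lt_min (by linarith) (by linarith)
    have hCR : 0 < Cu * R := mul_pos (by linarith) hR0
    have key : ∀ l, Cu * (min (r₁ / 4) (r₂ / 2) / (Cu * R) * rr l) ≤ min (r₁ / 4) (r₂ / 2) := by
      intro l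
      have h1 : Cu * rr l ≤ Cu * R := mul_le_mul_of_nonneg_left (hR l) (by linarith)
      calc Cu * (min (r₁ / 4) (r₂ / 2) / (Cu * R) * rr l)
          = (min (r₁ / 4) (r₂ / 2) / (Cu * R)) * (Cu * rr l) := by ring
        _ ≤ (min (r₁ / 4) (r₂ / 2) / (Cu * R)) * (Cu * R) :=
          mul_le_mul_of_nonneg_left h1 (div_pos hm hCR).le
        _ = _ := div_mul_cancel₀ _ hCR.ne'
    refine ⟨min (r₁ / 4) (r₂ / 2) / (Cu * R), div_pos hm hCR, fun l => ?_, fun l => ?_⟩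
    · have := (key l).trans (min_le_right _ _)
      linarith
    · have := (key l).trans (min_le_left _ _)
      linarith
  have h0ρ : (0 : ℂ) ∈ ball (0 : ℂ) ρ := mem_ball_self hL.hρ
  have hBL : ∀ t ∈ ball (0 : ℂ) ρ, γ t ∈ BL d q xT ρ₀ s lam := fun t ht => (hL.γB t ht).1
  have hBM : ∀ t ∈ ball (0 : ℂ) ρ, γ t ∈ BM d q xT ρ₀ s := fun t ht => BL_sub hlam (hBL t ht)
  have hBx : ∀ t ∈ ball (0 : ℂ) ρ, γ t ∈ ball xT ρ₀ := fun t ht => (hBL t ht).1
  obtain ⟨κ, hκ⟩ : ∃ κ : ℂ → ℂ, ∀ z, κ z = K (γ 0, (z, 1)) := ⟨_, fun z => rfl⟩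
  obtain ⟨L, hLd⟩ : ∃ L : ℂ → Fin q, ∀ z, L z = lab (γ 0, (z, 1)) := ⟨_, fun z => rfl⟩
  have hκd : ∀ l, DifferentiableOn ℂ κ (ball (s l (γ 0)) (rr l)) := by
    intro l
    have : κ = fun z : ℂ => K (γ 0, (z, 1)) := funext hκ
    rw [this]
    exact kappa_diff hK (hBM 0 h0ρ) l
  obtain ⟨V, hV⟩ : ∃ V : Fin q → Set ℂ, ∀ l z, z ∈ V l ↔ z ∈ ball (s l (γ 0)) r₁ ∧
      ‖κ z‖ < e * rr l := ⟨fun l => {z | z ∈ ball (s l (γ 0)) r₁ ∧ ‖κ z‖ < e * rr l},
      fun l z => Iff.rfl⟩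
  have hVb : ∀ l, ∀ z ∈ V l, z ∈ ball (s l (γ 0)) (rr l) := fun l z hz =>
    ball_subset_ball (hr1r l) ((hV l z).1 hz).1
  have hVL : ∀ l, ∀ z ∈ V l, L z = l := by
    intro l z hz
    rw [hLd]
    exact hK.loc (γ 0) (hBx 0 h0ρ) l z (hVb l z hz)
  have hVo : ∀ l, IsOpen (V l) := by
    intro l
    have h1 : ContinuousOn (fun z => ‖κ z‖) (ball (s l (γ 0)) r₁) :=
      ((hκd l).continuousOn.mono (ball_subset_ball (hr1r l))).norm
    have h2 := h1.isOpen_inter_preimage isOpen_ball (isOpen_Iio (a := e * rr l))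
    convert h2 using 1
    ext z
    rw [hV]
    rfl
  obtain ⟨U, hU⟩ : ∃ U : Set ℂ, ∀ z, z ∈ U ↔ z ∈ V (L z) :=
    ⟨{z | z ∈ V (L z)}, fun z => Iff.rfl⟩
  have hVU : ∀ l, ∀ z ∈ V l, z ∈ U := by
    intro l z hz
    rw [hU, hVL l z hz]; exact hz
  have hUo : IsOpen U := by
    have : U = ⋃ l, V l := by
      ext z
      rw [mem_iUnion]
      exact ⟨fun h => ⟨L z, (hU z).1 h⟩, fun ⟨l, h⟩ => hVU l z h⟩
    rw [this]
    exact isOpen_iUnion hVo
  -- smallness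
  have hsm : ∀ t ∈ ball (0 : ℂ) ρ, ∀ l, ∀ z ∈ V l, ‖u l t * κ z‖ ≤ Cu * (e * rr l) := by
    intro t ht l z hz
    rw [norm_mul]
    have h1 := hCu l t ht
    have h2 := ((hV l z).1 hz).2.le
    gcongr
  obtain ⟨H, hH⟩ : ∃ H : ℂ → ℂ → ℂ, ∀ t z, H t z = ω (L z) (γ t, u (L z) t * κ z) :=
    ⟨_, fun t z => rfl⟩
  have hH1 : ∀ t ∈ ball (0 : ℂ) ρ, ∀ z ∈ U, H t z ∈ ball (s (L z) (γ t)) (rr (L z)) ∧
      K (γ t, (H t z, 1)) = u (L z) t * κ z ∧
      ‖H t z - s (L z) (γ t)‖ ≤ 2 * (Cu * (e * rr (L z))) := by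
    intro t ht z hz
    have hz' := (hU z).1 hz
    have h1 := hsm t ht (L z) z hz'
    have h2 : u (L z) t * κ z ∈ ball (0 : ℂ) r₂ := by
      rw [mem_ball_zero_iff]; exact lt_of_le_of_lt h1 (he1 _)
    obtain ⟨a1, a2, a3⟩ := (hω (γ t) (hBL t ht) (L z)).1 _ h2
    rw [hH]
    exact ⟨a1, a2, a3.trans (by linarith)⟩
  have hH2 : ∀ t ∈ ball (0 : ℂ) ρ, ∀ z ∈ U, ∀ w ∈ ball (s (L z) (γ t)) r₁,
      K (γ t, (w, 1)) = u (L z) t * κ z → w = H t z := by
    intro t ht z hz w hw hKw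
    have h1 := ((hω (γ t) (hBL t ht) (L z)).2 w hw).2.1
    rw [hKw] at h1
    rw [hH]; exact h1.symm
  -- the step
  have hst : ∀ z ∈ U, ∃ w ∈ U, Over (FH d (γ 0) (z, 1)) w ∧ L w = σ (L z) ∧
      κ w = mu d (γ 0) (s (L z) (γ 0)) * κ z := by
    intro z hz
    have hz' := (hU z).1 hz
    have hzb := hVb _ z hz'
    obtain ⟨w, hw, -⟩ := hS.con (γ 0) (hBx 0 h0ρ) (L z) z hzb
    obtain ⟨h1, h2, h3⟩ := step_over hS hK (hBM 0 h0ρ) hzb hw
    rw [← hκ, ← hκ] at h3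
    have hrl := hS.rp (L z)
    have hrl' := hS.rp (σ (L z))
    have hwV : w ∈ V (σ (L z)) := by
      rw [hV]
      constructor
      · rw [mem_ball, dist_eq_norm]
        have b1 : ‖z - s (L z) (γ 0)‖ ≤ 2 * (e * rr (L z)) := by
          have := ((hω (γ 0) (hBL 0 h0ρ) (L z)).2 z ((hV _ z).1 hz').1).2.2
          rw [← hκ] at this
          have := ((hV _ z).1 hz').2
          linarith
        have b2 : ‖w - s (σ (L z)) (γ 0)‖ * rr (L z) ≤ (2 * (Cu * (e * rr (σ (L z))))) *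
            rr (L z) := by
          calc _ ≤ _ := h1
            _ ≤ 1 * (2 * (e * rr (L z))) * rr (σ (L z)) := by
              gcongr
              exact hS.th1.le
            _ = 1 * (2 * (e * rr (σ (L z))) * rr (L z)) := by ring
            _ ≤ Cu * (2 * (e * rr (σ (L z))) * rr (L z)) := by gcongr
            _ = _ := by ring
        exact lt_of_le_of_lt (le_of_mul_le_mul_right b2 hrl) (he2 _)
      · rw [h3, norm_mul]
        have hmu : 0 < ‖mu d (γ 0) (s (L z) (γ 0))‖ := norm_pos_iff.2 ((hBM 0 h0ρ).2 _)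
        have h4 := mu_le hS hK (hBM 0 h0ρ) (L z)
        calc ‖mu d (γ 0) (s (L z) (γ 0))‖ * ‖κ z‖
            < ‖mu d (γ 0) (s (L z) (γ 0))‖ * (e * rr (L z)) :=
              mul_lt_mul_of_pos_left ((hV _ z).1 hz').2 hmu
          _ = e * (‖mu d (γ 0) (s (L z) (γ 0))‖ * rr (L z)) := by ring
          _ ≤ e * rr (σ (L z)) := by gcongr
    exact ⟨w, hVU _ w hwV, hw, hVL _ w hwV, h3⟩
  -- the exceptional set
  obtain ⟨E, hE⟩ : ∃ E : ℕ → Fin q → ℂ → Set ℂ, ∀ n l k w, w ∈ E n l k ↔ w ∈ U ∧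
      L w = (σ ^ n) l ∧
      κ w = (∏ j ∈ Finset.range n, mu d (γ 0) (s ((σ ^ j) l) (γ 0))) * k :=
    ⟨fun n l k => {w | w ∈ U ∧ L w = (σ ^ n) l ∧
      κ w = (∏ j ∈ Finset.range n, mu d (γ 0) (s ((σ ^ j) l) (γ 0))) * k},
      fun n l k w => Iff.rfl⟩
  have hinj : ∀ z ∈ U, ∀ z' ∈ U, L z = L z' → κ z = κ z' → z = z' := by
    intro z hz z' hz' h1 h2
    have a1 := ((hω (γ 0) (hBL 0 h0ρ) (L z)).2 z ((hV _ z).1 ((hU z).1 hz)).1).2.1
    have a2 := ((hω (γ 0) (hBL 0 h0ρ) (L z')).2 z' ((hV _ z').1 ((hU z').1 hz')).1).2.1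
    rw [← hκ] at a1 a2
    rw [← a1, ← a2, h1, h2]
  have hEf : ∀ n l k, (E n l k).Finite := by
    intro n l k
    apply Set.Subsingleton.finite
    intro z hz z' hz'
    rw [hE] at hz hz'
    exact hinj z hz.1 z' hz'.1 (hz.2.1.trans hz'.2.1.symm) (hz.2.2.trans hz'.2.2.symm)
  -- entering points
  have hent : ∀ t ∈ ball (0 : ℂ) ρ, ∀ (n : ℕ) (p : ℂ × ℂ), ∀ w ∈ U,
      Over ((FH d (γ t))^[n] p) (H t w) → Att d q s rr (γ t) p ∧
      ∀ (l : Fin q) (k : ℂ), lab (γ t, p) = l → K (γ t, p) = u l t * k → w ∈ E n l k := by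
    intro t ht n p w hw hov
    obtain ⟨b1, b2, b3⟩ := hH1 t ht w hw
    have hatt : Att d q s rr (γ t) p := ⟨n, L w, H t w, hov, b1⟩
    refine ⟨hatt, ?_⟩
    intro l k hl hk
    obtain ⟨c1, c2, c3⟩ := iter_K hOF hK (hBM t ht) hatt n
    have hatw : Att d q s rr (γ t) (H t w, 1) := att_ball b1
    rw [lab_over hK (hBx t ht) hov hatw, hK.loc (γ t) (hBx t ht) (L w) _ b1, hl] at c2
    rw [K_over hK (hBM t ht) hov hatw, b2, hl, hk, ← mul_assoc, iter_u hL ht l n, ← c2,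
      mul_assoc] at c3
    rw [hE]
    exact ⟨hw, c2, mul_left_cancel₀ (hu0 _ t ht) c3⟩
  obtain ⟨Bd, hBd⟩ : ∃ Bd : ℕ → Set ℂ, ∀ N, Bd N = ⋃ n ∈ Finset.range (N + 1),
      ((⋃ i : Fin m, E n (lb i) (K (γ 0, (c i 0, 1)))) ∪ E n li (K (γ 0, (1, 0)))) :=
    ⟨_, fun N => rfl⟩
  refine ⟨U, H, Bd, r₁, ?_, ?_, ?_, ?_⟩
  · refine ⟨hL.hρ, hL.γd, fun t ht => hS.ndg _ (hBx t ht), hUo, ?_, ?_, ?_, ?_, ?_, ?_, ?_, ?_⟩
    · -- holomorphy
      rintro ⟨t, z⟩ ⟨ht, hz⟩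
      have hzV := (hU z).1 hz
      have hopen : IsOpen (ball (0 : ℂ) ρ ×ˢ V (L z)) := isOpen_ball.prod (hVo _)
      have h1 : DifferentiableOn ℂ (fun p : ℂ × ℂ => ω (L z) (γ p.1, u (L z) p.1 * κ p.2))
          (ball (0 : ℂ) ρ ×ˢ V (L z)) := by
        refine (hωd (L z)).comp
          (t := BL d q xT ρ₀ s lam ×ˢ ball (0 : ℂ) r₂)
          (f := fun p : ℂ × ℂ => (γ p.1, u (L z) p.1 * κ p.2)) ?_ ?_
        · refine DifferentiableOn.prodMk ?_ ?_
          · exact hL.γd.comp (g := γ) (f := fun p : ℂ × ℂ => p.1) (by fun_prop)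
              (fun p hp => hp.1)
          · refine DifferentiableOn.mul ?_ ?_
            · exact (hL.ud (L z)).comp (g := u (L z)) (f := fun p : ℂ × ℂ => p.1) (by fun_prop)
                (fun p hp => hp.1)
            · exact (hκd (L z)).comp (g := κ) (f := fun p : ℂ × ℂ => p.2) (by fun_prop)
                (fun p hp => hVb _ _ hp.2)
        · rintro ⟨t', z'⟩ ⟨ht', hz'⟩
          refine ⟨hBL t' ht', ?_⟩
          rw [mem_ball_zero_iff]
          exact lt_of_le_of_lt (hsm t' ht' (L z) z' hz') (he1 _)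
      have hmem : ball (0 : ℂ) ρ ×ˢ V (L z) ∈ 𝓝 ((t, z) : ℂ × ℂ) :=
        hopen.mem_nhds ⟨ht, hzV⟩
      have h2 : DifferentiableAt ℂ (fun p : ℂ × ℂ => ω (L z) (γ p.1, u (L z) p.1 * κ p.2))
          (t, z) := h1.differentiableAt hmem
      have h3 : (fun p : ℂ × ℂ => H p.1 p.2) =ᶠ[𝓝 ((t, z) : ℂ × ℂ)]
          (fun p : ℂ × ℂ => ω (L z) (γ p.1, u (L z) p.1 * κ p.2)) := by
        filter_upwards [hmem] with p hp
        simp only [hH]
        rw [hVL _ _ hp.2]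
      exact (h2.congr_of_eventuallyEq h3).differentiableWithinAt
    · intro z hz
      have a1 := ((hω (γ 0) (hBL 0 h0ρ) (L z)).2 z ((hV _ z).1 ((hU z).1 hz)).1).2.1
      rw [← hκ] at a1
      rw [hH, hL.u0, one_mul, a1]
    · intro t ht z hz z' hz' hzz
      obtain ⟨b1, b2, b3⟩ := hH1 t ht z hz
      obtain ⟨b1', b2', b3'⟩ := hH1 t ht z' hz'
      have h1 := hK.loc (γ t) (hBx t ht) _ _ b1
      have h2 := hK.loc (γ t) (hBx t ht) _ _ b1'
      have h3 : L z = L z' := by rw [← h1, ← h2, hzz]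
      refine hinj z hz z' hz' h3 ?_
      rw [hzz, b2', ← h3] at b2
      exact (mul_left_cancel₀ (hu0 _ t ht) b2).symm
    · intro z hz
      obtain ⟨w, hw, h1, -⟩ := hst z hz
      exact ⟨w, hw, h1⟩
    · intro t ht z hz w hw
      obtain ⟨w0, hw0, h1, h2, h3⟩ := hst z hz
      obtain rfl := over_unique hw h1
      obtain ⟨b1, b2, b3⟩ := hH1 t ht z hz
      obtain ⟨w', hw', -⟩ := hS.con (γ t) (hBx t ht) (L z) _ b1
      obtain ⟨c1, c2, c3⟩ := step_over hS hK (hBM t ht) b1 hw'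
      have hrl := hS.rp (L z)
      have hrl' := hS.rp (σ (L z))
      have hwb : w' ∈ ball (s (L w) (γ t)) r₁ := by
        rw [h2, mem_ball, dist_eq_norm]
        have b4 : ‖w' - s (σ (L z)) (γ t)‖ * rr (L z) ≤ (2 * (Cu * (e * rr (σ (L z))))) *
            rr (L z) := by
          calc _ ≤ _ := c1
            _ ≤ 1 * (2 * (Cu * (e * rr (L z)))) * rr (σ (L z)) := by
              gcongr
              exact hS.th1.le
            _ = _ := by ring
        exact lt_of_le_of_lt (le_of_mul_le_mul_right b4 hrl) (he2 _)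
      have hKw : K (γ t, (w', 1)) = u (L w) t * κ w := by
        rw [c3, b2, h2, h3, ← mul_assoc, ← mul_assoc, hL.us (L z) t ht]
      rw [← hH2 t ht w hw0 w' hwb hKw]
      exact hw'
    · intro N
      rw [hBd]
      refine Set.Finite.biUnion (Finset.finite_toSet _) fun n _ => ?_
      exact (Set.finite_iUnion fun i => hEf _ _ _).union (hEf _ _ _)
    · intro t ht p hp0 hcr N n hn1 hnN w hw hov
      obtain ⟨hatt, hent2⟩ := hent t ht n p w hw hov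
      have hbet := (hL.γB t ht).2
      have hcr' : p.2 ≠ 0 ∧ (wr d (γ t)).eval (p.1 / p.2) = 0 := by
        rcases hcr with h | h
        · exact h
        · exact absurd h.2 hbet
      obtain ⟨hp2, hwr⟩ := hcr'
      have hov1 : Over p (p.1 / p.2) := ⟨hp2, by field_simp⟩
      have hatt1 : Att d q s rr (γ t) (p.1 / p.2, 1) := by
        have h1 := hOs (γ t) (hBx t ht) p hatt p.2⁻¹ (inv_ne_zero hp2)
        have h2 : p.2⁻¹ • p = ((p.1 / p.2, 1) : ℂ × ℂ) := by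
          ext
          · simp [div_eq_inv_mul]
          · simp [hp2]
        rwa [h2] at h1
      obtain ⟨i, hi⟩ := hL.call t ht _ hwr hatt1
      obtain ⟨c1, c2, c3⟩ := hL.ca i t ht
      rw [hi] at hatt1 hov1
      have h5 := hent2 (lb i) (K (γ 0, (c i 0, 1)))
        ((lab_over hK (hBx t ht) hov1 hatt1).trans c2)
        ((K_over hK (hBM t ht) hov1 hatt1).trans c3)
      rw [hBd]
      refine mem_biUnion (Finset.mem_coe.2 (Finset.mem_range.2 (Nat.lt_succ_of_le hnN))) ?_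
      exact Or.inl (mem_iUnion.2 ⟨i, h5⟩)
    · intro t ht N w hw hov
      obtain ⟨hatt, hent2⟩ := hent t ht N (1, 0) w hw hov
      have h5 := hent2 li (K (γ 0, (1, 0))) (hL.ia t ht).2 (hL.i0 t ht)
      rw [hBd]
      refine mem_biUnion (Finset.mem_coe.2 (Finset.mem_range.2 (Nat.lt_succ_self N))) ?_
      exact Or.inr h5
  · refine ⟨hr1, ?_, ?_, ?_⟩
    · intro z hz
      have := hVb _ z ((hU z).1 hz)
      rwa [hLd] at this
    · intro t ht z hz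
      obtain ⟨b1, b2, b3⟩ := hH1 t ht z hz
      rw [hLd, hκ] at b2
      rw [hLd] at b1
      exact ⟨b1, b2⟩
    · intro t ht z hz w hw hKw
      rw [← hLd] at hw hKw
      rw [← hκ] at hKw
      exact hH2 t ht z hz w hw hKw
  · intro t ht N z w hw hov
    exact (hent t ht N (z, 1) w hw hov).1
  · -- compact sets enter uniformly
    intro Kc hKc hKa
    have hmono : ∀ p : ℂ × ℂ, ∀ M : ℕ, (∃ w ∈ U, Over ((FH d (γ 0))^[M] p) w) → ∀ N ≥ M,
        ∃ w ∈ U, Over ((FH d (γ 0))^[N] p) w := by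
      intro p M hM N hN
      induction N, hN using Nat.le_induction with
      | base => exact hM
      | succ N hN ih =>
        obtain ⟨w, hw, h1⟩ := ih
        obtain ⟨w', hw', h2, -⟩ := hst w hw
        refine ⟨w', hw', ?_⟩
        rw [Function.iterate_succ_apply']
        exact over_FH h1 h2
    have hopen : ∀ M : ℕ, IsOpen {p : ℂ × ℂ | ∃ w ∈ U, Over ((FH d (γ 0))^[M] p) w} := by
      intro M
      have h1 := FH_iter_cont d (γ 0) M
      have h2 : IsOpen {p : ℂ × ℂ | ((FH d (γ 0))^[M] p).2 ≠ 0} :=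
        isOpen_ne_fun (continuous_snd.comp h1) continuous_const
      have h3 : ContinuousOn (fun p : ℂ × ℂ => ((FH d (γ 0))^[M] p).1 / ((FH d (γ 0))^[M] p).2)
          {p : ℂ × ℂ | ((FH d (γ 0))^[M] p).2 ≠ 0} :=
        ((continuous_fst.comp h1).continuousOn).div ((continuous_snd.comp h1).continuousOn)
          (fun p hp => hp)
      have h4 := h3.isOpen_inter_preimage h2 hUo
      convert h4 using 1
      ext p
      simp only [mem_setOf_eq, mem_inter_iff, mem_preimage]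
      constructor
      · rintro ⟨w, hw, h5, h6⟩
        refine ⟨h5, ?_⟩
        rw [h6, mul_div_cancel_right₀ _ h5]
        exact hw
      · rintro ⟨h5, h6⟩
        exact ⟨_, h6, h5, by field_simp⟩
    -- small discs
    have hball : ∃ δ : ℝ, 0 < δ ∧ ∀ l, ball (s l (γ 0)) δ ⊆ U := by
      have h1 : ∀ l, ∃ δ : ℝ, 0 < δ ∧ ball (s l (γ 0)) δ ⊆ U := by
        intro l
        have h2 : s l (γ 0) ∈ U := by
          refine hVU l _ ?_
          rw [hV]
          refine ⟨mem_ball_self hr1, ?_⟩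
          rw [hκ, hK.zero (γ 0) (hBM 0 h0ρ) l, norm_zero]
          exact mul_pos he0 (hS.rp l)
        exact Metric.isOpen_iff.1 hUo _ h2
      choose δ hδ hδU using h1
      rcases isEmpty_or_nonempty (Fin q) with hq | hq
      · exact ⟨1, one_pos, fun l => (hq.false l).elim⟩
      · obtain ⟨l0, hl0⟩ := Finite.exists_min δ
        exact ⟨δ l0, hδ l0, fun l => (ball_subset_ball (hl0 l)).trans (hδU l)⟩
    obtain ⟨δ, hδ, hδU⟩ := hball
    have hev : ∀ p, Att d q s rr (γ 0) p → ∃ M : ℕ, ∃ w ∈ U, Over ((FH d (γ 0))^[M] p) w := by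
      rintro p ⟨n, l, w, hov, hwb⟩
      -- the orbit
      have horb : ∀ k : ℕ, ∃ w', Over ((FH d (γ 0))^[n + k] p) w' ∧
          w' ∈ ball (s ((σ ^ k) l) (γ 0)) (rr ((σ ^ k) l)) ∧
          ‖w' - s ((σ ^ k) l) (γ 0)‖ * rr l ≤ th ^ k * rr l * rr ((σ ^ k) l) := by
        intro k
        induction k with
        | zero =>
          refine ⟨w, by simpa using hov, by simpa using hwb, ?_⟩
          rw [mem_ball, dist_eq_norm] at hwb
          have := hS.rp l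
          simp only [pow_zero, Equiv.Perm.coe_one, id_eq, one_mul]
          nlinarith
        | succ k ih =>
          obtain ⟨w', h1, h2, h3⟩ := ih
          obtain ⟨w2, hw2, -⟩ := hS.con (γ 0) (hBx 0 h0ρ) _ w' h2
          obtain ⟨c1, c2, -⟩ := step_over hS hK (hBM 0 h0ρ) h2 hw2
          refine ⟨w2, ?_, ?_, ?_⟩
          · rw [← add_assoc, Function.iterate_succ_apply']
            exact over_FH h1 hw2
          · rw [pow_succ', Equiv.Perm.mul_apply]; exact c2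
          · rw [pow_succ', Equiv.Perm.mul_apply]
            have hrk := hS.rp ((σ ^ k) l)
            have hrk' := hS.rp (σ ((σ ^ k) l))
            have hrl := hS.rp l
            have hth := hS.th0
            refine le_of_mul_le_mul_right ?_ hrk
            calc ‖w2 - s (σ ((σ ^ k) l)) (γ 0)‖ * rr l * rr ((σ ^ k) l)
                = (‖w2 - s (σ ((σ ^ k) l)) (γ 0)‖ * rr ((σ ^ k) l)) * rr l := by ring
              _ ≤ (th * ‖w' - s ((σ ^ k) l) (γ 0)‖ * rr (σ ((σ ^ k) l))) * rr l := by gcongr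
              _ = th * rr (σ ((σ ^ k) l)) * (‖w' - s ((σ ^ k) l) (γ 0)‖ * rr l) := by ring
              _ ≤ th * rr (σ ((σ ^ k) l)) * (th ^ k * rr l * rr ((σ ^ k) l)) := by gcongr
              _ = _ := by rw [pow_succ]; ring
      obtain ⟨k, hk⟩ : ∃ k : ℕ, th ^ k < δ / R :=
        exists_pow_lt_of_lt_one (div_pos hδ hR0) hS.th1
      obtain ⟨w', h1, h2, h3⟩ := horb k
      refine ⟨n + k, w', ?_, h1⟩
      refine hδU ((σ ^ k) l) ?_
      rw [mem_ball, dist_eq_norm]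
      have hrl := hS.rp l
      have hrk := hS.rp ((σ ^ k) l)
      have h4 : ‖w' - s ((σ ^ k) l) (γ 0)‖ ≤ th ^ k * rr ((σ ^ k) l) := by
        refine le_of_mul_le_mul_right ?_ hrl
        calc _ ≤ _ := h3
          _ = _ := by ring
      have h5 : th ^ k * rr ((σ ^ k) l) ≤ th ^ k * R :=
        mul_le_mul_of_nonneg_left (hR _) (pow_nonneg hS.th0.le _)
      rw [lt_div_iff₀ hR0] at hk
      linarith
    obtain ⟨T, hT⟩ := hKc.elim_finite_subcover
      (fun M : ℕ => {p : ℂ × ℂ | ∃ w ∈ U, Over ((FH d (γ 0))^[M] p) w}) hopen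
      (fun p hp => mem_iUnion.2 (hev p (hKa p hp)))
    refine ⟨T.sup id, fun N hN p hp => ?_⟩
    obtain ⟨M, hM, hpM⟩ := mem_iUnion₂.1 (hT hp)
    exact hmono p M hpM N ((Finset.le_sup (f := id) hM).trans hN)

end Pool.Agent.H713R4.RB
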