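import Mathlib
import Pool.Agent.H713R4.RB.Defs2
import Pool.Agent.Helper202.Geom

/-! Project RB, task SIMP: where the number of distinct attracted critical points is locally
maximal, the attracted critical points are simple. -/

set_option autoImplicit false

open Topology Filter Metric Set Polynomial MeasureTheory

namespace Pool.Agent.H713R4.RB

namespace SIMP

/-- roots persist under a small perturbation -/
lemma persist (w V : ℂ[X]) (hw : w ≠ 0) (c : ℂ) (hc : w.eval c = 0) (r : ℝ) (hr : 0 < r) :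
    ∀ᶠ s in 𝓝 (0 : ℂ), ∃ z ∈ ball c r, (w + C s * V).eval z = 0 := by
  by_cases hV : V.eval c = 0
  · refine Eventually.of_forall fun s => ⟨c, mem_ball_self hr, ?_⟩
    simp [hc, hV]
  set φ : ℂ → ℂ := fun z => - w.eval z / V.eval z with hφ
  have hφc : φ c = 0 := by simp [hφ, hc]
  have hVn : ∀ᶠ z in 𝓝 c, V.eval z ≠ 0 := V.continuous.continuousAt.eventually_ne hV
  have hφa : AnalyticAt ℂ φ c := by
    have h1 : AnalyticAt ℂ (fun z => w.eval z) c :=
      (w.differentiable.differentiableOn (s := univ)).analyticAt univ_mem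
    have h2 : AnalyticAt ℂ (fun z => V.eval z) c :=
      (V.differentiable.differentiableOn (s := univ)).analyticAt univ_mem
    exact h1.neg.div h2 hV
  rcases hφa.eventually_constant_or_nhds_le_map_nhds with h | h
  · exfalso
    apply hw
    have h1 : ∀ᶠ z in 𝓝 c, w.eval z = 0 := by
      filter_upwards [h, hVn] with z h1 h2
      rw [hφc, hφ] at h1
      simpa [h2] using h1
    refine Polynomial.eq_zero_of_infinite_isRoot w ?_
    exact (infinite_of_mem_nhds c h1)
  · rw [hφc] at h
    have h1 : φ '' (ball c r ∩ {z | V.eval z ≠ 0}) ∈ 𝓝 (0 : ℂ) :=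
      h (image_mem_map (inter_mem (ball_mem_nhds c hr) hVn))
    filter_upwards [h1] with s hs
    obtain ⟨z, ⟨hz1, hz2⟩, rfl⟩ := hs
    refine ⟨z, hz1, ?_⟩
    have hz2' : V.eval z ≠ 0 := hz2
    simp only [hφ, eval_add, eval_mul, eval_C]
    field_simp
    ring

/-- a double root splits -/
lemma splits (w V : ℂ[X]) (c : ℂ) (hc : w.eval c = 0)
    (hd : (derivative w).eval c = 0) (hV : V.eval c ≠ 0) (r : ℝ) (hr : 0 < r) (N : Set ℂ)
    (hN : N ∈ 𝓝 (0 : ℂ)) : ∃ s ∈ N, ∃ z₁ ∈ ball c r, ∃ z₂ ∈ ball c r, z₁ ≠ z₂ ∧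
      (w + C s * V).eval z₁ = 0 ∧ (w + C s * V).eval z₂ = 0 := by
  set φ : ℂ → ℂ := fun z => - w.eval z / V.eval z with hφ
  have hφc : φ c = 0 := by simp [hφ, hc]
  have hVn : ∀ᶠ z in 𝓝 c, V.eval z ≠ 0 := V.continuous.continuousAt.eventually_ne hV
  have hφcont : ContinuousAt φ c :=
    (w.continuous.continuousAt.neg).div V.continuous.continuousAt hV
  have hφN : ∀ᶠ z in 𝓝 c, φ z ∈ N := hφcont (by rw [hφc]; exact hN)
  obtain ⟨r', hr', hsub⟩ := Metric.eventually_nhds_iff_ball.mp
    ((hVn.and hφN).and (ball_mem_nhds c hr))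
  have hdiff : DifferentiableOn ℂ φ (ball c r') := by
    intro z hz
    exact ((w.differentiable.differentiableAt.neg).div V.differentiable.differentiableAt
      (hsub z hz).1.1).differentiableWithinAt
  have hder : deriv φ c = 0 := by
    have h1 : HasDerivAt φ ((-(derivative w).eval c * V.eval c - (- w.eval c) *
        (derivative V).eval c) / V.eval c ^ 2) c :=
      ((w.hasDerivAt c).neg).div (V.hasDerivAt c) hV
    rw [h1.deriv, hd, hc]
    simp
  have hni : ¬ InjOn φ (ball c r') := fun h =>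
    Pool.Agent.Helper202.Geom.deriv_ne_zero_of_injOn isOpen_ball hdiff h (mem_ball_self hr') hder
  unfold InjOn at hni
  push Not at hni
  obtain ⟨z₁, hz₁, z₂, hz₂, he, hne⟩ := hni
  have key : ∀ z ∈ ball c r', (w + C (φ z) * V).eval z = 0 := by
    intro z hz
    have hz2' : V.eval z ≠ 0 := (hsub z hz).1.1
    simp only [hφ, eval_add, eval_mul, eval_C]
    field_simp
    ring
  refine ⟨φ z₁, (hsub z₁ hz₁).1.2, z₁, (hsub z₁ hz₁).2, z₂, (hsub z₂ hz₂).2, hne,
    key z₁ hz₁, ?_⟩
  rw [he]
  exact key z₂ hz₂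

lemma main (w V : ℂ[X]) (hw : w ≠ 0) (K : Finset ℂ) (hK : ∀ c ∈ K, w.eval c = 0) (c : ℂ)
    (hc : c ∈ K) (hd : (derivative w).eval c = 0) (hV : V.eval c ≠ 0) (ε : ℝ) (hε : 0 < ε) :
    ∃ s : ℂ, ‖s‖ < ε ∧ ∃ K' : Finset ℂ, K'.card = K.card + 1 ∧
      ∀ z ∈ K', (w + C s * V).eval z = 0 ∧ ∃ c' ∈ K, ‖z - c'‖ < ε := by
  classical
  -- disjoint balls
  have h1 : ∀ᶠ r in 𝓝[>] (0 : ℝ), ∀ a ∈ K, ∀ b ∈ K, a ≠ b → 2 * r ≤ dist a b := by
    rw [Filter.eventually_all_finset]
    intro a _
    rw [Filter.eventually_all_finset]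
    intro b _
    by_cases hab : a = b
    · exact Eventually.of_forall fun r h => absurd hab h
    · have hpos : 0 < dist a b / 2 := by
        have := dist_pos.mpr hab
        linarith
      filter_upwards [Ioo_mem_nhdsGT hpos] with r hr _
      have := hr.2
      linarith
  obtain ⟨r, hr1, hr0, hrε⟩ := (h1.and (Ioo_mem_nhdsGT hε)).exists
  have h2 : ∀ᶠ s in 𝓝 (0 : ℂ), ∀ a ∈ K, ∃ z ∈ ball a r, (w + C s * V).eval z = 0 := by
    rw [Filter.eventually_all_finset]
    intro a ha
    exact persist w V hw a (hK a ha) r hr0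
  obtain ⟨s, ⟨hs1, hs2⟩, z₁, hz₁, z₂, hz₂, hne, he₁, he₂⟩ :=
    splits w V c (hK c hc) hd hV r hr0 _ (h2.and (ball_mem_nhds (0 : ℂ) hε))
  choose! f hf using hs1
  refine ⟨s, by simpa using hs2, insert z₁ (insert z₂ ((K.erase c).image f)), ?_, ?_⟩
  · have hfc : ∀ a ∈ K.erase c, ∀ z ∈ ball c r, f a ≠ z := by
      intro a ha z hz h
      have ha' := Finset.mem_erase.mp ha
      have h3 := (hf a ha'.2).1
      rw [h] at h3
      have h4 := hr1 a ha'.2 c hc ha'.1
      have h5 : dist a c < 2 * r := by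
        calc dist a c ≤ dist a z + dist z c := dist_triangle _ _ _
          _ < r + r := add_lt_add (by rw [dist_comm]; exact h3) hz
          _ = 2 * r := by ring
      linarith
    rw [Finset.card_insert_of_notMem, Finset.card_insert_of_notMem, Finset.card_image_of_injOn,
      Finset.card_erase_of_mem hc]
    · have : 0 < K.card := Finset.card_pos.mpr ⟨c, hc⟩
      omega
    · intro a ha b hb hab
      by_contra hne'
      have ha' := Finset.mem_erase.mp (Finset.mem_coe.mp ha)
      have hb' := Finset.mem_erase.mp (Finset.mem_coe.mp hb)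
      have h3 := (hf a ha'.2).1
      have h4 := (hf b hb'.2).1
      have hab' : f a = f b := hab
      rw [← hab'] at h4
      have h5 := hr1 a ha'.2 b hb'.2 hne'
      have h6 : dist a b < 2 * r := by
        calc dist a b ≤ dist a (f a) + dist (f a) b := dist_triangle _ _ _
          _ < r + r := add_lt_add (by rw [dist_comm]; exact h3) h4
          _ = 2 * r := by ring
      linarith
    · intro h
      obtain ⟨a, ha, h⟩ := Finset.mem_image.mp h
      exact hfc a ha z₂ hz₂ h
    · intro h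
      rcases Finset.mem_insert.mp h with h | h
      · exact hne h
      · obtain ⟨a, ha, h⟩ := Finset.mem_image.mp h
        exact hfc a ha z₁ hz₁ h
  · intro z hz
    rcases Finset.mem_insert.mp hz with rfl | hz
    · refine ⟨he₁, c, hc, ?_⟩
      rw [← dist_eq_norm]
      exact lt_trans hz₁ hrε
    rcases Finset.mem_insert.mp hz with rfl | hz
    · refine ⟨he₂, c, hc, ?_⟩
      rw [← dist_eq_norm]
      exact lt_trans hz₂ hrε
    · obtain ⟨a, ha, rfl⟩ := Finset.mem_image.mp hz
      have ha' := (Finset.mem_erase.mp ha).2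
      refine ⟨(hf a ha').2, a, ha', ?_⟩
      rw [← dist_eq_norm]
      exact lt_trans (hf a ha').1 hrε

/-- a polynomial of degree at most `d` from its coefficients -/
lemma sum_coeff (d : ℕ) (p : ℂ[X]) (hp : p.natDegree < d + 1) :
    ∑ i : Fin (d + 1), C (p.coeff (i : ℕ)) * X ^ (i : ℕ) = p := by
  rw [Fin.sum_univ_eq_sum_range (fun i => C (p.coeff i) * X ^ i) (d + 1)]
  exact (p.as_sum_range_C_mul_X_pow' hp).symm

lemma PP_add (d : ℕ) (x y : WW d) (s : ℂ) : PP d (x + s • y) = PP d x + C s * PP d y := by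
  simp only [PP, Pi.add_apply, Pi.smul_apply, smul_eq_mul, C_add, C_mul, Finset.mul_sum,
    ← Finset.sum_add_distrib]
  refine Finset.sum_congr rfl fun i _ => ?_
  ring

lemma QQ_add (d : ℕ) (x y : WW d) (s : ℂ) : QQ d (x + s • y) = QQ d x + C s * QQ d y := by
  simp only [QQ, Pi.add_apply, Pi.smul_apply, smul_eq_mul, C_add, C_mul, Finset.mul_sum,
    ← Finset.sum_add_distrib]
  refine Finset.sum_congr rfl fun i _ => ?_
  ring

/-- a direction in which the critical points move -/
lemma dir (d : ℕ) (x : WW d) (c : ℂ) (hd : 2 ≤ d) (hx : Ndg d x) :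
    ∃ (y : WW d) (V : ℂ[X]), V.eval c ≠ 0 ∧
      ∀ s : ℂ, wr d (x + s • y) = wr d x + C s * V := by
  have hdeg : (X - C c : ℂ[X]).natDegree < d + 1 := by
    rw [natDegree_X_sub_C]
    omega
  by_cases hQ : (QQ d x).eval c = 0
  · have hP : (PP d x).eval c ≠ 0 := by
      intro hP
      have h1 : FH d x (c, 1) = 0 := by
        unfold FH
        simp only [one_pow, mul_one]
        have e1 : ∑ i : Fin (d + 1), x (Sum.inl i) * c ^ (i : ℕ) = (PP d x).eval c := by
          simp [PP, eval_finset_sum]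
        have e2 : ∑ i : Fin (d + 1), x (Sum.inr i) * c ^ (i : ℕ) = (QQ d x).eval c := by
          simp [QQ, eval_finset_sum]
        rw [e1, e2, hP, hQ]
        rfl
      have h2 := hx _ h1
      have h3 := congrArg Prod.snd h2
      simp at h3
    refine ⟨Sum.elim (fun _ => 0) (fun i => (X - C c : ℂ[X]).coeff (i : ℕ)),
      derivative (PP d x) * (X - C c) - PP d x, ?_, ?_⟩
    · simpa using hP
    · intro s
      have e1 : PP d (Sum.elim (fun _ => 0) (fun i => (X - C c : ℂ[X]).coeff (i : ℕ)) : WW d) =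
          0 := by
        simp [PP]
      have e2 : QQ d (Sum.elim (fun _ => 0) (fun i => (X - C c : ℂ[X]).coeff (i : ℕ)) : WW d) =
          X - C c := by
        unfold QQ
        simp only [Sum.elim_inr]
        exact sum_coeff d _ hdeg
      unfold wr
      rw [PP_add, QQ_add, e1, e2]
      simp only [mul_zero, add_zero, derivative_add, derivative_mul, derivative_C, derivative_X,
        derivative_sub, zero_mul, zero_add, sub_zero, mul_one]
      ring
  · refine ⟨Sum.elim (fun i => (X - C c : ℂ[X]).coeff (i : ℕ)) (fun _ => 0),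
      QQ d x - (X - C c) * derivative (QQ d x), ?_, ?_⟩
    · simpa using hQ
    · intro s
      have e1 : PP d (Sum.elim (fun i => (X - C c : ℂ[X]).coeff (i : ℕ)) (fun _ => 0) : WW d) =
          X - C c := by
        unfold PP
        simp only [Sum.elim_inl]
        exact sum_coeff d _ hdeg
      have e2 : QQ d (Sum.elim (fun i => (X - C c : ℂ[X]).coeff (i : ℕ)) (fun _ => 0) : WW d) =
          0 := by
        simp [QQ]
      unfold wr
      rw [PP_add, QQ_add, e1, e2]
      simp only [mul_zero, add_zero, derivative_add, derivative_mul, derivative_C, derivative_X,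
        derivative_sub, zero_mul, zero_add, sub_zero, mul_one]
      ring

end SIMP

theorem simp_holds : StSIMP := by
  intro d x O m δ K hd hx hw hO hδ hKm hK hmax c hc hder
  obtain ⟨y, V, hV, hy⟩ := SIMP.dir d x c hd hx
  -- uniform radius
  have h1 : ∀ᶠ r in 𝓝[>] (0 : ℝ), ∀ a ∈ K, ball (x, a) r ⊆ O := by
    rw [Filter.eventually_all_finset]
    intro a ha
    obtain ⟨r, hr, hsub⟩ := Metric.isOpen_iff.mp hO _ (hK a ha).2
    filter_upwards [Ioo_mem_nhdsGT hr] with r' hr'
    exact (ball_subset_ball hr'.2.le).trans hsub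
  obtain ⟨r, hr1, hr0, _⟩ := (h1.and (Ioo_mem_nhdsGT one_pos)).exists
  have hy1 : 0 < ‖y‖ + 1 := by positivity
  obtain ⟨s, hs, K', hK'c, hK'⟩ := SIMP.main (wr d x) V hw K (fun a ha => (hK a ha).1) c hc hder hV
    (min r (min r δ / (‖y‖ + 1))) (by positivity)
  have hsy : ‖s • y‖ < min r δ := by
    have h2 : ‖s‖ < min r δ / (‖y‖ + 1) := lt_of_lt_of_le hs (min_le_right _ _)
    rw [lt_div_iff₀ hy1] at h2
    rw [norm_smul]
    nlinarith [norm_nonneg s, norm_nonneg y]
  have hcard := hmax (x + s • y) (by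
    rw [mem_ball, dist_eq_norm, add_sub_cancel_left]
    exact lt_of_lt_of_le hsy (min_le_right _ _)) K' (by
    intro z hz
    obtain ⟨hz1, a, ha, hza⟩ := hK' z hz
    refine ⟨by rw [hy]; exact hz1, hr1 a ha ?_⟩
    rw [mem_ball, Prod.dist_eq, max_lt_iff]
    constructor
    · simp only [dist_eq_norm, add_sub_cancel_left]
      exact lt_of_lt_of_le hsy (min_le_left _ _)
    · simp only [dist_eq_norm]
      exact lt_of_lt_of_le hza (min_le_left _ _))
  omega

end Pool.Agent.H713R4.RB
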