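import Mathlib
import Pool.Agent.H713R4.RB.Defs2

/-! Task SINK: continuation of sinks, trapping discs. -/

set_option autoImplicit false

open Topology Filter Metric Set Polynomial MeasureTheory

namespace Pool.Agent.H713R4.RB

/-! ### The maps -/

theorem SINK_hom (d : ℕ) (x : WW d) (c : ℂ) (p : ℂ × ℂ) : FH d x (c • p) = c ^ d • FH d x p := by
  have h : ∀ i : Fin (d + 1), c ^ (i : ℕ) * c ^ (d - (i : ℕ)) = c ^ d := by
    intro i
    rw [← pow_add]
    congr 1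
    have := i.2
    omega
  unfold FH
  ext
  · simp only [Prod.smul_fst, Prod.smul_snd, smul_eq_mul, Finset.mul_sum]
    refine Finset.sum_congr rfl fun i _ => ?_
    rw [← h i, mul_pow, mul_pow]
    ring
  · simp only [Prod.smul_fst, Prod.smul_snd, smul_eq_mul, Finset.mul_sum]
    refine Finset.sum_congr rfl fun i _ => ?_
    rw [← h i, mul_pow, mul_pow]
    ring

theorem SINK_cont (d : ℕ) : Continuous (fun y : WW d × (ℂ × ℂ) => FH d y.1 y.2) := by
  unfold FH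
  fun_prop

/-- the map in the plane -/
noncomputable def SINK_f (d : ℕ) (x : WW d) (z : ℂ) : ℂ := (FH d x (z, 1)).1 / (FH d x (z, 1)).2

theorem SINK_cd (d : ℕ) (x : WW d) (z : ℂ) (h : (FH d x (z, 1)).2 ≠ 0) :
    ContDiffAt ℂ 1 (fun y : WW d × ℂ => SINK_f d y.1 y.2) (x, z) := by
  unfold SINK_f
  refine ContDiffAt.div ?_ ?_ h
  · unfold FH
    fun_prop
  · unfold FH
    fun_prop

theorem SINK_diff (d : ℕ) (x : WW d) (z : ℂ) (h : (FH d x (z, 1)).2 ≠ 0) :
    DifferentiableAt ℂ (SINK_f d x) z := by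
  have h1 := (SINK_cd d x z h).differentiableAt one_ne_zero
  have h2 : DifferentiableAt ℂ (fun ζ : ℂ => (x, ζ)) z := by fun_prop
  exact DifferentiableAt.comp (f := fun ζ : ℂ => (x, ζ)) z h1 h2

theorem SINK_vl (d : ℕ) (x : WW d) (z : ℂ) (n : ℕ) (hz : ((FH d x)^[n] (z, 1)).2 ≠ 0) :
    vl d x (n + 1) =ᶠ[𝓝 z] fun ζ => SINK_f d x (vl d x n ζ) := by
  have hc : Continuous (fun ζ : ℂ => ((FH d x)^[n] (ζ, 1)).2) := by
    have h1 : Continuous (FH d x) :=
      (SINK_cont d).comp (f := fun p : ℂ × ℂ => (x, p)) (by fun_prop)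
    have h2 : Continuous ((FH d x)^[n]) := h1.iterate n
    exact continuous_snd.comp (h2.comp (by fun_prop))
  filter_upwards [hc.continuousAt.eventually_ne hz] with ζ hζ
  have e1 : (FH d x)^[n] (ζ, 1) = ((FH d x)^[n] (ζ, 1)).2 • (vl d x n ζ, (1 : ℂ)) := by
    unfold vl
    ext
    · simp only [Prod.smul_fst, smul_eq_mul]
      field_simp
    · simp
  have e2 : (FH d x)^[n + 1] (ζ, 1) =
      ((FH d x)^[n] (ζ, 1)).2 ^ d • FH d x (vl d x n ζ, (1 : ℂ)) := by
    rw [Function.iterate_succ_apply', ← SINK_hom, ← e1]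
  show ((FH d x)^[n + 1] (ζ, 1)).1 / ((FH d x)^[n + 1] (ζ, 1)).2 = SINK_f d x (vl d x n ζ)
  rw [e2]
  unfold SINK_f
  simp only [Prod.smul_fst, Prod.smul_snd, smul_eq_mul]
  exact mul_div_mul_left _ _ (pow_ne_zero d hζ)

theorem SINK_der {q : ℕ} (d : ℕ) (x : WW d) (z : Fin q → ℂ) (σ : Fin q → Fin q)
    (hσ : ∀ l, SINK_f d x (z l) = z (σ l)) (hQ : ∀ l, ∀ i : ℕ, ((FH d x)^[i] (z l, 1)).2 ≠ 0)
    (l : Fin q) (n : ℕ) : vl d x n (z l) = z (σ^[n] l) ∧
      HasDerivAt (vl d x n) (∏ j ∈ Finset.range n, deriv (SINK_f d x) (z (σ^[j] l))) (z l) := by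
  induction n with
  | zero =>
    have h : vl d x 0 = fun ζ => ζ := by
      funext ζ
      simp [vl]
    rw [h]
    refine ⟨rfl, ?_⟩
    rw [Finset.range_zero, Finset.prod_empty]
    exact hasDerivAt_id' (z l)
  | succ n ih =>
    have h1 := SINK_vl d x (z l) n (hQ l n)
    constructor
    · rw [h1.eq_of_nhds, ih.1, hσ, Function.iterate_succ_apply']
    · have h2 : HasDerivAt (SINK_f d x) (deriv (SINK_f d x) (z (σ^[n] l))) (vl d x n (z l)) := by
        rw [ih.1]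
        exact (SINK_diff d x _ (hQ _ 1)).hasDerivAt
      have h3 := h2.comp (z l) ih.2
      rw [Finset.prod_range_succ, mul_comm]
      exact h3.congr_of_eventuallyEq h1

theorem SINK_ndg (d : ℕ) (xT : WW d) (h : Ndg d xT) : ∀ᶠ x in 𝓝 xT, Ndg d x := by
  have h1 : ∀ᶠ x in 𝓝 xT, ∀ p ∈ sphere (0 : ℂ × ℂ) 1, FH d x p ≠ 0 := by
    refine (isCompact_sphere (0 : ℂ × ℂ) 1).eventually_forall_of_forall_eventually ?_
    intro p hp
    have h2 : FH d xT p ≠ 0 := by
      intro h3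
      have := h p h3
      rw [this] at hp
      simp at hp
    exact (SINK_cont d).continuousAt.eventually_ne (x := (xT, p)) h2
  filter_upwards [h1] with x hx
  intro p hp
  by_contra hp0
  have hn : ‖p‖ ≠ 0 := norm_ne_zero_iff.2 hp0
  have h3 := hx (((‖p‖⁻¹ : ℝ) : ℂ) • p) (by
    rw [mem_sphere_zero_iff_norm, norm_smul, Complex.norm_real, norm_inv, norm_norm,
      inv_mul_cancel₀ hn])
  rw [SINK_hom, hp, smul_zero] at h3
  exact h3 rfl

/-! ### Weights -/

theorem SINK_period {q : ℕ} {M : Type} [CommMonoid M] (σ : Fin q → Fin q) (a : Fin q → M)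
    (l : Fin q) (n : ℕ) (h : σ^[n] l = l) (k : ℕ) : σ^[n * k] l = l ∧
      ∏ j ∈ Finset.range (n * k), a (σ^[j] l) = (∏ j ∈ Finset.range n, a (σ^[j] l)) ^ k := by
  induction k with
  | zero => simp
  | succ k ih =>
    have e : n * (k + 1) = n * k + n := by ring
    constructor
    · rw [e, add_comm, Function.iterate_add_apply, ih.1, h]
    · rw [e, Finset.prod_range_add, ih.2, pow_succ]
      congr 1
      refine Finset.prod_congr rfl fun j _ => ?_
      rw [add_comm (n * k) j, Function.iterate_add_apply, ih.1]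

theorem SINK_wt {q : ℕ} (σ : Fin q → Fin q) (a : Fin q → ℝ) (ha : ∀ l, 0 ≤ a l) (N : ℕ)
    (hN : 0 < N) (h : ∀ l, ∏ j ∈ Finset.range N, a (σ^[j] l) < 1) :
    ∃ t : ℝ, 0 < t ∧ t < 1 ∧ ∃ w : Fin q → ℝ, (∀ l, 1 ≤ w l) ∧ ∀ l, a l * w (σ l) < t * w l := by
  have h1 : ∀ᶠ t in 𝓝[<] (1 : ℝ), ∀ l, ∏ j ∈ Finset.range N, a (σ^[j] l) < t ^ N := by
    rw [eventually_all]
    intro l
    have h2 : Tendsto (fun t : ℝ => t ^ N) (𝓝[<] (1 : ℝ)) (𝓝 1) := by
      have : Tendsto (fun t : ℝ => t ^ N) (𝓝 (1 : ℝ)) (𝓝 (1 ^ N)) :=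
        (continuous_pow N).continuousAt
      rw [one_pow] at this
      exact this.mono_left nhdsWithin_le_nhds
    exact h2.eventually_const_lt (h l)
  have h2 : ∀ᶠ t in 𝓝[<] (1 : ℝ), t ∈ Ioo (0 : ℝ) 1 :=
    Ioo_mem_nhdsLT (by norm_num)
  obtain ⟨t, ht1, ht2⟩ := (h1.and h2).exists
  obtain ⟨ht0, ht3⟩ := ht2
  set T : Fin q → ℕ → ℝ := fun l j => (t⁻¹) ^ j * ∏ i ∈ Finset.range j, a (σ^[i] l) with hT
  have hTn : ∀ l j, 0 ≤ T l j := fun l j =>
    mul_nonneg (pow_nonneg (inv_nonneg.2 ht0.le) j) (Finset.prod_nonneg fun i _ => ha _)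
  refine ⟨t, ht0, ht3, fun l => ∑ j ∈ Finset.range N, T l j, ?_, ?_⟩
  · intro l
    have e : T l 0 = 1 := by simp [hT]
    calc (1 : ℝ) = T l 0 := e.symm
      _ ≤ ∑ j ∈ Finset.range N, T l j :=
        Finset.single_le_sum (fun j _ => hTn l j) (Finset.mem_range.2 hN)
  · intro l
    dsimp only
    have e1 : a l * ∑ j ∈ Finset.range N, T (σ l) j = t * ∑ j ∈ Finset.range N, T l (j + 1) := by
      rw [Finset.mul_sum, Finset.mul_sum]
      refine Finset.sum_congr rfl fun j _ => ?_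
      simp only [hT]
      rw [Finset.prod_range_succ', pow_succ]
      simp only [Function.iterate_succ_apply, Function.iterate_zero, id]
      field_simp
    have e2 : ∑ j ∈ Finset.range N, T l (j + 1) + T l 0 =
        ∑ j ∈ Finset.range N, T l j + T l N := by
      rw [← Finset.sum_range_succ', Finset.sum_range_succ]
    have e3 : T l 0 = 1 := by simp [hT]
    have e4 : T l N < 1 := by
      simp only [hT]
      rw [inv_pow, inv_mul_lt_iff₀ (pow_pos ht0 N), mul_one]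
      exact ht1 l
    rw [e1]
    apply mul_lt_mul_of_pos_left _ ht0
    linarith

/-! ### Local estimate -/

theorem SINK_lip (d : ℕ) (xT : WW d) (z : ℂ) (h : (FH d xT (z, 1)).2 ≠ 0) (Λ : ℝ)
    (hΛ : ‖deriv (SINK_f d xT) z‖ < Λ) : ∃ δ : ℝ, 0 < δ ∧ ∀ x ∈ ball xT δ, ∀ ζ ∈ ball z δ,
      (FH d x (ζ, 1)).2 ≠ 0 ∧ ∀ ζ' ∈ ball z δ,
        ‖SINK_f d x ζ - SINK_f d x ζ'‖ ≤ Λ * ‖ζ - ζ'‖ := by
  have hc := SINK_cd d xT z h
  have hs := hc.hasStrictFDerivAt one_ne_zero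
  set F' := fderiv ℂ (fun y : WW d × ℂ => SINK_f d y.1 y.2) (xT, z) with hF'
  have h1 : HasDerivAt (SINK_f d xT) (F' (0, 1)) z := by
    have h2 : HasDerivAt (fun ζ : ℂ => (xT, ζ)) (((0 : WW d), (1 : ℂ)) : WW d × ℂ) z :=
      (hasDerivAt_const z xT).prodMk (hasDerivAt_id z)
    exact hs.hasFDerivAt.comp_hasDerivAt z h2
  have h2 : ∀ k : ℂ, F' (0, k) = k * deriv (SINK_f d xT) z := by
    intro k
    have e : ((0 : WW d), k) = k • ((0 : WW d), (1 : ℂ)) := by simp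
    rw [e, map_smul, h1.deriv, smul_eq_mul]
  have h3 := hs.isLittleO.def (sub_pos.2 hΛ)
  rw [Metric.eventually_nhds_iff] at h3
  obtain ⟨δ₁, hδ₁, h3⟩ := h3
  have h4 : ∀ᶠ y in 𝓝 (xT, z), (FH d y.1 (y.2, 1)).2 ≠ 0 := by
    have hcc : Continuous (fun y : WW d × ℂ => (FH d y.1 (y.2, 1)).2) :=
      continuous_snd.comp ((SINK_cont d).comp (f := fun y : WW d × ℂ => (y.1, (y.2, (1 : ℂ))))
        (by fun_prop))
    exact hcc.continuousAt.eventually_ne h
  rw [Metric.eventually_nhds_iff] at h4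
  obtain ⟨δ₂, hδ₂, h4⟩ := h4
  refine ⟨min δ₁ δ₂, lt_min hδ₁ hδ₂, fun x hx ζ hζ => ⟨?_, fun ζ' hζ' => ?_⟩⟩
  · refine h4 (y := (x, ζ)) ?_
    rw [Prod.dist_eq, max_lt_iff]
    exact ⟨hx.trans_le (min_le_right _ _), hζ.trans_le (min_le_right _ _)⟩
  · have h5 := h3 (y := ((x, ζ), (x, ζ'))) (by
      rw [Prod.dist_eq, Prod.dist_eq, Prod.dist_eq, max_lt_iff, max_lt_iff, max_lt_iff]
      have hx' : dist x xT < δ₁ := lt_of_lt_of_le hx (min_le_left _ _)
      exact ⟨⟨hx', lt_of_lt_of_le hζ (min_le_left _ _)⟩,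
        ⟨hx', lt_of_lt_of_le hζ' (min_le_left _ _)⟩⟩)
    simp only [Prod.mk_sub_mk, sub_self] at h5
    rw [h2] at h5
    have h6 : ‖((0 : WW d), ζ - ζ')‖ = ‖ζ - ζ'‖ := by
      rw [Prod.norm_def]
      simp
    rw [h6] at h5
    calc ‖SINK_f d x ζ - SINK_f d x ζ'‖ =
        ‖(SINK_f d x ζ - SINK_f d x ζ' - (ζ - ζ') * deriv (SINK_f d xT) z) +
          (ζ - ζ') * deriv (SINK_f d xT) z‖ := by rw [sub_add_cancel]
      _ ≤ (Λ - ‖deriv (SINK_f d xT) z‖) * ‖ζ - ζ'‖ + ‖ζ - ζ'‖ * ‖deriv (SINK_f d xT) z‖ := by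
        refine (norm_add_le _ _).trans (add_le_add h5 (le_of_eq (norm_mul _ _)))
      _ = Λ * ‖ζ - ζ'‖ := by ring

/-! ### The implicit function -/

theorem SINK_impl {q : ℕ} (d : ℕ) (xT : WW d) (z : Fin q → ℂ) (σ : Fin q → Fin q)
    (hσ : ∀ l, SINK_f d xT (z l) = z (σ l)) (hQ : ∀ l, (FH d xT (z l, 1)).2 ≠ 0) (N : ℕ)
    (hN : ∀ l, σ^[N] l = l)
    (hm : ∀ l, ‖∏ j ∈ Finset.range N, deriv (SINK_f d xT) (z (σ^[j] l))‖ < 1) :
    ∃ S : WW d → (Fin q → ℂ), S xT = z ∧ ContDiffAt ℂ 1 S xT ∧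
      ∀ᶠ x in 𝓝 xT, ∀ l, S x (σ l) = SINK_f d x (S x l) := by
  set G : WW d × (Fin q → ℂ) → (Fin q → ℂ) := fun p l => p.2 (σ l) - SINK_f d p.1 (p.2 l) with hG
  have hGc : ContDiffAt ℂ 1 G (xT, z) := by
    rw [contDiffAt_pi]
    intro l
    simp only [hG]
    refine ContDiffAt.sub ?_ ?_
    · fun_prop
    · have h1 := SINK_cd d xT (z l) (hQ l)
      have h2 : ContDiffAt ℂ 1 (fun p : WW d × (Fin q → ℂ) => (p.1, p.2 l)) (xT, z) := by
        fun_prop
      exact ContDiffAt.comp (g := fun y : WW d × ℂ => SINK_f d y.1 y.2)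
        (f := fun p : WW d × (Fin q → ℂ) => (p.1, p.2 l)) (xT, z) h1 h2
  set L := fderiv ℂ G (xT, z) ∘L ContinuousLinearMap.inr ℂ (WW d) (Fin q → ℂ) with hL
  have hL1 : HasFDerivAt (fun y => G (xT, y)) L z :=
    (hGc.differentiableAt one_ne_zero).hasFDerivAt.comp z (hasFDerivAt_prodMk_right xT z)
  have hL2 : ∀ (l : Fin q) (v : Fin q → ℂ),
      L v l = v (σ l) - deriv (SINK_f d xT) (z l) * v l := by
    intro l v
    have h1 : HasFDerivAt (fun y => G (xT, y) l)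
        ((ContinuousLinearMap.proj (R := ℂ) (φ := fun _ : Fin q => ℂ) l).comp L) z :=
      (hasFDerivAt_pi'.1 hL1) l
    have h2 : HasFDerivAt (fun y : Fin q → ℂ => y (σ l) - SINK_f d xT (y l))
        (ContinuousLinearMap.proj (R := ℂ) (φ := fun _ : Fin q => ℂ) (σ l) -
          deriv (SINK_f d xT) (z l) •
            ContinuousLinearMap.proj (R := ℂ) (φ := fun _ : Fin q => ℂ) l) z := by
      refine HasFDerivAt.sub (hasFDerivAt_apply (σ l) z) ?_
      have h3 := (SINK_diff d xT (z l) (hQ l)).hasDerivAt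
      have h4 : HasFDerivAt (fun y : Fin q → ℂ => y l)
        (ContinuousLinearMap.proj (R := ℂ) (φ := fun _ : Fin q => ℂ) l) z := hasFDerivAt_apply l z
      exact HasDerivAt.comp_hasFDerivAt (h₂ := SINK_f d xT) (f := fun y : Fin q → ℂ => y l) z h3 h4
    have h3 := congrArg (fun T : (Fin q → ℂ) →L[ℂ] ℂ => T v) (h1.unique h2)
    simpa using h3
  have hinj : Function.Injective (L : (Fin q → ℂ) →ₗ[ℂ] (Fin q → ℂ)) := by
    rw [← LinearMap.ker_eq_bot, LinearMap.ker_eq_bot']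
    intro v hv
    have h1 : ∀ l, v (σ l) = deriv (SINK_f d xT) (z l) * v l := by
      intro l
      have h2 := congrFun hv l
      have h3 : L v l = 0 := h2
      rw [hL2] at h3
      exact sub_eq_zero.1 h3
    have h2 : ∀ (n : ℕ) (l : Fin q), v (σ^[n] l) =
        (∏ j ∈ Finset.range n, deriv (SINK_f d xT) (z (σ^[j] l))) * v l := by
      intro n
      induction n with
      | zero => intro l; simp
      | succ n ih =>
        intro l
        rw [Function.iterate_succ_apply', h1, ih, Finset.prod_range_succ]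
        ring
    funext l
    have h3 := h2 N l
    rw [hN l] at h3
    by_contra hne
    have h4 : (∏ j ∈ Finset.range N, deriv (SINK_f d xT) (z (σ^[j] l))) = 1 := by
      have h5 : (1 : ℂ) * v l =
          (∏ j ∈ Finset.range N, deriv (SINK_f d xT) (z (σ^[j] l))) * v l := by
        rw [one_mul]; exact h3
      exact (mul_right_cancel₀ hne h5).symm
    have h5 := hm l
    rw [h4] at h5
    simp at h5
  have hinv : L.IsInvertible := by
    refine ⟨(LinearEquiv.ofInjectiveEndo (L : (Fin q → ℂ) →ₗ[ℂ] (Fin q → ℂ))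
      hinj).toContinuousLinearEquiv, ?_⟩
    ext v
    rfl
  refine ⟨hGc.implicitFunction one_ne_zero hinv, ?_, ?_, ?_⟩
  · exact hGc.implicitFunction_apply_self one_ne_zero hinv
  · exact hGc.contDiffAt_implicitFunction one_ne_zero hinv
  · filter_upwards [hGc.eventually_apply_implicitFunction one_ne_zero hinv] with x hx
    intro l
    have h1 := congrFun hx l
    simp only [hG] at h1
    rw [hσ l, sub_self] at h1
    exact sub_eq_zero.1 h1

/-! ### Conclusion -/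

theorem sink_holds : StSINK := by
  classical
  intro d xT Z hd hndg hZ hZi ε hε
  -- enumeration
  set q := Z.card with hq
  set e := Z.equivFin with he
  set z : Fin q → ℂ := fun l => ((e.symm l : Z) : ℂ) with hz
  have hzZ : ∀ l, z l ∈ Z := fun l => (e.symm l).2
  have hzinj : Function.Injective z := fun a b h => e.symm.injective (Subtype.ext h)
  have hzr : range z = (Z : Set ℂ) := by
    ext w
    constructor
    · rintro ⟨l, rfl⟩
      exact hzZ l
    · intro hw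
      exact ⟨e ⟨w, hw⟩, by simp [hz]⟩
  have hQi : ∀ l, ∀ i : ℕ, ((FH d xT)^[i] (z l, 1)).2 ≠ 0 := fun l => (hZ (z l) (hzZ l)).1
  have hQ : ∀ l, (FH d xT (z l, 1)).2 ≠ 0 := fun l => hQi l 1
  have hex : ∀ l, ∃ k, SINK_f d xT (z l) = z k := by
    intro l
    have h1 : SINK_f d xT (z l) ∈ Z := by
      refine hZi (z l) (hzZ l) _ ⟨hQ l, ?_⟩
      unfold SINK_f
      rw [div_mul_cancel₀ _ (hQ l)]
    have h2 : SINK_f d xT (z l) ∈ range z := by rw [hzr]; exact h1
    obtain ⟨k, hk⟩ := h2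
    exact ⟨k, hk.symm⟩
  choose σ₀ hσ₀ using hex
  -- periods
  have hper : ∀ l, ∃ n : ℕ, 0 < n ∧ σ₀^[n] l = l ∧
      ‖∏ j ∈ Finset.range n, deriv (SINK_f d xT) (z (σ₀^[j] l))‖ < 1 := by
    intro l
    obtain ⟨n, hn, h1, h2⟩ := (hZ (z l) (hzZ l)).2
    obtain ⟨h3, h4⟩ := SINK_der d xT z σ₀ hσ₀ hQi l n
    refine ⟨n, hn, ?_, ?_⟩
    · apply hzinj
      rw [← h3]
      unfold vl
      rw [h1.2, mul_div_cancel_right₀ _ h1.1]
    · rw [← h4.deriv]
      exact h2
  choose nn hn1 hn2 hn3 using hper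
  set N : ℕ := ∏ l, nn l with hNdef
  have hNpos : 0 < N := Finset.prod_pos fun l _ => hn1 l
  have hNl : ∀ l, ∃ k, 0 < k ∧ N = nn l * k := by
    intro l
    obtain ⟨k, hk⟩ := Finset.dvd_prod_of_mem nn (Finset.mem_univ l)
    refine ⟨k, ?_, hk⟩
    rcases Nat.eq_zero_or_pos k with h0 | h0
    · rw [h0, mul_zero] at hk
      omega
    · exact h0
  have hNid : ∀ l, σ₀^[N] l = l := by
    intro l
    obtain ⟨k, _, hk⟩ := hNl l
    rw [hk]
    exact (SINK_period σ₀ (fun _ => (1 : ℕ)) l (nn l) (hn2 l) k).1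
  have hNm : ∀ l, ‖∏ j ∈ Finset.range N, deriv (SINK_f d xT) (z (σ₀^[j] l))‖ < 1 := by
    intro l
    obtain ⟨k, hk0, hk⟩ := hNl l
    rw [hk, (SINK_period σ₀ (fun m => deriv (SINK_f d xT) (z m)) l (nn l) (hn2 l) k).2, norm_pow]
    exact pow_lt_one₀ (norm_nonneg _) (hn3 l) (by omega)
  have hsurj : Function.Surjective σ₀ := by
    intro l
    refine ⟨σ₀^[N - 1] l, ?_⟩
    rw [← Function.iterate_succ_apply' σ₀ (N - 1) l, Nat.succ_eq_add_one, Nat.sub_add_cancel hNpos]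
    exact hNid l
  have hbij : Function.Bijective σ₀ := ⟨Finite.injective_iff_surjective.2 hsurj, hsurj⟩
  set σ : Equiv.Perm (Fin q) := Equiv.ofBijective σ₀ hbij with hσdef
  have hσ : ∀ l, σ l = σ₀ l := fun l => rfl
  -- weights
  obtain ⟨t, ht0, ht1, w, hw1, hw2⟩ := SINK_wt σ₀ (fun l => ‖deriv (SINK_f d xT) (z l)‖)
    (fun l => norm_nonneg _) N hNpos (fun l => by
      rw [← norm_prod]
      exact hNm l)
  have hwpos : ∀ l, 0 < w l := fun l => lt_of_lt_of_le one_pos (hw1 l)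
  -- sizes
  have hlip : ∀ l, ∃ δ : ℝ, 0 < δ ∧ ∀ x ∈ ball xT δ, ∀ ζ ∈ ball (z l) δ,
      (FH d x (ζ, 1)).2 ≠ 0 ∧ ∀ ζ' ∈ ball (z l) δ,
        ‖SINK_f d x ζ - SINK_f d x ζ'‖ ≤ (t * w l / w (σ₀ l)) * ‖ζ - ζ'‖ := by
    intro l
    refine SINK_lip d xT (z l) (hQ l) _ ?_
    rw [lt_div_iff₀ (hwpos _)]
    exact hw2 l
  choose δl hδl0 hδl using hlip
  have hδ : ∀ᶠ δ in 𝓝[>] (0 : ℝ), 0 < δ ∧ δ < ε ∧ (∀ l, δ < δl l) ∧
      ∀ l l', l ≠ l' → δ + δ ≤ dist (z l) (z l') := by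
    have h1 : ∀ c : ℝ, 0 < c → ∀ᶠ δ in 𝓝[>] (0 : ℝ), δ < c := fun c hc =>
      mem_nhdsWithin_of_mem_nhds (Iio_mem_nhds hc)
    have h2 : ∀ l l', ∀ᶠ δ in 𝓝[>] (0 : ℝ), l ≠ l' → δ + δ ≤ dist (z l) (z l') := by
      intro l l'
      by_cases h : l = l'
      · exact Eventually.of_forall fun δ hne => absurd h hne
      · have h3 : 0 < dist (z l) (z l') / 2 := half_pos (dist_pos.2 fun h' => h (hzinj h'))
        filter_upwards [h1 _ h3] with δ hδ _
        linarith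
    filter_upwards [self_mem_nhdsWithin, h1 ε hε, eventually_all.2 (fun l => h1 _ (hδl0 l)),
      eventually_all.2 (fun l => eventually_all.2 (fun l' => h2 l l'))] with δ g1 g2 g3 g4
    exact ⟨g1, g2, g3, g4⟩
  obtain ⟨δ, hδ0, hδε, hδ1, hδ2⟩ := hδ.exists
  -- the fixed points
  obtain ⟨S, hS0, hS1, hS2⟩ := SINK_impl d xT z σ₀ hσ₀ hQ N hNid hNm
  have hS3 : ∀ᶠ x in 𝓝 xT, DifferentiableAt ℂ S x := by
    filter_upwards [hS1.eventually (by simp)] with x hx
    exact hx.differentiableAt one_ne_zero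
  have hS4 : ∀ᶠ x in 𝓝 xT, ∀ l, S x l ∈ ball (z l) (δ / 2) := by
    rw [eventually_all]
    intro l
    have h1 : ContinuousAt (fun x => S x l) xT :=
      (continuous_apply l).continuousAt.comp hS1.continuousAt
    have h2 : S xT l = z l := by rw [hS0]
    have h3 := h1.eventually (Metric.ball_mem_nhds (S xT l) (half_pos hδ0))
    rw [h2] at h3
    exact h3
  have hall := ((hS2.and hS3).and (hS4.and (SINK_ndg d xT hndg))).and
    (Metric.ball_mem_nhds xT hδ0)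
  obtain ⟨ρ, hρ0, hρ⟩ := Metric.eventually_nhds_iff_ball.1 hall
  set ρ₀ := min ρ ε with hρ₀
  have hρ₀pos : 0 < ρ₀ := lt_min hρ0 hε
  have hin : ∀ x ∈ ball xT ρ₀, x ∈ ball xT ρ := fun x hx => ball_subset_ball (min_le_left _ _) hx
  set rr : Fin q → ℝ := fun l => (δ / 2) / w l with hrr
  have hrr0 : ∀ l, 0 < rr l := fun l => div_pos (half_pos hδ0) (hwpos l)
  have hrr1 : ∀ l, rr l ≤ δ / 2 := fun l => div_le_self (half_pos hδ0).le (hw1 l)
  have hsub : ∀ x ∈ ball xT ρ₀, ∀ l, ball (S x l) (rr l) ⊆ ball (z l) δ := by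
    intro x hx l
    refine ball_subset_ball' ?_
    have h1 := (hρ x (hin x hx)).1.2.1 l
    rw [mem_ball] at h1
    have h2 := hrr1 l
    linarith
  have hsin : ∀ x ∈ ball xT ρ₀, ∀ l, S x l ∈ ball (z l) δ := fun x hx l =>
    hsub x hx l (mem_ball_self (hrr0 l))
  refine ⟨q, ρ₀, fun l x => S x l, rr, σ, t, ?_, min_le_right _ _, ?_, ?_⟩
  · exact {
      hd := hd
      hρ := hρ₀pos
      th0 := ht0
      th1 := ht1
      rp := hrr0
      sd := by
        intro l x hx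
        have h1 : DifferentiableAt ℂ S x := (hρ x (hin x hx)).1.1.2
        exact ((differentiableAt_pi.1 h1) l).differentiableWithinAt
      sb := by
        refine ⟨∑ l, ‖z l‖ + δ, fun l x hx => ?_⟩
        have h1 := hsin x hx l
        rw [mem_ball, dist_eq_norm] at h1
        have h2 : ‖z l‖ ≤ ∑ l, ‖z l‖ :=
          Finset.single_le_sum (f := fun l => ‖z l‖) (fun l _ => norm_nonneg _)
            (Finset.mem_univ l)
        calc ‖S x l‖ = ‖z l + (S x l - z l)‖ := by rw [add_sub_cancel]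
          _ ≤ ‖z l‖ + ‖S x l - z l‖ := norm_add_le _ _
          _ ≤ _ := by linarith
      con := by
        intro x hx l ζ hζ
        have hxδ : x ∈ ball xT (δl l) := ball_subset_ball (hδ1 l).le (hρ x (hin x hx)).2
        have hζ' : ζ ∈ ball (z l) (δl l) := ball_subset_ball (hδ1 l).le (hsub x hx l hζ)
        have hs' : S x l ∈ ball (z l) (δl l) := ball_subset_ball (hδ1 l).le (hsin x hx l)
        obtain ⟨h1, h2⟩ := hδl l x hxδ ζ hζ'
        refine ⟨SINK_f d x ζ, ⟨h1, ?_⟩, ?_⟩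
        · unfold SINK_f
          rw [div_mul_cancel₀ _ h1]
        · have h3 : S x (σ l) = SINK_f d x (S x l) := (hρ x (hin x hx)).1.1.1 l
          have h4 := h2 (S x l) hs'
          rw [h3]
          have h5 : (t * w l / w (σ₀ l)) * rr l = t * rr (σ l) := by
            simp only [hrr, hσ]
            have := (hwpos l).ne'
            field_simp
          calc ‖SINK_f d x ζ - SINK_f d x (S x l)‖ * rr l
              ≤ ((t * w l / w (σ₀ l)) * ‖ζ - S x l‖) * rr l :=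
                mul_le_mul_of_nonneg_right h4 (hrr0 l).le
            _ = ((t * w l / w (σ₀ l)) * rr l) * ‖ζ - S x l‖ := by ring
            _ = t * ‖ζ - S x l‖ * rr (σ l) := by rw [h5]; ring
      dis := by
        intro x hx l l' hne
        exact (ball_disjoint_ball (hδ2 l l' hne)).mono (hsub x hx l) (hsub x hx l')
      ndg := fun x hx => (hρ x (hin x hx)).1.2.2 }
  · intro l
    have := hrr1 l
    linarith
  · simp only [hS0]
    exact hzr

end Pool.Agent.H713R4.RB
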