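import Mathlib
import Pool.Agent.H713R4.RB.Defs
import Pool.Agent.H713R3.ZA.Mot3

/-! Task STEP: mean value step (adapt Mot3, Mot4). -/

set_option autoImplicit false

open Topology Filter Metric Set Polynomial MeasureTheory

namespace Pool.Agent.H713R4.RB

namespace STEP

theorem FH_continuous (d : ℕ) (x : WW d) : Continuous (FH d x) := by
  unfold FH
  fun_prop

theorem isOpen_WN (d : ℕ) (x : WW d) {U : Set ℂ} (hU : IsOpen U) (N : ℕ) :
    IsOpen (WN d x U N) := by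
  set G : ℂ → ℂ × ℂ := fun z => (FH d x)^[N] (z, 1) with hGdef
  have hG : Continuous G := ((FH_continuous d x).iterate N).comp (by fun_prop)
  have h1 : WN d x U N = {z | (G z).2 ≠ 0} ∩ (fun z => (G z).1 / (G z).2) ⁻¹' U := by
    ext z
    constructor
    · rintro ⟨w, hw, h2, h3⟩
      refine ⟨h2, ?_⟩
      show (G z).1 / (G z).2 ∈ U
      have h3' : (G z).1 = w * (G z).2 := h3
      rw [h3', mul_div_cancel_right₀ _ h2]
      exact hw
    · rintro ⟨h2, h3⟩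
      exact ⟨_, h3, h2, (div_mul_cancel₀ _ h2).symm⟩
  rw [h1]
  apply ContinuousOn.isOpen_inter_preimage
  · exact hG.fst.continuousOn.div hG.snd.continuousOn (fun z hz => hz)
  · exact isOpen_ne_fun hG.snd continuous_const
  · exact hU

theorem WN_split (d : ℕ) (x : WW d) (U B : Set ℂ) (N : ℕ) :
    WN d x U N ⊆ WN d x (U \ B) N ∪ WN d x B N := by
  rintro z ⟨w, hw, h⟩
  by_cases hB : w ∈ B
  · exact Or.inr ⟨w, hB, h⟩
  · exact Or.inl ⟨w, ⟨hw, hB⟩, h⟩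

theorem WN_mono (d : ℕ) (x : WW d) {U V : Set ℂ} (h : U ⊆ V) (N : ℕ) :
    WN d x U N ⊆ WN d x V N := by
  rintro z ⟨w, hw, hz⟩
  exact ⟨w, h hw, hz⟩

theorem Dl_continuous (d : ℕ) (x : WW d) : Continuous (fun y => Dl d x y) := by
  unfold Dl
  fun_prop

theorem Dl_nonneg (d : ℕ) (x y : WW d) : 0 ≤ Dl d x y := by
  unfold Dl
  exact Finset.sum_nonneg (fun _ _ => by positivity)

/-- (i) the area inequality -/
theorem area_part (hAREA : StAREA) (hBAD : StBAD) {d : ℕ} {γ : ℂ → WW d} {ρ : ℝ} {U : Set ℂ}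
    {H : ℂ → ℂ → ℂ} {Bd : ℕ → Set ℂ} {A : Set ℂ} {N : ℕ} {R₄ R₅ : ℝ} {Φ : ℂ → ℂ → ℂ} {t : ℂ}
    {Ψ : ℂ → ℂ} (hr : RDA d γ ρ U H Bd) (hd : 2 ≤ d) (hR₄ : 0 < R₄) (hR₅ : R₄ < R₅)
    (ht : t ∈ ball (0 : ℂ) ρ)
    (hA : ∀ z : ℂ, ∀ w ∈ U, Over ((FH d (γ t))^[N] (z, 1)) (H t w) → z ∈ A)
    (hbig : {z : ℂ | R₄ < ‖z‖} ⊆ WN d (γ 0) U N) (hM : MOT d γ ρ U H Bd N Φ)
    (hΨd : DifferentiableOn ℂ Ψ (WN d (γ 0) U N)) (hΨi : InjOn Ψ (WN d (γ 0) U N))
    (hΨe : ∀ z ∈ WN d (γ 0) (U \ Bd N) N, Ψ z = Φ t z)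
    (hΨa : Tendsto (fun z : ℂ => Ψ z - z) (Bornology.cobounded ℂ) (𝓝 0)) :
    (∫⁻ z in WN d (γ 0) (U \ Bd N) N ∩ closedBall 0 R₅, ENNReal.ofReal (‖deriv (Φ t) z‖ ^ 2)) +
      volume Aᶜ ≤ ENNReal.ofReal (Real.pi * R₅ ^ 2) := by
  have h0ρ : (0 : ℂ) ∈ ball (0 : ℂ) ρ := mem_ball_self hr.hρ
  set W := WN d (γ 0) (U \ Bd N) N with hW
  have hWo : IsOpen W := isOpen_WN d (γ 0) (hr.Uo.sdiff (hr.Bf N).isClosed) N
  have hWU : W ⊆ WN d (γ 0) U N := WN_mono d (γ 0) sdiff_subset N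
  set K := W ∩ closedBall (0 : ℂ) R₅ with hK
  have hKm : MeasurableSet K := hWo.measurableSet.inter measurableSet_closedBall
  have hKW : K ⊆ W := inter_subset_left
  set E := WN d (γ 0) (Bd N) N with hE
  have hEf : E.Finite := hBAD d N (γ 0) (Bd N) (by omega) (hr.ndg 0 h0ρ) (hr.Bf N)
  have hΦt : DifferentiableOn ℂ (Φ t) W :=
    hM.diff.comp (f := fun z : ℂ => ((t, z) : ℂ × ℂ)) (by fun_prop) (fun z hz => ⟨ht, hz⟩)
  have hinj : InjOn (Φ t) W := by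
    intro z hz z' hz' h
    rw [← hΨe z hz, ← hΨe z' hz'] at h
    exact hΨi (hWU hz) (hWU hz') h
  have hmemA : ∀ z ∈ W, Φ t z ∈ A := by
    rintro z ⟨w, hw, hz⟩
    exact hA _ w hw.1 (hM.eqn t ht z ⟨w, hw, hz⟩ w hz)
  rw [← Pool.Agent.H713R3.ZA.volume_image_holo hKm hWo hKW hΦt (hinj.mono hKW)]
  have himm : MeasurableSet (Φ t '' K) :=
    hKm.image_of_continuousOn_injOn (hΦt.continuousOn.mono hKW) (hinj.mono hKW)
  have harea := hAREA R₄ R₅ Ψ hR₄ hR₅ (hΨd.mono hbig) (hΨi.mono hbig) hΨa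
  rw [← measure_union' _ himm]
  · have hsub : Φ t '' K ∪ Aᶜ ⊆ (Ψ '' {z : ℂ | R₅ < ‖z‖})ᶜ ∪ Ψ '' E := by
      rintro y (⟨z, hz, rfl⟩ | hy)
      · left
        rintro ⟨z', hz', h⟩
        have hz'5 : R₅ < ‖z'‖ := hz'
        have hz'U : z' ∈ WN d (γ 0) U N := hbig (hR₅.trans hz'5)
        rw [← hΨe z (hKW hz)] at h
        have e := hΨi hz'U (hWU (hKW hz)) h
        have h4 := mem_closedBall_zero_iff.mp hz.2
        rw [e] at hz'5
        exact absurd hz'5 (not_lt.mpr h4)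
      · by_cases hyy : y ∈ Ψ '' {z : ℂ | R₅ < ‖z‖}
        · right
          obtain ⟨z, hz, rfl⟩ := hyy
          have hz5 : R₅ < ‖z‖ := hz
          have hzU : z ∈ WN d (γ 0) U N := hbig (hR₅.trans hz5)
          rcases WN_split d (γ 0) U (Bd N) N hzU with h1 | h1
          · exfalso
            rw [hΨe z h1] at hy
            exact hy (hmemA z h1)
          · exact ⟨z, h1, rfl⟩
        · exact Or.inl hyy
    refine (measure_mono hsub).trans ((measure_union_le _ _).trans ?_)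
    rw [(hEf.image Ψ).measure_zero, add_zero]
    exact harea
  · rw [Set.disjoint_left]
    rintro _ ⟨z, hz, rfl⟩ hw
    exact hw (hmemA z (hKW hz))

/-- (ii) the gain -/
theorem gain_part (hBAD : StBAD) {d : ℕ} {γ : ℂ → WW d} {ρ : ℝ} {U : Set ℂ}
    {H : ℂ → ℂ → ℂ} {Bd : ℕ → Set ℂ} {N : ℕ} {R₄ R₅ : ℝ} {Φ : ℂ → ℂ → ℂ} {t : ℂ}
    {Ψ : ℂ → ℂ} {v₁ v₂ : ℂ} {r₁ c₀ : ℝ} (hr : RDA d γ ρ U H Bd) (hd : 2 ≤ d)
    (hbig : {z : ℂ | R₄ < ‖z‖} ∪ ball v₁ r₁ ∪ ball v₂ r₁ ⊆ WN d (γ 0) U N)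
    (hball : ball v₁ r₁ ∪ ball v₂ r₁ ⊆ ball (0 : ℂ) R₅)
    (hΨd : DifferentiableOn ℂ Ψ (WN d (γ 0) U N))
    (hΨe : ∀ z ∈ WN d (γ 0) (U \ Bd N) N, Ψ z = Φ t z)
    (hΨa : Tendsto (fun z : ℂ => Ψ z - z) (Bornology.cobounded ℂ) (𝓝 0))
    (hΨc : ∀ z ∈ WN d (γ 0) U N, ∀ z' ∈ WN d (γ 0) U N, Over (FH d (γ 0) (z, 1)) z' →
        Over (FH d (γ t) (Ψ z, 1)) (Ψ z'))
    (hG : Gain d R₄ R₅ v₁ v₂ r₁ c₀ (γ 0) (γ t)) :
    ENNReal.ofReal (c₀ * Dl d (γ 0) (γ t)) ≤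
      ∫⁻ z in WN d (γ 0) (U \ Bd N) N ∩ closedBall 0 R₅, ENNReal.ofReal (‖deriv (Φ t) z - 1‖ ^ 2) := by
  have h0ρ : (0 : ℂ) ∈ ball (0 : ℂ) ρ := mem_ball_self hr.hρ
  set W := WN d (γ 0) (U \ Bd N) N with hW
  have hWo : IsOpen W := isOpen_WN d (γ 0) (hr.Uo.sdiff (hr.Bf N).isClosed) N
  set K := W ∩ closedBall (0 : ℂ) R₅ with hK
  have hKm : MeasurableSet K := hWo.measurableSet.inter measurableSet_closedBall
  set E := WN d (γ 0) (Bd N) N with hE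
  have hEf : E.Finite := hBAD d N (γ 0) (Bd N) (by omega) (hr.ndg 0 h0ρ) (hr.Bf N)
  have h1 := hG (WN d (γ 0) U N) Ψ (isOpen_WN d (γ 0) hr.Uo N)
    (fun z hz => hbig (Or.inl (Or.inl hz))) (fun z hz => hbig (Or.inl (Or.inr hz)))
    (fun z hz => hbig (Or.inr hz)) hΨd hΨa hΨc
  refine h1.trans ?_
  have hsub : K1 R₄ R₅ v₁ v₂ r₁ ⊆ K ∪ E := by
    intro z hz
    have hzU : z ∈ WN d (γ 0) U N := by
      rcases hz with (hz | hz) | hz
      · exact hbig (Or.inl (Or.inl hz.1))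
      · exact hbig (Or.inl (Or.inr hz))
      · exact hbig (Or.inr hz)
    have hz5 : z ∈ closedBall (0 : ℂ) R₅ := by
      rcases hz with (hz | hz) | hz
      · exact mem_closedBall_zero_iff.mpr hz.2.le
      · exact ball_subset_closedBall (hball (Or.inl hz))
      · exact ball_subset_closedBall (hball (Or.inr hz))
    rcases WN_split d (γ 0) U (Bd N) N hzU with h | h
    · exact Or.inl ⟨h, hz5⟩
    · exact Or.inr h
  have h2 : (∫⁻ z in K1 R₄ R₅ v₁ v₂ r₁, ENNReal.ofReal (‖deriv Ψ z - 1‖ ^ 2)) ≤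
      ∫⁻ z in K, ENNReal.ofReal (‖deriv Ψ z - 1‖ ^ 2) := by
    refine (lintegral_mono_set hsub).trans ?_
    refine (lintegral_union_le _ _ _).trans ?_
    rw [setLIntegral_measure_zero E _ (hEf.measure_zero volume), add_zero]
  refine h2.trans (le_of_eq ?_)
  apply setLIntegral_congr_fun hKm
  intro z hz
  have h3 : Ψ =ᶠ[𝓝 z] Φ t := by
    filter_upwards [hWo.mem_nhds hz.1] with w hw
    exact hΨe w hw
  simp only [h3.deriv_eq]

/-- (iv) most of the attracted set is attracted at time `N` -/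
theorem vol_part (hBAD : StBAD) {d : ℕ} {x : WW d} (hd : 2 ≤ d) (hx : Ndg d x) {U : Set ℂ}
    (hU : IsOpen U) {Bd : ℕ → Set ℂ} (hBd : ∀ N, (Bd N).Finite) {A : Set ℂ} {R₄ R₅ : ℝ}
    (hR₄ : 0 < R₄) (hR₅ : R₄ < R₅) (hAbig : ∀ z : ℂ, R₄ < ‖z‖ → z ∈ A)
    (hev : ∀ z ∈ A, ∃ N₀, ∀ N ≥ N₀, z ∈ WN d x U N) (N₁ : ℕ) {η : ℝ} (hη : 0 < η) :
    ∃ N ≥ N₁, ENNReal.ofReal (Real.pi * R₅ ^ 2) ≤
      volume (WN d x (U \ Bd N) N ∩ closedBall 0 R₅) + (volume Aᶜ + ENNReal.ofReal η) := by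
  have hR₅0 : 0 < R₅ := hR₄.trans hR₅
  set B : ℕ → Set ℂ := fun N => closedBall (0 : ℂ) R₅ \ WN d x U N with hB
  have hBm : ∀ N, MeasurableSet (B N) := fun N =>
    measurableSet_closedBall.diff (isOpen_WN d x hU N).measurableSet
  set T : ℕ → Set ℂ := fun n => ⋃ N ≥ n, B N with hT
  have hTm : ∀ n, MeasurableSet (T n) := fun n =>
    MeasurableSet.iUnion fun N => MeasurableSet.iUnion fun _ => hBm N
  have hTa : Antitone T := by
    intro m n hmn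
    exact biUnion_mono (fun N hN => le_trans hmn hN) (fun _ _ => le_rfl)
  have hTb : T 0 ⊆ closedBall (0 : ℂ) R₅ := by
    apply iUnion₂_subset
    intro N _
    exact sdiff_subset
  have hfin : volume (T 0) ≠ ⊤ := ((measure_mono hTb).trans_lt measure_closedBall_lt_top).ne
  have hlim := tendsto_measure_iInter_atTop (μ := (volume : Measure ℂ))
    (fun n => (hTm n).nullMeasurableSet) hTa ⟨0, hfin⟩
  have hsub : (⋂ n, T n) ⊆ Aᶜ := by
    intro z hz hzA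
    obtain ⟨N₀, hN₀⟩ := hev z hzA
    have h1 := mem_iInter.mp hz N₀
    obtain ⟨N, hN, h2⟩ := mem_iUnion₂.mp h1
    exact h2.2 (hN₀ N hN)
  have hAfin : volume Aᶜ ≠ ⊤ := by
    have : Aᶜ ⊆ closedBall (0 : ℂ) R₄ := by
      intro z hz
      rw [mem_closedBall_zero_iff]
      by_contra h
      exact hz (hAbig z (not_le.mp h))
    exact ((measure_mono this).trans_lt measure_closedBall_lt_top).ne
  have hlt : volume (⋂ n, T n) < volume Aᶜ + ENNReal.ofReal η :=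
    (measure_mono hsub).trans_lt (ENNReal.lt_add_right hAfin (by simpa using hη))
  obtain ⟨N, hN, hNN⟩ := ((hlim.eventually (gt_mem_nhds hlt)).and (eventually_ge_atTop N₁)).exists
  refine ⟨N, hNN, ?_⟩
  have h2 : volume (closedBall (0 : ℂ) R₅) = ENNReal.ofReal (Real.pi * R₅ ^ 2) := by
    rw [Complex.volume_closedBall, mul_comm Real.pi, ENNReal.ofReal_mul (by positivity),
      ENNReal.ofReal_pow hR₅0.le, ← NNReal.coe_real_pi, ENNReal.ofReal_coe_nnreal]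
  have hEf : (WN d x (Bd N) N).Finite := hBAD d N x (Bd N) (by omega) hx (hBd N)
  have hcov : closedBall (0 : ℂ) R₅ ⊆ ((WN d x (U \ Bd N) N ∩ closedBall 0 R₅) ∪ T N) ∪
      WN d x (Bd N) N := by
    intro z hz
    by_cases h3 : z ∈ WN d x U N
    · rcases WN_split d x U (Bd N) N h3 with h4 | h4
      · exact Or.inl (Or.inl ⟨h4, hz⟩)
      · exact Or.inr h4
    · exact Or.inl (Or.inr (mem_iUnion₂.mpr ⟨N, le_rfl, hz, h3⟩))
  rw [← h2]
  refine (measure_mono hcov).trans ((measure_union_le _ _).trans ?_)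
  rw [hEf.measure_zero, add_zero]
  refine (measure_union_le _ _).trans ?_
  gcongr
  exact hN.le

end STEP

open STEP

theorem step_holds : StSTEP := by
  intro hAREA hAVG hBAD hMOT hFULL hROOT hPRO hWN d γ ρ U H Bd AA N₁ R₄ R₅ R₆ far v₁ v₂ r₁ c₀ hd hr
    hR₄ hR₅ hAo hAbig hev hAmem hbig hball hfar hc₀ hgain r hr0 hrρ η hη q hq
  have hpi := Real.pi_pos
  have h0ρ : (0 : ℂ) ∈ ball (0 : ℂ) ρ := mem_ball_self hr.hρ
  have hR₅0 : 0 < R₅ := hR₄.trans hR₅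
  have hcirc : ∀ θ : ℝ, circleMap 0 r θ ∈ ball (0 : ℂ) ρ := by
    intro θ
    rw [mem_ball_zero_iff, norm_circleMap_zero, abs_of_pos hr0]
    exact hrρ
  have hγc : Continuous (fun θ : ℝ => γ (circleMap 0 r θ)) := by
    rw [← continuousOn_univ]
    exact hr.γd.continuousOn.comp (continuous_circleMap 0 r).continuousOn (fun θ _ => hcirc θ)
  have hDc : Continuous (fun θ : ℝ => Dl d (γ 0) (γ (circleMap 0 r θ))) :=
    (Dl_continuous d (γ 0)).comp hγc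
  have hAfin : ∀ t ∈ ball (0 : ℂ) ρ, volume (AA (γ t))ᶜ ≠ ⊤ := by
    intro t ht
    have : (AA (γ t))ᶜ ⊆ closedBall (0 : ℂ) R₄ := by
      intro z hz
      rw [mem_closedBall_zero_iff]
      by_contra h
      exact hz (hAbig t ht z (not_le.mp h))
    exact ((measure_mono this).trans_lt measure_closedBall_lt_top).ne
  obtain ⟨N, hNN₁, hvol⟩ := vol_part hBAD hd (hr.ndg 0 h0ρ) hr.Uo hr.Bf hR₄ hR₅ (hAbig 0 h0ρ) hev
    N₁ (half_pos hη)
  obtain ⟨Φ, hM⟩ := hMOT hROOT hPRO hWN hBAD d γ ρ U H Bd hd hr N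
  have hFull := hFULL hBAD d γ ρ U H Bd N Φ R₆ far hd hr hM (hfar N hNN₁)
  by_contra hcon
  push Not at hcon
  set A₀ := (volume (AA (γ 0))ᶜ).toReal with hA₀
  set I := ∫ θ in (0 : ℝ)..(2 * Real.pi), (q θ - c₀ * Dl d (γ 0) (γ (circleMap 0 r θ))) with hI
  set C' := A₀ + η + (2 * Real.pi)⁻¹ * I with hC'
  set g : ℝ → ℝ := fun θ => Real.pi * R₅ ^ 2 - C' + q θ with hg
  have hgc : Continuous g := continuous_const.add hq
  set W := WN d (γ 0) (U \ Bd N) N with hW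
  have hWo : IsOpen W := isOpen_WN d (γ 0) (hr.Uo.sdiff (hr.Bf N).isClosed) N
  set K := W ∩ closedBall (0 : ℂ) R₅ with hK
  have hKm : MeasurableSet K := hWo.measurableSet.inter measurableSet_closedBall
  have hbig' := hbig N hNN₁
  have hbound : ∀ θ : ℝ, 0 ≤ g θ ∧
      ∫⁻ z in K, ENNReal.ofReal (‖deriv (Φ (circleMap 0 r θ)) z‖ ^ 2) ≤ ENNReal.ofReal (g θ) := by
    intro θ
    obtain ⟨Ψ, hΨd, hΨi, hΨe, hΨa, -⟩ := hFull _ (hcirc θ)
    have e1 := area_part hAREA hBAD hr hd hR₄ hR₅ (hcirc θ) (hAmem _ (hcirc θ) N)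
      (fun z hz => hbig' (Or.inl (Or.inl hz))) hM hΨd hΨi hΨe hΨa
    set At := (volume (AA (γ (circleMap 0 r θ)))ᶜ).toReal with hAt
    have e4 : volume (AA (γ (circleMap 0 r θ)))ᶜ = ENNReal.ofReal At :=
      (ENNReal.ofReal_toReal (hAfin _ (hcirc θ))).symm
    have hAt0 : 0 ≤ At := ENNReal.toReal_nonneg
    have hint_fin : (∫⁻ z in K, ENNReal.ofReal (‖deriv (Φ (circleMap 0 r θ)) z‖ ^ 2)) ≠ ⊤ := by
      apply ne_top_of_le_ne_top ENNReal.ofReal_ne_top (b := ENNReal.ofReal (Real.pi * R₅ ^ 2))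
      exact le_self_add.trans e1
    set J := (∫⁻ z in K, ENNReal.ofReal (‖deriv (Φ (circleMap 0 r θ)) z‖ ^ 2)).toReal with hJ
    have hJe : (∫⁻ z in K, ENNReal.ofReal (‖deriv (Φ (circleMap 0 r θ)) z‖ ^ 2)) =
        ENNReal.ofReal J := (ENNReal.ofReal_toReal hint_fin).symm
    have hJ0 : 0 ≤ J := ENNReal.toReal_nonneg
    have e6 : J + At ≤ Real.pi * R₅ ^ 2 := by
      rw [hJe, e4, ← ENNReal.ofReal_add hJ0 hAt0] at e1
      exact (ENNReal.ofReal_le_ofReal_iff (by positivity)).mp e1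
    have e7 := hcon θ
    have e8 : J ≤ g θ := by
      simp only [hg]
      linarith
    exact ⟨hJ0.trans e8, by rw [hJe]; exact ENNReal.ofReal_le_ofReal e8⟩
  have hgn : ∀ θ : ℝ, ENNReal.ofReal (c₀ * Dl d (γ 0) (γ (circleMap 0 r θ))) ≤
      ∫⁻ z in K, ENNReal.ofReal (‖deriv (Φ (circleMap 0 r θ)) z - 1‖ ^ 2) := by
    intro θ
    obtain ⟨Ψ, hΨd, hΨi, hΨe, hΨa, hΨc⟩ := hFull _ (hcirc θ)
    exact gain_part hBAD hr hd hbig' hball hΨd hΨe hΨa hΨc (hgain _ (hcirc θ))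
  -- the mean value inequality
  set Ψ : ℂ × ℂ → ℂ := fun p => Φ p.1 p.2 with hΨ
  have hSo : IsOpen (ball (0 : ℂ) ρ ×ˢ W) := isOpen_ball.prod hWo
  have hdd : DifferentiableOn ℂ (fun p => fderiv ℂ Ψ p (0, 1)) (ball (0 : ℂ) ρ ×ˢ W) :=
    Pool.Agent.Helper540.differentiableOn_fderiv_apply hSo hM.diff (0, 1)
  have hder : ∀ p ∈ ball (0 : ℂ) ρ ×ˢ W, deriv (Φ p.1) p.2 = fderiv ℂ Ψ p (0, 1) := by
    rintro ⟨t, z⟩ hp
    have e1 := (hM.diff.differentiableAt (hSo.mem_nhds hp)).hasFDerivAt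
    have e2 : HasDerivAt (fun w : ℂ => ((t, w) : ℂ × ℂ)) ((0, 1) : ℂ × ℂ) z :=
      (hasDerivAt_const z t).prodMk (hasDerivAt_id z)
    exact (e1.comp_hasDerivAt z e2).deriv
  have hdd' : DifferentiableOn ℂ (fun p : ℂ × ℂ => deriv (Φ p.1) p.2) (ball (0 : ℂ) ρ ×ˢ W) :=
    hdd.congr hder
  have havg := hAVG ρ r W K (fun t z => deriv (Φ t) z) hr0 hrρ hWo inter_subset_left hKm
    hdd'.continuousOn (fun z hz => hdd'.comp (f := fun s : ℂ => ((s, z) : ℂ × ℂ)) (by fun_prop)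
      (fun s hs => ⟨hs, hz⟩)) (by
      intro z hz
      have e1 : Φ 0 =ᶠ[𝓝 z] id := by
        filter_upwards [hWo.mem_nhds hz] with w hw
        exact hM.zero w hw
      rw [e1.deriv_eq, deriv_id])
  have hgi : IntervalIntegrable g volume 0 (2 * Real.pi) := hgc.intervalIntegrable _ _
  have hcD : Continuous (fun θ : ℝ => c₀ * Dl d (γ 0) (γ (circleMap 0 r θ))) :=
    continuous_const.mul hDc
  have hDi : IntervalIntegrable (fun θ : ℝ => c₀ * Dl d (γ 0) (γ (circleMap 0 r θ))) volume 0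
      (2 * Real.pi) := hcD.intervalIntegrable _ _
  have hqi : IntervalIntegrable q volume 0 (2 * Real.pi) := hq.intervalIntegrable _ _
  set ID := ∫ θ in (0 : ℝ)..(2 * Real.pi), c₀ * Dl d (γ 0) (γ (circleMap 0 r θ)) with hID
  have hID0 : 0 ≤ ID := by
    apply intervalIntegral.integral_nonneg (by positivity)
    intro θ _
    exact mul_nonneg hc₀.le (Dl_nonneg d _ _)
  have hIe : I = (∫ θ in (0 : ℝ)..(2 * Real.pi), q θ) - ID := by
    rw [hI, intervalIntegral.integral_sub hqi hDi]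
  have hgint : ∫ θ in (0 : ℝ)..(2 * Real.pi), g θ =
      2 * Real.pi * (Real.pi * R₅ ^ 2 - A₀ - η) + ID := by
    have i1 : IntervalIntegrable (fun _ : ℝ => Real.pi * R₅ ^ 2 - C') volume 0 (2 * Real.pi) :=
      continuous_const.intervalIntegrable _ _
    have hq' : (∫ θ in (0 : ℝ)..(2 * Real.pi), q θ) = I + ID := by rw [hIe]; ring
    simp only [hg]
    rw [intervalIntegral.integral_add i1 hqi, intervalIntegral.integral_const, hq', hC',
      smul_eq_mul]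
    field_simp
    ring
  have e1 : ENNReal.ofReal (2 * Real.pi) * volume K + ENNReal.ofReal ID ≤
      ENNReal.ofReal (2 * Real.pi * (Real.pi * R₅ ^ 2 - A₀ - η) + ID) := by
    have f1 : ENNReal.ofReal ID ≤ ∫⁻ θ in Ioc (0 : ℝ) (2 * Real.pi), ∫⁻ z in K,
        ENNReal.ofReal (‖deriv (Φ (circleMap 0 r θ)) z - 1‖ ^ 2) := by
      rw [hID, intervalIntegral.integral_of_le (by positivity),
        ofReal_integral_eq_lintegral_ofReal hDi.1 (Filter.Eventually.of_forall fun θ =>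
          mul_nonneg hc₀.le (Dl_nonneg d _ _))]
      exact lintegral_mono (fun θ => hgn θ)
    refine (add_le_add_right f1 _).trans (havg.trans ?_)
    rw [← hgint, intervalIntegral.integral_of_le (by positivity),
      ofReal_integral_eq_lintegral_ofReal hgi.1 (Filter.Eventually.of_forall fun θ => (hbound θ).1)]
    exact lintegral_mono (fun θ => (hbound θ).2)
  have hKfin : volume K ≠ ⊤ :=
    ((measure_mono inter_subset_right).trans_lt measure_closedBall_lt_top).ne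
  set v := (volume K).toReal with hv
  have hv0 : 0 ≤ v := ENNReal.toReal_nonneg
  have hve : volume K = ENNReal.ofReal v := (ENNReal.ofReal_toReal hKfin).symm
  have hgnn : 0 ≤ 2 * Real.pi * (Real.pi * R₅ ^ 2 - A₀ - η) + ID := by
    rw [← hgint]
    exact intervalIntegral.integral_nonneg (by positivity) (fun θ _ => (hbound θ).1)
  have e2 : 2 * Real.pi * v + ID ≤ 2 * Real.pi * (Real.pi * R₅ ^ 2 - A₀ - η) + ID := by
    rw [hve, ← ENNReal.ofReal_mul (by positivity), ← ENNReal.ofReal_add (by positivity) hID0,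
      ENNReal.ofReal_le_ofReal_iff hgnn] at e1
    exact e1
  have hA0 : 0 ≤ A₀ := ENNReal.toReal_nonneg
  have e4 : ENNReal.ofReal (Real.pi * R₅ ^ 2) ≤ ENNReal.ofReal (v + (A₀ + η / 2)) := by
    rw [ENNReal.ofReal_add hv0 (by linarith), ENNReal.ofReal_add hA0 (by linarith), ← hve, hA₀,
      ENNReal.ofReal_toReal (hAfin 0 h0ρ)]
    exact hvol
  rw [ENNReal.ofReal_le_ofReal_iff (by linarith)] at e4
  have e5 : v ≤ Real.pi * R₅ ^ 2 - A₀ - η := by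
    have : 2 * Real.pi * v ≤ 2 * Real.pi * (Real.pi * R₅ ^ 2 - A₀ - η) := by linarith
    exact le_of_mul_le_mul_left this (by positivity)
  linarith

end Pool.Agent.H713R4.RB
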