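import Pool.Agent.H713R4.RB.Defs3

/-!
Task WN: the chain rule for the Wronskians of the iterates.
-/

set_option autoImplicit false

open Topology Filter Metric Set Polynomial MeasureTheory

namespace Pool.Agent.H713R4.RB

namespace WNP

/-- a binary form -/
noncomputable def bf (d : ℕ) (a : Fin (d + 1) → ℂ) (u v : ℂ) : ℂ :=
  ∑ i : Fin (d + 1), a i * (u ^ (i : ℕ) * v ^ (d - (i : ℕ)))

/-- its derivative in the first variable -/
noncomputable def bu (d : ℕ) (a : Fin (d + 1) → ℂ) (u v : ℂ) : ℂ :=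
  ∑ i : Fin (d + 1), a i * (((i : ℕ) : ℂ) * u ^ ((i : ℕ) - 1) * v ^ (d - (i : ℕ)))

/-- its derivative in the second variable -/
noncomputable def bv (d : ℕ) (a : Fin (d + 1) → ℂ) (u v : ℂ) : ℂ :=
  ∑ i : Fin (d + 1), a i * (u ^ (i : ℕ) * (((d - (i : ℕ) : ℕ) : ℂ) * v ^ (d - (i : ℕ) - 1)))

theorem hasDeriv (d : ℕ) (a : Fin (d + 1) → ℂ) {u v : ℂ → ℂ} {u' v' z : ℂ}
    (hu : HasDerivAt u u' z) (hv : HasDerivAt v v' z) :
    HasDerivAt (fun ζ => bf d a (u ζ) (v ζ)) (bu d a (u z) (v z) * u' + bv d a (u z) (v z) * v')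
      z := by
  unfold bf
  have h : ∀ i ∈ (Finset.univ : Finset (Fin (d + 1))),
      HasDerivAt (fun ζ => a i * (u ζ ^ (i : ℕ) * v ζ ^ (d - (i : ℕ))))
      (a i * ((((i : ℕ) : ℂ) * u z ^ ((i : ℕ) - 1) * u') * v z ^ (d - (i : ℕ)) +
        u z ^ (i : ℕ) * ((((d - (i : ℕ) : ℕ) : ℂ) * v z ^ (d - (i : ℕ) - 1)) * v'))) z := by
    intro i _
    exact ((hu.fun_pow (i : ℕ)).mul (hv.fun_pow (d - (i : ℕ)))).const_mul (a i)
  have h2 := HasDerivAt.fun_sum h
  have h3 : bu d a (u z) (v z) * u' + bv d a (u z) (v z) * v' =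
      ∑ i : Fin (d + 1), a i * ((((i : ℕ) : ℂ) * u z ^ ((i : ℕ) - 1) * u') * v z ^ (d - (i : ℕ)) +
        u z ^ (i : ℕ) * ((((d - (i : ℕ) : ℕ) : ℂ) * v z ^ (d - (i : ℕ) - 1)) * v')) := by
    unfold bu bv
    rw [Finset.sum_mul, Finset.sum_mul, ← Finset.sum_add_distrib]
    refine Finset.sum_congr rfl fun i _ => ?_
    ring
  rw [h3]
  exact h2

theorem mul_pow_pred (n : ℕ) (u : ℂ) : u * ((n : ℂ) * u ^ (n - 1)) = n * u ^ n := by
  cases n with
  | zero => simp
  | succ n => rw [Nat.add_sub_cancel, pow_succ]; ring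

theorem euler (d : ℕ) (a : Fin (d + 1) → ℂ) (u v : ℂ) :
    u * bu d a u v + v * bv d a u v = d * bf d a u v := by
  unfold bu bv bf
  rw [Finset.mul_sum, Finset.mul_sum, Finset.mul_sum, ← Finset.sum_add_distrib]
  refine Finset.sum_congr rfl fun i _ => ?_
  have h1 := mul_pow_pred (i : ℕ) u
  have h2 := mul_pow_pred (d - (i : ℕ)) v
  have hi : (i : ℕ) ≤ d := Nat.lt_succ_iff.1 i.2
  have h3 : (((d - (i : ℕ) : ℕ) : ℂ)) = d - (i : ℕ) := by push_cast [Nat.cast_sub hi]; ring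
  have e1 : u * (a i * (((i : ℕ) : ℂ) * u ^ ((i : ℕ) - 1) * v ^ (d - (i : ℕ)))) =
      a i * (u * (((i : ℕ) : ℂ) * u ^ ((i : ℕ) - 1))) * v ^ (d - (i : ℕ)) := by ring
  have e2 : v * (a i * (u ^ (i : ℕ) * (((d - (i : ℕ) : ℕ) : ℂ) * v ^ (d - (i : ℕ) - 1)))) =
      a i * u ^ (i : ℕ) * (v * (((d - (i : ℕ) : ℕ) : ℂ) * v ^ (d - (i : ℕ) - 1))) := by ring
  rw [e1, e2, h1, h2, h3]
  ring

/-- Jacobian -/
noncomputable def J (d : ℕ) (a b : Fin (d + 1) → ℂ) (u v : ℂ) : ℂ :=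
  bu d a u v * bv d b u v - bv d a u v * bu d b u v

/-- chain rule for Wronskians -/
theorem chain (d : ℕ) (a b : Fin (d + 1) → ℂ) (u v u' v' : ℂ) :
    (d : ℂ) * ((bu d a u v * u' + bv d a u v * v') * bf d b u v -
      bf d a u v * (bu d b u v * u' + bv d b u v * v')) = J d a b u v * (u' * v - u * v') := by
  have h1 := euler d a u v
  have h2 := euler d b u v
  have : (d : ℂ) * ((bu d a u v * u' + bv d a u v * v') * bf d b u v -
      bf d a u v * (bu d b u v * u' + bv d b u v * v')) =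
      (bu d a u v * u' + bv d a u v * v') * (d * bf d b u v) -
      (d * bf d a u v) * (bu d b u v * u' + bv d b u v * v') := by ring
  rw [this, ← h1, ← h2, J]
  ring

theorem FH_eq (d : ℕ) (x : WW d) (p : ℂ × ℂ) :
    FH d x p = (bf d (fun i => x (Sum.inl i)) p.1 p.2, bf d (fun i => x (Sum.inr i)) p.1 p.2) := rfl

/-! ### The Jacobian and the Wronskian -/

theorem PP_eval (d : ℕ) (x : WW d) (t : ℂ) :
    (PP d x).eval t = ∑ i : Fin (d + 1), x (Sum.inl i) * t ^ (i : ℕ) := by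
  simp [PP, eval_finset_sum]

theorem QQ_eval (d : ℕ) (x : WW d) (t : ℂ) :
    (QQ d x).eval t = ∑ i : Fin (d + 1), x (Sum.inr i) * t ^ (i : ℕ) := by
  simp [QQ, eval_finset_sum]

theorem PP_deval (d : ℕ) (x : WW d) (t : ℂ) :
    (derivative (PP d x)).eval t =
      ∑ i : Fin (d + 1), x (Sum.inl i) * (((i : ℕ) : ℂ) * t ^ ((i : ℕ) - 1)) := by
  simp only [PP, derivative_sum, eval_finset_sum, derivative_C_mul_X_pow, eval_mul, eval_C,
    eval_pow, eval_X]
  refine Finset.sum_congr rfl fun i _ => ?_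
  ring

theorem QQ_deval (d : ℕ) (x : WW d) (t : ℂ) :
    (derivative (QQ d x)).eval t =
      ∑ i : Fin (d + 1), x (Sum.inr i) * (((i : ℕ) : ℂ) * t ^ ((i : ℕ) - 1)) := by
  simp only [QQ, derivative_sum, eval_finset_sum, derivative_C_mul_X_pow, eval_mul, eval_C,
    eval_pow, eval_X]
  refine Finset.sum_congr rfl fun i _ => ?_
  ring

theorem bf_tv (d : ℕ) (a : Fin (d + 1) → ℂ) (t v : ℂ) :
    bf d a (t * v) v = v ^ d * ∑ i : Fin (d + 1), a i * t ^ (i : ℕ) := by
  unfold bf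
  rw [Finset.mul_sum]
  refine Finset.sum_congr rfl fun i _ => ?_
  have hi : (i : ℕ) ≤ d := Nat.lt_succ_iff.1 i.2
  have : v ^ d = v ^ (i : ℕ) * v ^ (d - (i : ℕ)) := by
    rw [← pow_add]; congr 1; omega
  rw [this, mul_pow]
  ring

theorem bu_tv (d : ℕ) (hd : 1 ≤ d) (a : Fin (d + 1) → ℂ) (t v : ℂ) :
    bu d a (t * v) v =
      v ^ (d - 1) * ∑ i : Fin (d + 1), a i * (((i : ℕ) : ℂ) * t ^ ((i : ℕ) - 1)) := by
  unfold bu
  rw [Finset.mul_sum]
  refine Finset.sum_congr rfl fun i _ => ?_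
  have hi : (i : ℕ) ≤ d := Nat.lt_succ_iff.1 i.2
  rcases Nat.eq_zero_or_pos (i : ℕ) with h0 | h0
  · rw [h0]; simp
  · have : v ^ (d - 1) = v ^ ((i : ℕ) - 1) * v ^ (d - (i : ℕ)) := by
      rw [← pow_add]; congr 1; omega
    rw [this, mul_pow]
    ring

theorem J_tv (d : ℕ) (hd : 1 ≤ d) (x : WW d) (t v : ℂ) :
    v * J d (fun i => x (Sum.inl i)) (fun i => x (Sum.inr i)) (t * v) v =
      d * (v ^ (d - 1) * v ^ d) * (wr d x).eval t := by
  have h1 := euler d (fun i => x (Sum.inl i)) (t * v) v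
  have h2 := euler d (fun i => x (Sum.inr i)) (t * v) v
  have h1' : v * bv d (fun i => x (Sum.inl i)) (t * v) v =
      d * bf d (fun i => x (Sum.inl i)) (t * v) v -
        (t * v) * bu d (fun i => x (Sum.inl i)) (t * v) v := by rw [← h1]; ring
  have h2' : v * bv d (fun i => x (Sum.inr i)) (t * v) v =
      d * bf d (fun i => x (Sum.inr i)) (t * v) v -
        (t * v) * bu d (fun i => x (Sum.inr i)) (t * v) v := by rw [← h2]; ring
  have e : v * J d (fun i => x (Sum.inl i)) (fun i => x (Sum.inr i)) (t * v) v =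
      bu d (fun i => x (Sum.inl i)) (t * v) v * (v * bv d (fun i => x (Sum.inr i)) (t * v) v) -
      (v * bv d (fun i => x (Sum.inl i)) (t * v) v) * bu d (fun i => x (Sum.inr i)) (t * v) v := by
    unfold J; ring
  rw [e, h1', h2', bf_tv, bf_tv, bu_tv d hd, bu_tv d hd, ← PP_eval, ← QQ_eval, ← PP_deval,
    ← QQ_deval, wr]
  simp only [eval_sub, eval_mul]
  have hv : v * v ^ (d - 1) = v ^ d := by
    rw [← pow_succ']; congr 1; omega
  ring

theorem coeff_aux (e : ℕ) (P Q : ℂ[X]) (hP : P.natDegree ≤ e + 1) (hQ : Q.natDegree ≤ e + 1) :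
    (derivative P * Q).coeff (2 * e) =
      e * P.coeff e * Q.coeff (e + 1) + (e + 1) * P.coeff (e + 1) * Q.coeff e := by
  have hQ1 : (Q - C (Q.coeff (e + 1)) * X ^ (e + 1)).natDegree ≤ e := by
    rw [natDegree_le_iff_coeff_eq_zero]
    intro N hN
    rw [coeff_sub, coeff_C_mul, coeff_X_pow]
    by_cases h : N = e + 1
    · subst h; simp
    · rw [if_neg h, mul_zero, sub_zero]
      exact coeff_eq_zero_of_natDegree_lt (by omega)
  have hP' : (derivative P).natDegree ≤ e := by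
    have := natDegree_derivative_le P
    omega
  have hs : derivative P * Q = derivative P * (Q - C (Q.coeff (e + 1)) * X ^ (e + 1)) +
      C (Q.coeff (e + 1)) * (derivative P * X ^ (e + 1)) := by ring
  rw [hs, coeff_add, coeff_C_mul, two_mul, coeff_mul_add_eq_of_natDegree_le hP' hQ1, coeff_derivative,
    coeff_sub, coeff_C_mul, coeff_X_pow, coeff_mul_X_pow']
  rw [if_neg (by omega : ¬ e = e + 1)]
  rcases Nat.eq_zero_or_pos e with h0 | h0
  · subst h0; simp
  · rw [if_pos (by omega : e + 1 ≤ e + e), coeff_derivative]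
    have h1 : e + e - (e + 1) = e - 1 := by omega
    have h2 : e - 1 + 1 = e := by omega
    rw [h1, h2]
    have h3 : (((e - 1 : ℕ) : ℂ)) + 1 = e := by
      have : ((e - 1 + 1 : ℕ) : ℂ) = (e : ℂ) := by rw [h2]
      push_cast at this
      exact this
    rw [h3]
    ring

theorem PP_coeff (d : ℕ) (x : WW d) (i : Fin (d + 1)) : (PP d x).coeff i = x (Sum.inl i) := by
  simp only [PP, finset_sum_coeff, coeff_C_mul, coeff_X_pow]
  rw [Finset.sum_eq_single i]
  · simp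
  · intro j _ hj
    rw [if_neg (fun h => hj (Fin.ext h.symm)), mul_zero]
  · intro h; exact absurd (Finset.mem_univ i) h

theorem QQ_coeff (d : ℕ) (x : WW d) (i : Fin (d + 1)) : (QQ d x).coeff i = x (Sum.inr i) := by
  simp only [QQ, finset_sum_coeff, coeff_C_mul, coeff_X_pow]
  rw [Finset.sum_eq_single i]
  · simp
  · intro j _ hj
    rw [if_neg (fun h => hj (Fin.ext h.symm)), mul_zero]
  · intro h; exact absurd (Finset.mem_univ i) h

theorem PP_deg (d : ℕ) (x : WW d) : (PP d x).natDegree ≤ d := by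
  unfold PP
  refine natDegree_sum_le_of_forall_le _ _ fun i _ => ?_
  exact (natDegree_C_mul_X_pow_le _ _).trans (Nat.lt_succ_iff.1 i.2)

theorem QQ_deg (d : ℕ) (x : WW d) : (QQ d x).natDegree ≤ d := by
  unfold QQ
  refine natDegree_sum_le_of_forall_le _ _ fun i _ => ?_
  exact (natDegree_C_mul_X_pow_le _ _).trans (Nat.lt_succ_iff.1 i.2)

theorem bu_zero (e : ℕ) (a : Fin (e + 1 + 1) → ℂ) (u : ℂ) :
    bu (e + 1) a u 0 = (e + 1) * a (Fin.last (e + 1)) * u ^ e := by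
  unfold bu
  rw [Finset.sum_eq_single (Fin.last (e + 1))]
  · simp; ring
  · intro i _ hi
    have h1 : (i : ℕ) < e + 1 := by
      have := i.2
      have h2 : (i : ℕ) ≠ e + 1 := fun h => hi (Fin.ext h)
      omega
    rw [zero_pow (by omega : e + 1 - (i : ℕ) ≠ 0)]
    ring
  · intro h; exact absurd (Finset.mem_univ _) h

theorem bv_zero (e : ℕ) (a : Fin (e + 1 + 1) → ℂ) (u : ℂ) :
    bv (e + 1) a u 0 = a (Fin.castSucc (Fin.last e)) * u ^ e := by
  unfold bv
  rw [Finset.sum_eq_single (Fin.castSucc (Fin.last e))]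
  · simp
  · intro i _ hi
    have h2 : (i : ℕ) ≠ e := fun h => hi (Fin.ext h)
    rcases Nat.lt_or_ge (i : ℕ) e with h3 | h3
    · rw [zero_pow (by omega : e + 1 - (i : ℕ) - 1 ≠ 0)]
      ring
    · have h4 : (i : ℕ) = e + 1 := by have := i.2; omega
      rw [h4, Nat.sub_self]
      simp
  · intro h; exact absurd (Finset.mem_univ _) h

theorem J_zero (e : ℕ) (x : WW (e + 1)) (u : ℂ) :
    J (e + 1) (fun i => x (Sum.inl i)) (fun i => x (Sum.inr i)) u 0 =
      (e + 1) * u ^ (2 * e) * bet (e + 1) x := by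
  have h1 := coeff_aux e (PP (e + 1) x) (QQ (e + 1) x) (PP_deg _ x) (QQ_deg _ x)
  have h2 := coeff_aux e (QQ (e + 1) x) (PP (e + 1) x) (QQ_deg _ x) (PP_deg _ x)
  have c1 : (PP (e + 1) x).coeff e = x (Sum.inl (Fin.castSucc (Fin.last e))) := by
    have := PP_coeff (e + 1) x (Fin.castSucc (Fin.last e))
    simpa using this
  have c2 : (PP (e + 1) x).coeff (e + 1) = x (Sum.inl (Fin.last (e + 1))) := by
    have := PP_coeff (e + 1) x (Fin.last (e + 1))
    simpa using this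
  have c3 : (QQ (e + 1) x).coeff e = x (Sum.inr (Fin.castSucc (Fin.last e))) := by
    have := QQ_coeff (e + 1) x (Fin.castSucc (Fin.last e))
    simpa using this
  have c4 : (QQ (e + 1) x).coeff (e + 1) = x (Sum.inr (Fin.last (e + 1))) := by
    have := QQ_coeff (e + 1) x (Fin.last (e + 1))
    simpa using this
  have hb : bet (e + 1) x = x (Sum.inl (Fin.last (e + 1))) *
      x (Sum.inr (Fin.castSucc (Fin.last e))) - x (Sum.inl (Fin.castSucc (Fin.last e))) *
      x (Sum.inr (Fin.last (e + 1))) := by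
    unfold bet wr
    have h3 : 2 * (e + 1) - 2 = 2 * e := by omega
    rw [h3, coeff_sub, mul_comm (PP (e + 1) x), h1, h2, c1, c2, c3, c4]
    ring
  unfold J
  rw [bu_zero, bv_zero, bu_zero, bv_zero, hb]
  ring

theorem J_crit (d : ℕ) (hd : 1 ≤ d) (x : WW d) (p : ℂ × ℂ) (hp : p ≠ 0) :
    J d (fun i => x (Sum.inl i)) (fun i => x (Sum.inr i)) p.1 p.2 = 0 ↔ Crit d x p := by
  have hd0 : (d : ℂ) ≠ 0 := by
    have : d ≠ 0 := by omega
    exact_mod_cast this
  unfold Crit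
  by_cases h2 : p.2 = 0
  · have h1 : p.1 ≠ 0 := by
      intro h1
      exact hp (Prod.ext h1 h2)
    obtain ⟨e, rfl⟩ : ∃ e, d = e + 1 := ⟨d - 1, by omega⟩
    rw [h2, J_zero]
    have he : ((e : ℂ) + 1) ≠ 0 := by exact_mod_cast hd0
    simp [he, h1]
  · have h := J_tv d hd x (p.1 / p.2) p.2
    rw [div_mul_cancel₀ _ h2] at h
    have hv : p.2 ^ (d - 1) * p.2 ^ d ≠ 0 := mul_ne_zero (pow_ne_zero _ h2) (pow_ne_zero _ h2)
    constructor
    · intro hJ
      rw [hJ, mul_zero] at h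
      left
      refine ⟨h2, ?_⟩
      have h' := h.symm
      rcases mul_eq_zero.1 h' with h3 | h3
      · exact absurd h3 (mul_ne_zero hd0 hv)
      · exact h3
    · rintro (⟨-, hw⟩ | ⟨h3, -⟩)
      · rw [hw, mul_zero] at h
        exact (mul_eq_zero.1 h).resolve_left h2
      · exact absurd h3 h2

/-! ### Iteration -/

theorem iter_ne (d : ℕ) (x : WW d) (hx : Ndg d x) (z : ℂ) (N : ℕ) :
    (FH d x)^[N] (z, 1) ≠ 0 := by
  induction N with
  | zero =>
    intro h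
    have := congrArg Prod.snd h
    simp at this
  | succ N ih =>
    rw [Function.iterate_succ_apply']
    exact fun h => ih (hx _ h)

theorem main (d : ℕ) (x : WW d) (z : ℂ) (hd : 1 ≤ d) (hx : Ndg d x) (N : ℕ) :
    ∃ u' v' : ℂ, HasDerivAt (fun ζ : ℂ => ((FH d x)^[N] (ζ, 1)).1) u' z ∧
      HasDerivAt (fun ζ : ℂ => ((FH d x)^[N] (ζ, 1)).2) v' z ∧
      (u' * ((FH d x)^[N] (z, 1)).2 - ((FH d x)^[N] (z, 1)).1 * v' = 0 ↔
        ∃ j < N, Crit d x ((FH d x)^[j] (z, 1))) := by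
  have hd0 : (d : ℂ) ≠ 0 := by
    have : d ≠ 0 := by omega
    exact_mod_cast this
  induction N with
  | zero =>
    refine ⟨1, 0, ?_, ?_, ?_⟩
    · exact hasDerivAt_id z
    · exact hasDerivAt_const z (1 : ℂ)
    · simp
  | succ N ih =>
    obtain ⟨u', v', hu, hv, hiff⟩ := ih
    have hfu : (fun ζ : ℂ => ((FH d x)^[N + 1] (ζ, 1)).1) = fun ζ : ℂ =>
        bf d (fun i => x (Sum.inl i)) ((FH d x)^[N] (ζ, 1)).1 ((FH d x)^[N] (ζ, 1)).2 := by
      funext ζ
      rw [Function.iterate_succ_apply', FH_eq]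
    have hfv : (fun ζ : ℂ => ((FH d x)^[N + 1] (ζ, 1)).2) = fun ζ : ℂ =>
        bf d (fun i => x (Sum.inr i)) ((FH d x)^[N] (ζ, 1)).1 ((FH d x)^[N] (ζ, 1)).2 := by
      funext ζ
      rw [Function.iterate_succ_apply', FH_eq]
    have h1 := hasDeriv d (fun i => x (Sum.inl i)) hu hv
    have h2 := hasDeriv d (fun i => x (Sum.inr i)) hu hv
    refine ⟨_, _, by rw [hfu]; exact h1, by rw [hfv]; exact h2, ?_⟩
    rw [Function.iterate_succ_apply', FH_eq]
    have hc := chain d (fun i => x (Sum.inl i)) (fun i => x (Sum.inr i))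
      ((FH d x)^[N] (z, 1)).1 ((FH d x)^[N] (z, 1)).2 u' v'
    have hJ := J_crit d hd x ((FH d x)^[N] (z, 1)) (iter_ne d x hx z N)
    constructor
    · intro h0
      rw [h0, mul_zero] at hc
      rcases mul_eq_zero.1 hc.symm with h3 | h3
      · exact ⟨N, Nat.lt_succ_self N, hJ.1 h3⟩
      · obtain ⟨j, hj, hj'⟩ := hiff.1 h3
        exact ⟨j, Nat.lt_succ_of_lt hj, hj'⟩
    · rintro ⟨j, hj, hj'⟩
      have h0 : J d (fun i => x (Sum.inl i)) (fun i => x (Sum.inr i)) ((FH d x)^[N] (z, 1)).1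
          ((FH d x)^[N] (z, 1)).2 * (u' * ((FH d x)^[N] (z, 1)).2 -
            ((FH d x)^[N] (z, 1)).1 * v') = 0 := by
        rcases Nat.lt_or_ge j N with h3 | h3
        · rw [hiff.2 ⟨j, h3, hj'⟩, mul_zero]
        · have : j = N := by omega
          subst this
          rw [hJ.2 hj', zero_mul]
      rw [h0] at hc
      exact (mul_eq_zero.1 hc).resolve_left hd0

end WNP

theorem wn_holds : StWN := by
  intro d N x z hd hx
  obtain ⟨u', v', hu, hv, h⟩ := WNP.main d x z hd hx N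
  rw [hu.deriv, hv.deriv]
  exact h

end Pool.Agent.H713R4.RB
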